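import Pool.Agent.Lib.MP_1e3e9c_agP.Defs
import Pool.Agent.Lib.MP_1e3e9c_agL.Cf

/-!
# the coefficients of a form on a line

PROOFS. Everything about `cg` at a point `(u, w, z)` over a field `L` is reduced by `cg_eval` to the form `fz z F` over `L` and to the lemmas of `MP_1e3e9c_agL/Cf.lean` with the field `L` in place of `k` (and `L` as the `L`-algebra).
`aeval_fz`, `cg_eval`: both sides are the values of an algebra homomorphism on `F`; compare on the variables (`MvPolynomial.comp_aeval_apply`, `algHom_ext`; see the proof of `cf_eval`).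
`fz_hom`: `F = ∑ monomials`; the image of a monomial is `C (..) * ∏ X i ^ (n (inl i))`, homogeneous of degree `∑ n (inl i) = d`.
`aeval_sc`: monomial by monomial.  `cg_sc`: `fz (sc ζ z) F = C (∏ ζ b ^ e b) * fz z F`, and `cf` is linear (or: `cg_eval`, and `cf_eval`), or with `u`, `w` unchanged: compare coefficients in `aeval_sc` over polynomials.
`cg_gt`: the polynomial `F (U + X W, Z)` has degree at most `d` in `X`: or by `cf_gt` and `MvPolynomial.funext`-type arguments over the fraction field; `cg_stable`, `cg_borel`, `cg_line`, `cg_of_line`: `cg_eval` + `cg_sc`.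
`cg_map`: `cg_eval`-free: `aeval_map_algebraMap`.  `pw_*`: comparison on variables; `MHom` of `pw n F`: every monomial `n'` of `pw n F` comes from a monomial of `F` with the exponents of the `inr` variables multiplied by `n` (write `F` as the sum of its monomials and use `MHom.sum`-type closure).
-/

set_option autoImplicit false

namespace Pool.Agent.Lib.MP_1e3e9c_agP

open MvPolynomial
open Pool.Agent.Lib.MP_1e3e9c_agL (Sp Ind td cf)

variable {N r : ℕ} {m : Fin r → ℕ}

theorem aeval_fz {k L R : Type} [Field k] [Field L] [Algebra k L] [CommRing R] [Algebra k R]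
    [Algebra L R] [IsScalarTower k L R] (x : Fin N → R) (z : Co m → L)
    (F : MvPolynomial (Fin N ⊕ Co m) k) :
    aeval x (fz z F) = aeval (Sum.elim x (fun i => algebraMap L R (z i))) F := by
  have h : ((aeval x : MvPolynomial (Fin N) L →ₐ[L] R).restrictScalars k).comp
      (aeval (Sum.elim X (fun i => C (z i))) :
        MvPolynomial (Fin N ⊕ Co m) k →ₐ[k] MvPolynomial (Fin N) L) =
      aeval (Sum.elim x (fun i => algebraMap L R (z i))) := by
    apply MvPolynomial.algHom_ext
    intro i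
    rcases i with i | i <;> simp
  exact DFunLike.congr_fun h F

theorem fz_hom {k L : Type} [Field k] [Field L] [Algebra k L] {F : MvPolynomial (Fin N ⊕ Co m) k}
    {d : ℕ} {e : Fin r → ℕ} (hF : MHom F d e) (z : Co m → L) : (fz z F).IsHomogeneous d := by
  have h1 : fz z F = ∑ n ∈ F.support, (C (algebraMap k L (F.coeff n)) *
      C (∏ j : Co m, z j ^ n (Sum.inr j))) * ∏ i, X i ^ n (Sum.inl i) := by
    rw [fz, aeval_def, eval₂_eq']
    refine Finset.sum_congr rfl fun n _ => ?_
    rw [Fintype.prod_sum_type, MvPolynomial.algebraMap_apply]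
    simp only [Sum.elim_inl, Sum.elim_inr]
    rw [map_prod]
    simp only [map_pow]
    ring
  rw [h1]
  refine IsHomogeneous.sum _ _ _ fun n hn => ?_
  rw [← C_mul]
  refine IsHomogeneous.C_mul ?_ _
  have h2 : (∏ i, (X i : MvPolynomial (Fin N) L) ^ n (Sum.inl i)).IsHomogeneous
      (∑ i, n (Sum.inl i)) := IsHomogeneous.prod _ _ _ fun i _ => isHomogeneous_X_pow _ _
  rwa [(hF n hn).1] at h2

theorem cg_eval {k L : Type} [Field k] [Field L] [Algebra k L]
    (F : MvPolynomial (Fin N ⊕ Co m) k) (u w : Fin N → L) (z : Co m → L) (j : ℕ) :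
    aeval (pt u w z) (cg F j) = aeval (Sum.elim u w) (cf (fz z F) j) := by
  have h : (Polynomial.mapAlgHom (aeval (pt u w z) : MvPolynomial (Cd N m) k →ₐ[k] L)).comp
      (aeval (Sum.elim
        (fun i => Polynomial.C (X (Sum.inl (Sum.inl i))) +
          Polynomial.X * Polynomial.C (X (Sum.inl (Sum.inr i))))
        (fun i => Polynomial.C (X (Sum.inr i))) :
          Fin N ⊕ Co m → Polynomial (MvPolynomial (Cd N m) k))) =
      aeval (Sum.elim (fun i => Polynomial.C (u i) + Polynomial.X * Polynomial.C (w i))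
        (fun i => algebraMap L (Polynomial L) (z i)) : Fin N ⊕ Co m → Polynomial L) := by
    apply MvPolynomial.algHom_ext
    intro i
    rcases i with i | i
    · simp
    · simp [Polynomial.algebraMap_eq]
  rw [MP_1e3e9c_agL.cf_eval, aeval_fz, ← h, AlgHom.comp_apply, Polynomial.coe_mapAlgHom, Polynomial.coeff_map]
  rfl

theorem Cg_sc {k R : Type} [Field k] [CommRing R] [Algebra k R]
    {F : MvPolynomial (Fin N ⊕ Co m) k} {d : ℕ} {e : Fin r → ℕ} (hF : MHom F d e)
    (x : Fin N → R) (z : Co m → R) (s : R) (ζ : Fin r → R) :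
    aeval (Sum.elim (fun i => s * x i) (fun i => ζ i.1 * z i)) F =
      s ^ d * (∏ b, ζ b ^ e b) * aeval (Sum.elim x z) F := by
  rw [aeval_def, aeval_def, eval₂_eq', eval₂_eq', Finset.mul_sum]
  refine Finset.sum_congr rfl fun n hn => ?_
  obtain ⟨h1, h2⟩ := hF n hn
  rw [Fintype.prod_sum_type, Fintype.prod_sum_type]
  simp only [Sum.elim_inl, Sum.elim_inr, mul_pow]
  rw [Finset.prod_mul_distrib, Finset.prod_mul_distrib, Finset.prod_pow_eq_pow_sum, h1]
  have h3 : ∏ i : Co m, ζ i.1 ^ n (Sum.inr i) = ∏ b, ζ b ^ e b := by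
    rw [Fintype.prod_sigma]
    refine Finset.prod_congr rfl fun b _ => ?_
    rw [← h2 b, ← Finset.prod_pow_eq_pow_sum]
  rw [h3]
  ring

theorem aeval_sc {k L : Type} [Field k] [Field L] [Algebra k L]
    {F : MvPolynomial (Fin N ⊕ Co m) k} {d : ℕ} {e : Fin r → ℕ} (hF : MHom F d e)
    (x : Fin N → L) (z : Co m → L) (s : L) (ζ : Fin r → L) :
    aeval (Sum.elim (s • x) (sc ζ z)) F = s ^ d * (∏ b, ζ b ^ e b) * aeval (Sum.elim x z) F := by
  exact Cg_sc hF x z s ζ

theorem cg_gt {k : Type} [Field k] {F : MvPolynomial (Fin N ⊕ Co m) k} {d : ℕ} {e : Fin r → ℕ}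
    (hF : MHom F d e) {j : ℕ} (hj : d < j) : cg F j = 0 := by
  obtain ⟨φ, hφ⟩ : ∃ φ : MvPolynomial (Cd N m) k →ₐ[k]
      FractionRing (MvPolynomial (Cd N m) k), Function.Injective φ :=
    ⟨IsScalarTower.toAlgHom k _ _, IsFractionRing.injective _ _⟩
  apply hφ
  rw [map_zero, MvPolynomial.aeval_unique φ]
  have h1 : (φ ∘ X : Cd N m → FractionRing (MvPolynomial (Cd N m) k)) =
      pt (fun i => φ (X (Sum.inl (Sum.inl i)))) (fun i => φ (X (Sum.inl (Sum.inr i))))
        (fun i => φ (X (Sum.inr i))) := by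
    funext i
    rcases i with (i | i) | i <;> rfl
  rw [h1, cg_eval, MP_1e3e9c_agL.cf_gt (fz_hom hF _) hj, map_zero]

theorem cg_sc {k L : Type} [Field k] [Field L] [Algebra k L]
    {F : MvPolynomial (Fin N ⊕ Co m) k} {d : ℕ} {e : Fin r → ℕ} (hF : MHom F d e)
    (u w : Fin N → L) (z : Co m → L) (ζ : Fin r → L) (j : ℕ) :
    aeval (pt u w (sc ζ z)) (cg F j) = (∏ b, ζ b ^ e b) * aeval (pt u w z) (cg F j) := by
  have h1 := Cg_sc hF (fun i => Polynomial.C (u i) + Polynomial.X * Polynomial.C (w i))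
    (fun i => Polynomial.C (z i)) 1 (fun b => Polynomial.C (ζ b))
  simp only [one_mul, one_pow] at h1
  rw [cg_eval, cg_eval, MP_1e3e9c_agL.cf_eval, MP_1e3e9c_agL.cf_eval, aeval_fz, aeval_fz]
  have h2 : (fun i => algebraMap L (Polynomial L) (sc ζ z i)) =
      fun i : Co m => Polynomial.C (ζ i.1) * Polynomial.C (z i) := by
    funext i
    rw [Polynomial.algebraMap_eq, sc, Polynomial.C_mul]
  have h3 : (∏ b, Polynomial.C (ζ b) ^ e b) = Polynomial.C (∏ b, ζ b ^ e b) := by
    rw [map_prod]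
    simp only [map_pow]
  rw [h2, h1, h3, Polynomial.coeff_C_mul]
  rfl

/-- the value of `cg F j` as a coefficient of a polynomial over `R` -/
theorem CgB_eval {k R : Type} [Field k] [CommRing R] [Algebra k R]
    (F : MvPolynomial (Fin N ⊕ Co m) k) (u w : Fin N → R) (z : Co m → R) (j : ℕ) :
    aeval (Sum.elim (Sum.elim u w) z : Cd N m → R) (cg F j) =
      (aeval (Sum.elim (fun i => Polynomial.C (u i) + Polynomial.X * Polynomial.C (w i))
        (fun i => Polynomial.C (z i)) : Fin N ⊕ Co m → Polynomial R) F).coeff j := by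
  have h : (Polynomial.mapAlgHom (aeval (Sum.elim (Sum.elim u w) z) :
      MvPolynomial (Cd N m) k →ₐ[k] R)).comp
      (aeval (Sum.elim
        (fun i => Polynomial.C (X (Sum.inl (Sum.inl i))) +
          Polynomial.X * Polynomial.C (X (Sum.inl (Sum.inr i))))
        (fun i => Polynomial.C (X (Sum.inr i))) :
          Fin N ⊕ Co m → Polynomial (MvPolynomial (Cd N m) k))) =
      aeval (Sum.elim (fun i => Polynomial.C (u i) + Polynomial.X * Polynomial.C (w i))
        (fun i => Polynomial.C (z i)) : Fin N ⊕ Co m → Polynomial R) := by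
    apply MvPolynomial.algHom_ext
    intro i
    rcases i with i | i <;> simp
  rw [← h, AlgHom.comp_apply, Polynomial.coe_mapAlgHom, Polynomial.coeff_map]
  rfl

theorem cg_stable {k L : Type} [Field k] [Field L] [Algebra k L]
    {F : MvPolynomial (Fin N ⊕ Co m) k} {d : ℕ} {e : Fin r → ℕ} (hF : MHom F d e)
    (u w : Fin N → L) (z : Co m → L) (a b c e' : L) (ζ : Fin r → L)
    (h : ∀ j, aeval (pt u w z) (cg F j) = 0) (j : ℕ) :
    aeval (pt (a • u + b • w) (c • u + e' • w) (sc ζ z)) (cg F j) = 0 := by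
  rw [cg_sc hF, cg_eval, Pool.Agent.Lib.MP_1e3e9c_agL.cf_stable (fz_hom hF z) u w a b c e'
    (fun j => by rw [← cg_eval]; exact h j) j, mul_zero]

theorem cg_borel {k L : Type} [Field k] [Field L] [Algebra k L]
    {F : MvPolynomial (Fin N ⊕ Co m) k} {d : ℕ} {e : Fin r → ℕ} (hF : MHom F d e)
    (u w : Fin N → L) (z : Co m → L) (ν lam μ : L) (ζ : Fin r → L) {s : ℕ} (hs : s ≤ d)
    (h : ∀ j < s, aeval (pt u w z) (cg F j) = 0) :
    (∀ j < s, aeval (pt (ν • u) (lam • w + μ • u) (sc ζ z)) (cg F j) = 0) ∧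
      aeval (pt (ν • u) (lam • w + μ • u) (sc ζ z)) (cg F s) =
        ν ^ (d - s) * lam ^ s * (∏ b, ζ b ^ e b) * aeval (pt u w z) (cg F s) := by
  obtain ⟨h1, h2⟩ := Pool.Agent.Lib.MP_1e3e9c_agL.cf_borel (fz_hom hF z) u w ν lam μ hs
    (fun j hj => by rw [← cg_eval]; exact h j hj)
  refine ⟨fun j hj => ?_, ?_⟩
  · rw [cg_sc hF, cg_eval, h1 j hj, mul_zero]
  · rw [cg_sc hF, cg_eval, h2, cg_eval]
    ring

theorem cg_line {k L : Type} [Field k] [Field L] [Algebra k L]
    {F : MvPolynomial (Fin N ⊕ Co m) k} {d : ℕ} {e : Fin r → ℕ} (hF : MHom F d e)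
    (u w : Fin N → L) (z : Co m → L) (h : ∀ j, aeval (pt u w z) (cg F j) = 0) (a b : L) :
    aeval (Sum.elim (fun i => a * u i + b * w i) z) F = 0 := by
  have h1 := Pool.Agent.Lib.MP_1e3e9c_agL.cf_zero_line (fz_hom hF z) u w
    (fun j => by rw [← cg_eval]; exact h j) a b
  rw [aeval_fz] at h1
  exact h1

theorem cg_of_line {k L : Type} [Field k] [Field L] [Infinite L] [Algebra k L]
    (F : MvPolynomial (Fin N ⊕ Co m) k) (u w : Fin N → L) (z : Co m → L)
    (h : ∀ b : L, aeval (Sum.elim (fun i => u i + b * w i) z) F = 0) (j : ℕ) :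
    aeval (pt u w z) (cg F j) = 0 := by
  rw [cg_eval]
  refine Pool.Agent.Lib.MP_1e3e9c_agL.cf_zero_of_line (fz z F) u w (fun b => ?_) j
  rw [aeval_fz]
  exact h b

theorem MHom.map {k κ : Type} [Field k] [Field κ] [Algebra k κ]
    {F : MvPolynomial (Fin N ⊕ Co m) k} {d : ℕ} {e : Fin r → ℕ} (hF : MHom F d e) :
    MHom (MvPolynomial.map (algebraMap k κ) F) d e := by
  intro n hn
  exact hF n (MvPolynomial.support_map_subset _ _ hn)

theorem cg_map {k κ M : Type} [Field k] [Field κ] [Algebra k κ] [Field M] [Algebra k M]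
    [Algebra κ M] [IsScalarTower k κ M] (F : MvPolynomial (Fin N ⊕ Co m) k)
    (u w : Fin N → M) (z : Co m → M) (j : ℕ) :
    aeval (pt u w z) (cg (MvPolynomial.map (algebraMap k κ) F) j) =
      aeval (pt u w z) (cg F j) := by
  rw [CgB_eval, CgB_eval, aeval_map_algebraMap]

theorem aeval_pw {k R : Type} [Field k] [CommRing R] [Algebra k R] (n : ℕ)
    (F : MvPolynomial (Fin N ⊕ Co m) k) (x : Fin N → R) (z : Co m → R) :
    aeval (Sum.elim x z) (pw n F) = aeval (Sum.elim x (fun i => z i ^ n)) F := by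
  have h : (aeval (Sum.elim x z) : MvPolynomial (Fin N ⊕ Co m) k →ₐ[k] R).comp
      (aeval (Sum.elim (fun i => X (Sum.inl i)) (fun i => X (Sum.inr i) ^ n))) =
      aeval (Sum.elim x (fun i => z i ^ n)) := by
    apply MvPolynomial.algHom_ext
    intro i
    rcases i with i | i <;> simp
  rw [← h]
  rfl

/-- the exponents of a monomial of `pw n F` -/
noncomputable def CgB_ex (n : ℕ) (s : (Fin N ⊕ Co m) →₀ ℕ) : (Fin N ⊕ Co m) →₀ ℕ :=
  Finsupp.equivFunOnFinite.symm (Sum.elim (fun i => s (Sum.inl i)) (fun i => n * s (Sum.inr i)))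

theorem CgB_pw_monomial {k : Type} [Field k] (n : ℕ) (s : (Fin N ⊕ Co m) →₀ ℕ) (c : k) :
    pw n (monomial s c) = monomial (CgB_ex n s) c := by
  unfold pw
  rw [aeval_monomial, monomial_eq, Finsupp.prod_fintype _ _ (fun i => pow_zero _),
    Finsupp.prod_fintype _ _ (fun i => pow_zero _), Fintype.prod_sum_type, Fintype.prod_sum_type]
  congr 1
  congr 1
  refine Finset.prod_congr rfl fun i _ => ?_
  simp [CgB_ex, pow_mul]

theorem pw_hom {k : Type} [Field k] {F : MvPolynomial (Fin N ⊕ Co m) k} {d : ℕ} {e : Fin r → ℕ}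
    (hF : MHom F d e) (n : ℕ) : MHom (pw n F) d (fun b => n * e b) := by
  classical
  intro t ht
  have h1 : pw n F = ∑ s ∈ F.support, monomial (CgB_ex n s) (F.coeff s) := by
    conv_lhs => rw [F.as_sum]
    unfold pw
    rw [map_sum]
    refine Finset.sum_congr rfl fun s _ => ?_
    exact CgB_pw_monomial n s _
  rw [h1] at ht
  have h2 := MvPolynomial.support_sum ht
  rw [Finset.mem_biUnion] at h2
  obtain ⟨s, hs, hst⟩ := h2
  have h3 := MvPolynomial.support_monomial_subset hst
  rw [Finset.mem_singleton] at h3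
  obtain ⟨h4, h5⟩ := hF s hs
  rw [h3]
  refine ⟨?_, fun b => ?_⟩
  · rw [← h4]
    rfl
  · show _ = n * e b
    rw [← h5 b, Finset.mul_sum]
    rfl

theorem cg_pw {k L : Type} [Field k] [Field L] [Algebra k L] (n : ℕ)
    (F : MvPolynomial (Fin N ⊕ Co m) k) (u w : Fin N → L) (z : Co m → L) (j : ℕ) :
    aeval (pt u w z) (cg (pw n F) j) = aeval (pt u w (fun i => z i ^ n)) (cg F j) := by
  rw [CgB_eval, CgB_eval, aeval_pw]
  simp only [Polynomial.C_pow]

end Pool.Agent.Lib.MP_1e3e9c_agP
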