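import Pool.Agent.Lib.MP_1e3e9c_agP.Defs
import Pool.Agent.Lib.MP_1e3e9c_agL.Pt
import Pool.Agent.Lib.MP_1e3e9c_agL.Trans

/-!
# points over `k` and lines

PROOFS. `adm_sp`: if all `z ⟨b, i⟩` vanish, then the polynomials `X (inr ⟨b, i⟩)` vanish at `(u, w, z)`, hence at `(u', w', z')`.
`ind_sp`: the minor `X (inl (inl p)) * X (inl (inr q)) - X (inl (inl q)) * X (inl (inr p))`.
`exists_kflat`: `MP_1e3e9c_agL.exists_kpoint` for `pt u w z` and `δ * minor * ∏ b, X (inr ⟨b, i_b⟩)`, where the minor and the `X (inr ⟨b, i_b⟩)` do not vanish; write the point `y` as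
`pt (fun i => y (inl (inl i))) (fun i => y (inl (inr i))) (fun i => y (inr i))`.
`Line.exists_rep`: `MP_1e3e9c_agL.Line.exists_span`-type argument for `l.V`, a generator of `l.W b` (`finrank_eq_one_iff'`), nonzero.
`Line.exists_of`: `MP_1e3e9c_agL.ind_iff`, `finrank_span_singleton`.
`Line.Is.change`: `MP_1e3e9c_agL.gl_change`; spans of one nonzero vector: `Submodule.mem_span_singleton`, `ζ b ≠ 0` because both vectors are nonzero.
`Line.Is.gl`: the span does not change under an invertible matrix.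
`sp_map`: `MP_1e3e9c_agL.Sp.map`.
-/

set_option autoImplicit false

namespace Pool.Agent.Lib.MP_1e3e9c_agP

open MvPolynomial
open Pool.Agent.Lib.MP_1e3e9c_agL (Sp Ind td)

variable {N r : ℕ} {m : Fin r → ℕ}

theorem adm_sp {k L L' : Type} [Field k] [Field L] [Algebra k L] [Field L'] [Algebra k L']
    {u w : Fin N → L} {z : Co m → L} {u' w' : Fin N → L'} {z' : Co m → L'}
    (h : Sp k (pt u w z) (pt u' w' z')) (ha : Adm z') : Adm z := by
  intro b
  obtain ⟨i, hi⟩ := ha b
  refine ⟨i, fun h0 => hi ?_⟩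
  have h1 := h (X (Sum.inr ⟨b, i⟩)) (by rw [aeval_X]; exact h0)
  rw [aeval_X] at h1
  exact h1

/-- the minor of the columns `p`, `q` -/
noncomputable def Pt_mn (k : Type) [Field k] (N : ℕ) {r : ℕ} (m : Fin r → ℕ) (p q : Fin N) :
    MvPolynomial (Cd N m) k :=
  X (Sum.inl (Sum.inl p)) * X (Sum.inl (Sum.inr q)) - X (Sum.inl (Sum.inl q)) * X (Sum.inl (Sum.inr p))

theorem Pt_aeval_mn {k L : Type} [Field k] [Field L] [Algebra k L] (p q : Fin N)
    (u w : Fin N → L) (z : Co m → L) :
    aeval (pt u w z) (Pt_mn k N m p q) = u p * w q - u q * w p := by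
  simp [Pt_mn]

theorem ind_sp {k L L' : Type} [Field k] [Field L] [Algebra k L] [Field L'] [Algebra k L']
    {u w : Fin N → L} {z : Co m → L} {u' w' : Fin N → L'} {z' : Co m → L'}
    (h : Sp k (pt u w z) (pt u' w' z')) (hi : Ind u' w') : Ind u w := by
  obtain ⟨p, q, hpq⟩ := hi
  refine ⟨p, q, fun h0 => hpq ?_⟩
  have h1 := h (Pt_mn k N m p q) (by rw [Pt_aeval_mn, h0])
  rwa [Pt_aeval_mn] at h1

theorem zero_sp {k L L' : Type} [Field k] [Field L] [Algebra k L] [Field L'] [Algebra k L']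
    {S : Set (MvPolynomial (Cd N m) k)} {u w : Fin N → L} {z : Co m → L} {u' w' : Fin N → L'}
    {z' : Co m → L'} (h : Sp k (pt u w z) (pt u' w' z')) (hz : Zero S u w z) : Zero S u' w' z' :=
  fun p hp => h p (hz p hp)

theorem exists_kflat {k L : Type} [Field k] [IsAlgClosed k] [Field L] [Algebra k L]
    (u w : Fin N → L) (z : Co m → L) (hi : Ind u w) (ha : Adm z) (δ : MvPolynomial (Cd N m) k)
    (hδ : aeval (pt u w z) δ ≠ 0) :
    ∃ (u' w' : Fin N → k) (z' : Co m → k), Ind u' w' ∧ Adm z' ∧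
      Sp k (pt u w z) (pt u' w' z') ∧ aeval (pt u' w' z') δ ≠ 0 := by
  classical
  obtain ⟨p, q, hpq⟩ := hi
  choose i hi using ha
  obtain ⟨y, hy, hy0⟩ := Pool.Agent.Lib.MP_1e3e9c_agL.exists_kpoint (pt u w z)
    (δ * Pt_mn k N m p q * ∏ b, X (Sum.inr ⟨b, i b⟩)) (by
    rw [map_mul, map_mul, Pt_aeval_mn, map_prod]
    refine mul_ne_zero (mul_ne_zero hδ hpq) (Finset.prod_ne_zero_iff.2 fun b _ => ?_)
    rw [aeval_X]
    exact hi b)
  have he : pt (fun j => y (Sum.inl (Sum.inl j))) (fun j => y (Sum.inl (Sum.inr j)))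
      (fun j => y (Sum.inr j)) = y := by
    funext j
    rcases j with (j | j) | j <;> rfl
  rw [map_mul, map_mul, map_prod, ← he] at hy0
  have h1 := left_ne_zero_of_mul (left_ne_zero_of_mul hy0)
  have h2 := right_ne_zero_of_mul (left_ne_zero_of_mul hy0)
  have h3 := right_ne_zero_of_mul hy0
  rw [Pt_aeval_mn] at h2
  rw [Finset.prod_ne_zero_iff] at h3
  refine ⟨fun j => y (Sum.inl (Sum.inl j)), fun j => y (Sum.inl (Sum.inr j)),
    fun j => y (Sum.inr j), ⟨p, q, h2⟩, fun b => ⟨i b, ?_⟩, ?_, h1⟩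
  · have h4 := h3 b (Finset.mem_univ b)
    rw [aeval_X] at h4
    exact h4
  · rw [he]
    exact hy

theorem adm_sc {L : Type} [Field L] {z : Co m → L} (ha : Adm z) {ζ : Fin r → L}
    (hζ : ∀ b, ζ b ≠ 0) : Adm (sc ζ z) := by
  intro b
  obtain ⟨i, hi⟩ := ha b
  exact ⟨i, mul_ne_zero (hζ b) hi⟩

theorem Line.exists_rep {k : Type} [Field k] (l : Line k N m) :
    ∃ (u w : Fin N → k) (z : Co m → k), Ind u w ∧ Adm z ∧ l.Is u w z := by
  obtain ⟨u, w, hi, hs⟩ := Pool.Agent.Lib.MP_1e3e9c_agL.Line.exists_span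
    (⟨l.V, l.two⟩ : Pool.Agent.Lib.MP_1e3e9c_agL.Line k N)
  have h1 : ∀ b, ∃ v : Fin (m b) → k, v ≠ 0 ∧ l.W b = Submodule.span k {v} := by
    intro b
    obtain ⟨v, hv0, hv⟩ := finrank_eq_one_iff'.1 (l.one b)
    refine ⟨v, fun h0 => hv0 (Subtype.ext h0), le_antisymm ?_ ?_⟩
    · intro x hx
      obtain ⟨c, hc⟩ := hv ⟨x, hx⟩
      rw [Submodule.mem_span_singleton]
      exact ⟨c, congrArg Subtype.val hc⟩
    · rw [Submodule.span_singleton_le_iff_mem]
      exact v.2
  choose v hv hvs using h1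
  refine ⟨u, w, fun i => v i.1 i.2, hi, fun b => ?_, hs, fun b => hvs b⟩
  by_contra hn
  push Not at hn
  exact hv b (funext hn)

theorem Line.exists_of {k : Type} [Field k] (u w : Fin N → k) (z : Co m → k) (hi : Ind u w)
    (ha : Adm z) : ∃ l : Line k N m, l.Is u w z := by
  refine ⟨⟨Submodule.span k {u, w}, (Pool.Agent.Lib.MP_1e3e9c_agL.ind_iff u w).1 hi,
    fun b => Submodule.span k {fun i => z ⟨b, i⟩}, fun b => finrank_span_singleton ?_⟩, rfl,
    fun b => rfl⟩
  intro h0
  obtain ⟨i, hz⟩ := ha b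
  exact hz (congrFun h0 i)

theorem Line.Is.ind {k : Type} [Field k] {l : Line k N m} {u w : Fin N → k} {z : Co m → k}
    (h : l.Is u w z) : Ind u w ∧ Adm z := by
  constructor
  · rw [Pool.Agent.Lib.MP_1e3e9c_agL.ind_iff, ← h.1]
    exact l.two
  · intro b
    by_contra hn
    push Not at hn
    have h1 := l.one b
    have h2 : (fun i => z ⟨b, i⟩) = (0 : Fin (m b) → k) := funext hn
    rw [h.2 b, h2, Submodule.span_zero_singleton, finrank_bot] at h1
    exact zero_ne_one h1

theorem Line.Is.change {k : Type} [Field k] {l : Line k N m} {u w u' w' : Fin N → k}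
    {z z' : Co m → k} (h : l.Is u w z) (h' : l.Is u' w' z') :
    ∃ (a b c e : k) (ζ : Fin r → k), a * e - b * c ≠ 0 ∧ (∀ b, ζ b ≠ 0) ∧
      u = a • u' + b • w' ∧ w = c • u' + e • w' ∧ z = sc ζ z' := by
  obtain ⟨a, b, c, e, h1, h2, h3⟩ := Pool.Agent.Lib.MP_1e3e9c_agL.gl_change
    (h.1.symm.trans h'.1) h.ind.1
  have h4 : ∀ b, ∃ ζ : k, (ζ • fun i => z' ⟨b, i⟩) = fun i => z ⟨b, i⟩ := by
    intro b
    rw [← Submodule.mem_span_singleton, ← h'.2 b, h.2 b]
    exact Submodule.mem_span_singleton_self _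
  choose ζ hζ using h4
  refine ⟨a, b, c, e, ζ, h1, fun b h0 => ?_, h2, h3, ?_⟩
  · obtain ⟨i, hi⟩ := h.ind.2 b
    apply hi
    have h5 := congrFun (hζ b) i
    rw [h0, zero_smul] at h5
    exact h5.symm
  · funext j
    exact (congrFun (hζ j.1) j.2).symm

theorem Line.Is.gl {k : Type} [Field k] {l : Line k N m} {u w : Fin N → k} {z : Co m → k}
    (h : l.Is u w z) {a b c e : k} {ζ : Fin r → k} (hne : a * e - b * c ≠ 0)
    (hζ : ∀ b, ζ b ≠ 0) : l.Is (a • u + b • w) (c • u + e • w) (sc ζ z) := by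
  refine ⟨?_, fun b => ?_⟩
  · rw [h.1]
    apply le_antisymm
    · rw [Submodule.span_le]
      have h1 : (a * e - b * c) • u = e • (a • u + b • w) - b • (c • u + e • w) := by
        funext i
        simp only [Pi.smul_apply, Pi.add_apply, Pi.sub_apply, smul_eq_mul]
        ring
      have h2 : (a * e - b * c) • w = a • (c • u + e • w) - c • (a • u + b • w) := by
        funext i
        simp only [Pi.smul_apply, Pi.add_apply, Pi.sub_apply, smul_eq_mul]
        ring
      have h3 : a • u + b • w ∈ Submodule.span k {a • u + b • w, c • u + e • w} :=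
        Submodule.subset_span (Set.mem_insert _ _)
      have h4 : c • u + e • w ∈ Submodule.span k {a • u + b • w, c • u + e • w} :=
        Submodule.subset_span (Set.mem_insert_of_mem _ (Set.mem_singleton _))
      intro x hx
      rw [Set.mem_insert_iff, Set.mem_singleton_iff] at hx
      rw [SetLike.mem_coe, ← Submodule.smul_mem_iff _ hne]
      rcases hx with hx | hx
      · rw [hx, h1]
        exact Submodule.sub_mem _ (Submodule.smul_mem _ _ h3) (Submodule.smul_mem _ _ h4)
      · rw [hx, h2]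
        exact Submodule.sub_mem _ (Submodule.smul_mem _ _ h4) (Submodule.smul_mem _ _ h3)
    · rw [Submodule.span_le]
      have h3 : u ∈ Submodule.span k {u, w} := Submodule.subset_span (Set.mem_insert _ _)
      have h4 : w ∈ Submodule.span k {u, w} :=
        Submodule.subset_span (Set.mem_insert_of_mem _ (Set.mem_singleton _))
      intro x hx
      rw [Set.mem_insert_iff, Set.mem_singleton_iff] at hx
      rw [SetLike.mem_coe]
      rcases hx with hx | hx
      · rw [hx]
        exact Submodule.add_mem _ (Submodule.smul_mem _ _ h3) (Submodule.smul_mem _ _ h4)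
      · rw [hx]
        exact Submodule.add_mem _ (Submodule.smul_mem _ _ h3) (Submodule.smul_mem _ _ h4)
  · rw [h.2 b]
    have h1 : (fun i => sc ζ z ⟨b, i⟩) = ζ b • fun i => z ⟨b, i⟩ := rfl
    rw [h1, Submodule.span_singleton_smul_eq (isUnit_iff_ne_zero.2 (hζ b))]

/-- two lines with the same coordinates are equal -/
theorem Line.Is.eq {k : Type} [Field k] {l l' : Line k N m} {u w : Fin N → k} {z : Co m → k}
    (h : l.Is u w z) (h' : l'.Is u w z) : l = l' := by
  refine Line.ext (h.1.trans h'.1.symm) (funext fun b => ?_)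
  rw [h.2 b, h'.2 b]

theorem sp_map {k L M : Type} [Field k] [Field L] [Algebra k L] [Field M] [Algebra k M]
    [Algebra L M] [IsScalarTower k L M] (u w : Fin N → L) (z : Co m → L) :
    Sp k (pt u w z) (pt (fun i => algebraMap L M (u i)) (fun i => algebraMap L M (w i))
      (fun i => algebraMap L M (z i))) ∧
    Sp k (pt (fun i => algebraMap L M (u i)) (fun i => algebraMap L M (w i))
      (fun i => algebraMap L M (z i))) (pt u w z) := by
  have h1 : (fun i => algebraMap L M (pt u w z i)) = pt (fun i => algebraMap L M (u i))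
      (fun i => algebraMap L M (w i)) (fun i => algebraMap L M (z i)) := by
    funext j
    rcases j with (j | j) | j <;> rfl
  rw [← h1]
  exact Pool.Agent.Lib.MP_1e3e9c_agL.Sp.map (pt u w z)

end Pool.Agent.Lib.MP_1e3e9c_agP
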