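import Pool.Agent.Lib.MP_1e3e9c_agP.Cg
import Pool.Agent.Lib.MP_1e3e9c_agP.Pt
import Pool.Agent.Lib.MP_1e3e9c_agL.RA
import Pool.Agent.Lib.MP_1e3e9c_agL.RB
import Pool.Agent.Lib.MP_1e3e9c_agL.Krull
import Pool.Agent.Lib.MP_1e3e9c_agL.NecA

/-!
# the contact can be raised, the point `z` of the other factors is constant

PROOF.  `z = sc ζ z0` with `z0` over `k` (mapped to `L`).  As `Adm z`: all `ζ b ≠ 0` and `Adm z0`.
(1) `Sp k (pt u w z) (pt u w z0)` (over `L`): `hB` with `ν = lam = 1`, `μ = 0`, the scaling `ζ⁻¹`, and `Sp.refl`.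
(2) For every specialization `(u', w')` over a field `M` of `(u, w)` (`Sp k (Sum.elim u w) (Sum.elim u' w')`): `Sp k (pt u w z) (pt u' w' z0)`: if `p(u, w, z) = 0` then `p(u, w, z0) = 0` by (1); `p(·, ·, z0)` is a polynomial over `k`
(`aeval (Sum.elim X (fun i => C (z0 i))) p`), it vanishes at `(u, w)`, so at `(u', w')`.  Conversely `Sp k (pt u w z) (pt u' w' z')` gives `Sp k (Sum.elim u w) (Sum.elim u' w')` (`rename Sum.inl`).
(3) `MP_1e3e9c_agL.BSt k u w`: by (2), `hB` (with `ζ = 1`, `sc_one`), (2).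
(4) `F0 = fz z0 F : MvPolynomial (Fin N) k` is homogeneous of degree `d` (`fz_hom`), and `aeval (pt u' w' z0) (cg F j) = aeval (Sum.elim u' w') (cf F0 j)` for all `u'`, `w'` over a `k`-field `M`: by `cg_eval` over `M` the left side is `aeval (Sum.elim u' w') (cf (fz (z0 over M) F) j)`, and `fz (z0 over M) F` is the
image of `F0` (or directly: `cf_eval` and `aeval_fz`).  In particular `cf F0 j = 0` at `(u, w)` for `j < s` (`cg_sc`, `ζ b ≠ 0`).
(5) `4 ≤ td k (Sum.elim u w)`: the coordinates of `pt u w z` lie in the field generated over `k` by those of `(u, w)` and by the `r` numbers `ζ b`: `td_mem`, `td_add_card` (NecA): `td k (pt u w z) ≤ td k (Sum.elim u w) + r`; `4 + r ≤ td k (pt u w z)`; cancel (the left side is finite: `td_basis`).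
(6) `contact_step_a` or `contact_step_b` (whether `u` is a multiple of a vector over `k`) for `F0` gives an independent pair `(u', w')` over `k`; the triple `(u', w', z0)` by (2), (4).
-/

set_option autoImplicit false

namespace Pool.Agent.Lib.MP_1e3e9c_agP

open MvPolynomial
open Pool.Agent.Lib.MP_1e3e9c_agL (Sp Ind td lin)

variable {N r : ℕ} {m : Fin r → ℕ}

theorem contact_step_c {k L : Type} [Field k] [IsAlgClosed k] [Field L] [Algebra k L] {d s : ℕ}
    {e : Fin r → ℕ} (hs : 1 ≤ s) (hsd : s < d) {F : MvPolynomial (Fin N ⊕ Co m) k}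
    (hF : MHom F d e) (u w : Fin N → L) (z : Co m → L) (hi : Ind u w)
    (ha : Adm z) (hB : BSt k u w z) (hc : ∀ j < s, aeval (pt u w z) (cg F j) = 0)
    (z0 : Co m → k) (ζ : Fin r → L) (hz : z = sc ζ (fun i => algebraMap k L (z0 i)))
    (h4 : ((4 + r : ℕ) : Cardinal) ≤ td k (pt u w z)) :
    ∃ (u' w' : Fin N → k) (z' : Co m → k), Ind u' w' ∧ Adm z' ∧
      Sp k (pt u w z) (pt u' w' z') ∧ aeval (pt u' w' z') (cg F s) = 0 := by
  -- (0) the scaling and the point `z0`
  have hζ : ∀ b, ζ b ≠ 0 := by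
    intro b h0
    obtain ⟨i, hi0⟩ := ha b
    apply hi0
    rw [hz]
    show ζ b * _ = 0
    rw [h0, zero_mul]
  have ha0 : Adm z0 := by
    intro b
    obtain ⟨i, hi0⟩ := ha b
    refine ⟨i, fun h0 => hi0 ?_⟩
    rw [hz]
    show ζ b * algebraMap k L (z0 ⟨b, i⟩) = 0
    rw [h0, map_zero, mul_zero]
  -- (1)
  have h1 : Sp k (pt u w z) (pt u w (fun i => algebraMap k L (z0 i))) := by
    have h := hB L u w z 1 1 0 (fun b => (ζ b)⁻¹) (MP_1e3e9c_agL.Sp.refl _)
    have e1 : sc (fun b => (ζ b)⁻¹) z = fun i => algebraMap k L (z0 i) := by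
      rw [hz, sc_sc]
      funext i
      show (ζ i.1)⁻¹ * ζ i.1 * _ = _
      rw [inv_mul_cancel₀ (hζ i.1), one_mul]
    rw [e1, one_smul, one_smul, zero_smul, add_zero] at h
    exact h
  -- (2)
  have e2 : ∀ (M : Type) [Field M] [Algebra k M] (u' w' : Fin N → M)
      (p : MvPolynomial (Cd N m) k),
      aeval (Sum.elim u' w') (aeval (Sum.elim X (fun i => C (z0 i)) :
        Cd N m → MvPolynomial (Fin N ⊕ Fin N) k) p) =
      aeval (pt u' w' (fun i => algebraMap k M (z0 i))) p := by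
    intro M _ _ u' w' p
    rw [← AlgHom.comp_apply, comp_aeval]
    congr 2
    funext i
    rcases i with i | i
    · simp
    · simp
  have h2 : ∀ (M : Type) [Field M] [Algebra k M] (u' w' : Fin N → M),
      Sp k (Sum.elim u w) (Sum.elim u' w') →
      Sp k (pt u w z) (pt u' w' (fun i => algebraMap k M (z0 i))) := by
    intro M _ _ u' w' hs p hp
    rw [← e2]
    apply hs
    rw [e2]
    exact h1 p hp
  have h2' : ∀ (M : Type) [Field M] [Algebra k M] (u' w' : Fin N → M) (z' : Co m → M),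
      Sp k (pt u w z) (pt u' w' z') → Sp k (Sum.elim u w) (Sum.elim u' w') := by
    intro M _ _ u' w' z' hs p hp
    have h := hs (rename Sum.inl p) (by
      rw [aeval_rename]
      exact hp)
    rw [aeval_rename] at h
    exact h
  -- (3)
  have hB' : MP_1e3e9c_agL.BSt k u w := by
    intro M _ _ u' w' ν lam μ hs
    exact h2' M _ _ _ (hB M u' w' (fun i => algebraMap k M (z0 i)) ν lam μ (fun _ => 1)
      (h2 M u' w' hs))
  -- (4)
  have e4 : ∀ (M : Type) [Field M] [Algebra k M] (u' w' : Fin N → M) (j : ℕ),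
      aeval (pt u' w' (fun i => algebraMap k M (z0 i))) (cg F j) =
      aeval (Sum.elim u' w') (MP_1e3e9c_agL.cf (fz z0 F) j) := by
    intro M _ _ u' w' j
    rw [cg_eval, MP_1e3e9c_agL.cf_eval, MP_1e3e9c_agL.cf_eval, aeval_fz, aeval_fz]
    congr 3
  have hF0 : (fz z0 F).IsHomogeneous d := fz_hom hF z0
  have hc0 : ∀ j < s, aeval (Sum.elim u w) (MP_1e3e9c_agL.cf (fz z0 F) j) = 0 := by
    intro j hj
    rw [← e4]
    exact h1 _ (hc j hj)
  -- (5)
  have h4' : (4 : Cardinal) ≤ td k (Sum.elim u w) := by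
    have t1 : td k (pt u w z) ≤ td k (Sum.elim (Sum.elim u w) ζ) := by
      apply MP_1e3e9c_agL.td_mem
      rintro ((i | i) | i)
      · exact IntermediateField.subset_adjoin k _ ⟨Sum.inl (Sum.inl i), rfl⟩
      · exact IntermediateField.subset_adjoin k _ ⟨Sum.inl (Sum.inr i), rfl⟩
      · show z i ∈ _
        rw [hz]
        show ζ i.1 * algebraMap k L (z0 i) ∈ _
        exact mul_mem (IntermediateField.subset_adjoin k _ ⟨Sum.inr i.1, rfl⟩)
          (IntermediateField.algebraMap_mem _ _)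
    have t2 := MP_1e3e9c_agL.td_add_card (k := k) (Sum.elim u w) ζ
    obtain ⟨n, _, _, _, hn⟩ := MP_1e3e9c_agL.td_basis (k := k) (Sum.elim u w)
    have t3 := h4.trans (t1.trans t2)
    rw [hn] at t3 ⊢
    have t4 : 4 + r ≤ n + r := by exact_mod_cast t3
    have t5 : 4 ≤ n := by omega
    exact_mod_cast t5
  -- (6)
  obtain ⟨u', w', hi', hs', hz'⟩ : ∃ u' w' : Fin N → k, Ind u' w' ∧
      Sp k (Sum.elim u w) (Sum.elim u' w') ∧ aeval (Sum.elim u' w') (MP_1e3e9c_agL.cf (fz z0 F) s) = 0 := by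
    by_cases hne : ∀ (x : Fin N → k) (ν : L), u ≠ ν • (fun i => algebraMap k L (x i))
    · exact MP_1e3e9c_agL.contact_step_a hs hsd hF0 u w hi hB' hc0 hne
    · push Not at hne
      obtain ⟨x, ν, hu⟩ := hne
      exact MP_1e3e9c_agL.contact_step_b hs hsd hF0 u w hi hB' hc0 x ν hu h4'
  refine ⟨u', w', z0, hi', ha0, h2 k u' w' hs', ?_⟩
  have h := e4 k u' w' s
  rw [hz'] at h
  exact h

end Pool.Agent.Lib.MP_1e3e9c_agP
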