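import Pool.Agent.Lib.MP_1e3e9c_agP.Defs

/-!
# generic translates

Compare `MP_1e3e9c_agL/Trans.lean` (the same statements without `z`).  PROOF of `exists_gl`: `L' = FractionRing (MvPolynomial (Fin 4 ⊕ Fin r) L)`, `g` and `ζ` the images of the variables.
(a) `Sp κ (g (u, w), ζ z) (u, w, z)`: substitute `g = (1, 0, 0, 1)`, `ζ = 1` in the zero polynomial `p (g (u, w), ζ z)` of `MvPolynomial (Fin 4 ⊕ Fin r) L`.
(b) `GSt`: `p̂ : MvPolynomial (Fin 4 ⊕ Fin r) (MvPolynomial (Cd N m) κ)` is `p` at `(X 0 U + X 1 W, X 2 U + X 3 W, X_b Z)`.  If `p (u'', w'', z'') = 0` at the generic translate, then `p (h (u'', w''), ξ z'') = 0` for all matrices `h` and scalings `ξ` over `L'`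
(substitute `g ↦ h g`, `ζ ↦ ξ ζ`), so all coefficients of `p̂` vanish at `(u'', w'', z'')`, hence at every specialization.
`exists_borel`: the same with `g = (ν, 0, μ, lam)`, i.e. `3 + r` indeterminates.
-/

set_option autoImplicit false

namespace Pool.Agent.Lib.MP_1e3e9c_agP

open MvPolynomial
open Pool.Agent.Lib.MP_1e3e9c_agL (Sp Ind td)

variable {N r : ℕ} {m : Fin r → ℕ}

theorem Trans_key {κ L L' : Type} [Field κ] [Field L] [Algebra κ L] [Field L'] [Algebra κ L']
    [Algebra L L'] [IsScalarTower κ L L'] (u w : Fin N → L) (z : Co m → L)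
    (g : Fin 4 ⊕ Fin r → L') (hg : AlgebraicIndependent L g) (p : MvPolynomial (Cd N m) κ)
    (hp : aeval (pt
        (g (Sum.inl 0) • (fun i => algebraMap L L' (u i)) +
          g (Sum.inl 1) • (fun i => algebraMap L L' (w i)))
        (g (Sum.inl 2) • (fun i => algebraMap L L' (u i)) +
          g (Sum.inl 3) • (fun i => algebraMap L L' (w i)))
        (sc (fun b => g (Sum.inr b)) (fun i => algebraMap L L' (z i)))) p = 0)
    {K : Type} [Field K] [Algebra κ K] [Algebra L K] [IsScalarTower κ L K]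
    (y : Fin 4 ⊕ Fin r → K) :
    aeval (pt
        (y (Sum.inl 0) • (fun i => algebraMap L K (u i)) +
          y (Sum.inl 1) • (fun i => algebraMap L K (w i)))
        (y (Sum.inl 2) • (fun i => algebraMap L K (u i)) +
          y (Sum.inl 3) • (fun i => algebraMap L K (w i)))
        (sc (fun b => y (Sum.inr b)) (fun i => algebraMap L K (z i)))) p = 0 := by
  let q : MvPolynomial (Fin 4 ⊕ Fin r) L := aeval (R := κ) (Sum.elim (Sum.elim
    (fun i => X (Sum.inl 0) * C (u i) + X (Sum.inl 1) * C (w i))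
    (fun i => X (Sum.inl 2) * C (u i) + X (Sum.inl 3) * C (w i)))
    (fun i => X (Sum.inr i.1) * C (z i))) p
  have key : ∀ {M : Type} [Field M] [Algebra κ M] [Algebra L M] [IsScalarTower κ L M]
      (t : Fin 4 ⊕ Fin r → M), aeval t q = aeval (pt
        (t (Sum.inl 0) • (fun i => algebraMap L M (u i)) +
          t (Sum.inl 1) • (fun i => algebraMap L M (w i)))
        (t (Sum.inl 2) • (fun i => algebraMap L M (u i)) +
          t (Sum.inl 3) • (fun i => algebraMap L M (w i)))
        (sc (fun b => t (Sum.inr b)) (fun i => algebraMap L M (z i)))) p := by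
    intro M _ _ _ _ t
    change ((aeval t : MvPolynomial (Fin 4 ⊕ Fin r) L →ₐ[L] M).restrictScalars κ) (aeval _ p) = _
    rw [← AlgHom.comp_apply, comp_aeval]
    congr 2
    funext i
    rcases i with (i | i) | i <;> simp [sc]
  have hq : q = 0 := by
    apply hg
    rw [key, hp, map_zero]
  rw [← key, hq, map_zero]

/-- the polynomial `p` at the translate of the point with the coordinates `U`, `W`, `Z` by
indeterminates -/
noncomputable def Trans_hat {κ : Type} [Field κ] (p : MvPolynomial (Cd N m) κ) :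
    MvPolynomial (Fin 4 ⊕ Fin r) (MvPolynomial (Cd N m) κ) :=
  aeval (Sum.elim (Sum.elim
    (fun i => X (Sum.inl 0) * C (X (Sum.inl (Sum.inl i))) +
      X (Sum.inl 1) * C (X (Sum.inl (Sum.inr i))))
    (fun i => X (Sum.inl 2) * C (X (Sum.inl (Sum.inl i))) +
      X (Sum.inl 3) * C (X (Sum.inl (Sum.inr i)))))
    (fun i => X (Sum.inr i.1) * C (X (Sum.inr i)))) p

theorem Trans_hat_eval {κ M : Type} [Field κ] [Field M] [Algebra κ M]
    (p : MvPolynomial (Cd N m) κ) (u w : Fin N → M) (z : Co m → M) (y : Fin 4 ⊕ Fin r → M) :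
    eval y (map (aeval (pt u w z) : MvPolynomial (Cd N m) κ →ₐ[κ] M).toRingHom
      (Trans_hat p)) = aeval (pt (y (Sum.inl 0) • u + y (Sum.inl 1) • w)
        (y (Sum.inl 2) • u + y (Sum.inl 3) • w) (sc (fun b => y (Sum.inr b)) z)) p := by
  let Φ : MvPolynomial (Fin 4 ⊕ Fin r) (MvPolynomial (Cd N m) κ) →ₐ[κ] M :=
    { (eval y).comp (map (aeval (pt u w z) :
        MvPolynomial (Cd N m) κ →ₐ[κ] M).toRingHom) with
      commutes' := fun a => by
        have e : algebraMap κ (MvPolynomial (Fin 4 ⊕ Fin r) (MvPolynomial (Cd N m) κ)) a =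
            C (C a) := rfl
        simp [e] }
  change Φ (aeval _ p) = _
  rw [← AlgHom.comp_apply, comp_aeval]
  congr 2
  funext i
  rcases i with (i | i) | i <;> simp [Φ, sc]

theorem exists_gl {κ L : Type} [Field κ] [Field L] [Algebra κ L] (u w : Fin N → L)
    (z : Co m → L) :
    ∃ (L' : Type) (_ : Field L') (_ : Algebra κ L') (_ : Algebra L L') (_ : IsScalarTower κ L L')
      (g : Fin 4 → L') (ζ : Fin r → L'), AlgebraicIndependent L (Sum.elim g ζ) ∧
      GSt κ (g 0 • (fun i => algebraMap L L' (u i)) + g 1 • (fun i => algebraMap L L' (w i)))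
        (g 2 • (fun i => algebraMap L L' (u i)) + g 3 • (fun i => algebraMap L L' (w i)))
        (sc ζ (fun i => algebraMap L L' (z i))) ∧
      Sp κ (pt
        (g 0 • (fun i => algebraMap L L' (u i)) + g 1 • (fun i => algebraMap L L' (w i)))
        (g 2 • (fun i => algebraMap L L' (u i)) + g 3 • (fun i => algebraMap L L' (w i)))
        (sc ζ (fun i => algebraMap L L' (z i))))
        (pt u w z) := by
  let L' : Type := FractionRing (MvPolynomial (Fin 4 ⊕ Fin r) L)
  let _ : Field L' := inferInstanceAs (Field (FractionRing (MvPolynomial (Fin 4 ⊕ Fin r) L)))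
  let _ : Algebra κ L' :=
    inferInstanceAs (Algebra κ (FractionRing (MvPolynomial (Fin 4 ⊕ Fin r) L)))
  let _ : Algebra L L' :=
    inferInstanceAs (Algebra L (FractionRing (MvPolynomial (Fin 4 ⊕ Fin r) L)))
  have _ : IsScalarTower κ L L' :=
    inferInstanceAs (IsScalarTower κ L (FractionRing (MvPolynomial (Fin 4 ⊕ Fin r) L)))
  have _ : Infinite L' := Infinite.of_injective
    (algebraMap (MvPolynomial (Fin 4 ⊕ Fin r) L) (FractionRing (MvPolynomial (Fin 4 ⊕ Fin r) L)))
    (IsFractionRing.injective _ _)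
  let g' : Fin 4 ⊕ Fin r → L' :=
    fun i => algebraMap (MvPolynomial (Fin 4 ⊕ Fin r) L) (FractionRing _) (X i)
  have hg' : AlgebraicIndependent L g' :=
    (MvPolynomial.algebraicIndependent_X (Fin 4 ⊕ Fin r) L).map' (f := IsScalarTower.toAlgHom L
      (MvPolynomial (Fin 4 ⊕ Fin r) L) (FractionRing (MvPolynomial (Fin 4 ⊕ Fin r) L)))
      (IsFractionRing.injective _ _)
  let g : Fin 4 → L' := fun i => g' (Sum.inl i)
  let ζ : Fin r → L' := fun b => g' (Sum.inr b)
  have hgg : Sum.elim g ζ = g' := by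
    funext i
    rcases i with i | i <;> rfl
  refine ⟨L', inferInstance, inferInstance, inferInstance, inferInstance, g, ζ, ?_, ?_, ?_⟩
  · rw [hgg]
    exact hg'
  · intro M _ _ u' w' z' a b c e ξ hs p hp
    set u2 := g 0 • (fun i => algebraMap L L' (u i)) + g 1 • (fun i => algebraMap L L' (w i))
      with hu2
    set w2 := g 2 • (fun i => algebraMap L L' (u i)) + g 3 • (fun i => algebraMap L L' (w i))
      with hw2
    set z2 : Co m → L' := sc ζ (fun i => algebraMap L L' (z i)) with hz2
    have h1 : map (aeval (pt u2 w2 z2) :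
        MvPolynomial (Cd N m) κ →ₐ[κ] L').toRingHom (Trans_hat p) = 0 := by
      apply MvPolynomial.funext
      intro y
      rw [Trans_hat_eval, map_zero]
      have h2 := Trans_key u w z g' hg' p hp (K := L') (Sum.elim
        ![y (Sum.inl 0) * g 0 + y (Sum.inl 1) * g 2,
          y (Sum.inl 0) * g 1 + y (Sum.inl 1) * g 3,
          y (Sum.inl 2) * g 0 + y (Sum.inl 3) * g 2,
          y (Sum.inl 2) * g 1 + y (Sum.inl 3) * g 3]
        (fun b => y (Sum.inr b) * ζ b))
      rw [← h2]
      congr 2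
      have e0 : y (Sum.inl 0) • u2 + y (Sum.inl 1) • w2 =
          (y (Sum.inl 0) * g 0 + y (Sum.inl 1) * g 2) • (fun i => algebraMap L L' (u i)) +
          (y (Sum.inl 0) * g 1 + y (Sum.inl 1) * g 3) • (fun i => algebraMap L L' (w i)) := by
        rw [hu2, hw2]
        funext i
        simp only [Pi.add_apply, Pi.smul_apply, smul_eq_mul]
        ring
      have e1 : y (Sum.inl 2) • u2 + y (Sum.inl 3) • w2 =
          (y (Sum.inl 2) * g 0 + y (Sum.inl 3) * g 2) • (fun i => algebraMap L L' (u i)) +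
          (y (Sum.inl 2) * g 1 + y (Sum.inl 3) * g 3) • (fun i => algebraMap L L' (w i)) := by
        rw [hu2, hw2]
        funext i
        simp only [Pi.add_apply, Pi.smul_apply, smul_eq_mul]
        ring
      have e2 : sc (fun b => y (Sum.inr b)) z2 =
          sc (fun b => y (Sum.inr b) * ζ b) (fun i => algebraMap L L' (z i)) := by
        rw [hz2, sc_sc]
      rw [e0, e1, e2]
      rfl
    have h3 := Trans_hat_eval p u' w' z' (Sum.elim ![a, b, c, e] ξ)
    have h4 : map (aeval (pt u' w' z') :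
        MvPolynomial (Cd N m) κ →ₐ[κ] M).toRingHom (Trans_hat p) = 0 := by
      ext n
      rw [coeff_map, coeff_zero]
      refine hs _ ?_
      have h5 := congrArg (coeff n) h1
      rwa [coeff_map, coeff_zero] at h5
    rw [h4, map_zero] at h3
    exact h3.symm
  · intro p hp
    have h1 := Trans_key u w z g' hg' p hp (K := L) (Sum.elim ![1, 0, 0, 1] (fun _ => 1))
    have e : ∀ v : Fin N → L, (fun i => algebraMap L L (v i)) = v := fun v => rfl
    have e' : (fun i => algebraMap L L (z i)) = z := rfl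
    have e2 : sc (fun b => (Sum.elim ![1, 0, 0, 1] (fun _ => 1) : Fin 4 ⊕ Fin r → L) (Sum.inr b))
        (fun i => algebraMap L L (z i)) = z := by
      rw [e']
      exact sc_one z
    rw [e2] at h1
    simpa [e] using h1

private theorem TB_hom_aeval {κ R S ι : Type} [Field κ] [CommRing R] [Algebra κ R] [CommRing S]
    [Algebra κ S] (φ : R →+* S) (hφ : ∀ a, φ (algebraMap κ R a) = algebraMap κ S a)
    (z : ι → R) (z' : ι → S) (hz : ∀ i, φ (z i) = z' i) (p : MvPolynomial ι κ) :
    φ (aeval z p) = aeval z' p := by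
  induction p using MvPolynomial.induction_on with
  | C a => rw [aeval_C, aeval_C, hφ]
  | add p q hp hq => rw [map_add, map_add, hp, hq, map_add]
  | mul_X p i hp => rw [map_mul, map_mul, hp, map_mul, aeval_X, aeval_X, hz]

/-- the polynomial `p` at `(X 0 U, X 2 W + X 1 U, X_b Z)` -/
private noncomputable def TB_hat {κ : Type} [Field κ] (p : MvPolynomial (Cd N m) κ) :
    MvPolynomial (Fin 3 ⊕ Fin r) (MvPolynomial (Cd N m) κ) :=
  aeval (Sum.elim (Sum.elim (fun i => X (Sum.inl 0) * C (X (Sum.inl (Sum.inl i))))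
    (fun i => X (Sum.inl 2) * C (X (Sum.inl (Sum.inr i))) +
      X (Sum.inl 1) * C (X (Sum.inl (Sum.inl i)))))
    (fun i => X (Sum.inr i.1) * C (X (Sum.inr i)))) p

/-- the point `(X 0 U, X 2 W + X 1 U, X_b Z)` for given `U`, `W`, `Z` -/
private noncomputable def TB_pt {R : Type} [Field R] (u w : Fin N → R) (z : Co m → R) :
    Cd N m → MvPolynomial (Fin 3 ⊕ Fin r) R :=
  Sum.elim (Sum.elim (fun i => X (Sum.inl 0) * C (u i))
    (fun i => X (Sum.inl 2) * C (w i) + X (Sum.inl 1) * C (u i)))
    (fun i => X (Sum.inr i.1) * C (z i))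

private theorem TB_map_hat {κ R : Type} [Field κ] [Field R] [Algebra κ R]
    (p : MvPolynomial (Cd N m) κ) (u w : Fin N → R) (z : Co m → R) :
    MvPolynomial.map ((aeval (pt u w z) : MvPolynomial (Cd N m) κ →ₐ[κ] R) :
      MvPolynomial (Cd N m) κ →+* R) (TB_hat p) = aeval (TB_pt u w z) p := by
  refine TB_hom_aeval _ ?_ _ _ ?_ p
  · intro a
    rw [MvPolynomial.algebraMap_apply, MvPolynomial.algebraMap_apply, map_C]
    exact congrArg C ((aeval (pt u w z) : MvPolynomial (Cd N m) κ →ₐ[κ] R).commutes a)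
  · rintro ((i | i) | i)
    · simp [TB_pt]
    · simp [TB_pt]
    · simp [TB_pt]

private theorem TB_aeval_pt {κ R : Type} [Field κ] [Field R] [Algebra κ R]
    (u w : Fin N → R) (z : Co m → R) (t : Fin 3 ⊕ Fin r → R) (p : MvPolynomial (Cd N m) κ) :
    aeval t (aeval (TB_pt u w z) p) = aeval (pt (t (Sum.inl 0) • u)
      (t (Sum.inl 2) • w + t (Sum.inl 1) • u) (sc (fun b => t (Sum.inr b)) z)) p := by
  refine TB_hom_aeval ((aeval t : MvPolynomial (Fin 3 ⊕ Fin r) R →ₐ[R] R) :
    MvPolynomial (Fin 3 ⊕ Fin r) R →+* R) ?_ _ _ ?_ p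
  · intro a
    rw [MvPolynomial.algebraMap_apply]
    exact (aeval t : MvPolynomial (Fin 3 ⊕ Fin r) R →ₐ[R] R).commutes _
  · rintro ((i | i) | i)
    · simp [TB_pt]
    · simp [TB_pt]
    · simp [TB_pt, sc]

theorem exists_borel {κ L : Type} [Field κ] [Field L] [Algebra κ L] (u w : Fin N → L)
    (z : Co m → L) :
    ∃ (L' : Type) (_ : Field L') (_ : Algebra κ L') (_ : Algebra L L') (_ : IsScalarTower κ L L')
      (ν lam μ : L') (ζ : Fin r → L'),
      BSt κ (ν • (fun i => algebraMap L L' (u i)))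
        (lam • (fun i => algebraMap L L' (w i)) + μ • (fun i => algebraMap L L' (u i)))
        (sc ζ (fun i => algebraMap L L' (z i))) ∧
      Sp κ (pt (ν • (fun i => algebraMap L L' (u i)))
        (lam • (fun i => algebraMap L L' (w i)) + μ • (fun i => algebraMap L L' (u i)))
        (sc ζ (fun i => algebraMap L L' (z i))))
        (pt u w z) := by
  let A := MvPolynomial (Fin 3 ⊕ Fin r) L
  let L' := FractionRing A
  have hL : ∀ a : L, algebraMap L L' a = algebraMap A L' (C a) := fun a =>
    IsScalarTower.algebraMap_apply L A L' a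
  -- the value of `p` at the generic point, as a polynomial
  have hP : ∀ p : MvPolynomial (Cd N m) κ,
      aeval (pt ((algebraMap A L' (X (Sum.inl 0))) • (fun i => algebraMap L L' (u i)))
        ((algebraMap A L' (X (Sum.inl 2))) • (fun i => algebraMap L L' (w i)) +
          (algebraMap A L' (X (Sum.inl 1))) • (fun i => algebraMap L L' (u i)))
        (sc (fun b => algebraMap A L' (X (Sum.inr b))) (fun i => algebraMap L L' (z i)))) p = 0 →
      aeval (TB_pt u w z) p = 0 := by
    intro p hp
    apply IsFractionRing.injective A L'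
    rw [map_zero, ← hp]
    refine TB_hom_aeval (algebraMap A L') ?_ _ _ ?_ p
    · intro a
      exact (IsScalarTower.algebraMap_apply κ A L' a).symm
    · rintro ((i | i) | i)
      · show algebraMap A L' (X (Sum.inl 0) * C (u i)) =
          algebraMap A L' (X (Sum.inl 0)) * algebraMap L L' (u i)
        rw [hL, map_mul]
      · show algebraMap A L' (X (Sum.inl 2) * C (w i) + X (Sum.inl 1) * C (u i)) =
          algebraMap A L' (X (Sum.inl 2)) * algebraMap L L' (w i) +
          algebraMap A L' (X (Sum.inl 1)) * algebraMap L L' (u i)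
        rw [hL, hL, map_add, map_mul, map_mul]
      · show algebraMap A L' (X (Sum.inr i.1) * C (z i)) =
          algebraMap A L' (X (Sum.inr i.1)) * algebraMap L L' (z i)
        rw [hL, map_mul]
  refine ⟨L', inferInstance, inferInstance, inferInstance, inferInstance,
    algebraMap A L' (X (Sum.inl 0)), algebraMap A L' (X (Sum.inl 2)),
    algebraMap A L' (X (Sum.inl 1)), fun b => algebraMap A L' (X (Sum.inr b)), ?_, ?_⟩
  · intro M _ _ u' w' z' ν lam μ ζ hs p hp
    have h0 := hP p hp
    -- the polynomial at the product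
    have h1 : aeval (TB_pt ((algebraMap A L' (X (Sum.inl 0))) • (fun i => algebraMap L L' (u i)))
        ((algebraMap A L' (X (Sum.inl 2))) • (fun i => algebraMap L L' (w i)) +
          (algebraMap A L' (X (Sum.inl 1))) • (fun i => algebraMap L L' (u i)))
        (sc (fun b => algebraMap A L' (X (Sum.inr b)))
          (fun i => algebraMap L L' (z i)))) p = 0 := by
      let ψ : A →+* MvPolynomial (Fin 3 ⊕ Fin r) L' :=
        eval₂Hom (C.comp (algebraMap L L')) (Sum.elim
          (![X (Sum.inl 0) * C (algebraMap A L' (X (Sum.inl 0))),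
            X (Sum.inl 2) * C (algebraMap A L' (X (Sum.inl 1))) +
              X (Sum.inl 1) * C (algebraMap A L' (X (Sum.inl 0))),
            X (Sum.inl 2) * C (algebraMap A L' (X (Sum.inl 2)))] :
              Fin 3 → MvPolynomial (Fin 3 ⊕ Fin r) L')
          (fun b => X (Sum.inr b) * C (algebraMap A L' (X (Sum.inr b)))))
      have hψC : ∀ a, ψ (C a) = C (algebraMap L L' a) := fun a => eval₂Hom_C _ _ _
      have hψX : ∀ i, ψ (X (Sum.inl i)) = (![X (Sum.inl 0) * C (algebraMap A L' (X (Sum.inl 0))),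
            X (Sum.inl 2) * C (algebraMap A L' (X (Sum.inl 1))) +
              X (Sum.inl 1) * C (algebraMap A L' (X (Sum.inl 0))),
            X (Sum.inl 2) * C (algebraMap A L' (X (Sum.inl 2)))] :
              Fin 3 → MvPolynomial (Fin 3 ⊕ Fin r) L') i :=
        fun i => eval₂Hom_X' _ _ _
      have hψZ : ∀ b, ψ (X (Sum.inr b)) = X (Sum.inr b) * C (algebraMap A L' (X (Sum.inr b))) :=
        fun b => eval₂Hom_X' _ _ _
      have h2 := congrArg ψ h0
      rw [map_zero] at h2
      rw [← h2]
      symm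
      refine TB_hom_aeval ψ ?_ _ _ ?_ p
      · intro a
        rw [IsScalarTower.algebraMap_apply κ L A]
        show ψ (C (algebraMap κ L a)) = C (algebraMap κ L' a)
        rw [hψC, ← IsScalarTower.algebraMap_apply κ L L']
      · rintro ((i | i) | i)
        · show ψ (X (Sum.inl 0) * C (u i)) =
            X (Sum.inl 0) * C (algebraMap A L' (X (Sum.inl 0)) * algebraMap L L' (u i))
          rw [map_mul, hψC, hψX, C_mul]
          show X (Sum.inl 0) * C (algebraMap A L' (X (Sum.inl 0))) * _ = _
          ring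
        · show ψ (X (Sum.inl 2) * C (w i) + X (Sum.inl 1) * C (u i)) =
            X (Sum.inl 2) * C (algebraMap A L' (X (Sum.inl 2)) * algebraMap L L' (w i) +
              algebraMap A L' (X (Sum.inl 1)) * algebraMap L L' (u i)) +
            X (Sum.inl 1) * C (algebraMap A L' (X (Sum.inl 0)) * algebraMap L L' (u i))
          rw [map_add, map_mul, map_mul, hψC, hψC, hψX, hψX, C_add, C_mul, C_mul, C_mul]
          show X (Sum.inl 2) * C (algebraMap A L' (X (Sum.inl 2))) * _ +
            (X (Sum.inl 2) * C (algebraMap A L' (X (Sum.inl 1))) +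
              X (Sum.inl 1) * C (algebraMap A L' (X (Sum.inl 0)))) * _ = _
          ring
        · show ψ (X (Sum.inr i.1) * C (z i)) =
            X (Sum.inr i.1) * C (algebraMap A L' (X (Sum.inr i.1)) * algebraMap L L' (z i))
          rw [map_mul, hψC, hψZ, C_mul]
          ring
    rw [← TB_map_hat] at h1
    have h4 : MvPolynomial.map ((aeval (pt u' w' z') :
        MvPolynomial (Cd N m) κ →ₐ[κ] M) : MvPolynomial (Cd N m) κ →+* M)
        (TB_hat p) = 0 := by
      ext e
      rw [coeff_map, coeff_zero]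
      refine hs _ ?_
      have h5 := congrArg (coeff e) h1
      rw [coeff_map, coeff_zero] at h5
      exact h5
    rw [TB_map_hat] at h4
    have h7 := TB_aeval_pt (κ := κ) u' w' z' (Sum.elim ![ν, μ, lam] ζ) p
    rw [h4, map_zero] at h7
    exact h7.symm
  · intro p hp
    have h0 := hP p hp
    have h2 := TB_aeval_pt (κ := κ) u w z (Sum.elim ![1, 0, 1] (fun _ => 1)) p
    have h3 : pt ((Sum.elim ![1, 0, 1] (fun _ => 1) : Fin 3 ⊕ Fin r → L) (Sum.inl 0) • u)
        ((Sum.elim ![1, 0, 1] (fun _ => 1) : Fin 3 ⊕ Fin r → L) (Sum.inl 2) • w +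
          (Sum.elim ![1, 0, 1] (fun _ => 1) : Fin 3 ⊕ Fin r → L) (Sum.inl 1) • u)
        (sc (fun b => (Sum.elim ![1, 0, 1] (fun _ => 1) : Fin 3 ⊕ Fin r → L) (Sum.inr b)) z) =
        pt u w z := by
      have e1 : (sc (fun b => (Sum.elim ![1, 0, 1] (fun _ => 1) : Fin 3 ⊕ Fin r → L)
          (Sum.inr b)) z) = z := sc_one z
      rw [e1]
      simp
    rw [h3, h0, map_zero] at h2
    exact h2.symm

end Pool.Agent.Lib.MP_1e3e9c_agP
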