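import Pool.Agent.Lib.MP_1e3e9c_agP.RZ
import Pool.Agent.Lib.MP_1e3e9c_agP.RC
import Pool.Agent.Lib.MP_1e3e9c_agP.Trans

/-!
# a line with high contact

Compare `MP_1e3e9c_agL/Contact.lean` (the same without `z`).  Claim(s), `1 ≤ s ≤ d`: there are a field `L` and `u`, `w`, `z` over `L` with `Ind`, `Adm`, `Zero S u w z`, `BSt k u w z`, `c_j(u, w, z) = 0` for `j < s` and `d + 3 + r - s ≤ td k (pt u w z)`.
START: as in that file (the binary form `F(a u0 + b w0, z0)`; the matrix over `k`, `ζ = 1`).  STEP from `s` to `s + 1` (`1 ≤ s < d`): `4 + r ≤ td`, so `contact_step_z` or `contact_step_c` gives a triple over `k`; `krull`, and the generic Borel translate (`exists_borel`).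
-/

set_option autoImplicit false

namespace Pool.Agent.Lib.MP_1e3e9c_agP

open MvPolynomial
open Pool.Agent.Lib.MP_1e3e9c_agL (Sp Ind td lin cf cf_expand krull td_sp td_mem ind_gl)

variable {N r : ℕ} {m : Fin r → ℕ}

/-- The binary form on the line `(u0, w0)` has a zero over the algebraically closed field. -/
theorem Contact_root {k : Type} [Field k] [IsAlgClosed k] {d : ℕ}
    {F : MvPolynomial (Fin N) k} (hF : F.IsHomogeneous d) (hd : 1 ≤ d) (u0 w0 : Fin N → k) :
    ∃ a b c e : k, a * e - b * c ≠ 0 ∧ aeval (fun i => a * u0 i + b * w0 i) F = 0 := by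
  by_cases h0 : aeval (Sum.elim u0 w0) (cf F d) = 0
  · refine ⟨0, 1, 1, 0, by norm_num, ?_⟩
    rw [cf_expand hF u0 w0 0 1]
    refine Finset.sum_eq_zero fun j hj => ?_
    have hj' : j ≤ d := by
      have := Finset.mem_range.1 hj
      omega
    rcases hj'.lt_or_eq with h | h
    · rw [zero_pow (by omega), mul_zero, zero_mul]
    · rw [h, h0, zero_mul, zero_mul]
  · set P : Polynomial k :=
      ∑ j ∈ Finset.range (d + 1), Polynomial.monomial j (aeval (Sum.elim u0 w0) (cf F j)) with hP
    have hc : P.coeff d = aeval (Sum.elim u0 w0) (cf F d) := by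
      rw [hP, Polynomial.finsetSum_coeff]
      rw [Finset.sum_eq_single d]
      · rw [Polynomial.coeff_monomial, if_pos rfl]
      · intro j _ hj
        rw [Polynomial.coeff_monomial, if_neg hj]
      · intro h
        exact absurd (Finset.mem_range.2 (Nat.lt_succ_self d)) h
    have hdeg : P.degree ≠ 0 := by
      have h1 : (d : WithBot ℕ) ≤ P.degree := Polynomial.le_degree_of_ne_zero (by rw [hc]; exact h0)
      intro h2
      rw [h2] at h1
      have h3 : d ≤ 0 := by exact_mod_cast h1
      omega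
    obtain ⟨b, hb⟩ := IsAlgClosed.exists_root P hdeg
    refine ⟨1, b, 0, 1, by norm_num, ?_⟩
    rw [cf_expand hF u0 w0 1 b]
    have h1 : P.eval b = 0 := hb
    rw [hP, Polynomial.eval_finsetSum] at h1
    rw [← h1]
    refine Finset.sum_congr rfl fun j _ => ?_
    rw [Polynomial.eval_monomial, one_pow, mul_one]

/-- The first coefficient is the value at the first vector. -/
theorem Contact_cf0 {k : Type} [Field k] {d : ℕ}
    {F : MvPolynomial (Fin N) k} (hF : F.IsHomogeneous d) (u w : Fin N → k)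
    (h : aeval u F = 0) : aeval (Sum.elim u w) (cf F 0) = 0 := by
  have h1 := cf_expand hF u w 1 0
  have h2 : (fun i => 1 * u i + 0 * w i) = u := by
    funext i
    ring
  rw [h2, h] at h1
  rw [h1, Finset.sum_eq_single 0]
  · rw [one_pow, pow_zero, mul_one, mul_one]
  · intro j _ hj
    rw [zero_pow hj, mul_zero]
  · intro h3
    exact absurd (Finset.mem_range.2 (Nat.succ_pos d)) h3

/-- A generic Borel translate. -/
theorem Contact_borel {k M : Type} [Field k] [Field M] [Algebra k M] {d s : ℕ} {e : Fin r → ℕ}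
    {S : Set (MvPolynomial (Cd N m) k)} (hS : Stable S) {F : MvPolynomial (Fin N ⊕ Co m) k}
    (hF : MHom F d e) (hm : s ≤ d) (u w : Fin N → M) (z : Co m → M) (hi : Ind u w) (ha : Adm z)
    (hz : Zero S u w z) (hc : ∀ j < s, aeval (pt u w z) (cg F j) = 0) (n : ℕ)
    (ht : (n : Cardinal) ≤ td k (pt u w z)) :
    ∃ (L : Type) (_ : Field L) (_ : Algebra k L) (u' w' : Fin N → L) (z' : Co m → L), Ind u' w' ∧
      Adm z' ∧ Zero S u' w' z' ∧
      BSt k u' w' z' ∧ (∀ j < s, aeval (pt u' w' z') (cg F j) = 0) ∧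
      (n : Cardinal) ≤ td k (pt u' w' z') := by
  obtain ⟨L, iF, iA, iM, iT, ν, lam, μ, ζ, hB, hSp⟩ := exists_borel (κ := k) u w z
  have hmap := (sp_map (k := k) (L := M) (M := L) u w z).1
  have hz1 : Zero S (fun i => algebraMap M L (u i)) (fun i => algebraMap M L (w i))
      (fun i => algebraMap M L (z i)) := zero_sp hmap hz
  have hz2 := hS L _ _ _ ν 0 μ lam ζ hz1
  rw [zero_smul, add_zero, add_comm (μ • fun i => algebraMap M L (u i))] at hz2
  have hc1 : ∀ j < s, aeval (pt (fun i => algebraMap M L (u i))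
      (fun i => algebraMap M L (w i)) (fun i => algebraMap M L (z i))) (cg F j) = 0 :=
    fun j hj => hmap _ (hc j hj)
  exact ⟨L, iF, iA, _, _, _, ind_sp hSp hi, adm_sp hSp ha, hz2, hB,
    (cg_borel hF _ _ _ ν lam μ ζ hm hc1).1, ht.trans (td_sp hSp)⟩

/-- Cutting with `cg F s` and translating. -/
theorem Contact_cut {k L : Type} [Field k] [Field L] [Algebra k L] {d s : ℕ} {e : Fin r → ℕ}
    {S : Set (MvPolynomial (Cd N m) k)} (hS : Stable S) {F : MvPolynomial (Fin N ⊕ Co m) k}
    (hF : MHom F d e) (hm : s + 1 ≤ d) (u w : Fin N → L) (z : Co m → L) (hz : Zero S u w z)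
    (hc : ∀ j < s, aeval (pt u w z) (cg F j) = 0) (n : ℕ)
    (ht : ((n + 1 : ℕ) : Cardinal) ≤ td k (pt u w z)) (u' w' : Fin N → k) (z' : Co m → k)
    (hi : Ind u' w') (ha : Adm z')
    (hs : Sp k (pt u w z) (pt u' w' z')) (hc' : aeval (pt u' w' z') (cg F s) = 0) :
    ∃ (L : Type) (_ : Field L) (_ : Algebra k L) (u' w' : Fin N → L) (z' : Co m → L), Ind u' w' ∧
      Adm z' ∧ Zero S u' w' z' ∧
      BSt k u' w' z' ∧ (∀ j < s + 1, aeval (pt u' w' z') (cg F j) = 0) ∧
      (n : Cardinal) ≤ td k (pt u' w' z') := by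
  obtain ⟨M, iF, iA, y, h1, h2, h3, h4⟩ := krull hs (cg F s) hc' n ht
  have hy' : y = pt (fun i => y (Sum.inl (Sum.inl i))) (fun i => y (Sum.inl (Sum.inr i)))
      (fun i => y (Sum.inr i)) := by
    funext i
    rcases i with (i | i) | i <;> rfl
  rw [hy'] at h1 h2 h3 h4
  refine Contact_borel hS hF hm _ _ _ (ind_sp h2 hi) (adm_sp h2 ha) (zero_sp h1 hz) ?_ n h4
  intro j hj
  rcases Nat.lt_succ_iff_lt_or_eq.1 hj with h | h
  · exact h1 _ (hc j h)
  · rw [h]
    exact h3

/-- The substitution of a matrix over `k`. -/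
theorem Contact_sp {k L L' : Type} [Field k] [Field L] [Algebra k L] [Field L']
    [Algebra k L'] (u w : Fin N → L) (z : Co m → L) (u' w' : Fin N → L') (z' : Co m → L')
    (a b c e : k) (h : Sp k (pt u w z) (pt u' w' z')) :
    Sp k (pt (algebraMap k L a • u + algebraMap k L b • w)
        (algebraMap k L c • u + algebraMap k L e • w) z)
      (pt (algebraMap k L' a • u' + algebraMap k L' b • w')
        (algebraMap k L' c • u' + algebraMap k L' e • w') z') := by
  have key : ∀ (M : Type) [Field M] [Algebra k M] (x y : Fin N → M) (t : Co m → M)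
      (p : MvPolynomial (Cd N m) k),
      aeval (pt x y t) (bind₁ (Sum.elim (Sum.elim
        (fun i => C a * X (Sum.inl (Sum.inl i)) + C b * X (Sum.inl (Sum.inr i)))
        (fun i => C c * X (Sum.inl (Sum.inl i)) + C e * X (Sum.inl (Sum.inr i))))
        (fun i => X (Sum.inr i)) : Cd N m → MvPolynomial (Cd N m) k) p) =
      aeval (pt (algebraMap k M a • x + algebraMap k M b • y)
        (algebraMap k M c • x + algebraMap k M e • y) t) p := by
    intro M _ _ x y t p
    rw [aeval_bind₁]
    congr 2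
    funext i
    rcases i with (i | i) | i
    · simp [Algebra.smul_def]
    · simp [Algebra.smul_def]
    · simp
  intro p hp
  rw [← key] at hp ⊢
  exact h _ hp

/-- The transcendence degree after the substitution of an invertible matrix over `k`. -/
theorem Contact_td {k L : Type} [Field k] [Field L] [Algebra k L] (u w : Fin N → L)
    (z : Co m → L) (a b c e : k) (hdet : a * e - b * c ≠ 0) :
    td k (pt u w z) ≤ td k (pt
        (algebraMap k L a • u + algebraMap k L b • w)
        (algebraMap k L c • u + algebraMap k L e • w) z) := by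
  refine td_mem ?_
  have hD : algebraMap k L a * algebraMap k L e - algebraMap k L b * algebraMap k L c ≠ 0 := by
    rw [← map_mul, ← map_mul, ← map_sub]
    exact fun h => hdet ((map_eq_zero_iff _ (algebraMap k L).injective).1 h)
  set Z := pt (algebraMap k L a • u + algebraMap k L b • w)
    (algebraMap k L c • u + algebraMap k L e • w) z with hZ
  have hm1 : ∀ i, (algebraMap k L a * u i + algebraMap k L b * w i) ∈
      IntermediateField.adjoin k (Set.range Z) := fun i =>
    IntermediateField.subset_adjoin _ _ ⟨Sum.inl (Sum.inl i), rfl⟩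
  have hm2 : ∀ i, (algebraMap k L c * u i + algebraMap k L e * w i) ∈
      IntermediateField.adjoin k (Set.range Z) := fun i =>
    IntermediateField.subset_adjoin _ _ ⟨Sum.inl (Sum.inr i), rfl⟩
  have hk : ∀ x : k, algebraMap k L x ∈ IntermediateField.adjoin k (Set.range Z) := fun x =>
    IntermediateField.algebraMap_mem _ x
  rintro ((i | i) | i)
  · have h1 : u i = (algebraMap k L e * (algebraMap k L a * u i + algebraMap k L b * w i) -
        algebraMap k L b * (algebraMap k L c * u i + algebraMap k L e * w i)) /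
        (algebraMap k L a * algebraMap k L e - algebraMap k L b * algebraMap k L c) := by
      rw [eq_div_iff hD]
      ring
    show u i ∈ _
    rw [h1]
    exact div_mem (sub_mem (mul_mem (hk e) (hm1 i)) (mul_mem (hk b) (hm2 i)))
      (sub_mem (mul_mem (hk a) (hk e)) (mul_mem (hk b) (hk c)))
  · have h1 : w i = (algebraMap k L a * (algebraMap k L c * u i + algebraMap k L e * w i) -
        algebraMap k L c * (algebraMap k L a * u i + algebraMap k L b * w i)) /
        (algebraMap k L a * algebraMap k L e - algebraMap k L b * algebraMap k L c) := by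
      rw [eq_div_iff hD]
      ring
    show w i ∈ _
    rw [h1]
    exact div_mem (sub_mem (mul_mem (hk a) (hm2 i)) (mul_mem (hk c) (hm1 i)))
      (sub_mem (mul_mem (hk a) (hk e)) (mul_mem (hk b) (hk c)))
  · exact IntermediateField.subset_adjoin _ _ ⟨Sum.inr i, rfl⟩

theorem exists_contact {k L : Type} [Field k] [IsAlgClosed k] [Field L] [Algebra k L] {d : ℕ}
    {e : Fin r → ℕ} (S : Set (MvPolynomial (Cd N m) k)) (hS : Stable S)
    {F : MvPolynomial (Fin N ⊕ Co m) k} (hF : MHom F d e) (hd : 1 ≤ d) (he : ∀ b, 1 ≤ e b)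
    (u0 w0 : Fin N → k) (z0 : Co m → k) (hi : Ind u0 w0) (ha : Adm z0)
    (u w : Fin N → L) (z : Co m → L) (hz : Zero S u w z) (hs : Sp k (pt u w z) (pt u0 w0 z0))
    (ht : ((d + 3 + r : ℕ) : Cardinal) ≤ td k (pt u w z)) :
    ∃ (u' w' : Fin N → k) (z' : Co m → k), Ind u' w' ∧ Adm z' ∧ Zero S u' w' z' ∧
      ∀ j < d, aeval (pt u' w' z') (cg F j) = 0 := by
  obtain ⟨a, b, c, e', hdet, hroot⟩ := Contact_root (fz_hom hF z0) hd u0 w0
  -- the claim
  have claim : ∀ s : ℕ, s + 1 ≤ d → ∃ (L : Type) (_ : Field L) (_ : Algebra k L)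
      (u' w' : Fin N → L) (z' : Co m → L), Ind u' w' ∧ Adm z' ∧ Zero S u' w' z' ∧
      BSt k u' w' z' ∧ (∀ j < s + 1, aeval (pt u' w' z') (cg F j) = 0) ∧
      ((d + 2 + r - s : ℕ) : Cardinal) ≤ td k (pt u' w' z') := by
    intro s
    induction s with
    | zero =>
      intro _
      have hz1 := hS L u w z (algebraMap k L a) (algebraMap k L b) (algebraMap k L c)
        (algebraMap k L e') (fun _ => 1) hz
      rw [sc_one] at hz1
      have hsp := Contact_sp u w z u0 w0 z0 a b c e' hs
      have hi' : Ind (algebraMap k k a • u0 + algebraMap k k b • w0)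
          (algebraMap k k c • u0 + algebraMap k k e' • w0) := ind_gl hi hdet
      have hcf : aeval (pt (algebraMap k k a • u0 + algebraMap k k b • w0)
          (algebraMap k k c • u0 + algebraMap k k e' • w0) z0) (cg F 0) = 0 := by
        rw [cg_eval]
        exact Contact_cf0 (fz_hom hF z0) _ _ hroot
      have htd := Contact_td u w z a b c e' hdet
      have ht' : ((d + 2 + r - 0 + 1 : ℕ) : Cardinal) ≤ td k (pt u w z) := by
        have h5 : d + 2 + r - 0 + 1 = d + 3 + r := by omega
        rw [h5]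
        exact ht
      exact Contact_cut hS hF hd _ _ _ hz1 (fun j hj => absurd hj (Nat.not_lt_zero j)) _
        (ht'.trans htd) _ _ _ hi' ha hsp hcf
    | succ s ih =>
      intro hm
      obtain ⟨M, iF, iA, u1, w1, z1, hi1, ha1, hz1, hB1, hc1, ht1⟩ := ih (by omega)
      obtain ⟨u2, w2, z2, hi2, ha2, hs2, hc2⟩ : ∃ (u' w' : Fin N → k) (z' : Co m → k), Ind u' w' ∧
          Adm z' ∧ Sp k (pt u1 w1 z1) (pt u' w' z') ∧
          aeval (pt u' w' z') (cg F (s + 1)) = 0 := by
        by_cases hne : ∃ (z0 : Co m → k) (ζ : Fin r → M), z1 = sc ζ (fun i => algebraMap k M (z0 i))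
        · obtain ⟨y, ζ, hy⟩ := hne
          refine contact_step_c (Nat.le_add_left 1 s) hm hF u1 w1 z1 hi1 ha1 hB1 hc1 y ζ hy
            (le_trans ?_ ht1)
          have h4 : 4 + r ≤ d + 2 + r - s := by omega
          exact_mod_cast h4
        · exact contact_step_z (Nat.le_add_left 1 s) hm hF he u1 w1 z1 hi1 ha1 hB1 hc1 hne
      have ht2 : ((d + 2 + r - (s + 1) + 1 : ℕ) : Cardinal) ≤ td k (pt u1 w1 z1) := by
        have h5 : d + 2 + r - (s + 1) + 1 = d + 2 + r - s := by omega
        rw [h5]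
        exact ht1
      exact Contact_cut hS hF hm u1 w1 z1 hz1 hc1 _ ht2 u2 w2 z2 hi2 ha2 hs2 hc2
  obtain ⟨M, iF, iA, u1, w1, z1, hi1, ha1, hz1, -, hc1, -⟩ := claim (d - 1) (by omega)
  obtain ⟨u2, w2, z2, hi2, ha2, hs2, -⟩ := exists_kflat (k := k) u1 w1 z1 hi1 ha1 1
    (by rw [map_one]; exact one_ne_zero)
  exact ⟨u2, w2, z2, hi2, ha2, zero_sp hs2 hz1, fun j hj => hs2 _ (hc1 j (by omega))⟩

end Pool.Agent.Lib.MP_1e3e9c_agP
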