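import Pool.Agent.Lib.MP_1e3e9c_agP.Pt

/-!
# forms without common zero on a closed subset of small dimension

PROOF.  A prime `P` of `R = MvPolynomial (Fin N ⊕ Co m) k` is relevant if it does not contain all `X (inl i)` and, for every `b`, not all `X (inr ⟨b, i⟩)`.  Claim(s), `s ≤ c`: there are `F_j` of multidegree `(d j, e j)` (`j < s`) such that every relevant prime `P ⊇ S ∪ {F_j : j < s}` satisfies `ringKrullDim (R ⧸ P) ≤ c + r - s` (as `+ s ≤ c + r`).
Claim(0): `R ⧸ span S → R ⧸ P` is onto (`ringKrullDim_le_of_surjective`).  STEP: `I_s = span (S ∪ {F_j : j < s})` has finitely many minimal primes; let `P_1, ..., P_a` be the relevant ones.  Choose a linear form `l_A = ∑ h_i X (inl i)` not in any `P_i` and `l_b = ∑ h_i X (inr ⟨b, i⟩)` not in any `P_i` (the `h` with `l_h ∈ P_i` form a proper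
subspace of `k ^ N`; `k` is infinite: `Subspace.biUnion_ne_univ_of_top_notMem`-type lemma or, choosing a `k`-point of `P_i` outside (`MvPolynomial` Nullstellensatz), a nonzero polynomial in `h` and `MvPolynomial.funext`).  `F_s = l_A ^ (d s) * ∏ b, l_b ^ (e s b)` is of multidegree `(d s, e s)` and not in any `P_i`.  Let `P ⊇ I_(s+1)` be relevant; it contains a
minimal prime `P'` of `I_s`, also relevant (contained in `P`), so `F_s ∈ P \ P'`, `P' < P` and `ringKrullDim (R ⧸ P) + 1 ≤ ringKrullDim (R ⧸ P') ≤ c + r - s` (`ringKrullDim_succ_le_of_surjective`/ order embedding of chains).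
END: suppose `(x, z)` over `k`, `x ≠ 0`, `Adm z`, is a common zero of `S` and all `F_j`.  For `0 ≤ i ≤ r + 1` let `K_i` be the kernel of the `k`-algebra map `R → MvPolynomial (Fin (r + 1)) k`, `X (inl j) ↦ x j * T_0`, `X (inr ⟨b, j⟩) ↦ z ⟨b, j⟩ * T_(b+1)`, followed by `T_a ↦ 0` for `a < i`: primes `K_0 < K_1 < ... < K_(r+1)`, `K_0` contains `S` and the `F_j`
because they are multihomogeneous (their image is the value at `(x, z)` times a monomial, zero), and `K_0` is relevant.  So `r + 1 ≤ ringKrullDim (R ⧸ K_0) ≤ c + r - c = r`: contradiction.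
-/

set_option autoImplicit false

namespace Pool.Agent.Lib.MP_1e3e9c_agP

open MvPolynomial
open Pool.Agent.Lib.MP_1e3e9c_agL (Sp Ind td)

variable {N r : ℕ} {m : Fin r → ℕ}

/-- the value of a multihomogeneous polynomial at a scaled point of a ring -/
theorem MHom.scale {k R : Type} [Field k] [CommRing R] [Algebra k R]
    {F : MvPolynomial (Fin N ⊕ Co m) k} {d : ℕ} {e : Fin r → ℕ} (hF : MHom F d e)
    (x : Fin N → R) (z : Co m → R) (s : R) (ζ : Fin r → R) :
    aeval (Sum.elim (fun i => x i * s) (fun i => z i * ζ i.1)) F =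
      s ^ d * (∏ b, ζ b ^ e b) * aeval (Sum.elim x z) F := by
  classical
  rw [aeval_def, aeval_def, eval₂_eq', eval₂_eq', Finset.mul_sum]
  refine Finset.sum_congr rfl fun n hn => ?_
  obtain ⟨h1, h2⟩ := hF n hn
  have e1 : (∏ i : Fin N ⊕ Co m, (Sum.elim (fun i => x i * s) (fun i => z i * ζ i.1) : Fin N ⊕ Co m → R) i ^ n i) =
      s ^ d * (∏ b, ζ b ^ e b) * ∏ i : Fin N ⊕ Co m, (Sum.elim x z : Fin N ⊕ Co m → R) i ^ n i := by
    rw [Fintype.prod_sum_type, Fintype.prod_sum_type]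
    simp only [Sum.elim_inl, Sum.elim_inr, mul_pow, Finset.prod_mul_distrib]
    have e2 : (∏ i : Fin N, s ^ n (Sum.inl i)) = s ^ d := by
      rw [Finset.prod_pow_eq_pow_sum, h1]
    have e3 : (∏ i : Co m, ζ i.1 ^ n (Sum.inr i)) = ∏ b, ζ b ^ e b := by
      rw [Fintype.prod_sigma]
      refine Finset.prod_congr rfl fun b _ => ?_
      show (∏ y : Fin (m b), ζ b ^ n (Sum.inr ⟨b, y⟩)) = ζ b ^ e b
      rw [Finset.prod_pow_eq_pow_sum, h2 b]
    rw [e2, e3]
    ring
  rw [e1]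
  ring

theorem MHom.mul {k : Type} [Field k] {F G : MvPolynomial (Fin N ⊕ Co m) k} {d d' : ℕ}
    {e e' : Fin r → ℕ} (hF : MHom F d e) (hG : MHom G d' e') : MHom (F * G) (d + d') (e + e') := by
  classical
  intro n hn
  obtain ⟨a, ha, b, hb, rfl⟩ := Finset.mem_add.1 (support_mul F G hn)
  obtain ⟨h1, h2⟩ := hF a ha
  obtain ⟨h3, h4⟩ := hG b hb
  refine ⟨?_, fun i => ?_⟩
  · simp only [Finsupp.add_apply, Finset.sum_add_distrib]
    rw [h1, h3]
  · simp only [Finsupp.add_apply, Finset.sum_add_distrib, Pi.add_apply]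
    rw [h2 i, h4 i]

theorem Conv_one {k : Type} [Field k] : MHom (1 : MvPolynomial (Fin N ⊕ Co m) k) 0 0 := by
  classical
  intro n hn
  rw [mem_support_iff, coeff_one] at hn
  have h0 : n = 0 := by
    by_contra h
    exact hn (if_neg (Ne.symm h))
  subst h0
  refine ⟨?_, fun b => ?_⟩ <;> simp

theorem Conv_pow {k : Type} [Field k] {F : MvPolynomial (Fin N ⊕ Co m) k} {d : ℕ}
    {e : Fin r → ℕ} (hF : MHom F d e) (n : ℕ) : MHom (F ^ n) (n * d) (n • e) := by
  induction n with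
  | zero =>
    rw [pow_zero, zero_mul, zero_smul]
    exact Conv_one
  | succ n ih =>
    rw [pow_succ, Nat.succ_mul, succ_nsmul]
    exact ih.mul hF

theorem Conv_prod {k : Type} [Field k] {β : Type} (s : Finset β)
    (F : β → MvPolynomial (Fin N ⊕ Co m) k) (d : β → ℕ) (e : β → Fin r → ℕ)
    (h : ∀ b, MHom (F b) (d b) (e b)) : MHom (∏ b ∈ s, F b) (∑ b ∈ s, d b) (∑ b ∈ s, e b) := by
  classical
  induction s using Finset.induction_on with
  | empty =>
    rw [Finset.prod_empty, Finset.sum_empty, Finset.sum_empty]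
    exact Conv_one
  | insert a s ha ih =>
    rw [Finset.prod_insert ha, Finset.sum_insert ha, Finset.sum_insert ha]
    exact (h a).mul ih

theorem Conv_linA {k : Type} [Field k] (h : Fin N → k) :
    MHom (∑ i, h i • X (Sum.inl i) : MvPolynomial (Fin N ⊕ Co m) k) 1 0 := by
  classical
  intro n hn
  have h1 : ∃ i : Fin N, n = Finsupp.single (Sum.inl i : Fin N ⊕ Co m) 1 := by
    by_contra hcon
    push Not at hcon
    rw [mem_support_iff] at hn
    refine hn ?_
    rw [coeff_sum]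
    refine Finset.sum_eq_zero fun i _ => ?_
    rw [coeff_smul, coeff_X, if_neg (Ne.symm (hcon i)), smul_zero]
  obtain ⟨i, rfl⟩ := h1
  refine ⟨?_, fun b => ?_⟩
  · rw [Finset.sum_eq_single i]
    · simp
    · intro j _ hj
      rw [Finsupp.single_apply, if_neg (fun hc => hj (Sum.inl_injective hc).symm)]
    · intro hc
      exact absurd (Finset.mem_univ i) hc
  · rw [Pi.zero_apply]
    refine Finset.sum_eq_zero fun j _ => ?_
    rw [Finsupp.single_apply, if_neg (fun hc => by cases hc)]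

theorem Conv_linB {k : Type} [Field k] (b : Fin r) (h : Fin (m b) → k) :
    MHom (∑ i, h i • X (Sum.inr ⟨b, i⟩) : MvPolynomial (Fin N ⊕ Co m) k) 0 (Pi.single b 1) := by
  classical
  intro n hn
  have h1 : ∃ i : Fin (m b), n = Finsupp.single (Sum.inr ⟨b, i⟩ : Fin N ⊕ Co m) 1 := by
    by_contra hcon
    push Not at hcon
    rw [mem_support_iff] at hn
    refine hn ?_
    rw [coeff_sum]
    refine Finset.sum_eq_zero fun i _ => ?_
    rw [coeff_smul, coeff_X, if_neg (Ne.symm (hcon i)), smul_zero]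
  obtain ⟨i, rfl⟩ := h1
  refine ⟨?_, fun b' => ?_⟩
  · refine Finset.sum_eq_zero fun j _ => ?_
    rw [Finsupp.single_apply, if_neg (fun hc => by cases hc)]
  · rcases eq_or_ne b' b with hb | hb
    · subst hb
      rw [Pi.single_eq_same, Finset.sum_eq_single i]
      · simp
      · intro j _ hj
        rw [Finsupp.single_apply, if_neg]
        intro hc
        have h2 := Sum.inr_injective hc
        exact hj (eq_of_heq (Sigma.mk.inj h2).2).symm
      · intro hc
        exact absurd (Finset.mem_univ i) hc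
    · rw [Pi.single_eq_of_ne hb]
      refine Finset.sum_eq_zero fun j _ => ?_
      rw [Finsupp.single_apply, if_neg]
      intro hc
      have h2 := Sum.inr_injective hc
      exact hb (Sigma.mk.inj h2).1.symm

/-- a relevant prime -/
def Conv_Rel {k : Type} [Field k] (P : Ideal (MvPolynomial (Fin N ⊕ Co m) k)) : Prop :=
  (∃ i, X (Sum.inl i) ∉ P) ∧ ∀ b, ∃ i, X (Sum.inr ⟨b, i⟩) ∉ P

theorem Conv_Rel.mono {k : Type} [Field k] {P P' : Ideal (MvPolynomial (Fin N ⊕ Co m) k)}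
    (h : Conv_Rel P) (hP : P' ≤ P) : Conv_Rel P' := by
  obtain ⟨⟨i, hi⟩, h2⟩ := h
  refine ⟨⟨i, fun hc => hi (hP hc)⟩, fun b => ?_⟩
  obtain ⟨j, hj⟩ := h2 b
  exact ⟨j, fun hc => hj (hP hc)⟩

/-- a linear combination outside finitely many ideals -/
theorem Conv_avoid {k R J : Type} [Field k] [Infinite k] [CommRing R] [Algebra k R] [Fintype J]
    (v : J → R) (T : Set (Ideal R)) (hT : T.Finite) (h : ∀ P ∈ T, ∃ j, v j ∉ P) :
    ∃ c : J → k, ∀ P ∈ T, ∑ j, c j • v j ∉ P := by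
  classical
  have : Finite T := hT
  by_contra hcon
  push Not at hcon
  obtain ⟨P, hP⟩ := Subspace.exists_eq_top_of_iUnion_eq_univ (k := k) (E := J → k)
    (p := fun P : T => Submodule.comap (Fintype.linearCombination k v)
      (Submodule.restrictScalars k P.1)) (by
      rw [Set.eq_univ_iff_forall]
      intro c
      obtain ⟨P, hP, hc⟩ := hcon c
      refine Set.mem_iUnion.2 ⟨⟨P, hP⟩, ?_⟩
      show Fintype.linearCombination k v c ∈ P
      rw [Fintype.linearCombination_apply]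
      exact hc)
  obtain ⟨j, hj⟩ := h P.1 P.2
  refine hj ?_
  have h1 : (Pi.single j 1 : J → k) ∈ Submodule.comap (Fintype.linearCombination k v)
      (Submodule.restrictScalars k P.1) := by
    rw [hP]
    exact Submodule.mem_top
  have h2 : Fintype.linearCombination k v (Pi.single j 1) ∈ P.1 := h1
  rwa [Fintype.linearCombination_apply_single, one_smul] at h2

theorem Conv_e (d : ℕ) (e : Fin r → ℕ) :
    d • (0 : Fin r → ℕ) + ∑ b : Fin r, e b • (Pi.single b 1 : Fin r → ℕ) = e := by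
  funext a
  rw [Pi.add_apply, Pi.smul_apply, Pi.zero_apply, smul_zero, zero_add, Finset.sum_apply]
  have h : ∀ b ∈ (Finset.univ : Finset (Fin r)), (e b • (Pi.single b 1 : Fin r → ℕ)) a =
      if a = b then e b else 0 := by
    intro b _
    rw [Pi.smul_apply, Pi.single_apply, smul_eq_mul, mul_ite, mul_one, mul_zero]
  rw [Finset.sum_congr rfl h, Finset.sum_ite_eq, if_pos (Finset.mem_univ a)]

theorem Conv_formA {k : Type} [Field k] [Infinite k]
    (T : Set (Ideal (MvPolynomial (Fin N ⊕ Co m) k))) (hT : T.Finite)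
    (hr : ∀ P ∈ T, Conv_Rel P) :
    ∃ F : MvPolynomial (Fin N ⊕ Co m) k, MHom F 1 0 ∧ ∀ P ∈ T, F ∉ P := by
  obtain ⟨h, hh⟩ := Conv_avoid (k := k) (fun i : Fin N => (X (Sum.inl i) :
    MvPolynomial (Fin N ⊕ Co m) k)) T hT (fun P hP => (hr P hP).1)
  exact ⟨_, Conv_linA h, hh⟩

theorem Conv_formB {k : Type} [Field k] [Infinite k]
    (T : Set (Ideal (MvPolynomial (Fin N ⊕ Co m) k))) (hT : T.Finite)
    (hr : ∀ P ∈ T, Conv_Rel P) (b : Fin r) :
    ∃ F : MvPolynomial (Fin N ⊕ Co m) k, MHom F 0 (Pi.single b 1) ∧ ∀ P ∈ T, F ∉ P := by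
  obtain ⟨c, hc⟩ := Conv_avoid (k := k) (fun i : Fin (m b) => (X (Sum.inr ⟨b, i⟩) :
      MvPolynomial (Fin N ⊕ Co m) k)) T hT (fun P hP => (hr P hP).2 b)
  exact ⟨_, Conv_linB b c, hc⟩

theorem Conv_form {k : Type} [Field k] [Infinite k]
    (T : Set (Ideal (MvPolynomial (Fin N ⊕ Co m) k))) (hT : T.Finite)
    (hp : ∀ P ∈ T, P.IsPrime) (hr : ∀ P ∈ T, Conv_Rel P) (d : ℕ) (e : Fin r → ℕ) :
    ∃ F : MvPolynomial (Fin N ⊕ Co m) k, MHom F d e ∧ ∀ P ∈ T, F ∉ P := by
  obtain ⟨L, hL, hLP⟩ := Conv_formA T hT hr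
  choose G hG hGP using Conv_formB T hT hr
  refine ⟨L ^ d * ∏ b : Fin r, G b ^ e b, ?_, ?_⟩
  · have h1 : MHom (L ^ d) (d * 1) (d • (0 : Fin r → ℕ)) := Conv_pow hL d
    have h2 : ∀ b : Fin r, MHom (G b ^ e b) (e b * 0) (e b • (Pi.single b 1 : Fin r → ℕ)) :=
      fun b => Conv_pow (hG b) (e b)
    have h3 := Conv_prod Finset.univ (fun b => G b ^ e b) (fun b => e b * 0)
        (fun b => e b • (Pi.single b 1 : Fin r → ℕ)) h2
    have h4 := h1.mul h3
    have e1 : d * 1 + ∑ b : Fin r, e b * 0 = d := by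
      rw [mul_one, Finset.sum_eq_zero (fun b _ => mul_zero _), add_zero]
    rw [e1, Conv_e] at h4
    exact h4
  · intro P hP hmem
    have hPp := hp P hP
    rcases hPp.mem_or_mem hmem with h1 | h1
    · exact hLP P hP (hPp.mem_of_pow_mem _ h1)
    · obtain ⟨b, -, h2⟩ := (Ideal.IsPrime.prod_mem_iff).1 h1
      exact hGP b P hP (hPp.mem_of_pow_mem _ h2)

theorem Conv_step {k : Type} [Field k] [Infinite k] (C : WithBot ℕ∞)
    (S : Set (MvPolynomial (Fin N ⊕ Co m) k))
    (hdim : ringKrullDim (MvPolynomial (Fin N ⊕ Co m) k ⧸ Ideal.span S) ≤ C) :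
    ∀ (s : ℕ) (d : Fin s → ℕ) (e : Fin s → Fin r → ℕ),
    ∃ F : Fin s → MvPolynomial (Fin N ⊕ Co m) k, (∀ j, MHom (F j) (d j) (e j)) ∧
      ∀ P : Ideal (MvPolynomial (Fin N ⊕ Co m) k), P.IsPrime → Conv_Rel P → S ⊆ P →
        (∀ j, F j ∈ P) → ringKrullDim (MvPolynomial (Fin N ⊕ Co m) k ⧸ P) + (s : ℕ) ≤ C := by
  intro s
  induction s with
  | zero =>
    intro d e
    refine ⟨fun j => j.elim0, fun j => j.elim0, fun P hP hR hS _ => ?_⟩
    rw [Nat.cast_zero, add_zero]
    refine le_trans ?_ hdim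
    exact ringKrullDim_le_of_surjective (Ideal.Quotient.factor (Ideal.span_le.2 hS))
      (Ideal.Quotient.factor_surjective _)
  | succ s ih =>
    intro d e
    obtain ⟨F, hF, hP⟩ := ih (fun j => d j.castSucc) (fun j => e j.castSucc)
    have hfin := Ideal.finite_minimalPrimes_of_isNoetherianRing (MvPolynomial (Fin N ⊕ Co m) k)
      (Ideal.span (S ∪ Set.range F))
    obtain ⟨G, hG, hGP⟩ := Conv_form (N := N) (m := m) {P | P ∈ (Ideal.span (S ∪ Set.range F)).minimalPrimes ∧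
      Conv_Rel P} (hfin.subset fun P hP => hP.1) (fun P hP => hP.1.1.1) (fun P hP => hP.2)
      (d (Fin.last s)) (e (Fin.last s))
    refine ⟨Fin.snoc (α := fun _ => MvPolynomial (Fin N ⊕ Co m) k) F G, fun j => ?_,
      fun P hPp hR hS hFP => ?_⟩
    · refine Fin.lastCases ?_ (fun j => ?_) j
      · rw [Fin.snoc_last]
        exact hG
      · rw [Fin.snoc_castSucc]
        exact hF j
    · have h1 : Ideal.span (S ∪ Set.range F) ≤ P := by
        rw [Ideal.span_le]
        rintro x (hx | ⟨j, rfl⟩)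
        · exact hS hx
        · have := hFP j.castSucc
          rwa [Fin.snoc_castSucc] at this
      obtain ⟨P', hP', hle⟩ := Ideal.exists_minimalPrimes_le h1
      have hR' : Conv_Rel P' := hR.mono hle
      have hPp' : P'.IsPrime := hP'.1.1
      have h2 : Ideal.span (S ∪ Set.range F) ≤ P' := hP'.1.2
      have h3 := hP P' hPp' hR' (fun x hx => h2 (Ideal.subset_span (Or.inl hx)))
        (fun j => h2 (Ideal.subset_span (Or.inr ⟨j, rfl⟩)))
      have hG1 : G ∈ P := by
        have := hFP (Fin.last s)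
        rwa [Fin.snoc_last] at this
      have hG2 : G ∉ P' := hGP P' ⟨hP', hR'⟩
      have h4 : ringKrullDim (MvPolynomial (Fin N ⊕ Co m) k ⧸ P) + 1 ≤
          ringKrullDim (MvPolynomial (Fin N ⊕ Co m) k ⧸ P') := by
        refine ringKrullDim_succ_le_of_surjective (Ideal.Quotient.factor hle)
          (Ideal.Quotient.factor_surjective _) (r := Ideal.Quotient.mk P' G) ?_ ?_
        · refine mem_nonZeroDivisors_of_ne_zero ?_
          rw [Ne, Ideal.Quotient.eq_zero_iff_mem]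
          exact hG2
        · rw [Ideal.Quotient.factor_mk, Ideal.Quotient.eq_zero_iff_mem]
          exact hG1
      calc ringKrullDim (MvPolynomial (Fin N ⊕ Co m) k ⧸ P) + ((s + 1 : ℕ) : WithBot ℕ∞)
          = (ringKrullDim (MvPolynomial (Fin N ⊕ Co m) k ⧸ P) + 1) + (s : ℕ) := by
            push_cast
            rw [add_assoc, add_comm (1 : WithBot ℕ∞)]
        _ ≤ ringKrullDim (MvPolynomial (Fin N ⊕ Co m) k ⧸ P') + (s : ℕ) := by gcongr
        _ ≤ C := h3

/-- the map to the coordinate ring of the orbit of a point -/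
noncomputable def Conv_phi {k : Type} [Field k] (x : Fin N → k) (z : Co m → k) :
    MvPolynomial (Fin N ⊕ Co m) k →ₐ[k] MvPolynomial (Fin (r + 1)) k :=
  aeval (Sum.elim (fun i => C (x i) * X 0) (fun i => C (z i) * X i.1.succ))

theorem Conv_phi_l {k : Type} [Field k] (x : Fin N → k) (z : Co m → k) (i : Fin N) :
    Conv_phi x z (X (Sum.inl i)) = C (x i) * X 0 := by
  rw [Conv_phi, aeval_X, Sum.elim_inl]

theorem Conv_phi_r {k : Type} [Field k] (x : Fin N → k) (z : Co m → k) (i : Co m) :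
    Conv_phi x z (X (Sum.inr i)) = C (z i) * X i.1.succ := by
  rw [Conv_phi, aeval_X, Sum.elim_inr]

theorem Conv_phi_C {k : Type} [Field k] (x : Fin N → k) (z : Co m → k) (a : k) :
    Conv_phi x z (C a) = C a := by
  rw [Conv_phi, aeval_C, MvPolynomial.algebraMap_eq]

theorem Conv_phi_surj {k : Type} [Field k] (x : Fin N → k) (z : Co m → k) (hx : x ≠ 0)
    (hz : Adm z) : Function.Surjective (Conv_phi x z) := by
  obtain ⟨i0, hi0⟩ : ∃ i, x i ≠ 0 := by
    by_contra h
    push Not at h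
    exact hx (funext h)
  have h1 : ∀ a : Fin (r + 1), ∃ q, Conv_phi x z q = X a := by
    intro a
    refine Fin.cases ?_ (fun b => ?_) a
    · refine ⟨C (x i0)⁻¹ * X (Sum.inl i0), ?_⟩
      rw [map_mul, Conv_phi_l, Conv_phi_C, ← mul_assoc, ← C_mul, inv_mul_cancel₀ hi0, C_1, one_mul]
    · obtain ⟨i, hi⟩ := hz b
      refine ⟨C (z ⟨b, i⟩)⁻¹ * X (Sum.inr ⟨b, i⟩), ?_⟩
      rw [map_mul, Conv_phi_r, Conv_phi_C, ← mul_assoc, ← C_mul, inv_mul_cancel₀ hi, C_1, one_mul]
  rw [← AlgHom.range_eq_top, ← top_le_iff, ← MvPolynomial.adjoin_range_X]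
  refine Algebra.adjoin_le ?_
  rintro _ ⟨a, rfl⟩
  obtain ⟨q, hq⟩ := h1 a
  exact (AlgHom.mem_range _).2 ⟨q, hq⟩

theorem Conv_phi_zero {k : Type} [Field k] (x : Fin N → k) (z : Co m → k)
    (F : MvPolynomial (Fin N ⊕ Co m) k) (d : ℕ) (e : Fin r → ℕ) (hF : MHom F d e)
    (h0 : aeval (Sum.elim x z) F = 0) : Conv_phi x z F = 0 := by
  have h1 := hF.scale (R := MvPolynomial (Fin (r + 1)) k) (fun i => C (x i)) (fun i => C (z i))
    (X 0) (fun b => X b.succ)
  have h2 : aeval (Sum.elim (fun i => C (x i)) (fun i => C (z i)) :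
      Fin N ⊕ Co m → MvPolynomial (Fin (r + 1)) k) F = C (aeval (Sum.elim x z) F) := by
    have h3 := MvPolynomial.aeval_algebraMap_apply (MvPolynomial (Fin (r + 1)) k)
      (Sum.elim x z) F
    rw [MvPolynomial.algebraMap_eq] at h3
    rw [← h3]
    congr 2
    funext i
    rcases i with i | i <;> rfl
  rw [h2, h0, C_0, mul_zero] at h1
  exact h1

/-- the coordinate ring of the orbit of a point -/
theorem Conv_end {k : Type} [Field k] (x : Fin N → k) (z : Co m → k) (hx : x ≠ 0) (hz : Adm z) :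
    ∃ P : Ideal (MvPolynomial (Fin N ⊕ Co m) k), P.IsPrime ∧ Conv_Rel P ∧
      (∀ (F : MvPolynomial (Fin N ⊕ Co m) k) (d : ℕ) (e : Fin r → ℕ), MHom F d e →
        aeval (Sum.elim x z) F = 0 → F ∈ P) ∧
      ringKrullDim (MvPolynomial (Fin N ⊕ Co m) k ⧸ P) = ((r + 1 : ℕ) : WithBot ℕ∞) := by
  obtain ⟨i0, hi0⟩ : ∃ i, x i ≠ 0 := by
    by_contra h
    push Not at h
    exact hx (funext h)
  have hX : ∀ (a : k) (j : Fin (r + 1)), a ≠ 0 → (C a * X j : MvPolynomial (Fin (r + 1)) k) ≠ 0 :=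
    fun a j ha => mul_ne_zero (C_ne_zero.2 ha) (X_ne_zero j)
  refine ⟨RingHom.ker (Conv_phi x z), RingHom.ker_isPrime _, ⟨⟨i0, ?_⟩, fun b => ?_⟩, ?_, ?_⟩
  · rw [RingHom.mem_ker, Conv_phi_l]
    exact hX _ _ hi0
  · obtain ⟨i, hi⟩ := hz b
    refine ⟨i, ?_⟩
    rw [RingHom.mem_ker, Conv_phi_r]
    exact hX _ _ hi
  · intro F d e hF h0
    rw [RingHom.mem_ker]
    exact Conv_phi_zero x z F d e hF h0
  · have e := Ideal.quotientKerAlgEquivOfSurjective (Conv_phi_surj x z hx hz)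
    have h1 := ringKrullDim_eq_of_ringEquiv e.toRingEquiv
    refine h1.trans ?_
    rw [MvPolynomial.ringKrullDim_of_isNoetherianRing, ringKrullDim_eq_zero_of_field, zero_add,
      Nat.card_eq_fintype_card, Fintype.card_fin]

theorem exists_forms {k : Type} [Field k] [IsAlgClosed k] (c : ℕ)
    (S : Set (MvPolynomial (Fin N ⊕ Co m) k)) (hS : ∀ G ∈ S, ∃ d e, MHom G d e)
    (hdim : ringKrullDim (MvPolynomial (Fin N ⊕ Co m) k ⧸ Ideal.span S) ≤ (c + r : ℕ))
    (d : Fin c → ℕ) (e : Fin c → Fin r → ℕ) :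
    ∃ F : Fin c → MvPolynomial (Fin N ⊕ Co m) k, (∀ j, MHom (F j) (d j) (e j)) ∧
      ∀ (x : Fin N → k) (z : Co m → k), x ≠ 0 → Adm z →
        (∀ G ∈ S, aeval (Sum.elim x z) G = 0) → ∃ j, aeval (Sum.elim x z) (F j) ≠ 0 := by
  have : Infinite k := IsAlgClosed.instInfinite
  obtain ⟨F, hF, hP⟩ := Conv_step ((c + r : ℕ) : WithBot ℕ∞) S hdim c d e
  refine ⟨F, hF, fun x z hx hz h0 => ?_⟩
  by_contra hcon
  push Not at hcon
  obtain ⟨P, h1, h2, h3, h4⟩ := Conv_end x z hx hz
  have h5 := hP P h1 h2 (fun G hG => by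
    obtain ⟨d', e', hG'⟩ := hS G hG
    exact h3 G d' e' hG' (h0 G hG)) (fun j => h3 _ _ _ (hF j) (hcon j))
  rw [h4] at h5
  have h6 : ((r + 1 + c : ℕ) : WithBot ℕ∞) ≤ ((c + r : ℕ) : WithBot ℕ∞) := by
    push_cast at h5 ⊢
    exact h5
  have h7 : r + 1 + c ≤ c + r := by exact_mod_cast h6
  omega

end Pool.Agent.Lib.MP_1e3e9c_agP
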