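import Pool.Agent.Lib.MP_1e3e9c_agP.Trans
import Pool.Agent.Lib.MP_1e3e9c_agP.Pt
import Pool.Agent.Lib.MP_1e3e9c_agL.Td

/-!
# the family with the `n`-th roots of the coordinates `z`

PROOF.  `L₁ = AlgebraicClosure L`, `z'' i` with `z'' i ^ n = z i` (`IsAlgClosed.exists_pow_nat_eq`); `exists_gl` for `(u, w, z'')` over `L₁` (`κ = k`) gives `L'`, `g`, `ζ` and `(u', w', z') = (g (u, w), ζ z'')` with `GSt` and `Sp k (pt u' w' z') (pt u w z'')`.
`Ind`, `Adm`: `ind_sp`, `adm_sp` (`z'' ⟨b, i⟩ ≠ 0` if `z ⟨b, i⟩ ≠ 0`).  `td k (pt u w z) ≤ td k (pt u w z'')` (over `L₁`; `td_mem`: `z i = z'' i ^ n`; `Sp.map`/`sp_map` and `td_sp` to pass from `L` to `L₁`) `≤ td k (pt u' w' z')` (`td_sp`).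
(a) `z' i ^ n = ζ b ^ n * z i`, so `(u', w', z' ^ n) = (g (u, w), sc (ζ ^ n) z)`: by `sp_map` and `hG` a specialization of `(u, w, z)`.  (b) if `p (u', w', z' ^ n) = 0` then the polynomial `p (U, W, Z ^ n)` vanishes at `(u', w', z')`, hence at `(u, w, z'')`: `p (u, w, z) = 0`.
-/

set_option autoImplicit false

namespace Pool.Agent.Lib.MP_1e3e9c_agP

open MvPolynomial
open Pool.Agent.Lib.MP_1e3e9c_agL (Sp Ind td)

variable {N r : ℕ} {m : Fin r → ℕ}

private theorem KumA_pow {k L : Type} [Field k] [Field L] [Algebra k L] (u w : Fin N → L)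
    (z : Co m → L) (n : ℕ) (p : MvPolynomial (Cd N m) k) :
    aeval (pt u w (fun i => z i ^ n)) p = aeval (pt u w z)
      (aeval (Sum.elim (fun i => X (Sum.inl i)) (fun i => X (Sum.inr i) ^ n) :
        Cd N m → MvPolynomial (Cd N m) k) p) := by
  have h : (aeval (pt u w (fun i => z i ^ n)) : MvPolynomial (Cd N m) k →ₐ[k] L) =
      (aeval (pt u w z)).comp (aeval (Sum.elim (fun i => X (Sum.inl i))
        (fun i => X (Sum.inr i) ^ n) : Cd N m → MvPolynomial (Cd N m) k)) := by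
    refine MvPolynomial.algHom_ext fun i => ?_
    rcases i with (i | i) | i
    · simp
    · simp
    · simp
  rw [h]
  rfl

theorem kummer {k L : Type} [Field k] [Field L] [Algebra k L]
    (u w : Fin N → L) (z : Co m → L) (hG : GSt k u w z) (hi : Ind u w) (ha : Adm z) {n : ℕ}
    (hn : 1 ≤ n) :
    ∃ (L' : Type) (_ : Field L') (_ : Algebra k L') (u' w' : Fin N → L') (z' : Co m → L'),
      GSt k u' w' z' ∧ Ind u' w' ∧ Adm z' ∧ td k (pt u w z) ≤ td k (pt u' w' z') ∧
      Sp k (pt u w z) (pt u' w' (fun i => z' i ^ n)) ∧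
      Sp k (pt u' w' (fun i => z' i ^ n)) (pt u w z) := by
  have hroot : ∀ i, ∃ y : AlgebraicClosure L, y ^ n = algebraMap L (AlgebraicClosure L) (z i) :=
    fun i => IsAlgClosed.exists_pow_nat_eq _ hn
  choose y hy using hroot
  have hm1 := sp_map (k := k) (M := AlgebraicClosure L) u w z
  obtain ⟨L', _, _, _, _, g, ζ, _, hGS, hSp⟩ := exists_gl (κ := k)
    (fun i => algebraMap L (AlgebraicClosure L) (u i))
    (fun i => algebraMap L (AlgebraicClosure L) (w i)) y
  have hm2 := sp_map (k := k) (M := L') (fun i => algebraMap L (AlgebraicClosure L) (u i))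
    (fun i => algebraMap L (AlgebraicClosure L) (w i))
    (fun i => algebraMap L (AlgebraicClosure L) (z i))
  refine ⟨L', inferInstance, inferInstance, _, _, _, hGS, ?_, ?_, ?_, ?_, ?_⟩
  · exact ind_sp hSp (ind_sp hm1.2 hi)
  · refine adm_sp hSp ?_
    intro b
    obtain ⟨i, hi'⟩ := ha b
    refine ⟨i, fun h0 => hi' ?_⟩
    have h1 := hy ⟨b, i⟩
    rw [h0, zero_pow (by omega)] at h1
    exact (map_eq_zero (algebraMap L (AlgebraicClosure L))).1 h1.symm
  · refine (MP_1e3e9c_agL.td_sp hm1.2).trans (le_trans ?_ (MP_1e3e9c_agL.td_sp hSp))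
    refine MP_1e3e9c_agL.td_mem fun i => ?_
    rcases i with (i | i) | i
    · exact IntermediateField.subset_adjoin k _ ⟨Sum.inl (Sum.inl i), rfl⟩
    · exact IntermediateField.subset_adjoin k _ ⟨Sum.inl (Sum.inr i), rfl⟩
    · show algebraMap L (AlgebraicClosure L) (z i) ∈ _
      rw [← hy i]
      refine pow_mem ?_ n
      exact IntermediateField.subset_adjoin k _ ⟨Sum.inr i, rfl⟩
  · have h1 := hG L' _ _ _ (g 0) (g 1) (g 2) (g 3) (fun b => ζ b ^ n) (hm1.1.trans hm2.1)
    have h2 : (fun i => sc ζ (fun i => algebraMap (AlgebraicClosure L) L' (y i)) i ^ n) =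
        sc (m := m) (fun b => ζ b ^ n) (fun i => algebraMap (AlgebraicClosure L) L'
          (algebraMap L (AlgebraicClosure L) (z i))) := by
      funext i
      show (ζ i.1 * algebraMap (AlgebraicClosure L) L' (y i)) ^ n = ζ i.1 ^ n * _
      rw [mul_pow, ← map_pow, hy i]
    rw [h2]
    exact h1
  · intro p hp
    rw [KumA_pow] at hp
    have h1 := hSp _ hp
    rw [← KumA_pow] at h1
    refine hm1.2 p ?_
    have h2 : (fun i => y i ^ n) = fun i => algebraMap L (AlgebraicClosure L) (z i) := funext hy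
    rw [← h2]
    exact h1

end Pool.Agent.Lib.MP_1e3e9c_agP
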