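import Pool.Agent.Lib.MP_1e3e9c_agL.Defs

/-!
# lifting points under `z ↦ z ^ n`

PROOF.  `B = MvPolynomial (ι ⊕ κ) k` as an algebra over `A = MvPolynomial (ι ⊕ κ) k` through `ψ : X (inl i) ↦ X (inl i)`, `X (inr i) ↦ X (inr i) ^ n`: integral (`X (inr i)` is a root of the monic `T ^ n - ψ(X (inr i))`, `n ≥ 1`; the integral elements form a subalgebra that contains all variables and `k`).
`P = ker (aeval (x, z)) ⊆ B` is prime and `comap ψ P = ker (aeval (x, z ^ n)) ⊆ ker (aeval (x1, z1)) = M ⊆ A` by `hs`; `Ideal.exists_ideal_over_prime_of_isIntegral` gives a prime `Q ⊇ P` of `B` with `comap ψ Q = M`.  `B ⧸ Q` is integral over `A ⧸ M = k` and a domain, so `k → B ⧸ Q` is bijective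
(`IsAlgClosed.algebraMap_bijective_of_isIntegral`; the elements of `ψ(A)` are in `k` modulo `Q`: `ψ(a) - C (aeval (x1, z1) a) ∈ Q`).  `z2 i` = the element of `k` congruent to `X (inr i)`; `X (inl i)` is congruent to `x1 i`.  So `z2 i ^ n = z1 i`, and `p ∈ P ⊆ Q` gives `aeval (x1, z2) p = 0` (the evaluation at `(x1, z2)`
is the quotient map `B → B ⧸ Q = k`).
-/

set_option autoImplicit false

namespace Pool.Agent.Lib.MP_1e3e9c_agP

open MvPolynomial
open Pool.Agent.Lib.MP_1e3e9c_agL (Sp Ind td)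

private theorem KumB_lift {A B : Type} [CommRing A] [CommRing B] (ψ : A →+* B) (hψ : ψ.IsIntegral)
    (P : Ideal B) (M : Ideal A) (hM : M.IsMaximal) (h : P.comap ψ ≤ M) :
    ∃ Q : Ideal B, P ≤ Q ∧ Q.IsMaximal ∧ Q.comap ψ = M := by
  let _ : Algebra A B := ψ.toAlgebra
  have : Algebra.IsIntegral A B := ⟨hψ⟩
  have hMp : M.IsPrime := hM.isPrime
  obtain ⟨Q, hPQ, hQ, hQM⟩ := Ideal.exists_ideal_over_prime_of_isIntegral M P h
  refine ⟨Q, hPQ, ?_, hQM⟩
  refine Ideal.isMaximal_of_isIntegral_of_isMaximal_comap (R := A) Q ?_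
  rw [hQM]
  exact hM

private theorem KumB_int {k ι κ : Type} [Field k] {n : ℕ} (hn : 1 ≤ n)
    (ψ : MvPolynomial (ι ⊕ κ) k →+* MvPolynomial (ι ⊕ κ) k) (hC : ∀ c, ψ (C c) = C c)
    (hl : ∀ i, ψ (X (Sum.inl i)) = X (Sum.inl i)) (hr : ∀ j, ψ (X (Sum.inr j)) = X (Sum.inr j) ^ n) :
    ψ.IsIntegral := by
  intro p
  induction p using MvPolynomial.induction_on with
  | C c =>
    rw [← hC c]
    exact ψ.isIntegralElem_map
  | add p q hp hq => exact hp.add ψ hq
  | mul_X p i hp =>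
    refine hp.mul ψ ?_
    rcases i with i | j
    · rw [← hl i]
      exact ψ.isIntegralElem_map
    · refine ⟨Polynomial.X ^ n - Polynomial.C (X (Sum.inr j)), Polynomial.monic_X_pow_sub_C _ (by omega), ?_⟩
      rw [Polynomial.eval₂_sub, Polynomial.eval₂_pow, Polynomial.eval₂_X, Polynomial.eval₂_C, hr, sub_self]

theorem kummer_lift {k L ι κ : Type} [Field k] [IsAlgClosed k] [Field L] [Algebra k L] [Finite ι]
    [Finite κ] {n : ℕ} (hn : 1 ≤ n) (x : ι → L) (z : κ → L) (x1 : ι → k) (z1 : κ → k)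
    (hs : Sp k (Sum.elim x (fun i => z i ^ n)) (Sum.elim x1 z1)) :
    ∃ z2 : κ → k, (∀ i, z2 i ^ n = z1 i) ∧ Sp k (Sum.elim x z) (Sum.elim x1 z2) := by
  let ψ : MvPolynomial (ι ⊕ κ) k →ₐ[k] MvPolynomial (ι ⊕ κ) k :=
    aeval (Sum.elim (fun i => X (Sum.inl i)) (fun j => X (Sum.inr j) ^ n))
  have hψl : ∀ i, ψ (X (Sum.inl i)) = X (Sum.inl i) := fun i => by
    show aeval _ (X (Sum.inl i)) = _
    rw [aeval_X, Sum.elim_inl]
  have hψr : ∀ j, ψ (X (Sum.inr j)) = X (Sum.inr j) ^ n := fun j => by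
    show aeval _ (X (Sum.inr j)) = _
    rw [aeval_X, Sum.elim_inr]
  have hψC : ∀ c, ψ (C c) = C c := fun c => ψ.commutes c
  have hint : (ψ : MvPolynomial (ι ⊕ κ) k →+* MvPolynomial (ι ⊕ κ) k).IsIntegral :=
    KumB_int hn _ hψC hψl hψr
  -- evaluation at `(x, z)` after `ψ`
  have hev : ∀ p, aeval (Sum.elim x z) (ψ p) = aeval (Sum.elim x (fun i => z i ^ n)) p := by
    intro p
    have h : (aeval (Sum.elim x z)).comp ψ = (aeval (Sum.elim x (fun i => z i ^ n)) :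
        MvPolynomial (ι ⊕ κ) k →ₐ[k] L) := by
      refine MvPolynomial.algHom_ext fun i => ?_
      rcases i with i | j
      · rw [AlgHom.comp_apply, hψl, aeval_X, aeval_X, Sum.elim_inl, Sum.elim_inl]
      · rw [AlgHom.comp_apply, hψr, map_pow, aeval_X, aeval_X, Sum.elim_inr, Sum.elim_inr]
    exact DFunLike.congr_fun h p
  have hM : (vanishingIdeal k {Sum.elim x1 z1} : Ideal (MvPolynomial (ι ⊕ κ) k)).IsMaximal :=
    isMaximal_iff_eq_vanishingIdeal_singleton.2 ⟨_, rfl⟩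
  obtain ⟨Q, hPQ, hQ, hQM⟩ := KumB_lift (ψ : MvPolynomial (ι ⊕ κ) k →+* MvPolynomial (ι ⊕ κ) k) hint
    (RingHom.ker (aeval (Sum.elim x z) : MvPolynomial (ι ⊕ κ) k →ₐ[k] L)) _ hM (by
      intro p hp
      rw [mem_vanishingIdeal_singleton_iff]
      refine hs p ?_
      rw [← hev]
      exact hp)
  obtain ⟨y, hy⟩ := isMaximal_iff_eq_vanishingIdeal_singleton.1 hQ
  have hmem : ∀ p : MvPolynomial (ι ⊕ κ) k, aeval (Sum.elim x1 z1) p = 0 → aeval y (ψ p) = 0 := by
    intro p hp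
    have h1 : p ∈ Q.comap (ψ : MvPolynomial (ι ⊕ κ) k →+* MvPolynomial (ι ⊕ κ) k) := by
      rw [hQM, mem_vanishingIdeal_singleton_iff]
      exact hp
    have h2 : ψ p ∈ Q := h1
    rwa [hy, mem_vanishingIdeal_singleton_iff] at h2
  have hyl : ∀ i, y (Sum.inl i) = x1 i := by
    intro i
    have h := hmem (X (Sum.inl i) - C (x1 i)) (by
      rw [map_sub, aeval_X, aeval_C, Sum.elim_inl]
      exact sub_self _)
    rw [map_sub, hψl, hψC, map_sub, aeval_X, aeval_C] at h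
    exact sub_eq_zero.1 h
  have hyr : ∀ j, y (Sum.inr j) ^ n = z1 j := by
    intro j
    have h := hmem (X (Sum.inr j) - C (z1 j)) (by
      rw [map_sub, aeval_X, aeval_C, Sum.elim_inr]
      exact sub_self _)
    rw [map_sub, hψr, hψC, map_sub, map_pow, aeval_X, aeval_C] at h
    exact sub_eq_zero.1 h
  refine ⟨fun j => y (Sum.inr j), hyr, ?_⟩
  intro p hp
  have h1 : p ∈ Q := hPQ hp
  rw [hy, mem_vanishingIdeal_singleton_iff] at h1
  have h2 : Sum.elim x1 (fun j => y (Sum.inr j)) = y := by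
    funext i
    rcases i with i | j
    · rw [Sum.elim_inl, hyl]
    · rfl
  rw [h2]
  exact h1

end Pool.Agent.Lib.MP_1e3e9c_agP
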