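import Pool.Agent.Lib.MP_1e3e9c_agP.Pt
import Pool.Agent.Lib.MP_1e3e9c_agP.Trans
import Pool.Agent.Lib.MP_1e3e9c_agL.Td

/-!
# the generic translate of a line has `4 + r` independent coordinates

Compare `MP_1e3e9c_agL/Four.lean` (the same without `z`).  PROOFS. `gl_indep`: let `D = a e - b c ≠ 0` and `y` the four numbers; `g` is the image of `y` under the inverse matrix over `L`, and `ζ b * algebraMap t_b` is `ζ b` up to a factor
of `L`, not zero.  So the substitution is an invertible linear substitution over `L`.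
`td_four_add`: choose columns `p`, `q` with the minor of `(u, w)` not zero and `i_b` with `z ⟨b, i_b⟩ ≠ 0`; the family `a`, four coordinates of the translate, `ζ b * z ⟨b, i_b⟩` is algebraically independent over `κ` (`gl_indep`; `a` over `κ` in `L`, the others over `L`:
`algebraicIndependent_sumElim`-type lemma); `MP_1e3e9c_agL.td_ge_of_indep` (index by `Fin n` through an equivalence).
`td_four`: `exists_gl` gives `g`, `ζ` over `L' ⊇ L`; `hG` and `sp_map` give `Sp κ (u, w, z) (g (u, w), ζ z)`, so `td κ (translate) ≤ td κ (u, w, z)` (`MP_1e3e9c_agL.td_sp`); `td_four_add` with `η = Empty`/`Fin 0` or directly.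
-/

set_option autoImplicit false

namespace Pool.Agent.Lib.MP_1e3e9c_agP

open MvPolynomial
open Pool.Agent.Lib.MP_1e3e9c_agL (Sp Ind td)

variable {N r : ℕ} {m : Fin r → ℕ}

theorem gl_indep {L L' : Type} [Field L] [Field L'] [Algebra L L'] {g : Fin 4 → L'}
    {ζ : Fin r → L'} (hg : AlgebraicIndependent L (Sum.elim g ζ)) (a b c e : L)
    (h : a * e - b * c ≠ 0) (t : Fin r → L) (ht : ∀ b, t b ≠ 0) :
    AlgebraicIndependent L (Sum.elim (![g 0 * algebraMap L L' a + g 1 * algebraMap L L' c,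
      g 0 * algebraMap L L' b + g 1 * algebraMap L L' e,
      g 2 * algebraMap L L' a + g 3 * algebraMap L L' c,
      g 2 * algebraMap L L' b + g 3 * algebraMap L L' e] : Fin 4 → L')
      (fun b => ζ b * algebraMap L L' (t b))) := by
  rw [algebraicIndependent_iff]
  intro p hp
  set Y : Fin 4 ⊕ Fin r → MvPolynomial (Fin 4 ⊕ Fin r) L := Sum.elim
    ![X (Sum.inl 0) * C a + X (Sum.inl 1) * C c, X (Sum.inl 0) * C b + X (Sum.inl 1) * C e,
    X (Sum.inl 2) * C a + X (Sum.inl 3) * C c, X (Sum.inl 2) * C b + X (Sum.inl 3) * C e]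
    (fun b => X (Sum.inr b) * C (t b)) with hY
  set Z : Fin 4 ⊕ Fin r → MvPolynomial (Fin 4 ⊕ Fin r) L := Sum.elim
    ![C (a * e - b * c)⁻¹ * (X (Sum.inl 0) * C e - X (Sum.inl 1) * C c),
    C (a * e - b * c)⁻¹ * (X (Sum.inl 1) * C a - X (Sum.inl 0) * C b),
    C (a * e - b * c)⁻¹ * (X (Sum.inl 2) * C e - X (Sum.inl 3) * C c),
    C (a * e - b * c)⁻¹ * (X (Sum.inl 3) * C a - X (Sum.inl 2) * C b)]
    (fun b => C (t b)⁻¹ * X (Sum.inr b)) with hZ
  have h1 : aeval (Sum.elim g ζ) (bind₁ Y p) = 0 := by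
    rw [aeval_bind₁, ← hp]
    congr 2
    funext i
    rcases i with i | i
    · fin_cases i <;> simp [hY]
    · simp [hY]
  have h2 : bind₁ Y p = 0 := (algebraicIndependent_iff.1 hg) _ h1
  have hC : (C (a * e - b * c)⁻¹ * (C a * C e - C b * C c) :
      MvPolynomial (Fin 4 ⊕ Fin r) L) = 1 := by
    rw [← C_mul, ← C_mul, ← C_sub, ← C_mul, inv_mul_cancel₀ h, C_1]
  have h3 : bind₁ Z (bind₁ Y p) = p := by
    rw [bind₁_bind₁]
    have h4 : (fun i => bind₁ Z (Y i)) = X := by
      funext i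
      rcases i with i | i
      · fin_cases i
        · simp only [hY, hZ, Fin.zero_eta, Matrix.cons_val_zero, map_add, map_mul, bind₁_X_right,
            Matrix.cons_val_one, bind₁_C_right, Sum.elim_inl]
          linear_combination (X (Sum.inl 0)) * hC
        · simp only [hY, hZ, Fin.mk_one, Matrix.cons_val_zero, map_add, map_mul, bind₁_X_right,
            Matrix.cons_val_one, bind₁_C_right, Sum.elim_inl]
          linear_combination (X (Sum.inl 1)) * hC
        · simp only [hY, hZ, Fin.reduceFinMk, Matrix.cons_val, map_add, map_mul, bind₁_X_right,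
            bind₁_C_right, Sum.elim_inl]
          linear_combination (X (Sum.inl 2)) * hC
        · simp only [hY, hZ, Fin.reduceFinMk, Matrix.cons_val, map_add, map_mul, bind₁_X_right,
            bind₁_C_right, Sum.elim_inl]
          linear_combination (X (Sum.inl 3)) * hC
      · have hCt : (C (t i)⁻¹ * C (t i) : MvPolynomial (Fin 4 ⊕ Fin r) L) = 1 := by
          rw [← C_mul, inv_mul_cancel₀ (ht i), C_1]
        simp only [hY, hZ, map_mul, bind₁_X_right, bind₁_C_right, Sum.elim_inr]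
        linear_combination (X (Sum.inr i)) * hCt
    rw [h4, bind₁_X_left]
    rfl
  rw [← h3, h2, map_zero]

theorem td_four_add {κ L L' : Type} [Field κ] [Field L] [Algebra κ L] [Field L'] [Algebra κ L']
    [Algebra L L'] [IsScalarTower κ L L'] {η : Type} [Fintype η] (u w : Fin N → L) (z : Co m → L)
    (hi : Ind u w) (ha : Adm z) (a : η → L) (hη : AlgebraicIndependent κ a) {g : Fin 4 → L'}
    {ζ : Fin r → L'} (hg : AlgebraicIndependent L (Sum.elim g ζ)) :
    ((Fintype.card η + (4 + r) : ℕ) : Cardinal) ≤ td κ (Sum.elim (pt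
        (g 0 • (fun i => algebraMap L L' (u i)) + g 1 • (fun i => algebraMap L L' (w i)))
        (g 2 • (fun i => algebraMap L L' (u i)) + g 3 • (fun i => algebraMap L L' (w i)))
        (sc ζ (fun i => algebraMap L L' (z i))))
      (fun i => algebraMap L L' (a i))) := by
  obtain ⟨p, q, hpq⟩ := hi
  choose i hiz using ha
  have h1 := hη.sumElim_comp (gl_indep hg (u p) (u q) (w p) (w q) hpq (fun b => z ⟨b, i b⟩) hiz)
  have hc : Fintype.card ((Fin 4 ⊕ Fin r) ⊕ η) = Fintype.card η + (4 + r) := by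
    rw [Fintype.card_sum, Fintype.card_sum, Fintype.card_fin, Fintype.card_fin, add_comm]
  let e := Fintype.equivFinOfCardEq hc
  refine MP_1e3e9c_agL.td_ge_of_indep (h1.comp e.symm e.symm.injective) ?_
  intro s
  apply IntermediateField.subset_adjoin
  simp only [Function.comp_apply]
  rcases e.symm s with (j | j) | j
  · fin_cases j
    · exact ⟨Sum.inl (Sum.inl (Sum.inl p)), rfl⟩
    · exact ⟨Sum.inl (Sum.inl (Sum.inl q)), rfl⟩
    · exact ⟨Sum.inl (Sum.inl (Sum.inr p)), rfl⟩
    · exact ⟨Sum.inl (Sum.inl (Sum.inr q)), rfl⟩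
  · exact ⟨Sum.inl (Sum.inr ⟨j, i j⟩), rfl⟩
  · exact ⟨Sum.inr j, rfl⟩

theorem td_four {κ L : Type} [Field κ] [Field L] [Algebra κ L] (u w : Fin N → L) (z : Co m → L)
    (hG : GSt κ u w z) (hi : Ind u w) (ha : Adm z) :
    ((4 + r : ℕ) : Cardinal) ≤ td κ (pt u w z) := by
  obtain ⟨L', _, _, _, _, g, ζ, hg, -, -⟩ := exists_gl (κ := κ) u w z
  have h1 := (sp_map (k := κ) (L := L) (M := L') u w z).1
  have h4 := MP_1e3e9c_agL.td_sp (hG L' _ _ _ (g 0) (g 1) (g 2) (g 3) ζ h1)
  refine le_trans ?_ h4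
  obtain ⟨p, q, hpq⟩ := hi
  choose i hiz using ha
  have h5 := (gl_indep hg (u p) (u q) (w p) (w q) hpq
    (fun b => z ⟨b, i b⟩) hiz).restrictScalars (algebraMap κ L).injective
  have hc : Fintype.card (Fin 4 ⊕ Fin r) = 4 + r := by
    rw [Fintype.card_sum, Fintype.card_fin, Fintype.card_fin]
  let e := Fintype.equivFinOfCardEq hc
  refine MP_1e3e9c_agL.td_ge_of_indep (h5.comp e.symm e.symm.injective) ?_
  intro s
  apply IntermediateField.subset_adjoin
  simp only [Function.comp_apply]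
  rcases e.symm s with j | j
  · fin_cases j
    · exact ⟨Sum.inl (Sum.inl p), rfl⟩
    · exact ⟨Sum.inl (Sum.inl q), rfl⟩
    · exact ⟨Sum.inl (Sum.inr p), rfl⟩
    · exact ⟨Sum.inl (Sum.inr q), rfl⟩
  · exact ⟨Sum.inr ⟨j, i j⟩, rfl⟩

end Pool.Agent.Lib.MP_1e3e9c_agP
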