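import Pool.Agent.Lib.MP_1e3e9c_agP.NecA
import Pool.Agent.Lib.MP_1e3e9c_agP.Four
import Pool.Agent.Lib.MP_1e3e9c_agP.Cg
import Pool.Agent.Lib.MP_1e3e9c_agL.GenPt

/-!
# the dimension is necessary

Compare `MP_1e3e9c_agL/Nec.lean` (the same without `z`).  `η = (j : Fin c) × MMon N m (d j) (e j)`, the form with the coefficients `a` is `F_a j = ∑ n, C (a ⟨j, n⟩) * (the monomial n)`; `MHom (F_a j) (d j) (e j)`.  `generic_point` with `ι = Cd N m`, `Δ` = products of a minor of `(u, w)` and `∏ b, X (inr ⟨b, i_b⟩)`.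
`exists_gl`, `nec_upper`, `td_four_add` (`#η + (4 + r) ≤ td`), `td_sp`; cancel `#η`.
-/

set_option autoImplicit false

namespace Pool.Agent.Lib.MP_1e3e9c_agP

open MvPolynomial
open Pool.Agent.Lib.MP_1e3e9c_agL (Sp Ind td lin Mon generic_point)

variable {N r : ℕ} {m : Fin r → ℕ}

private theorem Nec_mval_map {R S : Type} [CommRing R] [CommRing S] {d : ℕ} {e : Fin r → ℕ}
    (f : R →+* S) (x : Fin N → R) (z : Co m → R) (n : MMon N m d e) :
    f (mval x z n) = mval (fun i => f (x i)) (fun i => f (z i)) n := by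
  unfold mval
  rw [map_mul, map_prod, map_prod]
  simp only [map_prod, map_pow]

private theorem Nec_mval_sc {R : Type} [Field R] {d : ℕ} {e : Fin r → ℕ} (ζ : Fin r → R)
    (x : Fin N → R) (z : Co m → R) (n : MMon N m d e) :
    mval x (sc ζ z) n = (∏ b, ζ b ^ e b) * mval x z n := by
  unfold mval
  have h1 : ∏ b, ∏ i, (sc ζ z) ⟨b, i⟩ ^ ((n.2 b).1 i : ℕ) =
      (∏ b, ζ b ^ e b) * ∏ b, ∏ i, z ⟨b, i⟩ ^ ((n.2 b).1 i : ℕ) := by
    rw [← Finset.prod_mul_distrib]
    refine Finset.prod_congr rfl fun b _ => ?_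
    have h2 : ζ b ^ e b = ∏ i, ζ b ^ ((n.2 b).1 i : ℕ) := by
      rw [Finset.prod_pow_eq_pow_sum, (n.2 b).2]
    rw [h2, ← Finset.prod_mul_distrib]
    refine Finset.prod_congr rfl fun i _ => ?_
    rw [← mul_pow]
    rfl
  rw [h1]
  ring

/-- the form with the coefficients `a` -/
private noncomputable def Nec_F {k : Type} [Field k] {c : ℕ} (d : Fin c → ℕ)
    (e : Fin c → Fin r → ℕ) (a : ((j : Fin c) × MMon N m (d j) (e j)) → k) (j : Fin c) :
    MvPolynomial (Fin N ⊕ Co m) k :=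
  ∑ n : MMon N m (d j) (e j), C (a ⟨j, n⟩) *
    mval (fun i => X (Sum.inl i)) (fun i => X (Sum.inr i)) n

private theorem Nec_mval_mon {k : Type} [Field k] {d : ℕ} {e : Fin r → ℕ} (n : MMon N m d e) :
    (mval (fun i => X (Sum.inl i)) (fun i => X (Sum.inr i)) n : MvPolynomial (Fin N ⊕ Co m) k) =
      monomial (Finsupp.equivFunOnFinite.symm
        (Sum.elim (fun i => (n.1.1 i : ℕ)) (fun i : Co m => ((n.2 i.1).1 i.2 : ℕ)))) 1 := by
  rw [monomial_eq, C_1, one_mul, Finsupp.prod_fintype _ _ (fun i => pow_zero _),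
    Fintype.prod_sum_type]
  unfold mval
  congr 1
  rw [Fintype.prod_sigma]
  rfl

private theorem Nec_F_hom {k : Type} [Field k] {c : ℕ} (d : Fin c → ℕ)
    (e : Fin c → Fin r → ℕ) (a : ((j : Fin c) × MMon N m (d j) (e j)) → k) (j : Fin c) :
    MHom (Nec_F d e a j) (d j) (e j) := by
  classical
  intro n' hn'
  unfold Nec_F at hn'
  have h1 := support_sum hn'
  rw [Finset.mem_biUnion] at h1
  obtain ⟨n, -, hn⟩ := h1
  rw [Nec_mval_mon, C_mul_monomial, mul_one] at hn
  have h2 := support_monomial_subset hn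
  rw [Finset.mem_singleton] at h2
  subst h2
  exact ⟨n.1.2, fun b => (n.2 b).2⟩

private theorem Nec_F_aeval {k R : Type} [Field k] [CommRing R] [Algebra k R] {c : ℕ}
    (d : Fin c → ℕ) (e : Fin c → Fin r → ℕ) (a : ((j : Fin c) × MMon N m (d j) (e j)) → k)
    (j : Fin c) (v : Fin N → R) (z : Co m → R) :
    aeval (Sum.elim v z) (Nec_F d e a j) = ∑ n : MMon N m (d j) (e j),
      algebraMap k R (a ⟨j, n⟩) * mval v z n := by
  unfold Nec_F
  rw [map_sum]
  refine Finset.sum_congr rfl fun n _ => ?_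
  have h1 := Nec_mval_map ((aeval (Sum.elim v z) : MvPolynomial (Fin N ⊕ Co m) k →ₐ[k] R) :
    MvPolynomial (Fin N ⊕ Co m) k →+* R) (fun i => X (Sum.inl i)) (fun i => X (Sum.inr i)) n
  simp only [RingHom.coe_coe, aeval_X, Sum.elim_inl, Sum.elim_inr] at h1
  rw [map_mul, aeval_C, h1]

/-- the equation of the line at the parameters `s`, `t` -/
private noncomputable def Nec_E {k : Type} [Field k] {c : ℕ} (d : Fin c → ℕ)
    (e : Fin c → Fin r → ℕ) (j : Fin c)
    (s t : k) : MvPolynomial (Cd N m ⊕ ((j : Fin c) × MMon N m (d j) (e j))) k :=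
  ∑ n : MMon N m (d j) (e j), X (Sum.inr ⟨j, n⟩) *
    mval (fun i => C s * X (Sum.inl (Sum.inl (Sum.inl i))) +
      C t * X (Sum.inl (Sum.inl (Sum.inr i)))) (fun i => X (Sum.inl (Sum.inr i))) n

private theorem Nec_E_aeval {k L : Type} [Field k] [Field L] [Algebra k L] {c : ℕ}
    (d : Fin c → ℕ) (e : Fin c → Fin r → ℕ) (j : Fin c) (s t : k) (y : Cd N m → L)
    (a : ((j : Fin c) × MMon N m (d j) (e j)) → L) :
    aeval (Sum.elim y a) (Nec_E d e j s t) = ∑ n : MMon N m (d j) (e j), a ⟨j, n⟩ *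
      mval (fun i => algebraMap k L s * y (Sum.inl (Sum.inl i)) +
        algebraMap k L t * y (Sum.inl (Sum.inr i))) (fun i => y (Sum.inr i)) n := by
  unfold Nec_E
  rw [map_sum]
  refine Finset.sum_congr rfl fun n _ => ?_
  have h1 := Nec_mval_map ((aeval (Sum.elim y a) :
    MvPolynomial (Cd N m ⊕ ((j : Fin c) × MMon N m (d j) (e j))) k →ₐ[k] L) :
    MvPolynomial (Cd N m ⊕ ((j : Fin c) × MMon N m (d j) (e j))) k →+* L)
    (fun i => C s * X (Sum.inl (Sum.inl (Sum.inl i))) +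
      C t * X (Sum.inl (Sum.inl (Sum.inr i)))) (fun i => X (Sum.inl (Sum.inr i))) n
  simp only [RingHom.coe_coe, map_add, map_mul, aeval_C, aeval_X, Sum.elim_inl] at h1
  rw [map_mul, aeval_X, h1]
  rfl

/-- an identity for all parameters in an infinite subfield holds in all extension fields -/
private theorem Nec_ext {k L M : Type} [Field k] [Infinite k] [Field L] [Algebra k L] [Field M]
    [Algebra L M] {D : ℕ} {e : Fin r → ℕ} (u w : Fin N → L) (z : Co m → L)
    (a : MMon N m D e → L)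
    (h : ∀ s t : k, ∑ n : MMon N m D e, a n *
      mval (fun i => algebraMap k L s * u i + algebraMap k L t * w i) z n = 0) (s t : M) :
    ∑ n : MMon N m D e, algebraMap L M (a n) *
      mval (fun i => s * algebraMap L M (u i) + t * algebraMap L M (w i))
        (fun i => algebraMap L M (z i)) n = 0 := by
  have h0 : (∑ n : MMon N m D e, C (a n) *
      mval (fun i => X 0 * C (u i) + X 1 * C (w i)) (fun i => C (z i)) n :
        MvPolynomial (Fin 2) L) = 0 := by
    refine funext_set (fun _ => Set.range (algebraMap k L))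
      (fun _ => Set.infinite_range_of_injective (algebraMap k L).injective) fun x hx => ?_
    obtain ⟨s', hs'⟩ := hx 0 (Set.mem_univ _)
    obtain ⟨t', ht'⟩ := hx 1 (Set.mem_univ _)
    rw [map_zero, map_sum, ← h s' t']
    refine Finset.sum_congr rfl fun n _ => ?_
    rw [map_mul, eval_C, Nec_mval_map, hs', ht']
    simp only [map_add, map_mul, eval_C, eval_X]
  have h1 := congrArg (aeval (![s, t] : Fin 2 → M)) h0
  rw [map_zero, map_sum] at h1
  rw [← h1]
  refine Finset.sum_congr rfl fun n _ => ?_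
  have h2 := Nec_mval_map ((aeval (![s, t] : Fin 2 → M) : MvPolynomial (Fin 2) L →ₐ[L] M) :
    MvPolynomial (Fin 2) L →+* M) (fun i => X 0 * C (u i) + X 1 * C (w i)) (fun i => C (z i)) n
  simp only [RingHom.coe_coe, map_add, map_mul, aeval_C, aeval_X, Matrix.cons_val_zero,
    Matrix.cons_val_one] at h2
  rw [map_mul, aeval_C, h2]

theorem nec {k L : Type} [Field k] [IsAlgClosed k] [Field L] [Algebra k L] {c : ℕ}
    (u w : Fin N → L) (z : Co m → L) (hG : GSt k u w z) (d : Fin c → ℕ) (e : Fin c → Fin r → ℕ)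
    (hyp : ∀ F : Fin c → MvPolynomial (Fin N ⊕ Co m) k, (∀ j, MHom (F j) (d j) (e j)) →
      ∃ (u' w' : Fin N → k) (z' : Co m → k), Ind u' w' ∧ Adm z' ∧
        Sp k (pt u w z) (pt u' w' z') ∧ ∀ j l, aeval (pt u' w' z') (cg (F j) l) = 0) :
    ((∑ j, (d j + 1) + 4 + r : ℕ) : Cardinal) ≤ td k (pt u w z) := by
  classical
  have : Infinite k := IsAlgClosed.instInfinite
  have hmn : ∀ {K : Type} [Field K] [Algebra k K] (p q : Fin N) (ib : (b : Fin r) → Fin (m b))
      (y : Cd N m → K), aeval y ((X (Sum.inl (Sum.inl p)) * X (Sum.inl (Sum.inr q)) -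
        X (Sum.inl (Sum.inl q)) * X (Sum.inl (Sum.inr p))) *
          ∏ b, X (Sum.inr ⟨b, ib b⟩) : MvPolynomial (Cd N m) k) =
      (y (Sum.inl (Sum.inl p)) * y (Sum.inl (Sum.inr q)) -
        y (Sum.inl (Sum.inl q)) * y (Sum.inl (Sum.inr p))) * ∏ b, y (Sum.inr ⟨b, ib b⟩) := by
    intro K _ _ p q ib y
    rw [map_mul, map_sub, map_mul, map_mul, map_prod]
    simp only [aeval_X]
  obtain ⟨L1, iF, iA, y, a, ha, hS, δ, ⟨p, q, ib, rfl⟩, hδ⟩ :=
    generic_point (k := k) (ι := Cd N m) (η := (j : Fin c) × MMon N m (d j) (e j))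
      ({P | ∃ r : MvPolynomial (Cd N m) k, aeval (pt u w z) r = 0 ∧
          P = rename Sum.inl r} ∪
        {P | ∃ (j : Fin c) (s t : k), P = Nec_E d e j s t})
      {δ | ∃ (p q : Fin N) (ib : (b : Fin r) → Fin (m b)),
        δ = (X (Sum.inl (Sum.inl p)) * X (Sum.inl (Sum.inr q)) -
        X (Sum.inl (Sum.inl q)) * X (Sum.inl (Sum.inr p))) * ∏ b, X (Sum.inr ⟨b, ib b⟩)} (by
        intro a
        obtain ⟨u', w', z', hi, hz, hsp, hcf⟩ := hyp (Nec_F d e a) (Nec_F_hom d e a)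
        refine ⟨pt u' w' z', ?_, ?_⟩
        · rintro P (⟨r, hr, rfl⟩ | ⟨j, s, t, rfl⟩)
          · rw [aeval_rename, Sum.elim_comp_inl]
            exact hsp r hr
          · rw [Nec_E_aeval]
            have h1 := cg_line (Nec_F_hom d e a j) u' w' z' (hcf j) s t
            rw [Nec_F_aeval] at h1
            exact h1
        · obtain ⟨p, q, hpq⟩ := hi
          choose ib hib using hz
          refine ⟨_, ⟨p, q, ib, rfl⟩, ?_⟩
          rw [hmn]
          exact mul_ne_zero hpq (Finset.prod_ne_zero_iff.2 fun b _ => hib b))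
  obtain ⟨u0, w0, z0, rfl⟩ : ∃ (u0 w0 : Fin N → L1) (z0 : Co m → L1), y = pt u0 w0 z0 :=
    ⟨fun i => y (Sum.inl (Sum.inl i)), fun i => y (Sum.inl (Sum.inr i)), fun i => y (Sum.inr i),
      by funext i; rcases i with (i | i) | i <;> rfl⟩
  rw [hmn] at hδ
  have hi0 : Ind u0 w0 := ⟨p, q, left_ne_zero_of_mul hδ⟩
  have hz0 : Adm z0 := fun b =>
    ⟨ib b, Finset.prod_ne_zero_iff.1 (right_ne_zero_of_mul hδ) b (Finset.mem_univ b)⟩
  have hsp0 : Sp k (pt u w z) (pt u0 w0 z0) := by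
    intro r hr
    have h1 := hS _ (Or.inl ⟨r, hr, rfl⟩)
    rwa [aeval_rename, Sum.elim_comp_inl] at h1
  have hline : ∀ (j : Fin c) (s t : k), ∑ n : MMon N m (d j) (e j), a ⟨j, n⟩ *
      mval (fun i => algebraMap k L1 s * u0 i + algebraMap k L1 t * w0 i) z0 n = 0 := by
    intro j s t
    have h1 := hS _ (Or.inr ⟨j, s, t, rfl⟩)
    rwa [Nec_E_aeval] at h1
  obtain ⟨L', iF', iA', iA1, iT, g, ζ, hg, hG1, hsp1⟩ := exists_gl (κ := k) u0 w0 z0
  set u1 : Fin N → L' := g 0 • (fun i => algebraMap L1 L' (u0 i)) +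
    g 1 • (fun i => algebraMap L1 L' (w0 i)) with hu1
  set w1 : Fin N → L' := g 2 • (fun i => algebraMap L1 L' (u0 i)) +
    g 3 • (fun i => algebraMap L1 L' (w0 i)) with hw1
  set z1 : Co m → L' := sc ζ (fun i => algebraMap L1 L' (z0 i)) with hz1
  have : Infinite L' := Infinite.of_injective _ (algebraMap k L').injective
  have hi1 : Ind u1 w1 := ind_sp hsp1 hi0
  have ha1 : Adm z1 := adm_sp hsp1 hz0
  have hup := nec_upper (k := k) d e u1 w1 z1 hi1 ha1 (fun i => algebraMap L1 L' (a i)) (by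
    intro j s t
    have h1 := Nec_ext (M := L') u0 w0 z0 (fun n => a ⟨j, n⟩) (hline j)
      (s * g 0 + t * g 2) (s * g 1 + t * g 3)
    have h2 : (s • u1 + t • w1) = fun i => (s * g 0 + t * g 2) * algebraMap L1 L' (u0 i) +
        (s * g 1 + t * g 3) * algebraMap L1 L' (w0 i) := by
      funext i
      simp only [hu1, hw1, Pi.add_apply, Pi.smul_apply, smul_eq_mul]
      ring
    calc _ = ∑ n : MMon N m (d j) (e j), (∏ b, ζ b ^ e j b) * (algebraMap L1 L' (a ⟨j, n⟩) *
          mval (fun i => (s * g 0 + t * g 2) * algebraMap L1 L' (u0 i) +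
            (s * g 1 + t * g 3) * algebraMap L1 L' (w0 i)) (fun i => algebraMap L1 L' (z0 i)) n) := by
          refine Finset.sum_congr rfl fun n _ => ?_
          rw [h2, hz1, Nec_mval_sc]
          ring
      _ = 0 := by rw [← Finset.mul_sum, h1, mul_zero])
  have hfour := td_four_add (κ := k) u0 w0 z0 hi0 hz0 a ha hg
  rw [← hu1, ← hw1, ← hz1] at hfour
  have hsp2 : Sp k (pt u w z) (pt u1 w1 z1) :=
    hG L' (fun i => algebraMap L1 L' (u0 i)) (fun i => algebraMap L1 L' (w0 i))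
      (fun i => algebraMap L1 L' (z0 i)) (g 0) (g 1) (g 2) (g 3) ζ
      (hsp0.trans (sp_map (k := k) (M := L') u0 w0 z0).1)
  have hle : td k (pt u1 w1 z1) ≤ td k (pt u w z) := Pool.Agent.Lib.MP_1e3e9c_agL.td_sp hsp2
  obtain ⟨n, _, _, _, hn⟩ := Pool.Agent.Lib.MP_1e3e9c_agL.td_basis (k := k) (pt u w z)
  rw [hn] at hle ⊢
  have h5 : (((Fintype.card ((j : Fin c) × MMon N m (d j) (e j)) + (4 + r)) +
      ∑ j, (d j + 1) : ℕ) : Cardinal) ≤
      ((n + Fintype.card ((j : Fin c) × MMon N m (d j) (e j)) : ℕ) : Cardinal) := by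
    rw [Nat.cast_add (Fintype.card ((j : Fin c) × MMon N m (d j) (e j)) + (4 + r)), Nat.cast_add n]
    calc _ ≤ td k (Sum.elim (pt u1 w1 z1) fun i => algebraMap L1 L' (a i)) +
          ((∑ j, (d j + 1) : ℕ) : Cardinal) := add_le_add_left hfour _
      _ ≤ _ := hup
      _ ≤ _ := add_le_add_left hle _
  rw [Nat.cast_le] at h5 ⊢
  omega

end Pool.Agent.Lib.MP_1e3e9c_agP
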