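import Pool.Agent.Lib.MP_1e3e9c_agP.JA
import Pool.Agent.Lib.MP_1e3e9c_agP.Cg
import Pool.Agent.Lib.MP_1e3e9c_agS.DimB

/-!
# the image of the cone under `z ↦ z ^ n`

PROOFS. `ψ = pwh n : MvPolynomial (Fin N ⊕ Co m) k →ₐ[k] MvPolynomial (Fin N ⊕ Co m) k`, `X (inl i) ↦ X (inl i)`, `X (inr i) ↦ X (inr i) ^ n` (`pw n F = ψ F`), is integral (see `KumB).
`comap_td`: for a prime `P' ⊇ comap ψ J` there is a prime `Q ⊇ J` with `comap ψ Q = P'` (`Ideal.exists_ideal_over_prime_of_isIntegral`; or with `RingHom.IsIntegral`), so `R ⧸ P' → R ⧸ Q` is injective and `td P' ≤ td Q` (`Algebra.trdeg` is monotone under injective maps, e.g. `_root_.trdeg_le_of_injective`; `MP_1e3e9c_agS.DimB_cast`).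
`sgJ_hom`: let `G ∈ J' = comap ψ (sgJ q)`, `s : k`, `ζ : Fin r → k` not zero; then `G (s x, sc ζ z)`, i.e. `aeval (Sum.elim (fun i => C s * X (inl i)) (fun i => C (ζ i.1) * X (inr i))) G`, is in `J'`: at `(x, z)` with `sg x z` a zero of `q` the value of `G (s x, sc ζ (z ^ n))` is that of `G` at `(s x, (sc ξ z) ^ n)`, `ξ b ^ n = ζ b` (`k`
algebraically closed), and `sg (s x) (sc ξ z)` is a multiple of `sg x z`, a zero of `q` because `q` is homogeneous (`hqh`: all homogeneous components of `p ∈ q` are in `q`).  `G (s x, sc ζ z) = ∑_(a, e) s ^ a ζ ^ e G_(a, e)` with the multihomogeneous components, for all `s`, `ζ` not zero; at a fixed point `(x, z ^ n)` this polynomial in `s`, `ζ`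
vanishes for all nonzero `s`, `ζ`, so it is zero: all `G_(a, e) ∈ J'`.  So `J'` is generated by its multihomogeneous elements.  (Define the component `G_(a, e)` as the sum of the monomials of `G` of multidegree `(a, e)`.)
-/

set_option autoImplicit false

namespace Pool.Agent.Lib.MP_1e3e9c_agP

open MvPolynomial
open Pool.Agent.Lib.MP_1e3e9c_agL (Sp Ind)
open Pool.Agent.Lib.MP_1e3e9c_agS (kr td)

variable {N r : ℕ} {m : Fin r → ℕ}

/-- `F (x, z) ↦ F (x, z ^ n)` -/
noncomputable def pwh (k : Type) [Field k] (N : ℕ) {r : ℕ} (m : Fin r → ℕ) (n : ℕ) :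
    MvPolynomial (Fin N ⊕ Co m) k →ₐ[k] MvPolynomial (Fin N ⊕ Co m) k :=
  aeval (Sum.elim (fun i => X (Sum.inl i)) (fun i => X (Sum.inr i) ^ n))

theorem JB_over {A B : Type} [CommRing A] [CommRing B] (ψ : A →+* B) (hψ : ψ.IsIntegral)
    (J : Ideal B) (P : Ideal A) (hP : P.IsPrime) (h : J.comap ψ ≤ P) :
    ∃ Q : Ideal B, Q.IsPrime ∧ J ≤ Q ∧ Q.comap ψ = P := by
  let _ := ψ.toAlgebra
  have : Algebra.IsIntegral A B := ⟨fun x => hψ x⟩
  obtain ⟨Q, h1, h2, h3⟩ := Ideal.exists_ideal_over_prime_of_isIntegral P J h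
  exact ⟨Q, h2, h1, h3⟩

theorem JB_integral {k : Type} [Field k] {n : ℕ} (hn : 1 ≤ n) :
    (pwh k N m n : MvPolynomial (Fin N ⊕ Co m) k →+* MvPolynomial (Fin N ⊕ Co m) k).IsIntegral := by
  intro x
  induction x using MvPolynomial.induction_on with
  | C a =>
    have h1 : (pwh k N m n : MvPolynomial (Fin N ⊕ Co m) k →+* MvPolynomial (Fin N ⊕ Co m) k)
        (C a) = C a := by
      show pwh k N m n (C a) = C a
      unfold pwh
      rw [aeval_C]
      rfl
    rw [← h1]
    exact RingHom.isIntegralElem_map _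
  | add p q hp hq => exact RingHom.IsIntegralElem.add _ hp hq
  | mul_X p v hp =>
    refine RingHom.IsIntegralElem.mul _ hp ?_
    rcases v with i | i
    · have h1 : (pwh k N m n : MvPolynomial (Fin N ⊕ Co m) k →+* MvPolynomial (Fin N ⊕ Co m) k)
          (X (Sum.inl i)) = X (Sum.inl i) := by
        show pwh k N m n (X (Sum.inl i)) = _
        unfold pwh
        rw [aeval_X]
        rfl
      rw [← h1]
      exact RingHom.isIntegralElem_map _
    · refine ⟨Polynomial.X ^ n - Polynomial.C (X (Sum.inr i)),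
        Polynomial.monic_X_pow_sub_C _ (by omega), ?_⟩
      have h1 : (pwh k N m n : MvPolynomial (Fin N ⊕ Co m) k →+* MvPolynomial (Fin N ⊕ Co m) k)
          (X (Sum.inr i)) = X (Sum.inr i) ^ n := by
        show pwh k N m n (X (Sum.inr i)) = _
        unfold pwh
        rw [aeval_X]
        rfl
      rw [Polynomial.eval₂_sub, Polynomial.eval₂_pow, Polynomial.eval₂_X, Polynomial.eval₂_C, h1,
        sub_self]

theorem comap_td {k : Type} [Field k] {n : ℕ} (hn : 1 ≤ n)
    (J : Ideal (MvPolynomial (Fin N ⊕ Co m) k)) (c : ℕ)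
    (hJ : ∀ Q : Ideal (MvPolynomial (Fin N ⊕ Co m) k), Q.IsPrime → J ≤ Q → td Q ≤ c)
    (P : Ideal (MvPolynomial (Fin N ⊕ Co m) k)) (hP : P.IsPrime)
    (h : J.comap (pwh k N m n) ≤ P) : td P ≤ c := by
  obtain ⟨Q, h1, h2, h3⟩ := JB_over _ (JB_integral (k := k) (N := N) (m := m) hn) J P hP h
  refine le_trans ?_ (hJ Q h1 h2)
  have h4 : P ≤ Q.comap (pwh k N m n) := h3.ge
  have h5 : Function.Injective (Ideal.quotientMapₐ Q (pwh k N m n) h4) :=
    Ideal.quotientMap_injective' (f := (pwh k N m n : MvPolynomial (Fin N ⊕ Co m) k →+*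
      MvPolynomial (Fin N ⊕ Co m) k)) (H := h4) h3.le
  have h6 := _root_.trdeg_le_of_injective _ h5
  rw [← Pool.Agent.Lib.MP_1e3e9c_agS.DimB_cast, ← Pool.Agent.Lib.MP_1e3e9c_agS.DimB_cast] at h6
  exact_mod_cast h6

/-- the multidegree -/
noncomputable def JB_md (n : (Fin N ⊕ Co m) →₀ ℕ) : Option (Fin r) →₀ ℕ :=
  Finsupp.equivFunOnFinite.symm fun o =>
    o.elim (∑ i, n (Sum.inl i)) (fun b => ∑ i, n (Sum.inr ⟨b, i⟩))

/-- the multihomogeneous component -/
noncomputable def JB_comp {k : Type} [Field k] (G : MvPolynomial (Fin N ⊕ Co m) k)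
    (δ : Option (Fin r) →₀ ℕ) : MvPolynomial (Fin N ⊕ Co m) k :=
  ∑ n ∈ G.support.filter (fun n => JB_md n = δ), monomial n (coeff n G)

theorem JB_mhom {k : Type} [Field k] (G : MvPolynomial (Fin N ⊕ Co m) k)
    (δ : Option (Fin r) →₀ ℕ) : MHom (JB_comp G δ) (δ none) (fun b => δ (some b)) := by
  intro n hn
  have h1 : n ∈ G.support.filter (fun n => JB_md n = δ) := by
    by_contra hc
    rw [mem_support_iff] at hn
    apply hn
    unfold JB_comp
    rw [coeff_sum]
    refine Finset.sum_eq_zero fun n' hn' => ?_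
    rw [coeff_monomial, if_neg]
    rintro rfl
    exact hc hn'
  have h2 := (Finset.mem_filter.1 h1).2
  rw [← h2]
  exact ⟨rfl, fun b => rfl⟩

theorem JB_sum {k : Type} [Field k] (G : MvPolynomial (Fin N ⊕ Co m) k) :
    ∃ S : Finset (Option (Fin r) →₀ ℕ), G = ∑ δ ∈ S, JB_comp G δ := by
  refine ⟨G.support.image JB_md, ?_⟩
  have h1 := Finset.sum_fiberwise_of_maps_to (s := G.support) (t := G.support.image JB_md)
    (g := JB_md) (fun n hn => Finset.mem_image_of_mem _ hn) (fun n => monomial n (coeff n G))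
  have h2 : ∑ n ∈ G.support, monomial n (coeff n G) = G := G.support_sum_monomial_coeff
  rw [h2] at h1
  exact h1.symm

/-- the polynomial in the scaling factors -/
noncomputable def JB_th {k : Type} [Field k] (y : Fin N ⊕ Co m → k) :
    MvPolynomial (Fin N ⊕ Co m) k →ₐ[k] MvPolynomial (Option (Fin r)) k :=
  aeval (Sum.elim (fun i => C (y (Sum.inl i)) * X none)
    (fun i => C (y (Sum.inr i)) * X (some i.1)))

theorem JB_th_monomial {k : Type} [Field k] (y : Fin N ⊕ Co m → k) (n : (Fin N ⊕ Co m) →₀ ℕ)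
    (a : k) : JB_th y (monomial n a) =
      monomial (JB_md n) (a * n.prod fun i e => y i ^ e) := by
  have e1 : ∀ i, (Sum.elim (fun i => C (y (Sum.inl i)) * X none)
      (fun i => C (y (Sum.inr i)) * X (some i.1)) : Fin N ⊕ Co m →
        MvPolynomial (Option (Fin r)) k) i =
      C (y i) * X (Sum.elim (fun _ => none) (fun j => some j.1) i) := by
    intro i
    rcases i with i | i <;> rfl
  unfold JB_th
  rw [aeval_monomial, algebraMap_eq]
  simp only [e1, mul_pow]
  rw [Finsupp.prod_mul, ← C_mul_monomial, ← mul_one (n.prod fun i e => y i ^ e),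
    ← C_mul_monomial]
  congr 2
  · rw [Finsupp.prod, Finsupp.prod, map_prod]
    refine Finset.prod_congr rfl fun i _ => ?_
    rw [map_pow]
  · rw [Finsupp.prod_fintype _ _ (fun i => pow_zero _), Fintype.prod_sum_type, monomial_eq,
      map_one, one_mul, Finsupp.prod_fintype _ _ (fun i => pow_zero _), Fintype.prod_option]
    congr 1
    · simp only [Sum.elim_inl]
      rw [Finset.prod_pow_eq_pow_sum]
      rfl
    · rw [Fintype.prod_sigma]
      refine Finset.prod_congr rfl fun b _ => ?_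
      simp only [Sum.elim_inr]
      rw [Finset.prod_pow_eq_pow_sum]
      rfl

theorem JB_coeff {k : Type} [Field k] (y : Fin N ⊕ Co m → k)
    (G : MvPolynomial (Fin N ⊕ Co m) k) (δ : Option (Fin r) →₀ ℕ) :
    coeff δ (JB_th y G) = aeval y (JB_comp G δ) := by
  conv_lhs => rw [← G.support_sum_monomial_coeff]
  rw [map_sum, coeff_sum, JB_comp, map_sum, Finset.sum_filter]
  refine Finset.sum_congr rfl fun n _ => ?_
  rw [JB_th_monomial, coeff_monomial, aeval_monomial]
  rfl

theorem JB_eval {k : Type} [Field k] (y : Fin N ⊕ Co m → k)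
    (G : MvPolynomial (Fin N ⊕ Co m) k) (t : Option (Fin r) → k) :
    eval t (JB_th y G) = aeval (Sum.elim (fun i => t none * y (Sum.inl i))
      (fun i => t (some i.1) * y (Sum.inr i))) G := by
  change aeval t (aeval _ G) = _
  rw [← AlgHom.comp_apply, comp_aeval]
  congr 2
  funext i
  rcases i with i | i
  · simp [mul_comm]
  · simp [mul_comm]

theorem JB_pwh {k : Type} [Field k] (n : ℕ) (G : MvPolynomial (Fin N ⊕ Co m) k)
    (y : Fin N ⊕ Co m → k) : aeval y (pwh k N m n G) =
      aeval (Sum.elim (fun i => y (Sum.inl i)) (fun i => y (Sum.inr i) ^ n)) G := by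
  change aeval y (aeval _ G) = _
  rw [← AlgHom.comp_apply, comp_aeval]
  congr 2
  funext i
  rcases i with i | i <;> simp

theorem JB_smul {k σ : Type} [Field k] (c : k) (x : σ → k) (q : Ideal (MvPolynomial σ k))
    (hqh : ∀ G ∈ q, ∀ n, homogeneousComponent n G ∈ q) (h : ∀ p ∈ q, aeval x p = 0) :
    ∀ p ∈ q, aeval (c • x) p = 0 := by
  intro G hG
  rw [← sum_homogeneousComponent G, map_sum]
  refine Finset.sum_eq_zero fun n _ => ?_
  have hh : (homogeneousComponent n G).IsHomogeneous n := homogeneousComponent_isHomogeneous n G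
  have h0 : aeval x (homogeneousComponent n G) = 0 := h _ (hqh G hG n)
  have key : aeval (c • x) (homogeneousComponent n G) =
      c ^ n * aeval x (homogeneousComponent n G) := by
    rw [aeval_def, aeval_def, eval₂_eq, eval₂_eq, Finset.mul_sum]
    refine Finset.sum_congr rfl fun d hd => ?_
    have h1 : d.degree = n := by
      have := hh (mem_support_iff.1 hd)
      rw [Finsupp.degree_eq_weight_one]
      exact this
    have h2 : ∏ i ∈ d.support, (c • x) i ^ d i = c ^ n * ∏ i ∈ d.support, x i ^ d i := by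
      simp only [Pi.smul_apply, smul_eq_mul, mul_pow]
      rw [Finset.prod_mul_distrib, Finset.prod_pow_eq_pow_sum, ← h1]
      rfl
    rw [h2]; ring
  rw [key, h0, mul_zero]

theorem sgJ_hom {k : Type} [Field k] [IsAlgClosed k] {n : ℕ} (hn : 1 ≤ n)
    (q : Ideal (MvPolynomial (Mt N m) k))
    (hqh : ∀ G ∈ q, ∀ n, homogeneousComponent n G ∈ q) :
    Ideal.span {G | G ∈ (sgJ q).comap (pwh k N m n) ∧ ∃ d e, MHom G d e} =
      (sgJ q).comap (pwh k N m n) := by
  refine le_antisymm (Ideal.span_le.2 fun G hG => hG.1) ?_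
  intro G hG
  obtain ⟨S, hS⟩ := JB_sum G
  rw [hS]
  refine Submodule.sum_mem _ fun δ _ => ?_
  refine Ideal.subset_span ⟨?_, δ none, fun b => δ (some b), JB_mhom G δ⟩
  rw [Ideal.mem_comap, mem_sgJ]
  intro x z hx hz hq
  rw [JB_pwh]
  set y : Fin N ⊕ Co m → k := Sum.elim (fun i => (Sum.elim x z : Fin N ⊕ Co m → k) (Sum.inl i))
    (fun i => (Sum.elim x z : Fin N ⊕ Co m → k) (Sum.inr i) ^ n) with hy
  rw [← JB_coeff]
  have hzero : JB_th y G = 0 := by
    have hinf : Infinite k := IsAlgClosed.instInfinite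
    refine MvPolynomial.funext_set (fun _ => {a : k | a ≠ 0}) (fun _ => ?_) ?_
    · have h1 : ({a : k | a ≠ 0}) = ({0} : Set k)ᶜ := by
        ext a
        simp
      rw [h1]
      exact (Set.finite_singleton (0 : k)).infinite_compl
    · intro t ht
      have ht0 : ∀ o, t o ≠ 0 := fun o => ht o (Set.mem_univ o)
      rw [map_zero, JB_eval]
      have hξ : ∀ b : Fin r, ∃ ξ : k, ξ ^ n = t (some b) := fun b =>
        IsAlgClosed.exists_pow_nat_eq _ hn
      choose ξ hξ using hξ
      have hξ0 : ∀ b, ξ b ≠ 0 := by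
        intro b h0
        have h1 := hξ b
        rw [h0, zero_pow (by omega)] at h1
        exact ht0 _ h1.symm
      have h2 := hG
      rw [Ideal.mem_comap, mem_sgJ] at h2
      have h3 := h2 (t none • x) (sc ξ z) ?_ ?_ ?_
      · rw [JB_pwh] at h3
        rw [← h3]
        congr 2
        funext i
        rcases i with i | i
        · rfl
        · simp only [Sum.elim_inr, hy, sc, mul_pow, hξ]
      · intro h0
        rcases smul_eq_zero.1 h0 with h0 | h0
        · exact ht0 _ h0
        · exact hx h0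
      · intro b
        obtain ⟨i, hi⟩ := hz b
        exact ⟨i, mul_ne_zero (hξ0 b) hi⟩
      · rw [sg_sc]
        exact JB_smul _ _ q hqh hq
  rw [hzero, coeff_zero]

end Pool.Agent.Lib.MP_1e3e9c_agP
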