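import Pool.Agent.Lib.MP_1e3e9c_agP.Seg
import Pool.Agent.Lib.MP_1e3e9c_agP.Pt
import Pool.Agent.Lib.MP_1e3e9c_agL.NecA
import Pool.Agent.Lib.MP_1e3e9c_agL.Krull
import Pool.Agent.Lib.MP_1e3e9c_agS.ExtA
import Pool.Agent.Lib.MP_1e3e9c_agS.DimB

/-!
# the Segre image of a family of lines

PROOFS. `f = kr k (Sum.elim (sg u z) (sg w z))` (the kernel of `aeval`).
`seg_fam`: `prime`: `kr_prime`.  `stable`: for `p ∈ f` and `a b c d : k` the polynomial `p (a U + b W, c U + d W)` vanishes at `(sg u z, sg w z)`: its value there is `p (sg (a u + b w) z, sg (c u + d w) z)` (`sg_add` over `L`), the value at `(a u + b w, c u + d w, z)` of the polynomial `p ((qu), (qw))` in `Cd N m` variables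
which vanishes at `(u, w, z)`; `hG` with `M = L`, `ζ = 1` (`sc_one`) and `Sp.refl`.  So it is in `f` and vanishes at every `k`-point of `f`.  `nondeg`: `exists_kflat` (`δ = 1`) gives `(u1, w1, z1)`; `(sg u1 z1, sg w1 z1)` is in the zero locus of `f` (`p ((qu), (qw))`), independent by `sg_ind` and `MP_1e3e9c_agS.indep_iff`.
`seg_td`: let `i_b` with `z ⟨b, i_b⟩ ≠ 0`, `j` with `u j ≠ 0`.  All coordinates of `pt u w z` lie in the field generated over `k` by the coordinates of `sg u z`, `sg w z` and the `r` elements `z ⟨b, i_b⟩`: `u j' = sg u z (j', i) / ∏ z ⟨b, i_b⟩`, the same for `w`, and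
`z ⟨b, i'⟩ = z ⟨b, i_b⟩ * sg u z (j, update i b i') / sg u z (j, i)`.  So `td k (pt u w z) ≤ td k (Sum.elim (sg u z) (sg w z)) + r` (`MP_1e3e9c_agL.td_mem`, `MP_1e3e9c_agL.td_add_card`), and `MP_1e3e9c_agL.td_ker`, `MP_1e3e9c_agS.DimB_cast` identify `MP_1e3e9c_agL.td k x` with `MP_1e3e9c_agS.td (kr k x)`.
-/

set_option autoImplicit false

namespace Pool.Agent.Lib.MP_1e3e9c_agP

open MvPolynomial
open Pool.Agent.Lib.MP_1e3e9c_agL (Sp Ind td)
open Pool.Agent.Lib.MP_1e3e9c_agS (IsFam kr)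

variable {N r : ℕ} {m : Fin r → ℕ}

/-- the polynomial `p ((qu), (qw))` -/
noncomputable def SgA_sub {k : Type} [Field k] (p : MvPolynomial (Mt N m ⊕ Mt N m) k) :
    MvPolynomial (Cd N m) k :=
  aeval (Sum.elim (fun t => qu k t) (fun t => qw k t)) p

theorem SgA_aeval {k R : Type} [Field k] [CommRing R] [Algebra k R] (u w : Fin N → R)
    (z : Co m → R) (p : MvPolynomial (Mt N m ⊕ Mt N m) k) :
    aeval (pt u w z) (SgA_sub p) = aeval (Sum.elim (sg u z) (sg w z)) p := by
  unfold SgA_sub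
  rw [comp_aeval_apply]
  have h : (fun i => aeval (pt u w z) (Sum.elim (fun t => qu k t) (fun t => qw k t) i)) =
      Sum.elim (sg u z) (sg w z) := by
    funext i
    rcases i with t | t
    · exact aeval_qu u w z t
    · exact aeval_qw u w z t
  rw [h]

theorem SgA_mem {L : Type} {k : Type} [Field k] [Field L] [Algebra k L] {ι : Type} (x : ι → L)
    (y : ι → k) : y ∈ zeroLocus k (kr k x) ↔ Sp k x y := by
  rw [mem_zeroLocus_iff]
  rfl

/-- points of the closure of `(u, w, z)` give points of the closure of the Segre image -/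
theorem SgA_sp {k L M : Type} [Field k] [Field L] [Algebra k L] [Field M] [Algebra k M]
    {u w : Fin N → L} {z : Co m → L} {u' w' : Fin N → M} {z' : Co m → M}
    (h : Sp k (pt u w z) (pt u' w' z')) :
    Sp k (Sum.elim (sg u z) (sg w z)) (Sum.elim (sg u' z') (sg w' z')) := by
  intro p hp
  rw [← SgA_aeval] at hp ⊢
  exact h _ hp

theorem SgA_stable {k L : Type} [Field k] [Field L] [Algebra k L]
    (u w : Fin N → L) (z : Co m → L) (hG : GSt k u w z) (a b c d : k) (U W : Mt N m → k)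
    (h : Sp k (Sum.elim (sg u z) (sg w z)) (Sum.elim U W)) :
    Sp k (Sum.elim (sg u z) (sg w z)) (Sum.elim (a • U + b • W) (c • U + d • W)) := by
  intro p hp
  let q : Mt N m ⊕ Mt N m → MvPolynomial (Mt N m ⊕ Mt N m) k :=
    Sum.elim (fun t => C a * X (Sum.inl t) + C b * X (Sum.inr t))
      (fun t => C c * X (Sum.inl t) + C d * X (Sum.inr t))
  have hq : ∀ (M : Type) [Field M] [Algebra k M] (U' W' : Mt N m → M),
      aeval (Sum.elim U' W') (aeval q p) =
        aeval (Sum.elim (algebraMap k M a • U' + algebraMap k M b • W')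
          (algebraMap k M c • U' + algebraMap k M d • W')) p := by
    intro M _ _ U' W'
    rw [comp_aeval_apply]
    have h1 : (fun i => aeval (Sum.elim U' W') (q i)) =
        Sum.elim (algebraMap k M a • U' + algebraMap k M b • W')
          (algebraMap k M c • U' + algebraMap k M d • W') := by
      funext i
      rcases i with t | t
      · simp [q, Algebra.smul_def]
      · simp [q, Algebra.smul_def]
    rw [h1]
  have h2 := hq k U W
  have h3 : aeval (Sum.elim (sg u z) (sg w z)) (aeval q p) = 0 := by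
    rw [hq L (sg u z) (sg w z), ← sg_add, ← sg_add]
    rw [← SgA_aeval] at hp ⊢
    have h4 := hG L u w z (algebraMap k L a) (algebraMap k L b) (algebraMap k L c)
      (algebraMap k L d) (fun _ => 1) (Sp.refl _) _ hp
    rwa [sc_one] at h4
  have h5 := h _ h3
  rw [h2] at h5
  exact h5

theorem seg_fam {k L : Type} [Field k] [IsAlgClosed k] [Field L] [Algebra k L]
    (u w : Fin N → L) (z : Co m → L) (hG : GSt k u w z) (hi : Ind u w) (ha : Adm z) :
    IsFam (kr k (Sum.elim (sg u z) (sg w z))) where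
  prime := RingHom.ker_isPrime _
  stable := by
    intro a b c d U W h
    rw [SgA_mem] at h ⊢
    exact SgA_stable u w z hG a b c d U W h
  nondeg := by
    obtain ⟨u', w', z', hi', ha', hs, -⟩ := exists_kflat (k := k) u w z hi ha 1
      (by rw [map_one]; exact one_ne_zero)
    exact ⟨sg u' z', sg w' z', (SgA_mem _ _).2 (SgA_sp hs),
      (Pool.Agent.Lib.MP_1e3e9c_agS.indep_iff _ _).2 (sg_ind u' w' z' hi' ha')⟩

/-- exchange of one index in a Segre coordinate -/
theorem SgA_update {R : Type} [CommRing R] (x : Fin N → R) (z : Co m → R) (j : Fin N)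
    (i : (b : Fin r) → Fin (m b)) (b : Fin r) (i' : Fin (m b)) :
    sg x z (j, Function.update i b i') * z ⟨b, i b⟩ = z ⟨b, i'⟩ * sg x z (j, i) := by
  have h1 := Finset.mul_prod_erase Finset.univ
    (fun b' => z ⟨b', Function.update i b i' b'⟩) (Finset.mem_univ b)
  have h2 := Finset.mul_prod_erase Finset.univ (fun b' => z ⟨b', i b'⟩) (Finset.mem_univ b)
  have h3 : ∏ b' ∈ Finset.univ.erase b, z ⟨b', Function.update i b i' b'⟩ =
      ∏ b' ∈ Finset.univ.erase b, z ⟨b', i b'⟩ := by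
    refine Finset.prod_congr rfl fun b' hb' => ?_
    rw [Function.update_of_ne (Finset.ne_of_mem_erase hb')]
  rw [h3, Function.update_self] at h1
  unfold sg
  show x j * (∏ b', z ⟨b', Function.update i b i' b'⟩) * z ⟨b, i b⟩ =
    z ⟨b, i'⟩ * (x j * ∏ b', z ⟨b', i b'⟩)
  rw [← h1, ← h2]
  ring

theorem seg_td {k L : Type} [Field k] [Field L] [Algebra k L]
    (u w : Fin N → L) (z : Co m → L) (hi : Ind u w) (ha : Adm z) (n : ℕ)
    (hn : ((n + r : ℕ) : Cardinal) ≤ td k (pt u w z)) :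
    n ≤ Pool.Agent.Lib.MP_1e3e9c_agS.td (kr k (Sum.elim (sg u z) (sg w z))) := by
  have hu : ∃ j, u j ≠ 0 := by
    obtain ⟨p, q, hpq⟩ := hi
    by_contra hno
    push Not at hno
    rw [hno p, hno q, zero_mul, zero_mul, sub_zero] at hpq
    exact hpq rfl
  obtain ⟨j, hj⟩ := hu
  choose i hi0 using ha
  set x : Mt N m ⊕ Mt N m → L := Sum.elim (sg u z) (sg w z) with hx
  let bb : Fin r → L := fun b => z ⟨b, i b⟩
  have hxK : ∀ s, x s ∈ IntermediateField.adjoin k (Set.range (Sum.elim x bb)) := fun s =>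
    IntermediateField.subset_adjoin k _ ⟨Sum.inl s, rfl⟩
  have hbK : ∀ b, z ⟨b, i b⟩ ∈ IntermediateField.adjoin k (Set.range (Sum.elim x bb)) := fun b =>
    IntermediateField.subset_adjoin k _ ⟨Sum.inr b, rfl⟩
  have hP : ∏ b, z ⟨b, i b⟩ ≠ 0 := Finset.prod_ne_zero_iff.2 fun b _ => hi0 b
  have hPK : ∏ b, z ⟨b, i b⟩ ∈ IntermediateField.adjoin k (Set.range (Sum.elim x bb)) :=
    prod_mem fun b _ => hbK b
  have h1 : td k (pt u w z) ≤ td k (Sum.elim x bb) := by
    refine MP_1e3e9c_agL.td_mem fun s => ?_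
    rcases s with (s | s) | ⟨b, i'⟩
    · have h2 := hxK (Sum.inl (s, i))
      have h3 : u s = x (Sum.inl (s, i)) / ∏ b, z ⟨b, i b⟩ := by
        rw [eq_div_iff hP]
        rfl
      show u s ∈ _
      rw [h3]
      exact div_mem h2 hPK
    · have h2 := hxK (Sum.inr (s, i))
      have h3 : w s = x (Sum.inr (s, i)) / ∏ b, z ⟨b, i b⟩ := by
        rw [eq_div_iff hP]
        rfl
      show w s ∈ _
      rw [h3]
      exact div_mem h2 hPK
    · have h2 := hxK (Sum.inl (j, Function.update i b i'))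
      have h3 := hxK (Sum.inl (j, i))
      have h4 : x (Sum.inl (j, i)) ≠ 0 := mul_ne_zero hj hP
      have h5 : z ⟨b, i'⟩ = x (Sum.inl (j, Function.update i b i')) * z ⟨b, i b⟩ /
          x (Sum.inl (j, i)) := by
        rw [eq_div_iff h4]
        exact (SgA_update u z j i b i').symm
      show z ⟨b, i'⟩ ∈ _
      rw [h5]
      exact div_mem (mul_mem h2 (hbK b)) h3
  have h2 := hn.trans (h1.trans (MP_1e3e9c_agL.td_add_card x bb))
  obtain ⟨t, s, -, -, ht⟩ := MP_1e3e9c_agL.td_basis (k := k) x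
  have h3 : Pool.Agent.Lib.MP_1e3e9c_agS.td (kr k x) = t := by
    have h4 : Pool.Agent.Lib.MP_1e3e9c_agS.td (kr k x) = Cardinal.toNat (td k x) := by
      rw [MP_1e3e9c_agL.td_ker]
      rfl
    rw [h4, ht, Cardinal.toNat_natCast]
  rw [h3]
  rw [ht] at h2
  have h5 : n + r ≤ t + r := by exact_mod_cast h2
  omega

end Pool.Agent.Lib.MP_1e3e9c_agP
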