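import Pool.Agent.Lib.MP_1e3e9c_agP.Seg
import Pool.Agent.Lib.MP_1e3e9c_agP.Pt
import Pool.Agent.Lib.MP_1e3e9c_agS.ExtA
import Pool.Agent.Lib.MP_1e3e9c_agP.SgA

/-!
# points of the Segre image lift

PROOF.  `A` = the range of `aeval (Sum.elim (sg u z) (sg w z)) : MvPolynomial (Mt N m ⊕ Mt N m) k →ₐ[k] L`, `P` = the image of the ideal of the point `(U, W)`, a prime (maximal) ideal of `A` with residue field `k` because the kernel is contained in the ideal of the point (`h`).  There is a valuation subring `V` of `L` with `A ⊆ V` whose maximal ideal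
meets `A` in `P` (`LocalSubring.ofPrime`, `LocalSubring.exists_le_valuationSubring`, or `Ideal.image_subset_nonunits_valuationSubring`: the image of `P` is contained in the nonunits of `V`; see `MP_1e3e9c_ag/RC/Val.lean` and `MP_1e3e9c_agS/SigE.lean`).
So for every polynomial `p` over `k`: `p (sg u z, sg w z) ∈ V`, and its residue is `p (U, W)` (in `k ⊆ ρ`, `ρ` the residue field): in particular `sg u z t` has the residue `U t`, `sg w z t` the residue `W t`.
For every `b` let `i_b` with `|z ⟨b, i_b⟩|` maximal (not zero: `ha`), `π = ∏ z ⟨b, i_b⟩`, `z' ⟨b, i⟩ = z ⟨b, i⟩ / z ⟨b, i_b⟩ ∈ V`, `u' = π • u`, `w' = π • w`: `sg u' z' = sg u z`, `sg w' z' = sg w z` (`sg_sc`), `z' ⟨b, i_b⟩ = 1`, so `u' j = sg u z (j, i) ∈ V`, `w' j ∈ V`.  `Sp k (pt u w z) (pt u' w' z')` by `hG` (`a = e = π`, `b = c = 0`,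
`ζ b = (z ⟨b, i_b⟩)⁻¹`).  Reduce: `(ū, w̄, z̄)` over `ρ`, `Sp k (pt u w z) (pt ū w̄ z̄)`, `z̄ ⟨b, i_b⟩ = 1`, `ū j = U (j, i)`, `w̄ j = W (j, i)`, `sg ū z̄ t = U t`, `sg w̄ z̄ t = W t` in `ρ`.  `U ≠ 0` (independent), so `ū j ≠ 0` for some `j`; `z̄ ⟨b, i'⟩ * ū j = sg ū z̄ (j, update i b i') = U (j, update i b i') ∈ k`, so `z̄ ⟨b, i'⟩ ∈ k`.
So `(ū, w̄, z̄)` is the image of a triple `(u1, w1, z1)` over `k` (`sp_map`).  `Ind u1 w1`: a relation would give one between `U` and `W` (`sg_add`).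
-/

set_option autoImplicit false

namespace Pool.Agent.Lib.MP_1e3e9c_agP

open MvPolynomial
open Pool.Agent.Lib.MP_1e3e9c_agL (Sp Ind td)
open Pool.Agent.Lib.MP_1e3e9c_agS (IsFam kr)

variable {N r : ℕ} {m : Fin r → ℕ}

/-- a valuation ring of `L` with `k ⊆ V` in which the coordinates of `x` have the residues `y` -/
theorem SgB_val {k L ι : Type} [Field k] [Field L] [Algebra k L] (x : ι → L) (y : ι → k)
    (h : Sp k x y) : ∃ V : ValuationSubring L, (∀ c : k, algebraMap k L c ∈ V) ∧ (∀ i, x i ∈ V) ∧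
      ∀ i, x i - algebraMap k L (y i) ∈ V.nonunits := by
  obtain ⟨A, hA⟩ : ∃ A : Subring L, ∀ a, a ∈ A ↔ ∃ p : MvPolynomial ι k, aeval x p = a :=
    ⟨(aeval x : MvPolynomial ι k →ₐ[k] L).toRingHom.range, fun a => Iff.rfl⟩
  let I : Ideal A :=
    { carrier := {a | ∃ p : MvPolynomial ι k, aeval y p = 0 ∧ aeval x p = (a : L)}
      add_mem' := by
        rintro a b ⟨p, hp, hpa⟩ ⟨q, hq, hqb⟩
        exact ⟨p + q, by rw [map_add, hp, hq, add_zero], by rw [map_add, hpa, hqb]; rfl⟩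
      zero_mem' := ⟨0, map_zero _, by rw [map_zero]; rfl⟩
      smul_mem' := by
        rintro c a ⟨p, hp, hpa⟩
        obtain ⟨q, hq⟩ := (hA c).1 c.2
        exact ⟨q * p, by rw [map_mul, hp, mul_zero], by rw [map_mul, hpa, hq]; rfl⟩ }
  have hI : I ≠ ⊤ := by
    intro htop
    have h1 : (1 : A) ∈ I := htop ▸ Submodule.mem_top
    obtain ⟨p, hp, hp1⟩ := h1
    have h2 : aeval x (p - 1) = 0 := by
      rw [map_sub, map_one, hp1, Subring.coe_one, sub_self]
    have h3 := h _ h2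
    rw [map_sub, map_one, hp, zero_sub, neg_eq_zero] at h3
    exact one_ne_zero h3
  obtain ⟨V, hV1, hV2⟩ := Ideal.image_subset_nonunits_valuationSubring I hI
  refine ⟨V, fun c => hV1 ((hA _).2 ⟨C c, aeval_C x c⟩), fun i => hV1 ((hA _).2 ⟨X i, aeval_X x i⟩),
    fun i => ?_⟩
  have h1 : x i - algebraMap k L (y i) ∈ A := (hA _).2 ⟨X i - C (y i), by
    rw [map_sub, aeval_X, aeval_C]⟩
  refine hV2 ⟨⟨_, h1⟩, ⟨X i - C (y i), ?_, ?_⟩, rfl⟩
  · rw [map_sub, aeval_X, aeval_C]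
    exact sub_self _
  · rw [map_sub, aeval_X, aeval_C]

/-- residues of points with coordinates in a valuation ring -/
theorem SgB_res {k L ρ ι : Type} [Field k] [Field L] [Algebra k L] [Field ρ] [Algebra k ρ]
    (V : ValuationSubring L) (hk : ∀ c : k, algebraMap k L c ∈ V) (φ : V →+* ρ)
    (hφ : ∀ c : k, φ ⟨algebraMap k L c, hk c⟩ = algebraMap k ρ c) (x : ι → V) :
    Sp k (fun i => ((x i : V) : L)) (fun i => φ (x i)) := by
  let : Algebra k V := ((algebraMap k L).codRestrict V.toSubring hk).toAlgebra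
  let f : V →ₐ[k] L := { V.subtype with commutes' := fun c => rfl }
  let g : V →ₐ[k] ρ := { φ with commutes' := fun c => hφ c }
  intro p hp
  have h1 : f (aeval x p) = aeval (fun i => ((x i : V) : L)) p := comp_aeval_apply _ f p
  have h2 : g (aeval x p) = aeval (fun i => φ (x i)) p := comp_aeval_apply _ g p
  have h3 : aeval x p = 0 := by
    have h4 : ((aeval x p : V) : L) = 0 := h1.trans hp
    exact Subtype.ext h4
  rw [← h2, h3, map_zero]

theorem SgB_map {R S : Type} [CommRing R] [CommRing S] (φ : R →+* S) (x : Fin N → R)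
    (z : Co m → R) (t : Mt N m) :
    sg (fun i => φ (x i)) (fun i => φ (z i)) t = φ (sg x z t) := by
  unfold sg
  rw [map_mul, map_prod]

theorem seg_lift {k L : Type} [Field k] [IsAlgClosed k] [Field L] [Algebra k L]
    (u w : Fin N → L) (z : Co m → L) (hG : GSt k u w z) (hi : Ind u w) (ha : Adm z)
    (U W : Mt N m → k) (h : Sum.elim U W ∈ zeroLocus k (kr k (Sum.elim (sg u z) (sg w z))))
    (hU : LinearIndependent k ![U, W]) :
    ∃ (u1 w1 : Fin N → k) (z1 : Co m → k), Ind u1 w1 ∧ Adm z1 ∧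
      Sp k (pt u w z) (pt u1 w1 z1) ∧ U = sg u1 z1 ∧ W = sg w1 z1 := by
  rw [SgA_mem] at h
  obtain ⟨V, hk, hx, hy⟩ := SgB_val _ _ h
  -- the coordinates of `z` of maximal absolute value
  have hmax : ∀ b, ∃ i, z ⟨b, i⟩ ≠ 0 ∧ ∀ i', V.valuation (z ⟨b, i'⟩) ≤ V.valuation (z ⟨b, i⟩) := by
    intro b
    obtain ⟨i0, hi0⟩ := ha b
    have : Nonempty (Fin (m b)) := ⟨i0⟩
    obtain ⟨i, hi⟩ := Finite.exists_max (fun i => V.valuation (z ⟨b, i⟩))
    refine ⟨i, fun h0 => hi0 ?_, hi⟩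
    have h1 := hi i0
    rw [h0, map_zero, le_zero_iff, map_eq_zero] at h1
    exact h1
  choose i hi0 hmax using hmax
  set π : L := ∏ b, z ⟨b, i b⟩ with hπ
  have hπ0 : π ≠ 0 := Finset.prod_ne_zero_iff.2 fun b _ => hi0 b
  let ζ : Fin r → L := fun b => (z ⟨b, i b⟩)⁻¹
  have hζ : ∏ b, ζ b = π⁻¹ := by
    rw [hπ, ← Finset.prod_inv_distrib]
  have hsg : ∀ v : Fin N → L, sg (π • v) (sc ζ z) = sg v z := fun v => by
    rw [sg_sc, hζ, mul_inv_cancel₀ hπ0, one_smul]
  have hz1 : ∀ b, sc ζ z ⟨b, i b⟩ = 1 := fun b => inv_mul_cancel₀ (hi0 b)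
  have hzV : ∀ s, sc ζ z s ∈ V := by
    rintro ⟨b, i'⟩
    rw [← ValuationSubring.valuation_le_one_iff]
    have h1 : V.valuation (z ⟨b, i b⟩) ≠ 0 := (map_ne_zero _).2 (hi0 b)
    show V.valuation ((z ⟨b, i b⟩)⁻¹ * z ⟨b, i'⟩) ≤ 1
    rw [map_mul, map_inv₀]
    calc (V.valuation (z ⟨b, i b⟩))⁻¹ * V.valuation (z ⟨b, i'⟩)
        ≤ (V.valuation (z ⟨b, i b⟩))⁻¹ * V.valuation (z ⟨b, i b⟩) :=
          mul_le_mul_right (hmax b i') _
      _ = 1 := inv_mul_cancel₀ h1
  have hco : ∀ (v : Fin N → L) (j : Fin N), (π • v) j = sg v z (j, i) := by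
    intro v j
    rw [← hsg v]
    unfold sg
    show (π • v) j = (π • v) j * ∏ b, sc ζ z ⟨b, i b⟩
    rw [Finset.prod_congr rfl fun b _ => hz1 b, Finset.prod_const_one, mul_one]
  have huV : ∀ j, (π • u) j ∈ V := fun j => by
    rw [hco]
    exact hx (Sum.inl (j, i))
  have hwV : ∀ j, (π • w) j ∈ V := fun j => by
    rw [hco]
    exact hx (Sum.inr (j, i))
  have hS1 : Sp k (pt u w z) (pt (π • u) (π • w) (sc ζ z)) := by
    have h1 := hG L u w z π 0 0 π ζ (Sp.refl _)
    rwa [zero_smul, add_zero, zero_smul, zero_add] at h1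
  -- the residue field
  let ρ := IsLocalRing.ResidueField V
  let φ : V →+* ρ := IsLocalRing.residue V
  let : Algebra k ρ := (φ.comp ((algebraMap k L).codRestrict V.toSubring hk)).toAlgebra
  have hφ : ∀ c : k, φ ⟨algebraMap k L c, hk c⟩ = algebraMap k ρ c := fun c => rfl
  let xu : Fin N → V := fun j => ⟨(π • u) j, huV j⟩
  let xw : Fin N → V := fun j => ⟨(π • w) j, hwV j⟩
  let xz : Co m → V := fun s => ⟨sc ζ z s, hzV s⟩
  have hS2 : Sp k (pt (π • u) (π • w) (sc ζ z))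
      (pt (fun j => φ (xu j)) (fun j => φ (xw j)) (fun s => φ (xz s))) := by
    have h1 := SgB_res V hk φ hφ (Sum.elim (Sum.elim xu xw) xz)
    have h2 : (fun s => ((Sum.elim (Sum.elim xu xw) xz s : V) : L)) =
        pt (π • u) (π • w) (sc ζ z) := by
      funext s
      rcases s with (s | s) | s <;> rfl
    have h3 : (fun s => φ (Sum.elim (Sum.elim xu xw) xz s)) =
        pt (fun j => φ (xu j)) (fun j => φ (xw j)) (fun s => φ (xz s)) := by
      funext s
      rcases s with (s | s) | s <;> rfl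
    rw [h2, h3] at h1
    exact h1
  have hres : ∀ (a : V) (c : k), ((a : L) - algebraMap k L c) ∈ V.nonunits →
      φ a = algebraMap k ρ c := by
    intro a c hac
    rw [← hφ c, ← sub_eq_zero, ← map_sub, IsLocalRing.residue_eq_zero_iff,
      ← ValuationSubring.coe_mem_nonunits_iff]
    exact hac
  have hcoe : ∀ (v : Fin N → L) (xv : Fin N → V), (∀ j, (xv j : L) = (π • v) j) → ∀ t,
      ((sg xv xz t : V) : L) = sg v z t := by
    intro v xv hv t
    have h1 := SgB_map V.subtype xv xz t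
    have h2 : (fun j => V.subtype (xv j)) = π • v := funext hv
    have h3 : (fun s => V.subtype (xz s)) = sc ζ z := rfl
    rw [h2, h3, hsg] at h1
    exact h1.symm
  have hsu : ∀ t, sg (fun j => φ (xu j)) (fun s => φ (xz s)) t = algebraMap k ρ (U t) := by
    intro t
    rw [SgB_map]
    refine hres _ _ ?_
    rw [hcoe u xu (fun j => rfl)]
    exact hy (Sum.inl t)
  have hsw : ∀ t, sg (fun j => φ (xw j)) (fun s => φ (xz s)) t = algebraMap k ρ (W t) := by
    intro t
    rw [SgB_map]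
    refine hres _ _ ?_
    rw [hcoe w xw (fun j => rfl)]
    exact hy (Sum.inr t)
  have hz1' : ∀ b, φ (xz ⟨b, i b⟩) = 1 := fun b => by
    have h1 : xz ⟨b, i b⟩ = 1 := Subtype.ext (hz1 b)
    rw [h1, map_one]
  have hr1 : ∀ (v : Fin N → ρ) j, sg v (fun s => φ (xz s)) (j, i) = v j := by
    intro v j
    unfold sg
    show v j * ∏ b, φ (xz ⟨b, i b⟩) = v j
    rw [Finset.prod_congr rfl fun b _ => hz1' b, Finset.prod_const_one, mul_one]
  have hur : ∀ j, φ (xu j) = algebraMap k ρ (U (j, i)) := fun j => by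
    rw [← hsu, hr1]
  have hwr : ∀ j, φ (xw j) = algebraMap k ρ (W (j, i)) := fun j => by
    rw [← hsw, hr1]
  obtain ⟨p, q, hpq⟩ := (Pool.Agent.Lib.MP_1e3e9c_agS.indep_iff U W).1 hU
  have hinj : Function.Injective (algebraMap k ρ) := (algebraMap k ρ).injective
  obtain ⟨j0, hj0⟩ : ∃ j, U (j, i) ≠ 0 := by
    by_contra hno
    push Not at hno
    have h1 : ∀ t, U t = 0 := by
      intro t
      apply hinj
      rw [← hsu, map_zero]
      show φ (xu t.1) * _ = 0
      rw [hur, hno, map_zero, zero_mul]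
    rw [h1 p, h1 q, zero_mul, zero_mul, sub_zero] at hpq
    exact hpq rfl
  let z1 : Co m → k := fun s => U (j0, Function.update i s.1 s.2) / U (j0, i)
  have hzr : ∀ s, φ (xz s) = algebraMap k ρ (z1 s) := by
    rintro ⟨b, i'⟩
    have h1 := SgA_update (fun j => φ (xu j)) (fun s => φ (xz s)) j0 i b i'
    rw [hsu, hsu, hz1', mul_one] at h1
    have h2 : algebraMap k ρ (U (j0, i)) ≠ 0 := (map_ne_zero _).2 hj0
    show φ (xz ⟨b, i'⟩) = algebraMap k ρ (U (j0, Function.update i b i') / U (j0, i))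
    rw [map_div₀, h1, mul_div_cancel_right₀ _ h2]
  let u1 : Fin N → k := fun j => U (j, i)
  let w1 : Fin N → k := fun j => W (j, i)
  have hUe : U = sg u1 z1 := by
    funext t
    apply hinj
    rw [← hsu, ← sg_map]
    have h1 : (fun j => φ (xu j)) = fun j => algebraMap k ρ (u1 j) := funext hur
    have h2 : (fun s => φ (xz s)) = fun s => algebraMap k ρ (z1 s) := funext hzr
    rw [h1, h2]
  have hWe : W = sg w1 z1 := by
    funext t
    apply hinj
    rw [← hsw, ← sg_map]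
    have h1 : (fun j => φ (xw j)) = fun j => algebraMap k ρ (w1 j) := funext hwr
    have h2 : (fun s => φ (xz s)) = fun s => algebraMap k ρ (z1 s) := funext hzr
    rw [h1, h2]
  refine ⟨u1, w1, z1, ?_, fun b => ⟨i b, ?_⟩, ?_, hUe, hWe⟩
  · refine ⟨p.1, q.1, fun h0 => hpq ?_⟩
    rw [hUe, hWe]
    unfold sg
    linear_combination (∏ b, z1 ⟨b, p.2 b⟩) * (∏ b, z1 ⟨b, q.2 b⟩) * h0
  · show U (j0, Function.update i b (i b)) / U (j0, i) ≠ 0
    rw [Function.update_eq_self, div_self hj0]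
    exact one_ne_zero
  · refine hS1.trans (hS2.trans ?_)
    have h1 : (fun j => φ (xu j)) = fun j => algebraMap k ρ (u1 j) := funext hur
    have h2 : (fun j => φ (xw j)) = fun j => algebraMap k ρ (w1 j) := funext hwr
    have h3 : (fun s => φ (xz s)) = fun s => algebraMap k ρ (z1 s) := funext hzr
    rw [h1, h2, h3]
    exact (sp_map u1 w1 z1).2

end Pool.Agent.Lib.MP_1e3e9c_agP
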