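import Pool.Agent.Lib.MP_1e3e9c_agP.SgA
import Pool.Agent.Lib.MP_1e3e9c_agP.SgB
import Pool.Agent.Lib.MP_1e3e9c_agP.JB
import Pool.Agent.Lib.MP_1e3e9c_agS.Main2

/-!
# The closed subset that meets all lines of the family
-/

set_option autoImplicit false

namespace Pool.Agent.Lib.MP_1e3e9c_agP

open MvPolynomial
open Pool.Agent.Lib.MP_1e3e9c_agL (Sp Ind td)
open Pool.Agent.Lib.MP_1e3e9c_agS (IsFam kr)

variable {N r : ℕ} {m : Fin r → ℕ}

theorem aeval_pwh {k R : Type} [Field k] [CommRing R] [Algebra k R] (n : ℕ)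
    (F : MvPolynomial (Fin N ⊕ Co m) k) (x : Fin N → R) (z : Co m → R) :
    aeval (Sum.elim x z) (pwh k N m n F) = aeval (Sum.elim x (fun i => z i ^ n)) F :=
  aeval_pw n F x z

/-- If a set of `c` multilinear forms contains no line of the family, then a closed subset of
dimension less than `c` meets all lines of the family; `n` is the exponent of the cover. -/
theorem sigma_prod {k L : Type} [Field k] [IsAlgClosed k] [Field L] [Algebra k L] {c n : ℕ}
    (hc : 0 < c) (hn : 1 ≤ n) (u w : Fin N → L) (z : Co m → L) (hG : GSt k u w z) (hi : Ind u w)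
    (ha : Adm z) (ht : ((2 * c + 4 + r : ℕ) : Cardinal) ≤ td k (pt u w z))
    (h : Fin c → Mt N m → k)
    (hL : ∀ (u1 w1 : Fin N → k) (z1 : Co m → k), Ind u1 w1 → Adm z1 →
      Sp k (pt u w z) (pt u1 w1 z1) → ∃ s, hv (h s) u1 z1 ≠ 0 ∨ hv (h s) w1 z1 ≠ 0) :
    ∃ S : Set (MvPolynomial (Fin N ⊕ Co m) k), (∀ G ∈ S, ∃ d e, MHom G d e) ∧
      ringKrullDim (MvPolynomial (Fin N ⊕ Co m) k ⧸ Ideal.span S) ≤ (c + r : ℕ) ∧
      ∀ (u1 w1 : Fin N → k) (z1 : Co m → k), Ind u1 w1 → Adm z1 →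
        Sp k (pt u w z) (pt u1 w1 z1) → ∃ a b : k, a • u1 + b • w1 ≠ 0 ∧
          ∀ G ∈ S, aeval (Sum.elim (a • u1 + b • w1) (fun i => z1 i ^ n)) G = 0 := by
  classical
  have hf := seg_fam u w z hG hi ha
  have hd := seg_td u w z hi ha (2 * c + 4) ht
  obtain ⟨q, hq, hqh, -, hqt, hqm⟩ := Pool.Agent.Lib.MP_1e3e9c_agS.sigma_td hf hc hd h (by
    intro U W hUW hUi
    obtain ⟨u1, w1, z1, h1, h2, h3, rfl, rfl⟩ := seg_lift u w z hG hi ha U W hUW hUi
    obtain ⟨s, hs⟩ := hL u1 w1 z1 h1 h2 h3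
    exact ⟨s, hs⟩)
  refine ⟨{G | G ∈ (sgJ q).comap (pwh k N m n) ∧ ∃ d e, MHom G d e}, fun G hG => hG.2, ?_, ?_⟩
  · rw [sgJ_hom hn q hqh]
    exact dim_of_td _ _ fun P hP hle =>
      comap_td hn (sgJ q) (c + r) (fun Q hQ hJ => sgJ_td q hqt Q hQ hJ) P hP hle
  · intro u1 w1 z1 h1 h2 h3
    have h4 : Sum.elim (sg u1 z1) (sg w1 z1) ∈
        zeroLocus k (kr k (Sum.elim (sg u z) (sg w z))) := by
      intro p hp
      have h5 := h3 (aeval (Sum.elim (qu k) (qw k)) p) (by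
        have h6 : aeval (pt u w z) (aeval (Sum.elim (qu k) (qw k)) p) =
            aeval (Sum.elim (sg u z) (sg w z)) p := by
          rw [← AlgHom.comp_apply, comp_aeval]
          congr 2
          funext i
          rcases i with i | i
          · exact aeval_qu u w z i
          · exact aeval_qw u w z i
        rw [h6]
        exact hp)
      have h6 : aeval (pt u1 w1 z1) (aeval (Sum.elim (qu k) (qw k)) p) =
          aeval (Sum.elim (sg u1 z1) (sg w1 z1)) p := by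
        rw [← AlgHom.comp_apply, comp_aeval]
        congr 2
        funext i
        rcases i with i | i
        · exact aeval_qu u1 w1 z1 i
        · exact aeval_qw u1 w1 z1 i
      rw [h6] at h5
      exact h5
    obtain ⟨a, b, hab, hz⟩ := hqm (sg u1 z1) (sg w1 z1) h4
      ((Pool.Agent.Lib.MP_1e3e9c_agS.indep_iff _ _).2 (sg_ind u1 w1 z1 h1 h2))
    rw [← sg_add] at hab hz
    have hne : a • u1 + b • w1 ≠ 0 := by
      intro h0
      apply hab
      rw [h0]
      funext t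
      simp [sg]
    refine ⟨a, b, hne, ?_⟩
    rintro G ⟨hG1, -⟩
    have h7 := (mem_sgJ q _).1 hG1 (a • u1 + b • w1) z1 hne h2 hz
    rwa [aeval_pwh] at h7

end Pool.Agent.Lib.MP_1e3e9c_agP
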