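import Pool.Agent.Lib.MP_1e3e9c_agP.Many
import Pool.Agent.Lib.MP_1e3e9c_agP.Nec
import Pool.Agent.Lib.MP_1e3e9c_agP.KumA
import Pool.Agent.Lib.MP_1e3e9c_agP.KumB
import Pool.Agent.Lib.MP_1e3e9c_agP.SigP
import Pool.Agent.Lib.MP_1e3e9c_agP.Conv

/-!
# The criterion for a generic triple
-/

set_option autoImplicit false

namespace Pool.Agent.Lib.MP_1e3e9c_agP

open MvPolynomial
open Pool.Agent.Lib.MP_1e3e9c_agL (Sp Ind td)

variable {N r : ℕ} {m : Fin r → ℕ}

theorem sp_pow {k L M : Type} [Field k] [Field L] [Algebra k L] [Field M] [Algebra k M]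
    {u w : Fin N → L} {z : Co m → L} {u' w' : Fin N → M} {z' : Co m → M} (n : ℕ)
    (h : Sp k (pt u w z) (pt u' w' z')) :
    Sp k (pt u w (fun i => z i ^ n)) (pt u' w' (fun i => z' i ^ n)) := by
  intro p hp
  have key : ∀ {K : Type} [Field K] [Algebra k K] (x y : Fin N → K) (t : Co m → K),
      aeval (pt x y t) (aeval (Sum.elim (fun i => X (Sum.inl i))
        (fun i => X (Sum.inr i) ^ n) : Cd N m → MvPolynomial (Cd N m) k) p) =
        aeval (pt x y (fun i => t i ^ n)) p := by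
    intro K _ _ x y t
    rw [← AlgHom.comp_apply, comp_aeval]
    congr 2
    funext i
    rcases i with i | i
    · simp
    · simp
  rw [← key]
  apply h
  rw [key]
  exact hp

/-- (2) implies (1). -/
theorem dec_mpr {k L : Type} [Field k] [IsAlgClosed k] [Field L] [Algebra k L] {c : ℕ}
    (u w : Fin N → L) (z : Co m → L) (hG : GSt k u w z) (hi : Ind u w) (ha : Adm z)
    (d : Fin c → ℕ) (e : Fin c → Fin r → ℕ) (hd : ∀ j, 1 ≤ d j) (he : ∀ j b, 1 ≤ e j b)
    (ht : ((∑ j, (d j + 1) + 4 + r : ℕ) : Cardinal) ≤ td k (pt u w z))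
    (h2 : ∀ S : Set (MvPolynomial (Fin N ⊕ Co m) k), (∀ G ∈ S, ∃ d e, MHom G d e) →
      ringKrullDim (MvPolynomial (Fin N ⊕ Co m) k ⧸ Ideal.span S) ≤ (c + r : ℕ) →
      ∃ (u' w' : Fin N → k) (z' : Co m → k), Ind u' w' ∧ Adm z' ∧
        Sp k (pt u w z) (pt u' w' z') ∧ ∀ a b : k, a • u' + b • w' ≠ 0 →
          ∃ G ∈ S, aeval (Sum.elim (a • u' + b • w') z') G ≠ 0)
    (D : Fin c → MvPolynomial (Fin N ⊕ Co m) k) (hD : ∀ j, MHom (D j) (d j) (e j)) :
    ∃ (u' w' : Fin N → k) (z' : Co m → k), Ind u' w' ∧ Adm z' ∧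
      Sp k (pt u w z) (pt u' w' z') ∧ ∀ j l, aeval (pt u' w' z') (cg (D j) l) = 0 := by
  classical
  -- the exponent of the cover
  obtain ⟨n, hn, hnd⟩ : ∃ n : ℕ, 1 ≤ n ∧ ∀ j, d j ≤ n :=
    ⟨1 + ∑ j, d j, by omega, fun j =>
      (Finset.single_le_sum (fun _ _ => Nat.zero_le _) (Finset.mem_univ j)).trans
        (Nat.le_add_left _ _)⟩
  obtain ⟨L', _, _, u', w', z', hG', hi', ha', htd, hs1, hs2⟩ := kummer u w z hG hi ha hn
  have hmany := many u' w' z' hG' d (fun j b => n * e j b) hd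
    (fun j b => (hnd j).trans (Nat.le_mul_of_pos_right n (he j b))) (fun j => pw n (D j))
    (fun j => pw_hom (hD j) n) (ht.trans htd) (by
      intro h
      by_cases hc : 0 < c
      · by_contra hcon
        push Not at hcon
        have ht2 : ((2 * c + 4 + r : ℕ) : Cardinal) ≤ td k (pt u' w' z') := by
          refine le_trans (Nat.cast_le.2 ?_) (ht.trans htd)
          have h3 : ∑ j : Fin c, 2 ≤ ∑ j, (d j + 1) :=
            Finset.sum_le_sum fun j _ => by have := hd j; omega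
          simp only [Finset.sum_const, Finset.card_univ, Fintype.card_fin, smul_eq_mul] at h3
          omega
        obtain ⟨S, hS1, hS2, hS3⟩ := sigma_prod hc hn u' w' z' hG' hi' ha' ht2 h (by
          intro u1 w1 z1 h1 h3 h4
          obtain ⟨s, hs⟩ := hcon u1 w1 z1 h1 h3 h4
          refine ⟨s, ?_⟩
          by_cases h5 : hv (h s) u1 z1 = 0
          · exact Or.inr (hs h5)
          · exact Or.inl h5)
        obtain ⟨u1, w1, z1, h3, h4, h5, h6⟩ := h2 S hS1 hS2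
        have h7 : Sp k (pt u' w' (fun i => z' i ^ n)) (pt u1 w1 z1) := hs2.trans h5
        obtain ⟨z2, hz2, h8⟩ := kummer_lift hn (Sum.elim u' w') z' (Sum.elim u1 w1) z1 h7
        have hz2' : (fun i => z2 i ^ n) = z1 := funext hz2
        have ha2 : Adm z2 := by
          intro b
          obtain ⟨i, hi⟩ := h4 b
          refine ⟨i, fun h0 => hi ?_⟩
          rw [← hz2, h0, zero_pow (by omega)]
        obtain ⟨a, b, hab, hz⟩ := hS3 u1 w1 z2 h3 ha2 h8
        obtain ⟨G, hG, hne⟩ := h6 a b hab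
        apply hne
        rw [← hz2']
        exact hz G hG
      · obtain ⟨u1, w1, z1, h3, h4, h5, -⟩ := exists_kflat (k := k) u' w' z' hi' ha' 1
          (by rw [map_one]; exact one_ne_zero)
        exact ⟨u1, w1, z1, h3, h4, h5, fun j => absurd j.pos hc⟩)
  obtain ⟨u1, w1, z1, h3, h4, h5, h6⟩ := hmany
  refine ⟨u1, w1, fun i => z1 i ^ n, h3, ?_, hs1.trans (sp_pow n h5), ?_⟩
  · intro b
    obtain ⟨i, hi⟩ := h4 b
    exact ⟨i, pow_ne_zero _ hi⟩
  · intro j l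
    rw [← cg_pw]
    exact h6 j l

/-- (1) implies (2). -/
theorem dec_mp {k L : Type} [Field k] [IsAlgClosed k] [Field L] [Algebra k L] {c : ℕ}
    (u w : Fin N → L) (z : Co m → L) (hG : GSt k u w z)
    (d : Fin c → ℕ) (e : Fin c → Fin r → ℕ)
    (h1 : ∀ D : Fin c → MvPolynomial (Fin N ⊕ Co m) k, (∀ j, MHom (D j) (d j) (e j)) →
      ∃ (u' w' : Fin N → k) (z' : Co m → k), Ind u' w' ∧ Adm z' ∧
        Sp k (pt u w z) (pt u' w' z') ∧ ∀ j l, aeval (pt u' w' z') (cg (D j) l) = 0) :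
    ((∑ j, (d j + 1) + 4 + r : ℕ) : Cardinal) ≤ td k (pt u w z) ∧
    ∀ S : Set (MvPolynomial (Fin N ⊕ Co m) k), (∀ G ∈ S, ∃ d e, MHom G d e) →
      ringKrullDim (MvPolynomial (Fin N ⊕ Co m) k ⧸ Ideal.span S) ≤ (c + r : ℕ) →
      ∃ (u' w' : Fin N → k) (z' : Co m → k), Ind u' w' ∧ Adm z' ∧
        Sp k (pt u w z) (pt u' w' z') ∧ ∀ a b : k, a • u' + b • w' ≠ 0 →
          ∃ G ∈ S, aeval (Sum.elim (a • u' + b • w') z') G ≠ 0 := by
  refine ⟨nec u w z hG d e h1, ?_⟩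
  intro S hS hdim
  obtain ⟨D, hD, hD'⟩ := exists_forms c S hS hdim d e
  obtain ⟨u', w', z', h2, h3, h4, h5⟩ := h1 D hD
  refine ⟨u', w', z', h2, h3, h4, fun a b hab => ?_⟩
  by_contra hcon
  push Not at hcon
  obtain ⟨j, hj⟩ := hD' (a • u' + b • w') z' hab h3 hcon
  exact hj (cg_line (hD j) u' w' z' (h5 j) a b)

end Pool.Agent.Lib.MP_1e3e9c_agP
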