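import Mathlib

/-!
# Families of lines in a product of projective spaces

A line of the first factor of `P^(N-1) × ∏ P^(m b - 1)` is a two-dimensional subspace of `k^N` together with a point
of `∏ P^(m b - 1)`.  A set `A` of such lines is closed if there is a set `S` of polynomials in the coordinates of
`u`, `w`, `z` such that the line through `u` and `w` over the point `z` belongs to `A` if and only if all `p` in `S`
vanish at `(u, w, z)`.
-/

set_option autoImplicit false

namespace Pool.Agent.Lib.MP_1e3e9c_agP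

open MvPolynomial

/-- the coordinates of the factors `b` of the second part: `m b` coordinates -/
abbrev Co {r : ℕ} (m : Fin r → ℕ) : Type := (b : Fin r) × Fin (m b)

/-- the coordinates of two points of the first factor and of a point of the other factors -/
abbrev Cd (N : ℕ) {r : ℕ} (m : Fin r → ℕ) : Type := (Fin N ⊕ Fin N) ⊕ Co m

/-- the point `(u, w, z)` -/
abbrev pt {L : Type} {N r : ℕ} {m : Fin r → ℕ} (u w : Fin N → L) (z : Co m → L) : Cd N m → L :=
  Sum.elim (Sum.elim u w) z

/-- a line of the first factor -/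
@[ext] structure Line (k : Type) [Field k] (N : ℕ) {r : ℕ} (m : Fin r → ℕ) where
  /-- the line -/
  V : Submodule k (Fin N → k)
  two : Module.finrank k V = 2
  /-- the point of the other factors -/
  W : (b : Fin r) → Submodule k (Fin (m b) → k)
  one : ∀ b, Module.finrank k (W b) = 1

/-- `u`, `w`, `z` are coordinates of the line `l` -/
def Line.Is {k : Type} [Field k] {N r : ℕ} {m : Fin r → ℕ} (l : Line k N m) (u w : Fin N → k)
    (z : Co m → k) : Prop :=
  l.V = Submodule.span k {u, w} ∧ ∀ b, l.W b = Submodule.span k {fun i => z ⟨b, i⟩}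

/-- `A` is Zariski closed. -/
def IsZariskiClosed {k : Type} [Field k] {N r : ℕ} {m : Fin r → ℕ} (A : Set (Line k N m)) : Prop :=
  ∃ S : Set (MvPolynomial (Cd N m) k), ∀ (l : Line k N m) (u w : Fin N → k) (z : Co m → k),
    l.Is u w z → (l ∈ A ↔ ∀ p ∈ S, eval (pt u w z) p = 0)

theorem isZariskiClosed_empty {k : Type} [Field k] {N r : ℕ} {m : Fin r → ℕ} :
    IsZariskiClosed (∅ : Set (Line k N m)) := by
  refine ⟨{1}, fun l u w z _ => ?_⟩
  simp

theorem isZariskiClosed_sInter {k : Type} [Field k] {N r : ℕ} {m : Fin r → ℕ}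
    (T : Set (Set (Line k N m))) (hT : ∀ A ∈ T, IsZariskiClosed A) : IsZariskiClosed (⋂₀ T) := by
  choose! S hS using hT
  refine ⟨⋃ A ∈ T, S A, fun l u w z h => ?_⟩
  simp only [Set.mem_sInter, Set.mem_iUnion, exists_prop]
  constructor
  · rintro hl p ⟨A, hA, hp⟩
    exact (hS A hA l u w z h).1 (hl A hA) p hp
  · intro hl A hA
    exact (hS A hA l u w z h).2 fun p hp => hl p ⟨A, hA, hp⟩

theorem isZariskiClosed_union {k : Type} [Field k] {N r : ℕ} {m : Fin r → ℕ}
    (A B : Set (Line k N m)) (hA : IsZariskiClosed A) (hB : IsZariskiClosed B) :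
    IsZariskiClosed (A ∪ B) := by
  obtain ⟨S, hS⟩ := hA
  obtain ⟨T, hT⟩ := hB
  refine ⟨{r | ∃ p ∈ S, ∃ q ∈ T, r = p * q}, fun l u w z h => ?_⟩
  rw [Set.mem_union, hS l u w z h, hT l u w z h]
  constructor
  · rintro h1 r ⟨p, hp, q, hq, rfl⟩
    rw [map_mul]
    rcases h1 with h1 | h1
    · rw [h1 p hp, zero_mul]
    · rw [h1 q hq, mul_zero]
  · intro h1
    by_contra h2
    push Not at h2
    obtain ⟨⟨p, hp, hp0⟩, q, hq, hq0⟩ := h2
    have h3 := h1 _ ⟨p, hp, q, hq, rfl⟩
    rw [map_mul] at h3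
    exact mul_ne_zero hp0 hq0 h3

/-- the Zariski topology on the set of all lines -/
instance {k : Type} [Field k] {N r : ℕ} {m : Fin r → ℕ} : TopologicalSpace (Line k N m) :=
  TopologicalSpace.ofClosed {A | IsZariskiClosed A} isZariskiClosed_empty
    (fun T hT => isZariskiClosed_sInter T hT) (fun A hA B hB => isZariskiClosed_union A B hA hB)

theorem isClosed_iff {k : Type} [Field k] {N r : ℕ} {m : Fin r → ℕ} (A : Set (Line k N m)) :
    IsClosed A ↔ IsZariskiClosed A := by
  rw [← isOpen_compl_iff]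
  show Aᶜᶜ ∈ {A | IsZariskiClosed A} ↔ _
  rw [compl_compl]
  rfl

/-- `F` is homogeneous of degree `d` in the coordinates of the first factor and of degree `e b` in
the coordinates of the factor `b`. -/
def MHom {k : Type} [Field k] {N r : ℕ} {m : Fin r → ℕ} (F : MvPolynomial (Fin N ⊕ Co m) k)
    (d : ℕ) (e : Fin r → ℕ) : Prop :=
  ∀ n ∈ F.support, ∑ i, n (Sum.inl i) = d ∧ ∀ b, ∑ i, n (Sum.inr ⟨b, i⟩) = e b

end Pool.Agent.Lib.MP_1e3e9c_agP
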