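import Pool.Agent.Lib.MP_1e3e9c_agL.Defs
import Pool.Agent.Lib.MP_1e3e9c_agP.Stmt

/-!
# Points over extension fields, forms on a line
-/

set_option autoImplicit false

namespace Pool.Agent.Lib.MP_1e3e9c_agP

open MvPolynomial
open Pool.Agent.Lib.MP_1e3e9c_agL (Sp Ind td)

/-- the multilinear monomials of multidegree `(1, ..., 1)` -/
abbrev Mt (N : ℕ) {r : ℕ} (m : Fin r → ℕ) : Type := Fin N × ((b : Fin r) → Fin (m b))

/-- scaling in the other factors -/
def sc {L : Type} [Field L] {r : ℕ} {m : Fin r → ℕ} (ζ : Fin r → L) (z : Co m → L) : Co m → L :=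
  fun i => ζ i.1 * z i

/-- `z` defines a point of the product of the other factors -/
def Adm {L : Type} [Field L] {r : ℕ} {m : Fin r → ℕ} (z : Co m → L) : Prop :=
  ∀ b, ∃ i, z ⟨b, i⟩ ≠ 0

/-! ## points over extension fields -/

/-- all polynomials in `S` vanish at `(u, w, z)` -/
def Zero {k : Type} [Field k] {N r : ℕ} {m : Fin r → ℕ} (S : Set (MvPolynomial (Cd N m) k))
    {L : Type} [Field L] [Algebra k L] (u w : Fin N → L) (z : Co m → L) : Prop :=
  ∀ p ∈ S, aeval (pt u w z) p = 0

/-- the set of zeros of `S` is stable under all `2 × 2` matrices and scalings -/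
def Stable {k : Type} [Field k] {N r : ℕ} {m : Fin r → ℕ} (S : Set (MvPolynomial (Cd N m) k)) :
    Prop :=
  ∀ (L : Type) [Field L] [Algebra k L] (u w : Fin N → L) (z : Co m → L) (a b c e : L)
    (ζ : Fin r → L), Zero S u w z → Zero S (a • u + b • w) (c • u + e • w) (sc ζ z)

/-- the closure of the point `(u, w, z)` is stable under lower triangular matrices and scalings -/
def BSt (k : Type) [Field k] {N r : ℕ} {m : Fin r → ℕ} {L : Type} [Field L] [Algebra k L]
    (u w : Fin N → L) (z : Co m → L) : Prop :=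
  ∀ (M : Type) [Field M] [Algebra k M] (u' w' : Fin N → M) (z' : Co m → M) (ν lam μ : M)
    (ζ : Fin r → M), Sp k (pt u w z) (pt u' w' z') →
      Sp k (pt u w z) (pt (ν • u') (lam • w' + μ • u') (sc ζ z'))

/-- the closure of the point `(u, w, z)` is stable under all `2 × 2` matrices and scalings -/
def GSt (k : Type) [Field k] {N r : ℕ} {m : Fin r → ℕ} {L : Type} [Field L] [Algebra k L]
    (u w : Fin N → L) (z : Co m → L) : Prop :=
  ∀ (M : Type) [Field M] [Algebra k M] (u' w' : Fin N → M) (z' : Co m → M) (a b c e : M)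
    (ζ : Fin r → M), Sp k (pt u w z) (pt u' w' z') →
      Sp k (pt u w z) (pt (a • u' + b • w') (c • u' + e • w') (sc ζ z'))

/-- the coefficient of `b ^ j` in `F (u + b w, z)`, a polynomial in the coordinates of `u`, `w`
and `z` -/
noncomputable def cg {k : Type} [Field k] {N r : ℕ} {m : Fin r → ℕ}
    (F : MvPolynomial (Fin N ⊕ Co m) k) (j : ℕ) : MvPolynomial (Cd N m) k :=
  (aeval (Sum.elim
    (fun i => Polynomial.C (X (Sum.inl (Sum.inl i))) +
      Polynomial.X * Polynomial.C (X (Sum.inl (Sum.inr i))))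
    (fun i => Polynomial.C (X (Sum.inr i))) :
      Fin N ⊕ Co m → Polynomial (MvPolynomial (Cd N m) k)) F).coeff j

/-- the form `F (X, z)` in the coordinates of the first factor -/
noncomputable def fz {k L : Type} [Field k] [Field L] [Algebra k L] {N r : ℕ} {m : Fin r → ℕ}
    (z : Co m → L) (F : MvPolynomial (Fin N ⊕ Co m) k) : MvPolynomial (Fin N) L :=
  aeval (Sum.elim X (fun i => C (z i)) : Fin N ⊕ Co m → MvPolynomial (Fin N) L) F

/-- the Segre coordinates of the point `(x, z)` -/
def sg {R : Type} [CommRing R] {N r : ℕ} {m : Fin r → ℕ} (x : Fin N → R) (z : Co m → R) :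
    Mt N m → R :=
  fun t => x t.1 * ∏ b, z ⟨b, t.2 b⟩

/-- the value of the multilinear form with the coefficients `h` at the point `(x, z)` -/
def hv {R : Type} [CommRing R] {N r : ℕ} {m : Fin r → ℕ} (h : Mt N m → R) (x : Fin N → R)
    (z : Co m → R) : R :=
  ∑ t, h t * sg x z t

/-- `F (x, z ^ n)` -/
noncomputable def pw {k : Type} [Field k] {N r : ℕ} {m : Fin r → ℕ} (n : ℕ)
    (F : MvPolynomial (Fin N ⊕ Co m) k) : MvPolynomial (Fin N ⊕ Co m) k :=
  aeval (Sum.elim (fun i => X (Sum.inl i)) (fun i => X (Sum.inr i) ^ n)) F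

theorem GSt.bst {k : Type} [Field k] {N r : ℕ} {m : Fin r → ℕ} {L : Type} [Field L] [Algebra k L]
    {u w : Fin N → L} {z : Co m → L} (h : GSt k u w z) : BSt k u w z := by
  intro M _ _ u' w' z' ν lam μ ζ hs
  have h1 := h M u' w' z' ν 0 μ lam ζ hs
  rwa [zero_smul, add_zero, add_comm (μ • u')] at h1

theorem sc_one {L : Type} [Field L] {r : ℕ} {m : Fin r → ℕ} (z : Co m → L) :
    sc (fun _ => (1 : L)) z = z := by
  funext i
  simp [sc]

theorem sc_sc {L : Type} [Field L] {r : ℕ} {m : Fin r → ℕ} (ζ ξ : Fin r → L) (z : Co m → L) :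
    sc ζ (sc ξ z) = sc (fun b => ζ b * ξ b) z := by
  funext i
  simp [sc, mul_assoc]

end Pool.Agent.Lib.MP_1e3e9c_agP
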