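import Pool.Agent.Lib.MP_1e3e9c_agP.TopB
import Pool.Agent.Lib.MP_1e3e9c_agP.Four
import Pool.Agent.Lib.MP_1e3e9c_agL.Krull

/-!
# a chain of families

`step`: `(u0, w0, z0)` over `k` (`exists_kflat`, `δ = 1`), `p`, `q` with `M_pq(u0, w0) ≠ 0`, `i_b` with `z0 ⟨b, i_b⟩ ≠ 0`.  Polynomials that vanish at `(u0, w0, z0)`: `G_rs` as in the version without `z`, and
`H_bi = C (z0 ⟨b, i_b⟩) * X (inr ⟨b, i⟩) - C (z0 ⟨b, i⟩) * X (inr ⟨b, i_b⟩)`.  One of them does not vanish at `(u, w, z)`: otherwise all coordinates of `u`, `w`, `z` lie in the field generated over `k` by `u p`, `u q`, `w p`, `w q` and the `z ⟨b, i_b⟩`, so `td ≤ 4 + r`, but `n + 5 + r ≤ td`.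
`krull` with this polynomial, `exists_gl`, and its values at `(g (u, w), ζ z)` are `det g` resp. `ζ b` times those at `(u, w, z)`.
`dim_ge`: induction.
-/

set_option autoImplicit false

namespace Pool.Agent.Lib.MP_1e3e9c_agP

open MvPolynomial
open Pool.Agent.Lib.MP_1e3e9c_agL (Sp Ind td)

variable {N r : ℕ} {m : Fin r → ℕ}

/-- the minor of the columns `p`, `q` -/
private noncomputable def dgM (k : Type) [Field k] (m : Fin r → ℕ) (p q : Fin N) :
    MvPolynomial (Cd N m) k :=
  X (Sum.inl (Sum.inl p)) * X (Sum.inl (Sum.inr q)) -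
    X (Sum.inl (Sum.inl q)) * X (Sum.inl (Sum.inr p))

private theorem dgM_eval {k L : Type} [Field k] [Field L] [Algebra k L] (p q : Fin N)
    (u w : Fin N → L) (z : Co m → L) :
    aeval (pt u w z) (dgM k m p q) = u p * w q - u q * w p := by
  unfold dgM
  simp only [map_sub, map_mul, aeval_X, Sum.elim_inl, Sum.elim_inr]

/-- the polynomial that vanishes at the pairs with the minors of `(u0, w0)` -/
private noncomputable def dgG {k : Type} [Field k] (m : Fin r → ℕ) (u0 w0 : Fin N → k)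
    (p q a b : Fin N) : MvPolynomial (Cd N m) k :=
  C (u0 p * w0 q - u0 q * w0 p) * dgM k m a b - C (u0 a * w0 b - u0 b * w0 a) * dgM k m p q

private theorem dgG_eval {k L : Type} [Field k] [Field L] [Algebra k L]
    (u0 w0 : Fin N → k) (p q a b : Fin N) (u w : Fin N → L) (z : Co m → L) :
    aeval (pt u w z) (dgG m u0 w0 p q a b) =
      algebraMap k L (u0 p * w0 q - u0 q * w0 p) * (u a * w b - u b * w a) -
        algebraMap k L (u0 a * w0 b - u0 b * w0 a) * (u p * w q - u q * w p) := by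
  unfold dgG
  rw [map_sub, map_mul, map_mul, aeval_C, aeval_C, dgM_eval, dgM_eval]

/-- the polynomial that vanishes at the points proportional to `z0` in the factor `b` -/
private noncomputable def dgH {k : Type} [Field k] (N : ℕ) (z0 : Co m → k) (b : Fin r)
    (i j : Fin (m b)) : MvPolynomial (Cd N m) k :=
  C (z0 ⟨b, j⟩) * X (Sum.inr ⟨b, i⟩) - C (z0 ⟨b, i⟩) * X (Sum.inr ⟨b, j⟩)

private theorem dgH_eval {k L : Type} [Field k] [Field L] [Algebra k L]
    (z0 : Co m → k) (b : Fin r) (i j : Fin (m b)) (u w : Fin N → L) (z : Co m → L) :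
    aeval (pt u w z) (dgH N z0 b i j) =
      algebraMap k L (z0 ⟨b, j⟩) * z ⟨b, i⟩ - algebraMap k L (z0 ⟨b, i⟩) * z ⟨b, j⟩ := by
  unfold dgH
  simp only [map_sub, map_mul, aeval_C, aeval_X, Sum.elim_inr]

/-- if all minors are proportional to those of `(u0, w0)` and all `z` to `z0`, the transcendence
degree is at most `4 + r` -/
private theorem dg_four {k L : Type} [Field k] [Field L] [Algebra k L]
    (u w : Fin N → L) (z : Co m → L) (hi : Ind u w) (u0 w0 : Fin N → k) (z0 : Co m → k)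
    (p q : Fin N) (hpq : u0 p * w0 q - u0 q * w0 p ≠ 0) (j : (b : Fin r) → Fin (m b))
    (hj : ∀ b, z0 ⟨b, j b⟩ ≠ 0)
    (h : ∀ a b, aeval (pt u w z) (dgG m u0 w0 p q a b) = 0)
    (h' : ∀ (b : Fin r) (i : Fin (m b)), aeval (pt u w z) (dgH N z0 b i (j b)) = 0) :
    td k (pt u w z) ≤ ((4 + r : ℕ) : Cardinal) := by
  have hM0 : algebraMap k L (u0 p * w0 q - u0 q * w0 p) ≠ 0 := by
    rw [Ne, map_eq_zero]
    exact hpq
  have h1 : ∀ a b, algebraMap k L (u0 p * w0 q - u0 q * w0 p) * (u a * w b - u b * w a) =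
        algebraMap k L (u0 a * w0 b - u0 b * w0 a) * (u p * w q - u q * w p) := by
    intro a b
    have h2 := h a b
    rw [dgG_eval] at h2
    exact sub_eq_zero.1 h2
  have hM : u p * w q - u q * w p ≠ 0 := by
    obtain ⟨a, b, hab⟩ := hi
    intro h0
    have h2 := h1 a b
    rw [h0, mul_zero] at h2
    exact mul_ne_zero hM0 hab h2
  have h3 : ∀ x : Fin N → L, (∀ a, (u p * w q - u q * w p) * x a =
      x p * (u a * w q - u q * w a) - x q * (u a * w p - u p * w a)) → ∀ a,
      x a = algebraMap k L ((u0 a * w0 q - u0 q * w0 a) / (u0 p * w0 q - u0 q * w0 p)) * x p -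
        algebraMap k L ((u0 a * w0 p - u0 p * w0 a) / (u0 p * w0 q - u0 q * w0 p)) * x q := by
    intro x hx a
    rw [map_div₀, map_div₀]
    have h4 := h1 a q
    have h5 := h1 a p
    have h6 := hx a
    apply mul_left_cancel₀ hM0
    apply mul_left_cancel₀ hM
    have h7 : algebraMap k L (u0 p * w0 q - u0 q * w0 p) *
        (algebraMap k L (u0 a * w0 q - u0 q * w0 a) /
          algebraMap k L (u0 p * w0 q - u0 q * w0 p) * x p -
        algebraMap k L (u0 a * w0 p - u0 p * w0 a) /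
          algebraMap k L (u0 p * w0 q - u0 q * w0 p) * x q) =
        algebraMap k L (u0 a * w0 q - u0 q * w0 a) * x p -
          algebraMap k L (u0 a * w0 p - u0 p * w0 a) * x q := by
      field_simp
    rw [h7]
    linear_combination algebraMap k L (u0 p * w0 q - u0 q * w0 p) * h6 + x p * h4 - x q * h5
  have hu := h3 u (fun a => by ring)
  have hw := h3 w (fun a => by ring)
  have hz : ∀ (b : Fin r) (i : Fin (m b)),
      z ⟨b, i⟩ = algebraMap k L (z0 ⟨b, i⟩ / z0 ⟨b, j b⟩) * z ⟨b, j b⟩ := by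
    intro b i
    have h4 := h' b i
    rw [dgH_eval] at h4
    have h5 : algebraMap k L (z0 ⟨b, j b⟩) ≠ 0 := by
      rw [Ne, map_eq_zero]
      exact hj b
    rw [map_div₀]
    apply mul_left_cancel₀ h5
    have h6 : algebraMap k L (z0 ⟨b, j b⟩) * (algebraMap k L (z0 ⟨b, i⟩) /
        algebraMap k L (z0 ⟨b, j b⟩) * z ⟨b, j b⟩) = algebraMap k L (z0 ⟨b, i⟩) * z ⟨b, j b⟩ := by
      field_simp
    rw [h6]
    exact sub_eq_zero.1 h4
  have hmem : ∀ i : Cd N m, pt u w z i ∈ IntermediateField.adjoin k (Set.range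
      (Fin.append (![u p, u q, w p, w q] : Fin 4 → L) (fun b => z ⟨b, j b⟩))) := by
    have hy1 : ∀ t : Fin 4, (![u p, u q, w p, w q] : Fin 4 → L) t ∈
        IntermediateField.adjoin k (Set.range
          (Fin.append (![u p, u q, w p, w q] : Fin 4 → L) (fun b => z ⟨b, j b⟩))) :=
      fun t => IntermediateField.subset_adjoin _ _ ⟨Fin.castAdd r t, Fin.append_left _ _ t⟩
    have hy2 : ∀ b : Fin r, z ⟨b, j b⟩ ∈
        IntermediateField.adjoin k (Set.range
          (Fin.append (![u p, u q, w p, w q] : Fin 4 → L) (fun b => z ⟨b, j b⟩))) :=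
      fun b => IntermediateField.subset_adjoin _ _ ⟨Fin.natAdd 4 b, Fin.append_right _ _ b⟩
    rintro ((a | a) | ⟨b, i⟩)
    · show u a ∈ _
      rw [hu a]
      exact sub_mem (mul_mem (IntermediateField.algebraMap_mem _ _) (hy1 0))
        (mul_mem (IntermediateField.algebraMap_mem _ _) (hy1 1))
    · show w a ∈ _
      rw [hw a]
      exact sub_mem (mul_mem (IntermediateField.algebraMap_mem _ _) (hy1 2))
        (mul_mem (IntermediateField.algebraMap_mem _ _) (hy1 3))
    · show z ⟨b, i⟩ ∈ _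
      rw [hz b i]
      exact mul_mem (IntermediateField.algebraMap_mem _ _) (hy2 b)
  exact (Pool.Agent.Lib.MP_1e3e9c_agL.td_mem hmem).trans
    (Pool.Agent.Lib.MP_1e3e9c_agL.td_card (k := k) _)

/-- a polynomial which vanishes at `(u0, w0, z0)`, not at `(u, w, z)`, and whose set of zeros is
stable under matrices and scalings -/
private theorem dg_exists {k L : Type} [Field k] [Field L] [Algebra k L]
    (u w : Fin N → L) (z : Co m → L) (hi : Ind u w) (u0 w0 : Fin N → k) (z0 : Co m → k)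
    (hi0 : Ind u0 w0) (ha0 : Adm z0) (n : ℕ)
    (ht : ((n + 5 + r : ℕ) : Cardinal) ≤ td k (pt u w z)) :
    ∃ G : MvPolynomial (Cd N m) k, aeval (pt u0 w0 z0) G = 0 ∧ aeval (pt u w z) G ≠ 0 ∧
      ∀ (M : Type) [Field M] [Algebra k M] (u' w' : Fin N → M) (z' : Co m → M) (a b c e : M)
        (ζ : Fin r → M), aeval (pt u' w' z') G = 0 →
          aeval (pt (a • u' + b • w') (c • u' + e • w') (sc ζ z')) G = 0 := by
  obtain ⟨p, q, hpq⟩ := hi0
  choose j hj using ha0
  have h1 : (∃ a b, aeval (pt u w z) (dgG m u0 w0 p q a b) ≠ 0) ∨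
      ∃ (b : Fin r) (i : Fin (m b)), aeval (pt u w z) (dgH N z0 b i (j b)) ≠ 0 := by
    by_contra hne
    push Not at hne
    have h4 := dg_four u w z hi u0 w0 z0 p q hpq j hj hne.1 hne.2
    have h6 := ht.trans h4
    rw [Nat.cast_le] at h6
    omega
  rcases h1 with ⟨a', b', h1⟩ | ⟨t, i, h1⟩
  · refine ⟨dgG m u0 w0 p q a' b', ?_, h1, ?_⟩
    · rw [dgG_eval]
      simp only [Algebra.algebraMap_self, RingHom.id_apply]
      ring
    · intro M _ _ u' w' z' a b c e ζ h
      rw [dgG_eval] at h ⊢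
      have h2 : ∀ i j : Fin N, (a • u' + b • w') i * (c • u' + e • w') j -
          (a • u' + b • w') j * (c • u' + e • w') i = (a * e - b * c) * (u' i * w' j - u' j * w' i) := by
        intro i j
        simp only [Pi.add_apply, Pi.smul_apply, smul_eq_mul]
        ring
      rw [h2, h2]
      linear_combination (a * e - b * c) * h
  · refine ⟨dgH N z0 t i (j t), ?_, h1, ?_⟩
    · rw [dgH_eval]
      simp only [Algebra.algebraMap_self, RingHom.id_apply]
      ring
    · intro M _ _ u' w' z' a b c e ζ h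
      rw [dgH_eval] at h ⊢
      simp only [sc]
      linear_combination ζ t * h

theorem step {k L : Type} [Field k] [IsAlgClosed k] [Field L] [Algebra k L]
    (u w : Fin N → L) (z : Co m → L) (hG : GSt k u w z) (hi : Ind u w) (ha : Adm z) (n : ℕ)
    (ht : ((n + 5 + r : ℕ) : Cardinal) ≤ td k (pt u w z)) :
    ∃ (L' : Type) (_ : Field L') (_ : Algebra k L') (u' w' : Fin N → L') (z' : Co m → L'),
      GSt k u' w' z' ∧ Ind u' w' ∧ Adm z' ∧ Sp k (pt u w z) (pt u' w' z') ∧
      ¬ Sp k (pt u' w' z') (pt u w z) ∧ ((n + 4 + r : ℕ) : Cardinal) ≤ td k (pt u' w' z') := by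
  obtain ⟨u0, w0, z0, hi0, ha0, hs0, -⟩ := exists_kflat (k := k) u w z hi ha 1 (by simp)
  obtain ⟨G, hG0, hG1, hG2⟩ := dg_exists u w z hi u0 w0 z0 hi0 ha0 n ht
  have ht' : ((n + 4 + r + 1 : ℕ) : Cardinal) ≤ td k (pt u w z) := by
    have h : n + 4 + r + 1 = n + 5 + r := by omega
    rw [h]
    exact ht
  obtain ⟨L'', _, _, y, hz1, hz2, hz3, hz4⟩ := Pool.Agent.Lib.MP_1e3e9c_agL.krull (k := k) hs0 G
    hG0 (n + 4 + r) ht'
  have hz : y = pt (fun i => y (Sum.inl (Sum.inl i))) (fun i => y (Sum.inl (Sum.inr i)))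
      (fun i => y (Sum.inr i)) := by
    funext i
    rcases i with (i | i) | i <;> rfl
  generalize (fun i => y (Sum.inl (Sum.inl i))) = zu at hz
  generalize (fun i => y (Sum.inl (Sum.inr i))) = zw at hz
  generalize (fun i => y (Sum.inr i)) = zz at hz
  subst hz
  obtain ⟨L', _, _, _, _, g, ζ, hg1, hg2, hg3⟩ := exists_gl (κ := k) zu zw zz
  have h5 := hz1.trans (sp_map (k := k) (M := L') zu zw zz).1
  have h8 := (sp_map (k := k) (M := L') zu zw zz).1 _ hz3
  refine ⟨L', inferInstance, inferInstance, _, _, _, hg2, ind_sp (hg3.trans hz2) hi0,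
    adm_sp (hg3.trans hz2) ha0, hG L' _ _ _ (g 0) (g 1) (g 2) (g 3) ζ h5, ?_,
    hz4.trans (Pool.Agent.Lib.MP_1e3e9c_agL.td_sp hg3)⟩
  intro hsp
  exact hG1 (hsp _ (hG2 L' _ _ _ (g 0) (g 1) (g 2) (g 3) ζ h8))

theorem dim_ge {k L : Type} [Field k] [IsAlgClosed k] [Field L] [Algebra k L]
    (u w : Fin N → L) (z : Co m → L) (hG : GSt k u w z) (hi : Ind u w) (ha : Adm z)
    (F : Set (Line k N m))
    (hF : ∀ (l : Line k N m) (u' w' : Fin N → k) (z' : Co m → k), l.Is u' w' z' →
        (l ∈ F ↔ Sp k (pt u w z) (pt u' w' z'))) (n : ℕ)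
    (ht : ((n + 4 + r : ℕ) : Cardinal) ≤ td k (pt u w z)) :
    ∃ A : Fin (n + 1) → Set (Line k N m), StrictMono A ∧
      ∀ i, IsClosed (A i) ∧ IsIrreducible (A i) ∧ A i ⊆ F := by
  have hF1 : IsClosed F ∧ IsIrreducible F := by
    obtain ⟨F1, hc, hirr, h1⟩ := exists_family u w z hG hi ha
    have h2 : F = F1 := by
      ext l
      obtain ⟨u', w', z', -, -, hl⟩ := l.exists_rep
      exact (hF l u' w' z' hl).trans (h1 l u' w' z' hl).symm
    rw [h2]
    exact ⟨hc, hirr⟩
  induction n generalizing L F with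
  | zero =>
    refine ⟨fun _ => F, ?_, fun _ => ⟨hF1.1, hF1.2, subset_rfl⟩⟩
    intro i j hij
    have hij' : i.1 < j.1 := hij
    have h1 := i.2
    have h2 := j.2
    omega
  | succ n ih =>
    have ht1 : ((n + 5 + r : ℕ) : Cardinal) ≤ td k (pt u w z) := by
      have h : n + 5 + r = n + 1 + 4 + r := by omega
      rw [h]
      exact ht
    obtain ⟨L', _, _, u', w', z', hG', hi', ha', hs, hns, ht'⟩ := step u w z hG hi ha n ht1
    obtain ⟨F', hc', hirr', hF'⟩ := exists_family u' w' z' hG' hi' ha'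
    obtain ⟨A, hA1, hA2⟩ := ih u' w' z' hG' hi' ha' F' hF' ht' ⟨hc', hirr'⟩
    have hsub : F' ⊆ F := by
      intro l hl
      obtain ⟨u0, w0, z0, -, -, hl0⟩ := l.exists_rep
      exact (hF l u0 w0 z0 hl0).2 (hs.trans ((hF' l u0 w0 z0 hl0).1 hl))
    have hnsub : ¬ F ⊆ F' := by
      intro hss
      apply hns
      intro p hp
      by_contra hp0
      obtain ⟨u0, w0, z0, hi0, ha0, hs0, hp1⟩ := exists_kflat (k := k) u w z hi ha p hp0
      obtain ⟨l, hl⟩ := Line.exists_of u0 w0 z0 hi0 ha0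
      have h1 : l ∈ F := (hF l u0 w0 z0 hl).2 hs0
      exact hp1 ((hF' l u0 w0 z0 hl).1 (hss h1) p hp)
    have hlt : ∀ i, A i < F := by
      intro i
      refine lt_of_le_of_ne ((hA2 i).2.2.trans hsub) ?_
      intro he
      apply hnsub
      rw [← he]
      exact (hA2 i).2.2
    refine ⟨fun i => if h : i.1 < n + 1 then A ⟨i.1, h⟩ else F, ?_, ?_⟩
    · intro i j hij
      dsimp only
      have hij' : i.1 < j.1 := hij
      have hi1 : i.1 < n + 1 := by omega
      rw [dif_pos hi1]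
      split_ifs with hj
      · exact hA1 hij'
      · exact hlt _
    · intro i
      dsimp only
      split_ifs with hi1
      · exact ⟨(hA2 _).1, (hA2 _).2.1, (hA2 _).2.2.trans hsub⟩
      · exact ⟨hF1.1, hF1.2, subset_rfl⟩

end Pool.Agent.Lib.MP_1e3e9c_agP
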