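import Pool.Agent.Lib.MP_1e3e9c_agP.Top
import Pool.Agent.Lib.MP_1e3e9c_agP.Four
import Pool.Agent.Lib.MP_1e3e9c_agL.Krull

/-!
# a chain of families bounds the transcendence degree

Compare `MP_1e3e9c_agL/DimLe.lean` (the same without `z`; `td_four` gives `4 + r`).
-/

set_option autoImplicit false

namespace Pool.Agent.Lib.MP_1e3e9c_agP

open MvPolynomial
open Pool.Agent.Lib.MP_1e3e9c_agL (Sp Ind td)

variable {N r : ℕ} {m : Fin r → ℕ}

/-- inclusion of families gives a specialization of generic triples -/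
private theorem DimLe_sp {k L L' : Type} [Field k] [IsAlgClosed k] [Field L] [Algebra k L]
    [Field L'] [Algebra k L'] {A B : Set (Line k N m)} {u w : Fin N → L} {z : Co m → L}
    {u₁ w₁ : Fin N → L'} {z₁ : Co m → L'} (hi : Ind u w) (ha : Adm z)
    (hA : ∀ (l : Line k N m) (u' w' : Fin N → k) (z' : Co m → k), l.Is u' w' z' →
        (l ∈ A ↔ Sp k (pt u w z) (pt u' w' z')))
    (hB : ∀ (l : Line k N m) (u' w' : Fin N → k) (z' : Co m → k), l.Is u' w' z' →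
        (l ∈ B ↔ Sp k (pt u₁ w₁ z₁) (pt u' w' z'))) (hAB : A ⊆ B) :
    Sp k (pt u₁ w₁ z₁) (pt u w z) := by
  intro p hp
  by_contra h0
  obtain ⟨u', w', z', hi', ha', hs', h0'⟩ := exists_kflat u w z hi ha p h0
  obtain ⟨l, hl⟩ := Line.exists_of u' w' z' hi' ha'
  have hl' : l ∈ A := (hA l u' w' z' hl).mpr hs'
  exact h0' ((hB l u' w' z' hl).mp (hAB hl') p hp)

/-- a specialization of generic triples gives inclusion of families -/
private theorem DimLe_sub {k L L' : Type} [Field k] [Field L] [Algebra k L]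
    [Field L'] [Algebra k L'] {A B : Set (Line k N m)} {u w : Fin N → L} {z : Co m → L}
    {u₁ w₁ : Fin N → L'} {z₁ : Co m → L'}
    (hA : ∀ (l : Line k N m) (u' w' : Fin N → k) (z' : Co m → k), l.Is u' w' z' →
        (l ∈ A ↔ Sp k (pt u w z) (pt u' w' z')))
    (hB : ∀ (l : Line k N m) (u' w' : Fin N → k) (z' : Co m → k), l.Is u' w' z' →
        (l ∈ B ↔ Sp k (pt u₁ w₁ z₁) (pt u' w' z')))
    (hs : Sp k (pt u₁ w₁ z₁) (pt u w z)) : A ⊆ B := by
  intro l hl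
  obtain ⟨u', w', z', _, _, hV⟩ := l.exists_rep
  exact (hB l u' w' z' hV).mpr (hs.trans ((hA l u' w' z' hV).mp hl))

private theorem DimLe_step {k : Type} [Field k] [IsAlgClosed k] {n : ℕ}
    (A : Fin (n + 1) → Set (Line k N m)) (hA : StrictMono A)
    (hA' : ∀ i, IsClosed (A i) ∧ IsIrreducible (A i)) (j : ℕ) :
    ∀ (h : j < n + 1) (L : Type) [Field L] [Algebra k L] (u w : Fin N → L) (z : Co m → L),
      GSt k u w z → Ind u w → Adm z →
      (∀ (l : Line k N m) (u' w' : Fin N → k) (z' : Co m → k), l.Is u' w' z' →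
        (l ∈ A ⟨j, h⟩ ↔ Sp k (pt u w z) (pt u' w' z'))) →
      ((j + 4 + r : ℕ) : Cardinal) ≤ td k (pt u w z) := by
  induction j with
  | zero =>
    intro h L _ _ u w z hG hi ha _
    have h4 := td_four u w z hG hi ha
    have h5 : ((0 + 4 + r : ℕ) : Cardinal) = ((4 + r : ℕ) : Cardinal) := by rw [Nat.zero_add]
    rw [h5]
    exact h4
  | succ j ih =>
    intro h L _ _ u w z hG hi ha hg
    have hj : j < n + 1 := by omega
    obtain ⟨L₀, _, _, u₀, w₀, z₀, hG₀, hi₀, ha₀, hg₀⟩ :=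
      exists_generic (A ⟨j, hj⟩) (hA' ⟨j, hj⟩).1 (hA' ⟨j, hj⟩).2
    have h1 := ih hj L₀ u₀ w₀ z₀ hG₀ hi₀ ha₀ hg₀
    have hlt : A ⟨j, hj⟩ < A ⟨j + 1, h⟩ := hA (by
      rw [Fin.lt_def]
      exact Nat.lt_succ_self j)
    have h2 : Sp k (pt u w z) (pt u₀ w₀ z₀) := DimLe_sp hi₀ ha₀ hg₀ hg hlt.le
    have h3 : ¬ Sp k (pt u₀ w₀ z₀) (pt u w z) := fun h4 =>
      hlt.not_ge (DimLe_sub hg hg₀ h4)
    have h5 := Pool.Agent.Lib.MP_1e3e9c_agL.td_drop h2 h3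
    refine le_trans ?_ h5
    have h6 : ((j + 1 + 4 + r : ℕ) : Cardinal) = ((j + 4 + r : ℕ) : Cardinal) + 1 := by
      rw [← Nat.cast_succ]
      congr 1
      omega
    rw [h6]
    exact add_le_add h1 le_rfl

theorem dim_le {k L : Type} [Field k] [IsAlgClosed k] [Field L] [Algebra k L]
    (u w : Fin N → L) (z : Co m → L) (F : Set (Line k N m))
    (hF : ∀ (l : Line k N m) (u' w' : Fin N → k) (z' : Co m → k), l.Is u' w' z' →
        (l ∈ F ↔ Sp k (pt u w z) (pt u' w' z'))) (n : ℕ)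
    (A : Fin (n + 1) → Set (Line k N m)) (hA : StrictMono A)
    (hA' : ∀ i, IsClosed (A i) ∧ IsIrreducible (A i) ∧ A i ⊆ F) :
    ((n + 4 + r : ℕ) : Cardinal) ≤ td k (pt u w z) := by
  have hn : n < n + 1 := Nat.lt_succ_self n
  obtain ⟨L₀, _, _, u₀, w₀, z₀, hG₀, hi₀, ha₀, hg₀⟩ :=
    exists_generic (A ⟨n, hn⟩) (hA' ⟨n, hn⟩).1 (hA' ⟨n, hn⟩).2.1
  have h1 := DimLe_step A hA (fun i => ⟨(hA' i).1, (hA' i).2.1⟩) n hn L₀ u₀ w₀ z₀ hG₀ hi₀ ha₀ hg₀
  have h2 : Sp k (pt u w z) (pt u₀ w₀ z₀) := DimLe_sp hi₀ ha₀ hg₀ hF (hA' ⟨n, hn⟩).2.2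
  exact h1.trans (Pool.Agent.Lib.MP_1e3e9c_agL.td_sp h2)

end Pool.Agent.Lib.MP_1e3e9c_agP
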