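import Pool.Agent.Lib.MP_1e3e9c_agL.Defs

/-!
# the generic linear form that vanishes at a point with polynomial coordinates

Compare `MP_1e3e9c_agL/Inc.lean` (the special case `Q i = X (inl i)`, `x = (u, w)`).
PROOF of `inc_spec`.  `h'_c = - (∑_(i ≠ c) h'_i Q_i(x)) / Q_c(x)` (note `Q_c(x) ≠ 0` because `Q_c(x1) ≠ 0` and `Sp k x x1`); the same for `h1` and `x1`.  Let `p` be a polynomial in `(X, H)` over `k` with `p(x, h') = 0`.  There are `K : ℕ` and `q ∈ k[X][T_i : i ≠ c]` such that for all `k`-fields and all `(x, h)` with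
`∑ h_i Q_i(x) = 0`: `Q_c(x) ^ K p(x, h) = q(x, (h_i)_(i ≠ c))` (induction on `p`).  `q(x, (h'_i)) = 0`; the `h'_i`, `i ≠ c`, are algebraically independent over `L`, so every coefficient of `q` (a polynomial in `X` over `k`) vanishes at `x`, hence at `x1`, so `q(x1, (h1_i)) = 0`, i.e. `Q_c(x1) ^ K p(x1, h1) = 0`.
`exists_inc`, `inc_ne`: as in that file with the index type `τ`.
-/

set_option autoImplicit false

namespace Pool.Agent.Lib.MP_1e3e9c_agP

open MvPolynomial
open Pool.Agent.Lib.MP_1e3e9c_agL (Sp Ind td)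

/-- the value of a polynomial in the `T_i`, `i ≠ c`, over `k[X]` -/
private noncomputable def evq (k : Type) {E ι τ : Type} [Field k] [Field E] [Algebra k E]
    (c : τ) (x : ι → E) (h : τ → E)
    (q : MvPolynomial {i : τ // i ≠ c} (MvPolynomial ι k)) : E :=
  eval₂ ((aeval x : MvPolynomial ι k →ₐ[k] E) :
    MvPolynomial ι k →+* E) (fun i => h i.1) q

private theorem evq_poly {k ι τ : Type} [Field k] [Fintype τ] (Q : τ → MvPolynomial ι k) (c : τ)
    (p : MvPolynomial (ι ⊕ τ) k) :
    ∃ (K : ℕ) (q : MvPolynomial {i : τ // i ≠ c} (MvPolynomial ι k)),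
      ∀ (E : Type) [Field E] [Algebra k E] (x : ι → E) (h : τ → E),
        ∑ i, h i * aeval x (Q i) = 0 →
        (aeval x (Q c)) ^ K * aeval (Sum.elim x h) p = evq k c x h q := by
  classical
  induction p using MvPolynomial.induction_on with
  | C a =>
    refine ⟨0, C (C a), fun E _ _ x h _ => ?_⟩
    simp [evq]
  | add p p' ih ih' =>
    obtain ⟨K, q, hq⟩ := ih
    obtain ⟨K', q', hq'⟩ := ih'
    refine ⟨K + K', C (Q c) ^ K' * q + C (Q c) ^ K * q',
      fun E _ _ x h h0 => ?_⟩
    have h1 := hq E x h h0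
    have h2 := hq' E x h h0
    have h3 : evq k c x h (C (Q c) ^ K' * q + C (Q c) ^ K * q') =
        (aeval x (Q c)) ^ K' * evq k c x h q + (aeval x (Q c)) ^ K * evq k c x h q' := by
      simp [evq, eval₂_add, eval₂_mul, eval₂_pow]
    rw [h3, ← h1, ← h2, map_add]
    ring
  | mul_X p v ih =>
    obtain ⟨K, q, hq⟩ := ih
    rcases v with s | i
    · refine ⟨K, q * C (X s), fun E _ _ x h h0 => ?_⟩
      have h3 : evq k c x h (q * C (X s)) = evq k c x h q * x s := by
        simp [evq, eval₂_mul]
      rw [h3, ← hq E x h h0, map_mul, aeval_X, Sum.elim_inl]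
      ring
    · by_cases hi : i = c
      · subst hi
        refine ⟨K + 1, q * -(∑ j : {j : τ // j ≠ i}, C (Q j.1) * X j),
          fun E _ _ x h h0 => ?_⟩
        have h3 : evq k i x h (q * -(∑ j : {j : τ // j ≠ i}, C (Q j.1) * X j)) =
            evq k i x h q * -(∑ j : {j : τ // j ≠ i}, aeval x (Q j.1) * h j.1) := by
          have e1 : ∀ q', evq k i x h q' = eval₂Hom ((aeval x :
              MvPolynomial ι k →ₐ[k] E) : MvPolynomial ι k →+* E)
                (fun j : {j : τ // j ≠ i} => h j.1) q' := fun q' => rfl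
          rw [e1, e1, map_mul, map_neg, map_sum]
          simp
        have h4 : aeval x (Q i) * h i = -(∑ j : {j : τ // j ≠ i}, aeval x (Q j.1) * h j.1) := by
          have h5 : ∑ j ∈ Finset.univ.erase i, aeval x (Q j) * h j =
              ∑ j : {j : τ // j ≠ i}, aeval x (Q j.1) * h j.1 :=
            Finset.sum_subtype (Finset.univ.erase i) (p := fun j => j ≠ i) (by simp)
              (fun j => aeval x (Q j) * h j)
          have h6 : ∑ j, aeval x (Q j) * h j = 0 := by
            rw [← h0]
            exact Finset.sum_congr rfl fun j _ => mul_comm _ _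
          rw [← Finset.add_sum_erase Finset.univ _ (Finset.mem_univ i), h5] at h6
          exact eq_neg_of_add_eq_zero_left h6
        rw [h3, ← hq E x h h0, ← h4, map_mul, aeval_X, Sum.elim_inr]
        ring
      · refine ⟨K, q * X ⟨i, hi⟩, fun E _ _ x h h0 => ?_⟩
        have h3 : evq k c x h (q * X ⟨i, hi⟩) = evq k c x h q * h i := by
          simp [evq, eval₂_mul]
        rw [h3, ← hq E x h h0, map_mul, aeval_X, Sum.elim_inr]
        ring

theorem inc_spec {k L M L1 ι τ : Type} [Field k] [Field L] [Algebra k L] [Field M] [Algebra k M]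
    [Algebra L M] [IsScalarTower k L M] [Field L1] [Algebra k L1] [Finite ι] [Fintype τ]
    (x : ι → L) (Q : τ → MvPolynomial ι k)
    (c : τ) (h' : τ → M) (ht : AlgebraicIndependent L (fun i : {i // i ≠ c} => h' i.1))
    (h0 : ∑ i, h' i * algebraMap L M (aeval x (Q i)) = 0) (x1 : ι → L1)
    (hc : aeval x1 (Q c) ≠ 0) (h1 : τ → L1) (h10 : ∑ i, h1 i * aeval x1 (Q i) = 0)
    (hs : Sp k x x1) :
    Sp k (Sum.elim (fun i => algebraMap L M (x i)) h') (Sum.elim x1 h1) := by
  intro p hp
  obtain ⟨K, q, hq⟩ := evq_poly Q c p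
  have h3 : ((aeval (fun i => algebraMap L M (x i)) :
      MvPolynomial ι k →ₐ[k] M) : MvPolynomial ι k →+* M) =
      (algebraMap L M).comp ((aeval x : MvPolynomial ι k →ₐ[k] L) :
        MvPolynomial ι k →+* L) := by
    refine MvPolynomial.ringHom_ext (fun r => ?_) (fun s => ?_)
    · simp [← IsScalarTower.algebraMap_apply k L M]
    · simp
  have h3' : ∀ g : MvPolynomial ι k, aeval (fun i => algebraMap L M (x i)) g =
      algebraMap L M (aeval x g) := fun g => RingHom.congr_fun h3 g
  have h2 := hq M (fun i => algebraMap L M (x i)) h' (by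
    rw [← h0]
    exact Finset.sum_congr rfl fun i _ => by rw [h3'])
  rw [hp, mul_zero] at h2
  have h4 : aeval (fun i : {i // i ≠ c} => h' i.1) (map ((aeval x :
      MvPolynomial ι k →ₐ[k] L) : MvPolynomial ι k →+* L) q) = 0 := by
    rw [aeval_def, eval₂_map, ← h3]
    exact h2.symm
  have h5 := ht.eq_zero_of_aeval_eq_zero _ h4
  have h6 : map ((aeval x1 : MvPolynomial ι k →ₐ[k] L1) :
      MvPolynomial ι k →+* L1) q = 0 := by
    refine MvPolynomial.ext _ _ fun m => ?_
    have h7 := congrArg (coeff m) h5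
    rw [coeff_map, coeff_zero] at h7
    rw [coeff_map, coeff_zero]
    exact hs _ h7
  have h8 : evq k c x1 h1 q = 0 := by
    have e := eval₂_map (R := MvPolynomial ι k)
      ((aeval x1 : MvPolynomial ι k →ₐ[k] L1) :
        MvPolynomial ι k →+* L1) (fun i : {i // i ≠ c} => h1 i.1)
      (RingHom.id L1) q
    rw [h6, eval₂_zero, RingHom.id_comp] at e
    exact e.symm
  have h9 := hq L1 x1 h1 h10
  rw [h8] at h9
  exact (mul_eq_zero.1 h9).resolve_left (pow_ne_zero K hc)

theorem exists_inc (k : Type) {L τ : Type} [Field k] [Field L] [Algebra k L] [Fintype τ]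
    (U : τ → L) (c : τ) (hc : U c ≠ 0) :
    ∃ (M : Type) (_ : Field M) (_ : Algebra k M) (_ : Algebra L M) (_ : IsScalarTower k L M)
      (h' : τ → M), AlgebraicIndependent L (fun i : {i // i ≠ c} => h' i.1) ∧
      ∑ i, h' i * algebraMap L M (U i) = 0 := by
  classical
  let A := MvPolynomial {i : τ // i ≠ c} L
  let M := FractionRing A
  let g : τ → M := fun i => if h : i ≠ c then algebraMap A M (X ⟨i, h⟩) else 0
  have hu : algebraMap L M (U c) ≠ 0 := by
    rw [Ne, map_eq_zero]
    exact hc
  refine ⟨M, inferInstance, inferInstance, inferInstance, ?_, fun i => if i = c then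
    -(∑ j ∈ Finset.univ.erase c, g j * algebraMap L M (U j)) / algebraMap L M (U c) else g i,
    ?_, ?_⟩
  · refine IsScalarTower.of_algebraMap_eq fun x => ?_
    rw [IsScalarTower.algebraMap_apply k A M, IsScalarTower.algebraMap_apply L A M]
    rfl
  · have h1 := (MvPolynomial.algebraicIndependent_X {i : τ // i ≠ c} L).map'
      (f := IsScalarTower.toAlgHom L A M) (IsFractionRing.injective A M)
    have h2 : (fun i : {i : τ // i ≠ c} => (fun i => if i = c then
        -(∑ j ∈ Finset.univ.erase c, g j * algebraMap L M (U j)) / algebraMap L M (U c) else g i)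
          i.1) = (IsScalarTower.toAlgHom L A M) ∘ X := by
      funext i
      show (if i.1 = c then _ else g i.1) = _
      rw [if_neg i.2]
      show (if h : i.1 ≠ c then algebraMap A M (X ⟨i.1, h⟩) else 0) = _
      rw [dif_pos i.2]
      rfl
    rw [h2]
    exact h1
  · rw [← Finset.add_sum_erase Finset.univ _ (Finset.mem_univ c)]
    have h3 : ∑ x ∈ Finset.univ.erase c, (if x = c then
        -(∑ j ∈ Finset.univ.erase c, g j * algebraMap L M (U j)) / algebraMap L M (U c) else g x) *
          algebraMap L M (U x) = ∑ j ∈ Finset.univ.erase c, g j * algebraMap L M (U j) :=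
      Finset.sum_congr rfl fun x hx => by rw [if_neg (Finset.ne_of_mem_erase hx)]
    rw [h3]
    simp only [if_true]
    rw [div_mul_cancel₀ _ hu]
    ring

/-- the generic linear form which vanishes at `U` does not vanish at `W` -/
theorem inc_ne {L M τ : Type} [Field L] [Field M] [Algebra L M] [Fintype τ] (U W : τ → L)
    (hi : ∃ p q, U p * W q - U q * W p ≠ 0) (c : τ) (hc : U c ≠ 0) (h' : τ → M)
    (ht : AlgebraicIndependent L (fun i : {i // i ≠ c} => h' i.1))
    (h0 : ∑ i, h' i * algebraMap L M (U i) = 0) : ∑ i, h' i * algebraMap L M (W i) ≠ 0 := by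
  classical
  intro hw
  have hli := ht.linearIndependent
  have h1 : ∑ i : {i : τ // i ≠ c}, (U c * W i.1 - W c * U i.1) • h' i.1 = 0 := by
    have h2 : ∑ i : τ, (U c * W i - W c * U i) • h' i = 0 := by
      have h3 : ∀ i : τ, (U c * W i - W c * U i) • h' i =
          algebraMap L M (U c) * (h' i * algebraMap L M (W i)) -
            algebraMap L M (W c) * (h' i * algebraMap L M (U i)) := by
        intro i
        rw [Algebra.smul_def, map_sub, map_mul, map_mul]
        ring
      simp only [h3]
      rw [Finset.sum_sub_distrib, ← Finset.mul_sum, ← Finset.mul_sum, hw, h0, mul_zero, mul_zero,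
        sub_zero]
    rw [← Finset.add_sum_erase Finset.univ _ (Finset.mem_univ c)] at h2
    have h4 : (U c * W c - W c * U c) • h' c = 0 := by
      rw [mul_comm, sub_self, zero_smul]
    rw [h4, zero_add] at h2
    rw [← h2]
    refine (Finset.sum_subtype (Finset.univ.erase c) (p := fun i => i ≠ c) ?_
      (fun i => (U c * W i - W c * U i) • h' i)).symm
    intro x
    simp
  rw [Fintype.linearIndependent_iff] at hli
  have h5 := hli (fun i => U c * W i.1 - W c * U i.1) h1
  have h6 : ∀ i : τ, U c * W i = W c * U i := by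
    intro i
    rcases eq_or_ne i c with h | h
    · rw [h, mul_comm]
    · exact sub_eq_zero.1 (h5 ⟨i, h⟩)
  obtain ⟨p, q, hpq⟩ := hi
  refine hpq ?_
  have h7 : U c * (U p * W q - U q * W p) = 0 := by
    have e : U c * (U p * W q - U q * W p) = U p * (U c * W q) - U q * (U c * W p) := by ring
    rw [e, h6, h6]
    ring
  exact (mul_eq_zero.1 h7).resolve_left hc

end Pool.Agent.Lib.MP_1e3e9c_agP
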