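import Pool.Agent.Lib.MP_1e3e9c_agP.Seg
import Pool.Agent.Lib.MP_1e3e9c_agL.NecA
import Pool.Agent.Lib.MP_1e3e9c_agL.Krull
import Pool.Agent.Lib.MP_1e3e9c_agS.DimB
import Pool.Agent.Lib.MP_1e3e9c_agS.Prod

/-!
# the cone over a closed subset given in Segre coordinates

PROOFS. `sgJ q` is the ideal of all `G` that vanish at all `(x, z)` over `k` with `x ≠ 0`, `Adm z` and `sg x z` in the zero locus of `q`.
`point_td`: let `(x, z)` be a point over `L`, `x ≠ 0`, `Adm z`, `p (sg x z) = 0` for all `p ∈ q`.  `q ≤ kr k (sg x z)` (a prime), so `MP_1e3e9c_agS.td (kr k (sg x z)) ≤ td q ≤ c` (`MP_1e3e9c_agS.td_mono`), and all coordinates of `(x, z)` lie in the field generated over `k` by those of `sg x z` and the `r` elements `z ⟨b, i_b⟩ ≠ 0` (see the file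
`SgA.lean`): `x j' = sg x z (j', i) / ∏ z ⟨b, i_b⟩`, `z ⟨b, i'⟩ = z ⟨b, i_b⟩ * sg x z (j, update i b i') / sg x z (j, i)` with `x j ≠ 0`, so `td k (Sum.elim x z) ≤ c + r` (`MP_1e3e9c_agL.td_mem`, `td_add_card`, `td_ker`, `MP_1e3e9c_agS.DimB_cast`).
`sgJ_td`: let `P ⊇ sgJ q` be prime; `Ideal.exists_minimalPrimes_le` gives a minimal prime `P₁ ≤ P` of `J = sgJ q`.  The minimal primes are finitely many (`Ideal.finite_minimalPrimes_of_isNoetherianRing`).  Claim: the generic point `(x, z)` of `P₁` over `L₁ = FractionRing (R ⧸ P₁)` has `x ≠ 0` and `Adm z`.  Otherwise `P₁` contains all `X (inl i)`,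
or all `X (inr ⟨b, i⟩)` for one `b`.  For every other minimal prime `P_j` choose `g_j ∈ P_j \ P₁` (minimality) and let `g` be their product: `g ∉ P₁` (prime).  But `g` vanishes at every `(x, z)` as in the definition of `J`: the kernel `K` of this point is a prime containing `J`, so it contains a minimal prime of `J`, not `P₁` (because `x ≠ 0`,
`Adm z`), so some `P_j`, and `g_j ∈ P_j ≤ K`.  So `g ∈ J ≤ P₁`: contradiction.  For `p ∈ q` the polynomial `p ((qx))` is in `J ≤ P₁`, so `p (sg x z) = 0` at the generic point of `P₁`; `point_td` gives `td P₁ ≤ c + r` and `td_mono` `td P ≤ td P₁`.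
`dim_of_td`: a chain of primes containing `I` gives a strictly decreasing chain of the `td` (`MP_1e3e9c_agS.td_lt`); see the proof of `MP_1e3e9c_agS.cone_ideal`.
-/

set_option autoImplicit false

namespace Pool.Agent.Lib.MP_1e3e9c_agP

open MvPolynomial
open Pool.Agent.Lib.MP_1e3e9c_agL (Sp Ind)
open Pool.Agent.Lib.MP_1e3e9c_agS (kr td)

variable {N r : ℕ} {m : Fin r → ℕ}

/-- the ideal of the cone over the points whose Segre coordinates are zeros of `q` -/
def sgJ {k : Type} [Field k] (q : Ideal (MvPolynomial (Mt N m) k)) :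
    Ideal (MvPolynomial (Fin N ⊕ Co m) k) where
  carrier := {G | ∀ (x : Fin N → k) (z : Co m → k), x ≠ 0 → Adm z →
    (∀ p ∈ q, aeval (sg x z) p = 0) → aeval (Sum.elim x z) G = 0}
  add_mem' := fun {G H} hG hH x z hx hz h => by
    rw [map_add, hG x z hx hz h, hH x z hx hz h, add_zero]
  zero_mem' := fun x z _ _ _ => map_zero _
  smul_mem' := fun c G hG x z hx hz h => by
    rw [smul_eq_mul, map_mul, hG x z hx hz h, mul_zero]

theorem mem_sgJ {k : Type} [Field k] (q : Ideal (MvPolynomial (Mt N m) k))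
    (G : MvPolynomial (Fin N ⊕ Co m) k) : G ∈ sgJ q ↔
      ∀ (x : Fin N → k) (z : Co m → k), x ≠ 0 → Adm z →
        (∀ p ∈ q, aeval (sg x z) p = 0) → aeval (Sum.elim x z) G = 0 := Iff.rfl

/-- all coordinates of `(x, z)` lie in the field generated by the Segre coordinates and the
`z ⟨b, i_b⟩` -/
private theorem JA_mem {L : Type} [Field L] (F : Subfield L) (x : Fin N → L) (z : Co m → L)
    (hx : x ≠ 0) (iz : (b : Fin r) → Fin (m b)) (hiz : ∀ b, z ⟨b, iz b⟩ ≠ 0)
    (hF : ∀ t, sg x z t ∈ F) (hFz : ∀ b, z ⟨b, iz b⟩ ∈ F) (i : Fin N ⊕ Co m) :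
    Sum.elim x z i ∈ F := by
  classical
  have hx' : ∀ j, x j ∈ F := by
    intro j
    have h1 : x j = sg x z (j, iz) / ∏ b, z ⟨b, iz b⟩ := by
      rw [eq_div_iff (Finset.prod_ne_zero_iff.2 fun b _ => hiz b)]
      rfl
    rw [h1]
    exact div_mem (hF _) (prod_mem fun b _ => hFz b)
  rcases i with j | ⟨b, i⟩
  · exact hx' j
  · obtain ⟨j, hj⟩ : ∃ j, x j ≠ 0 := by
      by_contra h
      push Not at h
      exact hx (funext h)
    have h1 : sg x z (j, Function.update iz b i) =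
        z ⟨b, i⟩ * (x j * ∏ b' ∈ Finset.univ.erase b, z ⟨b', iz b'⟩) := by
      unfold sg
      rw [← Finset.mul_prod_erase Finset.univ (fun b' => z ⟨b', Function.update iz b i b'⟩)
        (Finset.mem_univ b)]
      dsimp only
      rw [Function.update_self, Finset.prod_congr rfl (g := fun b' => z ⟨b', iz b'⟩)]
      · ring
      · intro b' hb'
        rw [Function.update_of_ne (Finset.ne_of_mem_erase hb')]
    have h2 : x j * ∏ b' ∈ Finset.univ.erase b, z ⟨b', iz b'⟩ ≠ 0 :=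
      mul_ne_zero hj (Finset.prod_ne_zero_iff.2 fun b _ => hiz b)
    show z ⟨b, i⟩ ∈ F
    rw [← mul_div_cancel_right₀ (z ⟨b, i⟩) h2, ← h1]
    exact div_mem (hF _) (mul_mem (hx' j) (prod_mem fun b _ => hFz b))

theorem point_td {k L : Type} [Field k] [Field L] [Algebra k L] {c : ℕ}
    (q : Ideal (MvPolynomial (Mt N m) k)) (hq : td q ≤ c) (x : Fin N → L) (z : Co m → L)
    (hx : x ≠ 0) (hz : Adm z) (h : ∀ p ∈ q, aeval (sg x z) p = 0) :
    td (kr k (Sum.elim x z)) ≤ c + r := by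
  classical
  choose iz hiz using hz
  set s : Set L := Set.range (sg x z) ∪ Set.range (fun b : Fin r => z ⟨b, iz b⟩) with hs
  have h1 : Set.range (Sum.elim x z) ⊆ (IntermediateField.adjoin k s : Set L) := by
    rintro _ ⟨i, rfl⟩
    refine JA_mem (IntermediateField.adjoin k s).toSubfield x z hx iz hiz
      (fun t => IntermediateField.subset_adjoin k s (Or.inl ⟨t, rfl⟩))
      (fun b => IntermediateField.subset_adjoin k s (Or.inr ⟨b, rfl⟩)) i
  have h2 : MP_1e3e9c_agS.T k (Set.range (Sum.elim x z)) ≤ (td (kr k (sg x z)) : ℕ∞) + r := by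
    refine (MP_1e3e9c_agS.T_le_of_mem h1).trans ((MP_1e3e9c_agS.T_union_le _ _).trans ?_)
    refine add_le_add (MP_1e3e9c_agS.T_range _).le ((MP_1e3e9c_agS.T_le_encard _).trans ?_)
    rw [← Set.image_univ]
    refine (Set.encard_image_le _ _).trans ?_
    rw [Set.encard_univ, ENat.card_eq_coe_natCard, Nat.card_eq_fintype_card, Fintype.card_fin]
  rw [MP_1e3e9c_agS.T_range] at h2
  have h3 : (kr k (sg x z)).IsPrime := MP_1e3e9c_agS.kr_prime _
  have h4 : td (kr k (sg x z)) ≤ td q := MP_1e3e9c_agS.td_mono fun p hp => h p hp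
  have h5 : td (kr k (Sum.elim x z)) ≤ td (kr k (sg x z)) + r := by exact_mod_cast h2
  omega

theorem sgJ_td {k : Type} [Field k] [IsAlgClosed k] {c : ℕ} (q : Ideal (MvPolynomial (Mt N m) k))
    (hq : td q ≤ c) (P : Ideal (MvPolynomial (Fin N ⊕ Co m) k)) (hP : P.IsPrime)
    (h : sgJ q ≤ P) : td P ≤ c + r := by
  classical
  obtain ⟨P₁, hP₁, hle⟩ := Ideal.exists_minimalPrimes_le h
  have hp₁ : P₁.IsPrime := hP₁.1.1
  have hJ₁ : sgJ q ≤ P₁ := hP₁.1.2
  obtain ⟨K, _, _, y, hy⟩ := MP_1e3e9c_agS.exists_generic P₁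
  obtain ⟨x, hxd⟩ : ∃ x : Fin N → K, x = fun i => y (Sum.inl i) := ⟨_, rfl⟩
  obtain ⟨z, hzd⟩ : ∃ z : Co m → K, z = fun i => y (Sum.inr i) := ⟨_, rfl⟩
  have hyy : y = Sum.elim x z := by
    funext i
    rcases i with i | i
    · rw [hxd]; rfl
    · rw [hzd]; rfl
  rw [hyy] at hy
  have hX : ∀ i, aeval (Sum.elim x z) (X i : MvPolynomial (Fin N ⊕ Co m) k) = 0 ↔ X i ∈ P₁ := by
    intro i
    rw [← hy]
    rfl
  -- a point over `k` whose ideal contains `P₁`
  have key : ∃ (x' : Fin N → k) (z' : Co m → k), x' ≠ 0 ∧ Adm z' ∧ P₁ ≤ kr k (Sum.elim x' z') := by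
    by_contra hc
    push Not at hc
    have hfin : (sgJ q).minimalPrimes.Finite := Ideal.finite_minimalPrimes_of_isNoetherianRing _ _
    have hg : ∀ Q ∈ (sgJ q).minimalPrimes, Q ≠ P₁ → ∃ g ∈ Q, g ∉ P₁ := by
      intro Q hQ hne
      by_contra hcon
      push Not at hcon
      exact hne (le_antisymm hcon (hP₁.2 hQ.1 hcon))
    choose! g hg1 hg2 using hg
    have h1 : ∏ Q ∈ hfin.toFinset.erase P₁, g Q ∉ P₁ := by
      intro hmem
      rw [hp₁.prod_mem_iff] at hmem
      obtain ⟨Q, hQ, hgQ⟩ := hmem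
      rw [Finset.mem_erase, Set.Finite.mem_toFinset] at hQ
      exact hg2 Q hQ.2 hQ.1 hgQ
    refine h1 (hJ₁ ?_)
    rw [mem_sgJ]
    intro x' z' hx' hz' hp'
    have hK : (kr k (Sum.elim x' z')).IsPrime := MP_1e3e9c_agS.kr_prime _
    have hJK : sgJ q ≤ kr k (Sum.elim x' z') := fun G hG => hG x' z' hx' hz' hp'
    obtain ⟨Q, hQ, hQK⟩ := Ideal.exists_minimalPrimes_le hJK
    have hne : Q ≠ P₁ := by
      rintro rfl
      exact hc x' z' hx' hz' hQK
    have h2 : g Q ∈ kr k (Sum.elim x' z') := hQK (hg1 Q hQ hne)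
    have h3 : ∏ Q ∈ hfin.toFinset.erase P₁, g Q ∈ kr k (Sum.elim x' z') :=
      Ideal.prod_mem _ (Finset.mem_erase.2 ⟨hne, (Set.Finite.mem_toFinset _).2 hQ⟩) h2
    exact h3
  obtain ⟨x', z', hx', hz', hPK⟩ := key
  have hx : x ≠ 0 := by
    rintro rfl
    refine hx' (funext fun i => ?_)
    have h1 : (X (Sum.inl i) : MvPolynomial (Fin N ⊕ Co m) k) ∈ P₁ := by
      rw [← hX, aeval_X]
      rfl
    have h2 : aeval (Sum.elim x' z') (X (Sum.inl i) : MvPolynomial (Fin N ⊕ Co m) k) = 0 :=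
      hPK h1
    rw [aeval_X] at h2
    exact h2
  have hz : Adm z := by
    intro b
    by_contra hc
    push Not at hc
    obtain ⟨i, hi⟩ := hz' b
    refine hi ?_
    have h1 : (X (Sum.inr ⟨b, i⟩) : MvPolynomial (Fin N ⊕ Co m) k) ∈ P₁ := by
      rw [← hX, aeval_X]
      exact hc i
    have h2 : aeval (Sum.elim x' z') (X (Sum.inr ⟨b, i⟩) : MvPolynomial (Fin N ⊕ Co m) k) = 0 :=
      hPK h1
    rw [aeval_X] at h2
    exact h2
  have hpq : ∀ p ∈ q, aeval (sg x z) p = 0 := by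
    intro p hp
    have h1 : ∀ {F : Type} [Field F] [Algebra k F] (x : Fin N → F) (z : Co m → F),
        aeval (Sum.elim x z) (aeval (qx k) p : MvPolynomial (Fin N ⊕ Co m) k) =
          aeval (sg x z) p := by
      intro F _ _ x z
      have h2 : (aeval (Sum.elim x z) : MvPolynomial (Fin N ⊕ Co m) k →ₐ[k] F).comp
          (aeval (qx k) : MvPolynomial (Mt N m) k →ₐ[k] MvPolynomial (Fin N ⊕ Co m) k) =
            aeval (sg x z) := by
        apply MvPolynomial.algHom_ext
        intro t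
        rw [AlgHom.comp_apply, aeval_X, aeval_X, aeval_qx]
      exact DFunLike.congr_fun h2 p
    have h3 : (aeval (qx k) p : MvPolynomial (Fin N ⊕ Co m) k) ∈ P₁ := by
      refine hJ₁ ?_
      rw [mem_sgJ]
      intro x' z' _ _ hp'
      rw [h1]
      exact hp' p hp
    rw [← hy] at h3
    rw [← h1]
    exact h3
  have h1 := point_td q hq x z hx hz hpq
  rw [hy] at h1
  exact (MP_1e3e9c_agS.td_mono hle).trans h1

theorem dim_of_td {k σ : Type} [Field k] [Finite σ] (I : Ideal (MvPolynomial σ k)) (n : ℕ)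
    (h : ∀ P : Ideal (MvPolynomial σ k), P.IsPrime → I ≤ P → td P ≤ n) :
    ringKrullDim (MvPolynomial σ k ⧸ I) ≤ n := by
  rw [ringKrullDim, Order.krullDim]
  refine iSup_le fun c => ?_
  -- the primes above `I`
  let Q : Fin (c.length + 1) → Ideal (MvPolynomial σ k) := fun i =>
    ((c i).asIdeal).comap (Ideal.Quotient.mk I)
  have hQp : ∀ i, (Q i).IsPrime := fun i => Ideal.IsPrime.comap _
  have hQq : ∀ i, I ≤ Q i := by
    intro i g hg
    change Ideal.Quotient.mk I g ∈ (c i).asIdeal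
    rw [Ideal.Quotient.eq_zero_iff_mem.2 hg]
    exact (c i).asIdeal.zero_mem
  have hlt : ∀ i j, i < j → Q i < Q j := by
    intro i j hij
    have h1 : (c i).asIdeal < (c j).asIdeal := c.strictMono hij
    refine lt_of_le_of_ne (Ideal.comap_mono h1.le) fun h => h1.ne ?_
    exact Ideal.comap_injective_of_surjective _ Ideal.Quotient.mk_surjective h
  have htd : ∀ i : ℕ, ∀ hi : i < c.length + 1, td (Q ⟨i, hi⟩) + i ≤ n := by
    intro i
    induction i with
    | zero =>
      intro hi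
      simpa using h (Q ⟨0, hi⟩) (hQp ⟨0, hi⟩) (hQq ⟨0, hi⟩)
    | succ i ih =>
      intro hi
      have h1 := ih (by omega)
      have hi' : i < c.length + 1 := by omega
      have h5 := hQp ⟨i, hi'⟩
      have h6 := hQp ⟨i + 1, hi⟩
      have h7 : Q ⟨i, hi'⟩ < Q ⟨i + 1, hi⟩ := hlt _ _ (Fin.mk_lt_mk.2 (Nat.lt_succ_self i))
      have h2 := MP_1e3e9c_agS.td_lt h7
      omega
  have h3 := htd c.length (by omega)
  have h4 : c.length ≤ n := by omega
  exact_mod_cast h4

end Pool.Agent.Lib.MP_1e3e9c_agP
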