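import Pool.Agent.Lib.MP_1e3e9c_agP.Dec
import Pool.Agent.Lib.MP_1e3e9c_agP.DimGe
import Pool.Agent.Lib.MP_1e3e9c_agP.DimLe
import Pool.Agent.Lib.MP_1e3e9c_agL.Chain

/-!
# Complete intersections that contain a line of a family
-/

set_option autoImplicit false

namespace Pool.Agent.Lib.MP_1e3e9c_agP

open MvPolynomial
open Pool.Agent.Lib.MP_1e3e9c_agL (Sp Ind td)

variable {k : Type} [Field k] [IsAlgClosed k] {N r : ℕ} {m : Fin r → ℕ}

/-- the Krull dimension of a family is the transcendence degree of its generic triple minus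
`4 + r` -/
theorem dim_iff {L : Type} [Field L] [Algebra k L] (u w : Fin N → L) (z : Co m → L)
    (hG : GSt k u w z) (hi : Ind u w) (ha : Adm z) (F : Set (Line k N m)) (hc : IsClosed F)
    (hF : ∀ (l : Line k N m) (u' w' : Fin N → k) (z' : Co m → k), l.Is u' w' z' →
        (l ∈ F ↔ Sp k (pt u w z) (pt u' w' z'))) (n : ℕ) :
    (n : WithBot ℕ∞) ≤ topologicalKrullDim F ↔
      ((n + 4 + r : ℕ) : Cardinal) ≤ td k (pt u w z) := by
  rw [Pool.Agent.Lib.MP_1e3e9c_agL.chain_iff F hc n]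
  constructor
  · rintro ⟨A, hA, hA'⟩
    exact dim_le u w z F hF n A hA hA'
  · intro h
    exact dim_ge u w z hG hi ha F hF n h

/-- a form vanishes on a line if and only if its coefficients do -/
theorem line_iff {d : ℕ} {e : Fin r → ℕ} {D : MvPolynomial (Fin N ⊕ Co m) k} (hD : MHom D d e)
    (u w : Fin N → k) (z : Co m → k) (l : Line k N m) (hl : l.Is u w z) :
    (∀ x ∈ l.V, ∀ y : Co m → k, (∀ b, (fun i => y ⟨b, i⟩) ∈ l.W b) →
      eval (Sum.elim x y) D = 0) ↔ ∀ j, aeval (pt u w z) (cg D j) = 0 := by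
  have hae : ∀ (x : Fin N → k) (y : Co m → k), aeval (Sum.elim x y) D = eval (Sum.elim x y) D :=
    fun x y => rfl
  constructor
  · intro h j
    refine cg_of_line D u w z (fun b => ?_) j
    rw [hae]
    refine h _ ?_ z ?_
    · rw [hl.1, Submodule.mem_span_pair]
      refine ⟨1, b, ?_⟩
      funext i
      simp
    · intro b
      rw [hl.2 b]
      exact Submodule.mem_span_singleton_self _
  · intro h x hx y hy
    rw [hl.1, Submodule.mem_span_pair] at hx
    obtain ⟨a, b, rfl⟩ := hx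
    have h1 : ∀ b, ∃ t : k, (fun i => y ⟨b, i⟩) = t • (fun i => z ⟨b, i⟩) := by
      intro b
      have h2 := hy b
      rw [hl.2 b, Submodule.mem_span_singleton] at h2
      obtain ⟨t, ht⟩ := h2
      exact ⟨t, ht.symm⟩
    choose t ht using h1
    have h2 : y = sc t z := by
      funext i
      exact congrFun (ht i.1) i.2
    rw [← hae, h2]
    have h3 := aeval_sc hD (a • u + b • w) z 1 t
    rw [one_smul] at h3
    rw [h3]
    have h4 := cg_line hD u w z h a b
    have h5 : (a • u + b • w : Fin N → k) = fun i => a * u i + b * w i := by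
      funext i
      simp
    rw [h5, h4, mul_zero]

/-- **Theorem.** A criterion for the existence of lines of a family on all complete intersections
of given multidegrees. -/
theorem decide_lines {c : ℕ} (d : Fin c → ℕ) (e : Fin c → Fin r → ℕ) (hd : ∀ j, 1 ≤ d j)
    (he : ∀ j b, 1 ≤ e j b) (F : Set (Line k N m)) (hc : IsClosed F) (hi : IsIrreducible F) :
    (∀ D : Fin c → MvPolynomial (Fin N ⊕ Co m) k, (∀ j, MHom (D j) (d j) (e j)) →
      ∃ l ∈ F, ∀ j, ∀ x ∈ l.V, ∀ y : Co m → k, (∀ b, (fun i => y ⟨b, i⟩) ∈ l.W b) →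
        eval (Sum.elim x y) (D j) = 0) ↔
    ((∑ j, (d j + 1) : ℕ) : WithBot ℕ∞) ≤ topologicalKrullDim F ∧
      ∀ S : Set (MvPolynomial (Fin N ⊕ Co m) k), (∀ G ∈ S, ∃ a b, MHom G a b) →
        ringKrullDim (MvPolynomial (Fin N ⊕ Co m) k ⧸ Ideal.span S) ≤ (c + r : ℕ) →
        ∃ l ∈ F, ∀ x ∈ l.V, x ≠ 0 → ∀ y : Co m → k,
          (∀ b, (fun i => y ⟨b, i⟩) ∈ l.W b ∧ (fun i => y ⟨b, i⟩) ≠ 0) →
            ∃ G ∈ S, eval (Sum.elim x y) G ≠ 0 := by
  obtain ⟨K, _, _, u, w, z, hG, hI, hA, hF⟩ := exists_generic F hc hi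
  have hdim := dim_iff u w z hG hI hA F hc hF
  -- translation of the first condition
  have e1 : ∀ D : Fin c → MvPolynomial (Fin N ⊕ Co m) k, (∀ j, MHom (D j) (d j) (e j)) →
      ((∃ l ∈ F, ∀ j, ∀ x ∈ l.V, ∀ y : Co m → k, (∀ b, (fun i => y ⟨b, i⟩) ∈ l.W b) →
        eval (Sum.elim x y) (D j) = 0) ↔
        ∃ (u' w' : Fin N → k) (z' : Co m → k), Ind u' w' ∧ Adm z' ∧
          Sp k (pt u w z) (pt u' w' z') ∧ ∀ j l, aeval (pt u' w' z') (cg (D j) l) = 0) := by
    intro D hD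
    constructor
    · rintro ⟨l, hl, h⟩
      obtain ⟨u', w', z', hi', ha', hl'⟩ := l.exists_rep
      exact ⟨u', w', z', hi', ha', (hF l u' w' z' hl').1 hl,
        fun j => (line_iff (hD j) u' w' z' l hl').1 (h j)⟩
    · rintro ⟨u', w', z', hi', ha', hs, h⟩
      obtain ⟨l, hl⟩ := Line.exists_of u' w' z' hi' ha'
      exact ⟨l, (hF l u' w' z' hl).2 hs, fun j => (line_iff (hD j) u' w' z' l hl).2 (h j)⟩
  -- translation of the second condition
  have hae : ∀ (x : Fin N → k) (y : Co m → k) (G : MvPolynomial (Fin N ⊕ Co m) k),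
      aeval (Sum.elim x y) G = eval (Sum.elim x y) G := fun x y G => rfl
  have e2 : ∀ S : Set (MvPolynomial (Fin N ⊕ Co m) k), (∀ G ∈ S, ∃ a b, MHom G a b) →
      ((∃ l ∈ F, ∀ x ∈ l.V, x ≠ 0 → ∀ y : Co m → k,
          (∀ b, (fun i => y ⟨b, i⟩) ∈ l.W b ∧ (fun i => y ⟨b, i⟩) ≠ 0) →
            ∃ G ∈ S, eval (Sum.elim x y) G ≠ 0) ↔
        ∃ (u' w' : Fin N → k) (z' : Co m → k), Ind u' w' ∧ Adm z' ∧
          Sp k (pt u w z) (pt u' w' z') ∧ ∀ a b : k, a • u' + b • w' ≠ 0 →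
            ∃ G ∈ S, aeval (Sum.elim (a • u' + b • w') z') G ≠ 0) := by
    intro S hS
    constructor
    · rintro ⟨l, hl, h⟩
      obtain ⟨u', w', z', hi', ha', hl'⟩ := l.exists_rep
      refine ⟨u', w', z', hi', ha', (hF l u' w' z' hl').1 hl, fun a b hab => ?_⟩
      refine h _ ?_ hab z' fun b => ⟨?_, ?_⟩
      · rw [hl'.1, Submodule.mem_span_pair]
        exact ⟨a, b, rfl⟩
      · rw [hl'.2 b]
        exact Submodule.mem_span_singleton_self _
      · intro h0
        obtain ⟨i, hi⟩ := ha' b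
        exact hi (congrFun h0 i)
    · rintro ⟨u', w', z', hi', ha', hs, h⟩
      obtain ⟨l, hl⟩ := Line.exists_of u' w' z' hi' ha'
      refine ⟨l, (hF l u' w' z' hl).2 hs, fun x hx hx0 y hy => ?_⟩
      rw [hl.1, Submodule.mem_span_pair] at hx
      obtain ⟨a, b, rfl⟩ := hx
      obtain ⟨G, hG, hne⟩ := h a b hx0
      refine ⟨G, hG, fun h0 => hne ?_⟩
      have h1 : ∀ b, ∃ t : k, (fun i => y ⟨b, i⟩) = t • (fun i => z' ⟨b, i⟩) := by
        intro b
        have h2 := (hy b).1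
        rw [hl.2 b, Submodule.mem_span_singleton] at h2
        obtain ⟨t, ht⟩ := h2
        exact ⟨t, ht.symm⟩
      choose t ht using h1
      have h2 : y = sc t z' := by
        funext i
        exact congrFun (ht i.1) i.2
      have ht0 : ∀ b, t b ≠ 0 := by
        intro b hb
        apply (hy b).2
        rw [ht b, hb, zero_smul]
      obtain ⟨α, β, hαβ⟩ := hS G hG
      have h3 := aeval_sc hαβ (a • u' + b • w') z' 1 t
      rw [one_smul, ← h2, hae, h0] at h3
      have h4 : (1 : k) ^ α * ∏ b, t b ^ β b ≠ 0 := by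
        rw [one_pow, one_mul]
        exact Finset.prod_ne_zero_iff.2 fun b _ => pow_ne_zero _ (ht0 b)
      exact (mul_eq_zero.1 h3.symm).resolve_left h4
  constructor
  · intro H
    obtain ⟨h1, h2⟩ := dec_mp u w z hG d e fun D hD => (e1 D hD).1 (H D hD)
    refine ⟨(hdim _).2 h1, fun S hS hS' => (e2 S hS).2 (h2 S hS hS')⟩
  · rintro ⟨h1, h2⟩ D hD
    rw [e1 D hD]
    exact dec_mpr u w z hG hI hA d e hd he ((hdim _).1 h1)
      (fun S hS hS' => (e2 S hS).1 (h2 S hS hS')) D hD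

end Pool.Agent.Lib.MP_1e3e9c_agP
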