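import Pool.Agent.Lib.MP_1e3e9c_agP.Defs

/-!
# Segre coordinates and multilinear forms

PROOFS. Direct computations.  `sg_ind`: `p`, `q` with the minor of `(u, w)` not zero, and `i_b` with `z ⟨b, i_b⟩ ≠ 0`: the minor of the columns `(p, i)`, `(q, i)` is `(∏ z ⟨b, i_b⟩) ^ 2` times that of `(u, w)`.
`qs`: the polynomials whose values are the Segre coordinates of `(u, z)`, `(w, z)` and `(x, z)`.
`hf h` = the multilinear form; `MHom (hf h) 1 1`: its monomials have exponent one at one `inl i` and at one `inr ⟨b, i_b⟩` for every `b` (`MHom` of a sum; every term `C (h t) * X (inl t.1) * ∏ b, X (inr ⟨b, t.2 b⟩)` is `monomial n (h t)`, `n = single (inl t.1) 1 + ∑ b, single (inr ⟨b, t.2 b⟩) 1`).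
`exists_hf`: conversely a form of multidegree `(1, ..., 1)` is `hf h` for some `h`: every monomial `n` in its support has the form above (a sum of natural numbers is `1` iff one of them is `1` and the others `0`).
-/

set_option autoImplicit false

namespace Pool.Agent.Lib.MP_1e3e9c_agP

open MvPolynomial
open Pool.Agent.Lib.MP_1e3e9c_agL (Sp Ind td)

variable {N r : ℕ} {m : Fin r → ℕ}

theorem sg_add {R : Type} [CommRing R] (a b : R) (u w : Fin N → R) (z : Co m → R) :
    sg (a • u + b • w) z = a • sg u z + b • sg w z := by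
  funext t
  simp only [sg, Pi.add_apply, Pi.smul_apply, smul_eq_mul]
  ring

theorem sg_sc {L : Type} [Field L] (s : L) (ζ : Fin r → L) (x : Fin N → L) (z : Co m → L) :
    sg (s • x) (sc ζ z) = (s * ∏ b, ζ b) • sg x z := by
  funext t
  simp only [sg, sc, Pi.smul_apply, smul_eq_mul]
  rw [Finset.prod_mul_distrib]
  ring

theorem sg_map {L M : Type} [Field L] [Field M] [Algebra L M] (x : Fin N → L) (z : Co m → L)
    (t : Mt N m) : sg (fun i => algebraMap L M (x i)) (fun i => algebraMap L M (z i)) t =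
      algebraMap L M (sg x z t) := by
  simp only [sg, map_mul, map_prod]

theorem sg_ind {L : Type} [Field L] (u w : Fin N → L) (z : Co m → L) (hi : Ind u w) (ha : Adm z) :
    ∃ p q, sg u z p * sg w z q - sg u z q * sg w z p ≠ 0 := by
  obtain ⟨p, q, hpq⟩ := hi
  choose i hi' using ha
  refine ⟨(p, i), (q, i), ?_⟩
  have e : sg u z (p, i) * sg w z (q, i) - sg u z (q, i) * sg w z (p, i) =
      (u p * w q - u q * w p) * (∏ b, z ⟨b, i b⟩) ^ 2 := by
    simp only [sg]
    ring
  rw [e]
  exact mul_ne_zero hpq (pow_ne_zero _ (Finset.prod_ne_zero_iff.2 fun b _ => hi' b))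

theorem sg_ne {L : Type} [Field L] (x : Fin N → L) (z : Co m → L) (hx : x ≠ 0) (ha : Adm z) :
    sg x z ≠ 0 := by
  obtain ⟨p, hp⟩ := Function.ne_iff.1 hx
  choose i hi' using ha
  intro h0
  have h1 := congrFun h0 (p, i)
  simp only [sg, Pi.zero_apply] at h1
  exact mul_ne_zero hp (Finset.prod_ne_zero_iff.2 fun b _ => hi' b) h1

theorem hv_add {R : Type} [CommRing R] (h : Mt N m → R) (a b : R) (u w : Fin N → R)
    (z : Co m → R) : hv h (a • u + b • w) z = a * hv h u z + b * hv h w z := by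
  unfold hv
  rw [sg_add, Finset.mul_sum, Finset.mul_sum, ← Finset.sum_add_distrib]
  refine Finset.sum_congr rfl fun t _ => ?_
  simp only [Pi.add_apply, Pi.smul_apply, smul_eq_mul]
  ring

theorem hv_sc {L : Type} [Field L] (h : Mt N m → L) (s : L) (ζ : Fin r → L) (x : Fin N → L)
    (z : Co m → L) : hv h (s • x) (sc ζ z) = s * (∏ b, ζ b) * hv h x z := by
  unfold hv
  rw [sg_sc, Finset.mul_sum]
  refine Finset.sum_congr rfl fun t _ => ?_
  simp only [Pi.smul_apply, smul_eq_mul]
  ring

/-- the polynomial whose value at `(u, w, z)` is the Segre coordinate `t` of `(u, z)` -/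
noncomputable def qu (k : Type) [Field k] (t : Mt N m) : MvPolynomial (Cd N m) k :=
  X (Sum.inl (Sum.inl t.1)) * ∏ b, X (Sum.inr ⟨b, t.2 b⟩)

/-- the polynomial whose value at `(u, w, z)` is the Segre coordinate `t` of `(w, z)` -/
noncomputable def qw (k : Type) [Field k] (t : Mt N m) : MvPolynomial (Cd N m) k :=
  X (Sum.inl (Sum.inr t.1)) * ∏ b, X (Sum.inr ⟨b, t.2 b⟩)

/-- the polynomial whose value at `(x, z)` is the Segre coordinate `t` -/
noncomputable def qx (k : Type) [Field k] (t : Mt N m) : MvPolynomial (Fin N ⊕ Co m) k :=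
  X (Sum.inl t.1) * ∏ b, X (Sum.inr ⟨b, t.2 b⟩)

theorem aeval_qu {k R : Type} [Field k] [CommRing R] [Algebra k R] (u w : Fin N → R)
    (z : Co m → R) (t : Mt N m) : aeval (pt u w z) (qu k t) = sg u z t := by
  simp only [qu, sg, map_mul, map_prod, aeval_X, Sum.elim_inl, Sum.elim_inr]

theorem aeval_qw {k R : Type} [Field k] [CommRing R] [Algebra k R] (u w : Fin N → R)
    (z : Co m → R) (t : Mt N m) : aeval (pt u w z) (qw k t) = sg w z t := by
  simp only [qw, sg, map_mul, map_prod, aeval_X, Sum.elim_inl, Sum.elim_inr]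

theorem aeval_qx {k R : Type} [Field k] [CommRing R] [Algebra k R] (x : Fin N → R)
    (z : Co m → R) (t : Mt N m) : aeval (Sum.elim x z) (qx k t) = sg x z t := by
  simp only [qx, sg, map_mul, map_prod, aeval_X, Sum.elim_inl, Sum.elim_inr]

/-- the multilinear form with the coefficients `h` -/
noncomputable def hf {k : Type} [Field k] (h : Mt N m → k) : MvPolynomial (Fin N ⊕ Co m) k :=
  ∑ t, C (h t) * qx k t

/-- the exponent of the monomial `qx k t` -/
noncomputable def nx (t : Mt N m) : (Fin N ⊕ Co m) →₀ ℕ :=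
  Finsupp.single (Sum.inl t.1) 1 + ∑ b, Finsupp.single (Sum.inr ⟨b, t.2 b⟩) 1

theorem qx_eq (k : Type) [Field k] (t : Mt N m) : qx k t = monomial (nx t) 1 := by
  unfold qx nx
  rw [← one_mul (1 : k), ← monomial_mul, monomial_sum_one]
  rfl

theorem nx_inl (t : Mt N m) (i : Fin N) : nx t (Sum.inl i) = if t.1 = i then 1 else 0 := by
  unfold nx
  rw [Finsupp.add_apply, Finsupp.finsetSum_apply, Finset.sum_eq_zero, add_zero, Finsupp.single_apply]
  · simp only [Sum.inl.injEq]
  · intro b _
    rw [Finsupp.single_apply, if_neg]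
    exact fun h => by cases h

theorem nx_inr (t : Mt N m) (b : Fin r) (i : Fin (m b)) :
    nx t (Sum.inr ⟨b, i⟩) = if t.2 b = i then 1 else 0 := by
  unfold nx
  rw [Finsupp.add_apply, Finsupp.finsetSum_apply, Finset.sum_eq_single b]
  · rw [Finsupp.single_apply, Finsupp.single_apply, if_neg (fun h => by cases h), zero_add]
    by_cases h : t.2 b = i
    · rw [if_pos (by rw [h]), if_pos h]
    · rw [if_neg, if_neg h]
      intro h1
      have h2 := eq_of_heq (Sigma.mk.inj (Sum.inr.inj h1)).2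
      exact h h2
  · intro b' _ hb
    rw [Finsupp.single_apply, if_neg]
    intro h1
    exact hb (Sigma.mk.inj (Sum.inr.inj h1)).1
  · intro hb
    exact absurd (Finset.mem_univ _) hb

theorem nx_inj (t t' : Mt N m) (h : nx t = nx t') : t = t' := by
  refine Prod.ext ?_ ?_
  · have h1 := DFunLike.congr_fun h (Sum.inl t'.1)
    rw [nx_inl, nx_inl, if_pos rfl] at h1
    by_contra hc
    rw [if_neg hc] at h1
    exact zero_ne_one h1
  · funext b
    have h1 := DFunLike.congr_fun h (Sum.inr ⟨b, t'.2 b⟩)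
    rw [nx_inr, nx_inr, if_pos rfl] at h1
    by_contra hc
    rw [if_neg hc] at h1
    exact zero_ne_one h1

theorem hf_eq {k : Type} [Field k] (h : Mt N m → k) : hf h = ∑ t, monomial (nx t) (h t) := by
  unfold hf
  refine Finset.sum_congr rfl fun t _ => ?_
  rw [qx_eq, C_mul_monomial, mul_one]

theorem coeff_hf {k : Type} [Field k] (h : Mt N m → k) (t : Mt N m) : coeff (nx t) (hf h) = h t := by
  classical
  rw [hf_eq, coeff_sum, Finset.sum_eq_single t]
  · rw [coeff_monomial, if_pos rfl]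
  · intro t' _ ht
    rw [coeff_monomial, if_neg]
    exact fun h1 => ht (nx_inj _ _ h1)
  · intro hb
    exact absurd (Finset.mem_univ _) hb

theorem coeff_hf_zero {k : Type} [Field k] (h : Mt N m → k) (n : (Fin N ⊕ Co m) →₀ ℕ)
    (hn : ∀ t : Mt N m, nx t ≠ n) : coeff n (hf h) = 0 := by
  classical
  rw [hf_eq, coeff_sum]
  refine Finset.sum_eq_zero fun t _ => ?_
  rw [coeff_monomial, if_neg (hn t)]

theorem sum_one_aux {l : ℕ} (f : Fin l → ℕ) (h : ∑ i, f i = 1) : ∃ i, ∀ j, f j = if i = j then 1 else 0 := by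
  have h1 : ∃ i, f i ≠ 0 := by
    by_contra hc
    push Not at hc
    rw [Finset.sum_eq_zero fun i _ => hc i] at h
    exact zero_ne_one h
  obtain ⟨i, hi⟩ := h1
  have h2 : f i + ∑ j ∈ Finset.univ.erase i, f j = 1 := by
    rw [Finset.add_sum_erase _ _ (Finset.mem_univ i)]
    exact h
  have h3 : f i = 1 := by omega
  have h4 : ∑ j ∈ Finset.univ.erase i, f j = 0 := by omega
  refine ⟨i, fun j => ?_⟩
  split_ifs with hj
  · rw [← hj]
    exact h3
  · exact Finset.sum_eq_zero_iff.1 h4 j (Finset.mem_erase.2 ⟨fun e => hj e.symm, Finset.mem_univ _⟩)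

theorem hf_hom {k : Type} [Field k] (h : Mt N m → k) : MHom (hf h) 1 (fun _ => 1) := by
  classical
  intro n hn
  have h1 : ∃ t : Mt N m, nx t = n := by
    by_contra hc
    push Not at hc
    exact (mem_support_iff.1 hn) (coeff_hf_zero h n hc)
  obtain ⟨t, rfl⟩ := h1
  constructor
  · rw [Finset.sum_congr rfl fun i _ => nx_inl t i, Finset.sum_ite_eq, if_pos (Finset.mem_univ _)]
  · intro b
    rw [Finset.sum_congr rfl fun i _ => nx_inr t b i, Finset.sum_ite_eq, if_pos (Finset.mem_univ _)]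

theorem aeval_hf {k R : Type} [Field k] [CommRing R] [Algebra k R] (h : Mt N m → k)
    (x : Fin N → R) (z : Co m → R) :
    aeval (Sum.elim x z) (hf h) = hv (fun t => algebraMap k R (h t)) x z := by
  unfold hf hv
  rw [map_sum]
  refine Finset.sum_congr rfl fun t _ => ?_
  rw [map_mul, aeval_C, aeval_qx]

theorem exists_hf {k : Type} [Field k] (F : MvPolynomial (Fin N ⊕ Co m) k)
    (hF : MHom F 1 (fun _ => 1)) : ∃ h : Mt N m → k, F = hf h := by
  refine ⟨fun t => coeff (nx t) F, ?_⟩
  ext n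
  by_cases h1 : ∃ t : Mt N m, nx t = n
  · obtain ⟨t, rfl⟩ := h1
    rw [coeff_hf]
  · push Not at h1
    rw [coeff_hf_zero _ _ h1]
    by_contra h2
    obtain ⟨h3, h4⟩ := hF n (mem_support_iff.2 h2)
    obtain ⟨i, hi⟩ := sum_one_aux _ h3
    have h5 : ∀ b, ∃ i, ∀ j, n (Sum.inr ⟨b, j⟩) = if i = j then 1 else 0 := fun b =>
      sum_one_aux _ (h4 b)
    choose c hc using h5
    refine h1 (i, c) ?_
    ext x
    rcases x with x | ⟨b, x⟩
    · rw [nx_inl, hi x]
    · rw [nx_inr, hc b x]

end Pool.Agent.Lib.MP_1e3e9c_agP
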