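import Pool.Agent.Lib.MP_1e3e9c_agP.One
import Pool.Agent.Lib.MP_1e3e9c_agP.Cg
import Pool.Agent.Lib.MP_1e3e9c_agP.Seg
import Pool.Agent.Lib.MP_1e3e9c_agL.Krull

/-!
# several hypersurfaces, one after the other

Compare `MP_1e3e9c_agL/Many.lean` (the same without `z`; `lin inl (h j)`, `lin inr (h j)` are replaced by `∑ t, C (h j t) * qu k t`, `∑ t, C (h j t) * qw k t`).
-/

set_option autoImplicit false

namespace Pool.Agent.Lib.MP_1e3e9c_agP

open MvPolynomial
open Pool.Agent.Lib.MP_1e3e9c_agL (Sp Ind td lin)

variable {N r : ℕ} {m : Fin r → ℕ}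

/-- the multilinear form with the coefficients `h` at `(u, z)` -/
private noncomputable def Many_lu {k : Type} [Field k] (h : Mt N m → k) :
    MvPolynomial (Cd N m) k :=
  ∑ t, C (h t) * qu k t

/-- the multilinear form with the coefficients `h` at `(w, z)` -/
private noncomputable def Many_lw {k : Type} [Field k] (h : Mt N m → k) :
    MvPolynomial (Cd N m) k :=
  ∑ t, C (h t) * qw k t

private theorem Many_aeval_lu {k M : Type} [Field k] [Field M] [Algebra k M] (h : Mt N m → k)
    (u w : Fin N → M) (z : Co m → M) :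
    aeval (pt u w z) (Many_lu h) = hv (fun t => algebraMap k M (h t)) u z := by
  unfold Many_lu hv
  rw [map_sum]
  refine Finset.sum_congr rfl fun t _ => ?_
  rw [map_mul, aeval_C, aeval_qu]

private theorem Many_aeval_lw {k M : Type} [Field k] [Field M] [Algebra k M] (h : Mt N m → k)
    (u w : Fin N → M) (z : Co m → M) :
    aeval (pt u w z) (Many_lw h) = hv (fun t => algebraMap k M (h t)) w z := by
  unfold Many_lw hv
  rw [map_sum]
  refine Finset.sum_congr rfl fun t _ => ?_
  rw [map_mul, aeval_C, aeval_qw]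

/-- the polynomials vanishing at `(u, w, z)`, the coefficients of the `F j` with `P j` and the
multilinear forms `h j` with `Q j` -/
private def Many_T {k L : Type} [Field k] [Field L] [Algebra k L] {c : ℕ}
    (u w : Fin N → L) (z : Co m → L) (F : Fin c → MvPolynomial (Fin N ⊕ Co m) k)
    (P Q : Fin c → Prop) (h : Fin c → Mt N m → k) : Set (MvPolynomial (Cd N m) k) :=
  {p | aeval (pt u w z) p = 0 ∨ (∃ j, P j ∧ ∃ l, p = cg (F j) l) ∨
    (∃ j, Q j ∧ (p = Many_lu (h j) ∨ p = Many_lw (h j)))}

private theorem Many_zero {k L : Type} [Field k] [Field L] [Algebra k L] {c : ℕ}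
    (u w : Fin N → L) (z : Co m → L) (F : Fin c → MvPolynomial (Fin N ⊕ Co m) k)
    (P Q : Fin c → Prop) (h : Fin c → Mt N m → k) {M : Type} [Field M] [Algebra k M]
    (u' w' : Fin N → M) (z' : Co m → M) :
    Zero (Many_T u w z F P Q h) u' w' z' ↔ Sp k (pt u w z) (pt u' w' z') ∧
      (∀ j, P j → ∀ l, aeval (pt u' w' z') (cg (F j) l) = 0) ∧
      (∀ j, Q j → hv (fun t => algebraMap k M (h j t)) u' z' = 0 ∧
        hv (fun t => algebraMap k M (h j t)) w' z' = 0) := by
  constructor
  · intro hz
    refine ⟨fun p hp => hz p (Or.inl hp), fun j hj l => hz _ (Or.inr (Or.inl ⟨j, hj, l, rfl⟩)),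
      fun j hj => ⟨?_, ?_⟩⟩
    · have := hz _ (Or.inr (Or.inr ⟨j, hj, Or.inl rfl⟩))
      rwa [Many_aeval_lu] at this
    · have := hz _ (Or.inr (Or.inr ⟨j, hj, Or.inr rfl⟩))
      rwa [Many_aeval_lw] at this
  · rintro ⟨h1, h2, h3⟩ p (hp | ⟨j, hj, l, rfl⟩ | ⟨j, hj, rfl | rfl⟩)
    · exact h1 p hp
    · exact h2 j hj l
    · rw [Many_aeval_lu]
      exact (h3 j hj).1
    · rw [Many_aeval_lw]
      exact (h3 j hj).2

private theorem Many_comb {M : Type} [Field M] (h : Mt N m → M) (u w : Fin N → M) (z : Co m → M)
    (a b : M) (ζ : Fin r → M) (hu : hv h u z = 0) (hw : hv h w z = 0) :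
    hv h (a • u + b • w) (sc ζ z) = 0 := by
  have h1 : ∀ x : Fin N → M, hv h x z = 0 → hv h x (sc ζ z) = 0 := by
    intro x hx
    have h2 := hv_sc h 1 ζ x z
    rwa [one_smul, hx, mul_zero] at h2
  rw [hv_add, h1 u hu, h1 w hw, mul_zero, mul_zero, add_zero]

private theorem Many_stable {k L : Type} [Field k] [Field L] [Algebra k L] {c : ℕ}
    (u w : Fin N → L) (z : Co m → L) (hG : GSt k u w z) (d : Fin c → ℕ) (e : Fin c → Fin r → ℕ)
    (F : Fin c → MvPolynomial (Fin N ⊕ Co m) k)
    (hF : ∀ j, MHom (F j) (d j) (e j)) (P Q : Fin c → Prop) (h : Fin c → Mt N m → k) :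
    Stable (Many_T u w z F P Q h) := by
  intro M _ _ u' w' z' a b a' b' ζ hz
  rw [Many_zero] at hz ⊢
  obtain ⟨h1, h2, h3⟩ := hz
  exact ⟨hG M u' w' z' a b a' b' ζ h1,
    fun j hj l => cg_stable (hF j) u' w' z' a b a' b' ζ (h2 j hj) l,
    fun j hj => ⟨Many_comb _ _ _ _ _ _ _ (h3 j hj).1 (h3 j hj).2,
      Many_comb _ _ _ _ _ _ _ (h3 j hj).1 (h3 j hj).2⟩⟩

/-- the list of the equations -/
private noncomputable def Many_list {k : Type} [Field k] {c : ℕ}
    (F : Fin c → MvPolynomial (Fin N ⊕ Co m) k) (d : Fin c → ℕ) (h : Fin c → Mt N m → k) (i : ℕ) :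
    List (MvPolynomial (Cd N m) k) :=
  (List.finRange c).flatMap fun j : Fin c => if (j : ℕ) < i then (List.range (d j + 1)).map (cg (F j))
    else if i < (j : ℕ) then [Many_lu (h j), Many_lw (h j)] else []

private theorem Many_length {k : Type} [Field k] {c : ℕ}
    (F : Fin c → MvPolynomial (Fin N ⊕ Co m) k) (d : Fin c → ℕ) (hd : ∀ j, 1 ≤ d j)
    (h : Fin c → Mt N m → k) (i : Fin c) :
    (d i + 1) + (Many_list F d h i).length ≤ ∑ j, (d j + 1) := by
  have h1 : (Many_list F d h i).length =
      ∑ j : Fin c, (if (j : ℕ) < i then d j + 1 else if (i : ℕ) < (j : ℕ) then 2 else 0) := by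
    unfold Many_list
    rw [List.length_flatMap, Fin.sum_univ_def]
    congr 1
    refine List.map_congr_left fun j _ => ?_
    split_ifs <;> simp
  have h2 : d i + 1 = ∑ j : Fin c, (if j = i then d i + 1 else 0) := by
    rw [Finset.sum_ite_eq' Finset.univ i (fun _ => d i + 1)]
    simp
  rw [h1, h2, ← Finset.sum_add_distrib]
  refine Finset.sum_le_sum fun j _ => ?_
  have := hd j
  by_cases hji : j = i
  · subst hji
    simp
  · rw [if_neg hji]
    split_ifs <;> omega

theorem many {k L : Type} [Field k] [IsAlgClosed k] [Field L] [Algebra k L] {c : ℕ}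
    (u w : Fin N → L) (z : Co m → L) (hG : GSt k u w z) (d : Fin c → ℕ) (e : Fin c → Fin r → ℕ)
    (hd : ∀ j, 1 ≤ d j) (he : ∀ j b, d j ≤ e j b)
    (F : Fin c → MvPolynomial (Fin N ⊕ Co m) k) (hF : ∀ j, MHom (F j) (d j) (e j))
    (ht : ((∑ j, (d j + 1) + 4 + r : ℕ) : Cardinal) ≤ td k (pt u w z))
    (hyp : ∀ h : Fin c → Mt N m → k, ∃ (u' w' : Fin N → k) (z' : Co m → k), Ind u' w' ∧ Adm z' ∧
      Sp k (pt u w z) (pt u' w' z') ∧ ∀ j, hv (h j) u' z' = 0 ∧ hv (h j) w' z' = 0) :
    ∃ (u' w' : Fin N → k) (z' : Co m → k), Ind u' w' ∧ Adm z' ∧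
      Sp k (pt u w z) (pt u' w' z') ∧ ∀ j l, aeval (pt u' w' z') (cg (F j) l) = 0 := by
  classical
  have claim : ∀ i : ℕ, i ≤ c → ∀ h : Fin c → Mt N m → k,
      ∃ (u' w' : Fin N → k) (z' : Co m → k), Ind u' w' ∧ Adm z' ∧
      Zero (Many_T u w z F (fun j => (j : ℕ) < i) (fun j => i ≤ (j : ℕ)) h) u' w' z' := by
    intro i
    induction i with
    | zero =>
      intro _ h
      obtain ⟨u', w', z', h1, h0, h2, h3⟩ := hyp h
      refine ⟨u', w', z', h1, h0, ?_⟩
      rw [Many_zero]
      exact ⟨h2, fun j hj => absurd hj (Nat.not_lt_zero _), fun j _ => h3 j⟩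
    | succ i ih =>
      intro hic h
      have hi : i < c := hic
      have ih' := ih hi.le
      obtain ⟨u1, w1, z1, g1, g0, g2, g3⟩ := one (d := d ⟨i, hi⟩) (e := e ⟨i, hi⟩)
        (Many_T u w z F (fun j => (j : ℕ) < i) (fun j => i < (j : ℕ)) h)
        (Many_stable u w z hG d e F hF _ _ h) (hF ⟨i, hi⟩) (hd ⟨i, hi⟩) (he ⟨i, hi⟩)
        (by
          intro u0 w0 z0 _ _ hz
          rw [Many_zero] at hz
          obtain ⟨y1, y2, y3⟩ := hz
          obtain ⟨L'', iF, iA, y, k1, k2, k3, k4⟩ := MP_1e3e9c_agL.krull_list y1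
            (Many_list F d h i)
            (by
              intro g hg
              unfold Many_list at hg
              rw [List.mem_flatMap] at hg
              obtain ⟨j, _, hg⟩ := hg
              split_ifs at hg with hj hj'
              · rw [List.mem_map] at hg
                obtain ⟨l, _, rfl⟩ := hg
                exact y2 j hj l
              · rw [List.mem_cons, List.mem_singleton] at hg
                rcases hg with rfl | rfl
                · rw [Many_aeval_lu]
                  exact (y3 j hj').1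
                · rw [Many_aeval_lw]
                  exact (y3 j hj').2
              · exact absurd hg List.not_mem_nil)
            (d ⟨i, hi⟩ + 5 + r)
            (by
              refine le_trans (Nat.cast_le.2 ?_) ht
              have := Many_length F d hd h ⟨i, hi⟩
              have h' : (Many_list F d h ((⟨i, hi⟩ : Fin c) : ℕ)) = Many_list F d h i := rfl
              rw [h'] at this
              omega)
          have hy : pt (fun i => y (Sum.inl (Sum.inl i))) (fun i => y (Sum.inl (Sum.inr i)))
              (fun i => y (Sum.inr i)) = y := by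
            funext i
            rcases i with (i | i) | i <;> rfl
          refine ⟨L'', iF, iA, fun i => y (Sum.inl (Sum.inl i)), fun i => y (Sum.inl (Sum.inr i)),
            fun i => y (Sum.inr i), ?_, ?_, ?_⟩
          · rw [Many_zero]
            refine ⟨by rw [hy]; exact k1, fun j hj l => ?_, fun j hj => ⟨?_, ?_⟩⟩
            · rw [hy]
              by_cases hl : l < d j + 1
              · refine k3 _ ?_
                unfold Many_list
                rw [List.mem_flatMap]
                refine ⟨j, List.mem_finRange j, ?_⟩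
                rw [if_pos hj, List.mem_map]
                exact ⟨l, List.mem_range.2 hl, rfl⟩
              · rw [cg_gt (hF j) (by omega), map_zero]
            · have := k3 (Many_lu (h j)) (by
                unfold Many_list
                rw [List.mem_flatMap]
                refine ⟨j, List.mem_finRange j, ?_⟩
                rw [if_neg (by omega), if_pos hj]
                simp)
              rw [← hy, Many_aeval_lu] at this
              exact this
            · have := k3 (Many_lw (h j)) (by
                unfold Many_list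
                rw [List.mem_flatMap]
                refine ⟨j, List.mem_finRange j, ?_⟩
                rw [if_neg (by omega), if_pos hj]
                simp)
              rw [← hy, Many_aeval_lw] at this
              exact this
          · rw [hy]
            exact k2
          · rw [hy]
            exact k4)
        (by
          intro h'
          obtain ⟨u1, w1, z1, g1, g0, g2⟩ := ih' (Function.update h ⟨i, hi⟩ h')
          rw [Many_zero] at g2
          obtain ⟨g2, g3, g4⟩ := g2
          refine ⟨u1, w1, z1, g1, g0, ?_, ?_⟩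
          · rw [Many_zero]
            refine ⟨g2, g3, fun j hj => ?_⟩
            have hne : j ≠ ⟨i, hi⟩ := by
              rintro rfl
              exact lt_irrefl _ hj
            have := g4 j (le_of_lt hj)
            rw [Function.update_of_ne hne] at this
            exact this
          · have := g4 ⟨i, hi⟩ (le_refl _)
            rw [Function.update_self] at this
            exact this)
      refine ⟨u1, w1, z1, g1, g0, ?_⟩
      rw [Many_zero] at g2 ⊢
      obtain ⟨g4, g5, g6⟩ := g2
      refine ⟨g4, fun j hj l => ?_, fun j hj => g6 j (by omega)⟩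
      rcases Nat.lt_or_ge (j : ℕ) i with hc | hc
      · exact g5 j hc l
      · have hj' : j = ⟨i, hi⟩ := Fin.ext (by
          show (j : ℕ) = i
          omega)
        rw [hj']
        exact g3 l
  obtain ⟨u1, w1, z1, g1, g0, g2⟩ := claim c (le_refl _) 0
  rw [Many_zero] at g2
  exact ⟨u1, w1, z1, g1, g0, g2.1, fun j l => g2.2.1 j j.2 l⟩

end Pool.Agent.Lib.MP_1e3e9c_agP
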