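import Pool.Agent.Lib.MP_1e3e9c_agP.Defs
import Pool.Agent.Lib.MP_1e3e9c_agL.NecA

/-!
# the forms which vanish on a line

Compare `MP_1e3e9c_agL/NecA.lean` (the same without `z`).  The monomials of multidegree `(d, e)` are the pairs of a monomial `m₁` of degree `d` in the `x` (`Mon N d`) and monomials `n b` of degree `e b` in the `z ⟨b, ·⟩` (`Mon (m b) (e b)`).  As in that file pass to `u'`, `w'` with `u' p = 1`, `u' q = 0`, `w' p = 0`, `w' q = 1` over
`K = k(u, w)`, and let `i_b` with `z ⟨b, i_b⟩ ≠ 0`.  For `l ≤ d j` the pivot is the pair (`x_p ^ (d j - l) x_q ^ l`, `z ⟨b, i_b⟩ ^ e b`).  The coefficient of `t ^ l` in `∑ a (m₁, n) ∏ (u'_i + t w'_i) ^ (m₁ i) ∏ z ^ n` is `a_pivot * ∏ z ⟨b, i_b⟩ ^ e b` + (terms with other pairs; for the pairs `(m_l', n)` with `l' ≠ l` the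
coefficient is zero, but for `(m_l, n)`, `n` not the pivot, it is `a (m_l, n) ∏ z ^ n`, a non-pivot term).  So all pivots lie in the field generated by `u`, `w`, `z` and the non-pivot coordinates of `a`; there are `#η - ∑ (d j + 1)` of these.  `td_mem`, `td_add_card`.
-/

set_option autoImplicit false

namespace Pool.Agent.Lib.MP_1e3e9c_agP

open MvPolynomial
open Pool.Agent.Lib.MP_1e3e9c_agL (Sp Ind td lin Mon)

variable {N r : ℕ} {m : Fin r → ℕ}

/-- the monomials of multidegree `(d, e)` -/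
abbrev MMon (N : ℕ) {r : ℕ} (m : Fin r → ℕ) (d : ℕ) (e : Fin r → ℕ) : Type :=
  Mon N d × ((b : Fin r) → Mon (m b) (e b))

/-- the value of a monomial -/
def mval {R : Type} [CommRing R] {d : ℕ} {e : Fin r → ℕ} (x : Fin N → R) (z : Co m → R)
    (n : MMon N m d e) : R :=
  (∏ i, x i ^ (n.1.1 i : ℕ)) * ∏ b, ∏ i, z ⟨b, i⟩ ^ ((n.2 b).1 i : ℕ)

/-- the value of the second part of a monomial -/
def NecA_zv {R : Type} [CommRing R] {e : Fin r → ℕ} (z : Co m → R)
    (n : (b : Fin r) → Mon (m b) (e b)) : R :=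
  ∏ b, ∏ i, z ⟨b, i⟩ ^ ((n b).1 i : ℕ)

/-- the monomial `x_i ^ d` -/
def NecA_mono {N : ℕ} (d : ℕ) (i : Fin N) : Mon N d :=
  ⟨fun j => if j = i then ⟨d, by omega⟩ else ⟨0, by omega⟩, by
    classical
    have h1 : ∀ j : Fin N, (((if j = i then ⟨d, by omega⟩ else
        ⟨0, by omega⟩ : Fin (d + 1)) : ℕ)) = if j = i then d else 0 := by
      intro j
      by_cases hj : j = i
      · rw [if_pos hj, if_pos hj]
      · rw [if_neg hj, if_neg hj]
    rw [Finset.sum_congr rfl fun j _ => h1 j, Finset.sum_ite_eq']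
    simp⟩

theorem NecA_mono_prod {R : Type} [CommRing R] {N : ℕ} (d : ℕ) (i : Fin N) (z : Fin N → R) :
    ∏ j, z j ^ ((NecA_mono d i).1 j : ℕ) = z i ^ d := by
  classical
  have h : ∀ j : Fin N, z j ^ ((NecA_mono d i).1 j : ℕ) = if j = i then z i ^ d else 1 := by
    intro j
    by_cases hj : j = i
    · subst hj
      simp [NecA_mono]
    · simp [NecA_mono, hj]
  rw [Finset.prod_congr rfl fun j _ => h j, Finset.prod_ite_eq']
  simp

open Classical in
/-- the coordinates at the pivots -/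
theorem NecA_pivot {L : Type} [Field L] [Infinite L] {p q : Fin N} (hpq : p ≠ q) (d : ℕ)
    (e : Fin r → ℕ) (n0 : (b : Fin r) → Mon (m b) (e b))
    (u w : Fin N → L) (z : Co m → L) (h1 : u p = 1) (h2 : u q = 0) (h3 : w p = 0) (h4 : w q = 1)
    (a : MMon N m d e → L)
    (ha : ∀ t : L, ∑ n : MMon N m d e,
      a n * ((∏ i, (u i + t * w i) ^ (n.1.1 i : ℕ)) * NecA_zv z n.2) = 0)
    (l : Fin (d + 1)) :
    a (MP_1e3e9c_agL.NecA_piv hpq d l, n0) * NecA_zv z n0 =
      - ∑ n ∈ Finset.univ.filter (fun n : MMon N m d e =>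
      n ∉ Set.range (fun l' => ((MP_1e3e9c_agL.NecA_piv hpq d l', n0) : MMon N m d e))),
        a n * NecA_zv z n.2 * (MP_1e3e9c_agL.NecA_mp u w n.1).coeff l := by
  have hP : (∑ n : MMon N m d e, Polynomial.C (a n * NecA_zv z n.2) *
      MP_1e3e9c_agL.NecA_mp u w n.1) = 0 := by
    apply Polynomial.eq_zero_of_infinite_isRoot
    have : {x | Polynomial.IsRoot (∑ n : MMon N m d e, Polynomial.C (a n * NecA_zv z n.2) *
        MP_1e3e9c_agL.NecA_mp u w n.1) x} = Set.univ := by
      ext t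
      refine ⟨fun _ => Set.mem_univ _, fun _ => ?_⟩
      show Polynomial.eval t (∑ n : MMon N m d e, Polynomial.C (a n * NecA_zv z n.2) *
        MP_1e3e9c_agL.NecA_mp u w n.1) = 0
      rw [Polynomial.eval_finsetSum, ← ha t]
      refine Finset.sum_congr rfl fun n _ => ?_
      rw [Polynomial.eval_mul, Polynomial.eval_C, MP_1e3e9c_agL.NecA_mp_eval]
      ring
    rw [this]
    exact Set.infinite_univ
  have hc := congrArg (fun P => Polynomial.coeff P (l : ℕ)) hP
  simp only [Polynomial.finsetSum_coeff, Polynomial.coeff_C_mul, Polynomial.coeff_zero] at hc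
  rw [← Finset.sum_filter_add_sum_filter_not Finset.univ
    (fun n : MMon N m d e => n ∉ Set.range
      (fun l' => ((MP_1e3e9c_agL.NecA_piv hpq d l', n0) : MMon N m d e)))] at hc
  have hq : ∑ n ∈ Finset.univ.filter (fun n : MMon N m d e => ¬ n ∉ Set.range
      (fun l' => ((MP_1e3e9c_agL.NecA_piv hpq d l', n0) : MMon N m d e))),
      a n * NecA_zv z n.2 * (MP_1e3e9c_agL.NecA_mp u w n.1).coeff l =
        a (MP_1e3e9c_agL.NecA_piv hpq d l, n0) * NecA_zv z n0 := by
    rw [Finset.sum_eq_single (MP_1e3e9c_agL.NecA_piv hpq d l, n0)]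
    · rw [MP_1e3e9c_agL.NecA_mp_piv hpq d l u w h1 h2 h3 h4]
      simp
    · intro n hn hne
      rw [Finset.mem_filter, not_not] at hn
      obtain ⟨l', rfl⟩ := hn.2
      dsimp only at hne ⊢
      rw [MP_1e3e9c_agL.NecA_mp_piv hpq d l' u w h1 h2 h3 h4, Polynomial.coeff_X_pow, if_neg,
        mul_zero]
      intro hl
      exact hne (by rw [Fin.ext hl])
    · intro hn
      refine absurd ?_ hn
      rw [Finset.mem_filter, not_not]
      exact ⟨Finset.mem_univ _, ⟨l, rfl⟩⟩
  rw [hq] at hc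
  linear_combination hc

theorem nec_upper {k L : Type} [Field k] [Field L] [Infinite L] [Algebra k L] {c : ℕ}
    (d : Fin c → ℕ) (e : Fin c → Fin r → ℕ) (u w : Fin N → L) (z : Co m → L) (hi : Ind u w)
    (hz : Adm z) (a : ((j : Fin c) × MMon N m (d j) (e j)) → L)
    (ha : ∀ j, ∀ s t : L, ∑ n : MMon N m (d j) (e j), a ⟨j, n⟩ * mval (s • u + t • w) z n = 0) :
    td k (Sum.elim (pt u w z) a) + ((∑ j, (d j + 1) : ℕ) : Cardinal) ≤
      td k (pt u w z) + (Fintype.card ((j : Fin c) × MMon N m (d j) (e j)) : Cardinal) := by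
  classical
  obtain ⟨p, q, hD⟩ := hi
  have hpq : p ≠ q := by
    rintro rfl
    exact hD (by ring)
  choose ib hib using hz
  -- the pivots
  let n0 : (j : Fin c) → (b : Fin r) → Mon (m b) (e j b) := fun j b => NecA_mono (e j b) (ib b)
  let P : ((j : Fin c) × Fin (d j + 1)) → ((j : Fin c) × MMon N m (d j) (e j)) :=
    fun x => ⟨x.1, (MP_1e3e9c_agL.NecA_piv hpq (d x.1) x.2, n0 x.1)⟩
  have hP : Function.Injective P := by
    rintro ⟨j, l⟩ ⟨j', l'⟩ h
    obtain ⟨h1, h2⟩ := Sigma.mk.inj_iff.1 h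
    dsimp only at h1
    subst h1
    have h3 := MP_1e3e9c_agL.NecA_piv_inj hpq _ (congrArg Prod.fst (eq_of_heq h2))
    dsimp only at h3
    rw [h3]
  let n := Fintype.card {e' : (j : Fin c) × MMon N m (d j) (e j) // e' ∉ Set.range P}
  have hn : (∑ j, (d j + 1)) + n = Fintype.card ((j : Fin c) × MMon N m (d j) (e j)) := by
    have h1 : Fintype.card {e' : (j : Fin c) × MMon N m (d j) (e j) // e' ∈ Set.range P} =
        ∑ j, (d j + 1) := by
      have h2 : Fintype.card (Set.range P) = Fintype.card ((j : Fin c) × Fin (d j + 1)) :=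
        Set.card_range_of_injective hP
      rw [Fintype.card_sigma] at h2
      simp only [Fintype.card_fin] at h2
      rw [← h2]
    have h3 := Fintype.card_subtype_compl
      (fun e' : (j : Fin c) × MMon N m (d j) (e j) => e' ∈ Set.range P)
    have h4 := Fintype.card_subtype_le
      (fun e' : (j : Fin c) × MMon N m (d j) (e j) => e' ∈ Set.range P)
    rw [h1] at h3 h4
    show _ + Fintype.card {e' : (j : Fin c) × MMon N m (d j) (e j) // ¬ e' ∈ Set.range P} = _
    rw [h3]
    omega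
  let eq := (Fintype.equivFin
    {e' : (j : Fin c) × MMon N m (d j) (e j) // e' ∉ Set.range P}).symm
  let b : Fin n → L := fun i => a (eq i).1
  set K := IntermediateField.adjoin k (Set.range (Sum.elim (pt u w z) b)) with hK
  have hu : ∀ i, u i ∈ K := fun i =>
    IntermediateField.subset_adjoin k _ ⟨Sum.inl (Sum.inl (Sum.inl i)), rfl⟩
  have hw : ∀ i, w i ∈ K := fun i =>
    IntermediateField.subset_adjoin k _ ⟨Sum.inl (Sum.inl (Sum.inr i)), rfl⟩
  have hzK : ∀ i, z i ∈ K := fun i =>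
    IntermediateField.subset_adjoin k _ ⟨Sum.inl (Sum.inr i), rfl⟩
  have hb : ∀ e' : (j : Fin c) × MMon N m (d j) (e j), e' ∉ Set.range P → a e' ∈ K := by
    intro e' he
    refine IntermediateField.subset_adjoin k _ ⟨Sum.inr (eq.symm ⟨e', he⟩), ?_⟩
    simp [b]
  have hzv : ∀ (e' : Fin r → ℕ) (n' : (b : Fin r) → Mon (m b) (e' b)), NecA_zv z n' ∈ K :=
    fun e' n' => prod_mem fun b _ => prod_mem fun i _ => pow_mem (hzK _) _
  -- the normalized basis of the line
  let D := u p * w q - u q * w p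
  have hDK : D ∈ K := sub_mem (mul_mem (hu p) (hw q)) (mul_mem (hu q) (hw p))
  let u' : Fin N → L := fun i => (w q * u i - u q * w i) / D
  let w' : Fin N → L := fun i => (u p * w i - w p * u i) / D
  have hu' : ∀ i, u' i ∈ K := fun i =>
    div_mem (sub_mem (mul_mem (hw q) (hu i)) (mul_mem (hu q) (hw i))) hDK
  have hw' : ∀ i, w' i ∈ K := fun i =>
    div_mem (sub_mem (mul_mem (hu p) (hw i)) (mul_mem (hw p) (hu i))) hDK
  have h1 : u' p = 1 := by
    show (w q * u p - u q * w p) / D = 1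
    rw [div_eq_one_iff_eq hD]
    show _ = u p * w q - u q * w p
    ring
  have h2 : u' q = 0 := by
    show (w q * u q - u q * w q) / D = 0
    rw [mul_comm, sub_self, zero_div]
  have h3 : w' p = 0 := by
    show (u p * w p - w p * u p) / D = 0
    rw [mul_comm, sub_self, zero_div]
  have h4 : w' q = 1 := by
    show (u p * w q - w p * u q) / D = 1
    rw [div_eq_one_iff_eq hD]
    show _ = u p * w q - u q * w p
    ring
  have ha' : ∀ j, ∀ t : L, ∑ n : MMon N m (d j) (e j),
      a ⟨j, n⟩ * ((∏ i, (u' i + t * w' i) ^ (n.1.1 i : ℕ)) * NecA_zv z n.2) = 0 := by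
    intro j t
    rw [← ha j ((w q - t * w p) / D) ((t * u p - u q) / D)]
    refine Finset.sum_congr rfl fun n _ => ?_
    unfold mval
    have h5 : ∀ i, u' i + t * w' i =
        (((w q - t * w p) / D) • u + ((t * u p - u q) / D) • w) i := by
      intro i
      show (w q * u i - u q * w i) / D + t * ((u p * w i - w p * u i) / D) =
        ((w q - t * w p) / D) * u i + ((t * u p - u q) / D) * w i
      ring
    rw [Finset.prod_congr rfl fun i _ => by rw [h5 i]]
    rfl
  have key : ∀ e' : (j : Fin c) × MMon N m (d j) (e j), a e' ∈ K := by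
    intro e'
    by_cases he : e' ∈ Set.range P
    · obtain ⟨⟨j, l⟩, rfl⟩ := he
      have h5 := NecA_pivot hpq (d j) (e j) (n0 j) u' w' z h1 h2 h3 h4 (fun n => a ⟨j, n⟩)
        (ha' j) l
      have h6 : NecA_zv z (n0 j) ≠ 0 := by
        refine Finset.prod_ne_zero_iff.2 fun b _ => ?_
        have h7 := NecA_mono_prod (e j b) (ib b) (fun i => z ⟨b, i⟩)
        show ∏ i, z ⟨b, i⟩ ^ ((NecA_mono (e j b) (ib b)).1 i : ℕ) ≠ 0
        rw [h7]
        exact pow_ne_zero _ (hib b)
      show a ⟨j, (MP_1e3e9c_agL.NecA_piv hpq (d j) l, n0 j)⟩ ∈ K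
      have h8 := eq_div_of_mul_eq h6 h5
      rw [h8]
      refine div_mem (neg_mem (sum_mem fun n hn => mul_mem (mul_mem (hb _ ?_) (hzv _ _))
        (MP_1e3e9c_agL.NecA_coeff_mem K u' w' hu' hw' n.1 l))) (hzv _ _)
      rintro ⟨⟨j', l'⟩, h9⟩
      obtain ⟨rfl, h10⟩ := Sigma.mk.inj_iff.1 h9
      exact (Finset.mem_filter.1 hn).2 ⟨l', eq_of_heq h10⟩
    · exact hb e' he
  have h5 : td k (Sum.elim (pt u w z) a) ≤ td k (Sum.elim (pt u w z) b) := by
    refine MP_1e3e9c_agL.td_mem fun i => ?_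
    rcases i with ((i | i) | i) | i
    · exact hu i
    · exact hw i
    · exact hzK i
    · exact key i
  have h6 := MP_1e3e9c_agL.td_add_card (k := k) (pt u w z) b
  calc td k (Sum.elim (pt u w z) a) + ((∑ j, (d j + 1) : ℕ) : Cardinal)
      ≤ (td k (pt u w z) + n) + ((∑ j, (d j + 1) : ℕ) : Cardinal) :=
        add_le_add (h5.trans h6) le_rfl
    _ = td k (pt u w z) + (Fintype.card ((j : Fin c) × MMon N m (d j) (e j)) : Cardinal) := by
        rw [← hn, add_assoc, Nat.cast_add, add_comm (n : Cardinal)]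

end Pool.Agent.Lib.MP_1e3e9c_agP
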