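import Pool.Agent.Lib.MP_1e3e9c_agP.Cg
import Pool.Agent.Lib.MP_1e3e9c_agP.Const
import Pool.Agent.Lib.MP_1e3e9c_agP.Pt
import Pool.Agent.Lib.MP_1e3e9c_agP.Trans
import Pool.Agent.Lib.MP_1e3e9c_agP.Inc
import Pool.Agent.Lib.MP_1e3e9c_agP.Seg
import Pool.Agent.Lib.MP_1e3e9c_agL.Base

/-!
# no line with contact `d` lies in the generic hypersurface of multidegree `(1, ..., 1)`

Compare `MP_1e3e9c_agL/NoGen.lean` (the same without `z`).  Changes: the generic Borel translate `(u, w, z)` of `(u0, w0, z0)`; `τ = Mt N m`, `U = sg u z`, `c : Mt N m` with `sg u0 z0 c ≠ 0` (`sg_ne`), `exists_inc k (sg u z) c`, `inc_spec` with `x = pt u w z`, `Q = qu k` (`aeval_qu`): `Sp k ((u, w, z), h') ((u0, w0, z0), h)`.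
`κ = FractionRing (MvPolynomial (Mt N m) k)`, `t` = the images of the variables.
(4) for `ν`, `lam`, `μ`, `ζ` (`ν ≠ 0`, `ζ b ≠ 0`): `inc_spec` with `x1 = pt (ν u) (lam w + μ u) (sc ζ z)`, `sg (ν u) (sc ζ z) = (ν ∏ ζ b) • sg u z` (`sg_sc`).
(5) `A = (∑ t, C (t_t) * qw κ t) ^ d * ∏ b, X (inr ⟨b, i_b⟩) ^ (e b - d)` with `i_b` such that `z ⟨b, i_b⟩ ≠ 0` (`Adm z`), `C = cg (map (algebraMap k κ) F) d`.  `A(u', w', z') = (hv h' w' z') ^ d * ∏ z' ⟨b, i_b⟩ ^ (e b - d)`; as `hv h' u z = 0`: under `(ν u, lam w + μ u, sc ζ z)` it is multiplied by `lam ^ d ∏ ζ b ^ d ∏ ζ b ^ (e b - d) =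
lam ^ d ∏ ζ b ^ e b` (`hv_add`, `hv_sc`, `he`), `C` by `ν ^ 0 lam ^ d ∏ ζ b ^ e b` (`cg_borel`).  `A(u0, w0, z0) = 0` (`hv h w0 z0 = 0`, `1 ≤ d`).  `const_zero` gives `A(u, w, z) = 0`, so `hv h' w z = 0`: contradiction to `inc_ne` with `sg_ind`.
-/

set_option autoImplicit false

namespace Pool.Agent.Lib.MP_1e3e9c_agP

open MvPolynomial
open Pool.Agent.Lib.MP_1e3e9c_agL (Sp Ind td lin ind_ne sp_base exists_algebra frac_gen)

variable {N r : ℕ} {m : Fin r → ℕ}

/-- base change of points along the structure maps of a tower `k → κ → M` -/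
private theorem NoGen_sp_down {k κ M M' ι : Type} [Field k] [Field κ] [Algebra k κ] [Field M]
    [Algebra k M] [Algebra κ M] [IsScalarTower k κ M] [Field M'] [Algebra k M'] [Algebra κ M']
    [IsScalarTower k κ M'] {x : ι → M} {y : ι → M'} (h : Sp κ x y) : Sp k x y := by
  intro p hp
  have h1 := h (MvPolynomial.map (algebraMap k κ) p) (by rwa [aeval_map_algebraMap])
  rwa [aeval_map_algebraMap] at h1

/-- the first polynomial of step (5) -/
private noncomputable def NoGen_A {κ : Type} [Field κ] (d : ℕ) (e : Fin r → ℕ) (t : Mt N m → κ)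
    (ib : (b : Fin r) → Fin (m b)) : MvPolynomial (Cd N m) κ :=
  (∑ s, C (t s) * qw κ s) ^ d * ∏ b, X (Sum.inr ⟨b, ib b⟩) ^ (e b - d)

private theorem NoGen_aeval_A {κ M : Type} [Field κ] [Field M] [Algebra κ M] (d : ℕ)
    (e : Fin r → ℕ) (t : Mt N m → κ) (ib : (b : Fin r) → Fin (m b)) (u w : Fin N → M)
    (z : Co m → M) : aeval (pt u w z) (NoGen_A d e t ib) =
      (hv (fun s => algebraMap κ M (t s)) w z) ^ d * ∏ b, z ⟨b, ib b⟩ ^ (e b - d) := by
  unfold NoGen_A hv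
  rw [map_mul, map_pow, map_sum, map_prod]
  congr 1
  · congr 1
    refine Finset.sum_congr rfl fun s _ => ?_
    rw [map_mul, aeval_C, aeval_qw]
  · refine Finset.prod_congr rfl fun b _ => ?_
    rw [map_pow, aeval_X]
    rfl

private theorem NoGen_core {k L L1 : Type} [Field k] [IsAlgClosed k] [Field L] [Algebra k L]
    [Field L1] [Algebra k L1] {d : ℕ} {e : Fin r → ℕ}
    (S : Set (MvPolynomial (Cd N m) k)) {F : MvPolynomial (Fin N ⊕ Co m) k}
    (hF : MHom F d e) (hd : 1 ≤ d) (he : ∀ b, d ≤ e b)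
    (hno : ∀ (u w : Fin N → k) (z : Co m → k), Ind u w → Adm z → Zero S u w z →
      ∃ j, aeval (pt u w z) (cg F j) ≠ 0)
    (u0 w0 : Fin N → L1) (z0 : Co m → L1) (h : Mt N m → L1) (hi : Ind u0 w0) (ha : Adm z0)
    (hh : AlgebraicIndependent k h) (h1 : hv h u0 z0 = 0) (h2 : hv h w0 z0 = 0)
    (u w : Fin N → L) (z : Co m → L) (hB : BSt k u w z) (hsp : Sp k (pt u w z) (pt u0 w0 z0))
    (hz : Zero S u w z) (hc : ∀ j < d, aeval (pt u w z) (cg F j) = 0) : False := by
  have hiu : Ind u w := ind_sp hsp hi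
  have hau : Adm z := adm_sp hsp ha
  -- (2) the generic multilinear form which vanishes at `(u, z)`
  obtain ⟨c, hc0⟩ : ∃ c, sg u0 z0 c ≠ 0 := by
    by_contra hall
    push Not at hall
    exact sg_ne u0 z0 (ind_ne hi).1 ha (funext hall)
  have hc0' : aeval (pt u0 w0 z0) (qu k c) ≠ 0 := by
    rw [aeval_qu]
    exact hc0
  have huc : sg u z c ≠ 0 := by
    intro h0
    apply hc0
    have h3 := hsp (qu k c) (by rw [aeval_qu]; exact h0)
    rwa [aeval_qu] at h3
  obtain ⟨M, _, _, _, _, h', ht, h0⟩ := exists_inc k (sg u z) c huc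
  have h0' : ∑ i, h' i * algebraMap L M (aeval (pt u w z) (qu k i)) = 0 := by
    rw [← h0]
    refine Finset.sum_congr rfl fun s _ => ?_
    rw [aeval_qu]
  have h10 : ∑ i, h i * aeval (pt u0 w0 z0) (qu k i) = 0 := by
    rw [← h1]
    refine Finset.sum_congr rfl fun s _ => ?_
    rw [aeval_qu]
  have hspec := inc_spec (pt u w z) (qu k) c h' ht h0' (pt u0 w0 z0) hc0' h h10 hsp
  have hh' : AlgebraicIndependent k h' := by
    rw [algebraicIndependent_iff]
    intro p hp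
    have h3 := hspec (rename Sum.inr p) (by
      rw [aeval_rename]
      exact hp)
    rw [aeval_rename] at h3
    exact (algebraicIndependent_iff.1 hh) p h3
  -- (3) the field generated by the coefficients
  obtain ⟨_, _, hM⟩ := exists_algebra h' hh'
  obtain ⟨_, _, hL1⟩ := exists_algebra h hh
  set κ : Type := FractionRing (MvPolynomial (Mt N m) k) with hκ
  set t : Mt N m → κ := fun i => algebraMap (MvPolynomial (Mt N m) k) κ (X i) with htdef
  set U : Fin N → M := fun i => algebraMap L M (u i) with hU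
  set W : Fin N → M := fun i => algebraMap L M (w i) with hW
  set Z : Co m → M := fun i => algebraMap L M (z i) with hZ
  have htM : (fun i => algebraMap κ M (t i)) = h' := funext hM
  have htL : (fun i => algebraMap κ L1 (t i)) = h := funext hL1
  have hmapU : (fun i => algebraMap L M (pt u w z i)) = pt U W Z := by
    funext i
    rcases i with (i | i) | i <;> rfl
  rw [hmapU] at hspec
  have hUu : Sp k (pt u w z) (pt U W Z) ∧ Sp k (pt U W Z) (pt u w z) := sp_map (M := M) u w z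
  have hiU : Ind U W := ind_sp hUu.2 hiu
  have haU : Adm Z := adm_sp hUu.2 hau
  have hUc : sg U Z c ≠ 0 := by
    intro h3
    rw [hU, hZ, sg_map] at h3
    exact huc ((algebraMap L M).injective (by rw [map_zero]; exact h3))
  have hhU : hv h' U Z = 0 := by
    unfold hv
    rw [← h0]
    refine Finset.sum_congr rfl fun s _ => ?_
    rw [hU, hZ, sg_map]
  have hzU : Zero S U W Z := zero_sp hUu.1 hz
  have hcU : ∀ j < d, aeval (pt U W Z) (cg F j) = 0 := fun j hj => hUu.1 _ (hc j hj)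
  have hfrac : ∀ a : κ, ∃ p q : MvPolynomial (Mt N m) k, aeval t q ≠ 0 ∧
      a * aeval t q = aeval t p := fun a => frac_gen a
  have hκ0 : Sp κ (pt U W Z) (pt u0 w0 z0) := by
    refine sp_base (k := k) t hfrac ?_
    rw [htM, htL]
    exact hspec
  -- (4)
  have hκB : ∀ (ν lam μ : M) (ζ : Fin r → M), ν ≠ 0 → lam ≠ 0 → (∀ b, ζ b ≠ 0) →
      Sp κ (pt U W Z) (pt (ν • U) (lam • W + μ • U) (sc ζ Z)) := by
    intro ν lam μ ζ hν _ hζ
    refine sp_base (k := k) t hfrac ?_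
    rw [htM, ← hmapU]
    refine inc_spec (pt u w z) (qu k) c h' ht h0' (pt (ν • U) (lam • W + μ • U) (sc ζ Z)) ?_ h'
      ?_ ?_
    · rw [aeval_qu, sg_sc]
      exact mul_ne_zero (mul_ne_zero hν (Finset.prod_ne_zero_iff.2 fun b _ => hζ b)) hUc
    · have h3 : ∑ i, h' i * aeval (pt (ν • U) (lam • W + μ • U) (sc ζ Z)) (qu k i) =
          hv h' (ν • U) (sc ζ Z) := by
        refine Finset.sum_congr rfl fun s _ => ?_
        rw [aeval_qu]
      rw [h3, hv_sc, hhU, mul_zero]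
    · exact hB M U W Z ν lam μ ζ hUu.1
  -- (5)
  have hFκ : MHom (MvPolynomial.map (algebraMap k κ) F) d e := hF.map
  choose ib hib using haU
  have hA1 : aeval (pt u0 w0 z0) (NoGen_A d e t ib) = 0 := by
    rw [NoGen_aeval_A, htL, h2, zero_pow (by omega), zero_mul]
  have hlin : ∀ (lam μ : M) (ζ : Fin r → M), hv h' (lam • W + μ • U) (sc ζ Z) =
      lam * (∏ b, ζ b) * hv h' W Z := by
    intro lam μ ζ
    have h3 := hv_sc h' 1 ζ (lam • W + μ • U) Z
    rw [one_smul, one_mul] at h3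
    rw [h3, hv_add, hhU]
    ring
  have hfin : aeval (pt U W Z) (NoGen_A d e t ib) = 0 := by
    refine const_zero U W Z hiU (fun b => ⟨ib b, hib b⟩) hκB (NoGen_A d e t ib)
      (cg (MvPolynomial.map (algebraMap k κ) F) d) 0 d e ?_ ?_ ?_ u0 w0 z0 hi ha hκ0 hA1
    · intro ν lam μ ζ _ _ _
      rw [NoGen_aeval_A, NoGen_aeval_A, htM, hlin, mul_pow, mul_pow, pow_zero, one_mul]
      have h3 : ∏ b, sc ζ Z ⟨b, ib b⟩ ^ (e b - d) =
          (∏ b, ζ b ^ (e b - d)) * ∏ b, Z ⟨b, ib b⟩ ^ (e b - d) := by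
        rw [← Finset.prod_mul_distrib]
        refine Finset.prod_congr rfl fun b _ => ?_
        rw [← mul_pow]
        rfl
      have h4 : (∏ b, ζ b) ^ d * (∏ b, ζ b ^ (e b - d)) = ∏ b, ζ b ^ e b := by
        rw [← Finset.prod_pow, ← Finset.prod_mul_distrib]
        refine Finset.prod_congr rfl fun b _ => ?_
        rw [← pow_add, Nat.add_sub_cancel' (he b)]
      rw [h3, ← h4]
      ring
    · intro ν lam μ ζ _ _ _
      have h3 := (cg_borel hFκ U W Z ν lam μ ζ le_rfl (fun j hj => by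
        rw [cg_map]
        exact hcU j hj)).2
      rw [h3, Nat.sub_self]
    · intro M' _ _ u' w' z' hi' ha' hs' h3
      let _ : Algebra k M' := ((algebraMap κ M').comp (algebraMap k κ)).toAlgebra
      have _ : IsScalarTower k κ M' := IsScalarTower.of_algebraMap_eq fun _ => rfl
      have hs'' : Sp k (pt U W Z) (pt u' w' z') := NoGen_sp_down hs'
      have hz' : Zero S u' w' z' := zero_sp hs'' hzU
      rw [cg_map (k := k)] at h3
      have hc' : ∀ j, aeval (pt u' w' z') (cg F j) = 0 := by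
        intro j
        rcases lt_trichotomy j d with hj | hj | hj
        · exact hs'' _ (hcU j hj)
        · rw [hj]
          exact h3
        · rw [cg_gt hF hj, map_zero]
      obtain ⟨u2, w2, z2, hi2, ha2, hs2, -⟩ := exists_kflat (k := k) u' w' z' hi' ha' 1 (by
        rw [map_one]
        exact one_ne_zero)
      obtain ⟨j, hj⟩ := hno u2 w2 z2 hi2 ha2 (zero_sp hs2 hz')
      exact hj (hs2 _ (hc' j))
  rw [NoGen_aeval_A, htM] at hfin
  have h5 := inc_ne (sg u z) (sg w z) (sg_ind u w z hiu hau) c huc h' ht h0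
  have h6 : hv h' W Z ≠ 0 := by
    intro h7
    apply h5
    rw [← h7]
    refine Finset.sum_congr rfl fun s _ => ?_
    rw [hW, hZ, sg_map]
  rcases mul_eq_zero.1 hfin with h7 | h7
  · exact h6 ((pow_eq_zero_iff (by omega)).1 h7)
  · obtain ⟨b, -, hb⟩ := Finset.prod_eq_zero_iff.1 h7
    exact hib b (eq_zero_of_pow_eq_zero hb)

theorem no_generic {k L1 : Type} [Field k] [IsAlgClosed k] [Field L1] [Algebra k L1] {d : ℕ}
    {e : Fin r → ℕ} (S : Set (MvPolynomial (Cd N m) k)) (hS : Stable S)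
    {F : MvPolynomial (Fin N ⊕ Co m) k} (hF : MHom F d e) (hd : 1 ≤ d) (he : ∀ b, d ≤ e b)
    (hno : ∀ (u w : Fin N → k) (z : Co m → k), Ind u w → Adm z → Zero S u w z →
      ∃ j, aeval (pt u w z) (cg F j) ≠ 0)
    (u0 w0 : Fin N → L1) (z0 : Co m → L1) (h : Mt N m → L1) (hi : Ind u0 w0) (ha : Adm z0)
    (hz : Zero S u0 w0 z0) (hc : ∀ j < d, aeval (pt u0 w0 z0) (cg F j) = 0)
    (hh : AlgebraicIndependent k h) (h1 : hv h u0 z0 = 0) (h2 : hv h w0 z0 = 0) : False := by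
  -- (1) the generic Borel translate
  obtain ⟨L, _, _, _, _, ν₀, lam₀, μ₀, ζ₀, hB, hsp⟩ := exists_borel (κ := k) u0 w0 z0
  have hsp0 : Sp k (pt u0 w0 z0) (pt (fun i => algebraMap L1 L (u0 i))
      (fun i => algebraMap L1 L (w0 i)) (fun i => algebraMap L1 L (z0 i))) :=
    (sp_map (k := k) (M := L) u0 w0 z0).1
  have hz0 := zero_sp hsp0 hz
  have hc0 : ∀ j < d, aeval (pt (fun i => algebraMap L1 L (u0 i))
      (fun i => algebraMap L1 L (w0 i)) (fun i => algebraMap L1 L (z0 i))) (cg F j) = 0 :=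
    fun j hj => hsp0 _ (hc j hj)
  have hcu := (cg_borel hF _ _ _ ν₀ lam₀ μ₀ ζ₀ le_rfl hc0).1
  have hzu : Zero S (ν₀ • (fun i => algebraMap L1 L (u0 i)))
      (lam₀ • (fun i => algebraMap L1 L (w0 i)) + μ₀ • (fun i => algebraMap L1 L (u0 i)))
      (sc ζ₀ (fun i => algebraMap L1 L (z0 i))) := by
    have h3 := hS L _ _ _ ν₀ 0 μ₀ lam₀ ζ₀ hz0
    rwa [zero_smul, add_zero, add_comm (μ₀ • _)] at h3
  exact NoGen_core S hF hd he hno u0 w0 z0 h hi ha hh h1 h2 _ _ _ hB hsp hzu hcu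

end Pool.Agent.Lib.MP_1e3e9c_agP
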