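import Pool.Agent.Lib.MP_1e3e9c_agP.Contact
import Pool.Agent.Lib.MP_1e3e9c_agL.GenPt
import Pool.Agent.Lib.MP_1e3e9c_agL.Krull
import Pool.Agent.Lib.MP_1e3e9c_agP.NoGen

/-!
# one hypersurface

For `h : Mt N m → k` the two polynomials are `∑ t, C (h t) * qu k t` and `∑ t, C (h t) * qw k t`
(`aeval_qu`, `aeval_qw`); the zero set is stable by `hv_add`, `hv_sc`.  `generic_point` with `ι = Cd N m`,
`η = Mt N m`, and the set of all products of a minor of `(u, w)` and `∏ b, X (inr ⟨b, i_b⟩)`.
-/

set_option autoImplicit false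

namespace Pool.Agent.Lib.MP_1e3e9c_agP

open MvPolynomial
open Pool.Agent.Lib.MP_1e3e9c_agL (Sp Ind td lin krull_list generic_point)

variable {N r : ℕ} {m : Fin r → ℕ}

/-- the multilinear form at `(u, z)` -/
private noncomputable def One_u {k : Type} [Field k] (h : Mt N m → k) : MvPolynomial (Cd N m) k :=
  ∑ t, C (h t) * qu k t

/-- the multilinear form at `(w, z)` -/
private noncomputable def One_w {k : Type} [Field k] (h : Mt N m → k) : MvPolynomial (Cd N m) k :=
  ∑ t, C (h t) * qw k t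

private theorem aeval_One_u {k L : Type} [Field k] [Field L] [Algebra k L] (h : Mt N m → k)
    (u w : Fin N → L) (z : Co m → L) :
    aeval (pt u w z) (One_u h) = hv (fun t => algebraMap k L (h t)) u z := by
  unfold One_u hv
  rw [map_sum]
  refine Finset.sum_congr rfl fun t _ => ?_
  rw [map_mul, aeval_C, aeval_qu]

private theorem aeval_One_w {k L : Type} [Field k] [Field L] [Algebra k L] (h : Mt N m → k)
    (u w : Fin N → L) (z : Co m → L) :
    aeval (pt u w z) (One_w h) = hv (fun t => algebraMap k L (h t)) w z := by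
  unfold One_w hv
  rw [map_sum]
  refine Finset.sum_congr rfl fun t _ => ?_
  rw [map_mul, aeval_C, aeval_qw]

private theorem One_hv {L : Type} [Field L] (h : Mt N m → L) (a b : L) (ζ : Fin r → L)
    (u w : Fin N → L) (z : Co m → L) (h1 : hv h u z = 0) (h2 : hv h w z = 0) :
    hv h (a • u + b • w) (sc ζ z) = 0 := by
  have h3 := hv_sc h 1 ζ (a • u + b • w) z
  rw [one_smul] at h3
  rw [h3, hv_add, h1, h2, mul_zero, mul_zero, add_zero, mul_zero]

/-- a minor times a product of coordinates -/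
private noncomputable def One_d (k : Type) [Field k] (s t : Fin N) (i : ∀ b, Fin (m b)) :
    MvPolynomial (Cd N m) k :=
  (X (Sum.inl (Sum.inl s)) * X (Sum.inl (Sum.inr t)) -
    X (Sum.inl (Sum.inl t)) * X (Sum.inl (Sum.inr s))) * ∏ b, X (Sum.inr ⟨b, i b⟩)

private theorem aeval_One_d {k L : Type} [Field k] [Field L] [Algebra k L] (s t : Fin N)
    (i : ∀ b, Fin (m b)) (u w : Fin N → L) (z : Co m → L) :
    aeval (pt u w z) (One_d k s t i) = (u s * w t - u t * w s) * ∏ b, z ⟨b, i b⟩ := by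
  unfold One_d
  rw [map_mul, map_sub, map_mul, map_mul, map_prod, aeval_X, aeval_X, aeval_X, aeval_X]
  congr 1
  refine Finset.prod_congr rfl fun b _ => ?_
  rw [aeval_X]
  rfl

theorem one {k : Type} [Field k] [IsAlgClosed k] {d : ℕ} {e : Fin r → ℕ}
    (S : Set (MvPolynomial (Cd N m) k)) (hS : Stable S) {F : MvPolynomial (Fin N ⊕ Co m) k}
    (hF : MHom F d e) (hd : 1 ≤ d) (he : ∀ b, d ≤ e b)
    (hdim : ∀ (u0 w0 : Fin N → k) (z0 : Co m → k), Ind u0 w0 → Adm z0 → Zero S u0 w0 z0 →
      ∃ (L : Type) (_ : Field L) (_ : Algebra k L) (u w : Fin N → L) (z : Co m → L),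
        Zero S u w z ∧ Sp k (pt u w z) (pt u0 w0 z0) ∧
        ((d + 5 + r : ℕ) : Cardinal) ≤ td k (pt u w z))
    (hyp : ∀ h : Mt N m → k, ∃ (u w : Fin N → k) (z : Co m → k), Ind u w ∧ Adm z ∧
      Zero S u w z ∧ hv h u z = 0 ∧ hv h w z = 0) :
    ∃ (u w : Fin N → k) (z : Co m → k), Ind u w ∧ Adm z ∧ Zero S u w z ∧
      ∀ j, aeval (pt u w z) (cg F j) = 0 := by
  classical
  by_contra hcon
  have hno : ∀ (u w : Fin N → k) (z : Co m → k), Ind u w → Adm z → Zero S u w z →
      ∃ j, aeval (pt u w z) (cg F j) ≠ 0 := by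
    intro u w z h1 h2 h3
    by_contra h4
    push Not at h4
    exact hcon ⟨u, w, z, h1, h2, h3, h4⟩
  have hpt : ∀ {M : Type} (y : Cd N m → M), pt (fun i => y (Sum.inl (Sum.inl i)))
      (fun i => y (Sum.inl (Sum.inr i))) (fun i => y (Sum.inr i)) = y := by
    intro M y
    funext i
    rcases i with (i | i) | i <;> rfl
  have key : ∀ h : Mt N m → k, ∃ (u w : Fin N → k) (z : Co m → k), Ind u w ∧ Adm z ∧
      Zero S u w z ∧ (∀ j < d, aeval (pt u w z) (cg F j) = 0) ∧ hv h u z = 0 ∧ hv h w z = 0 := by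
    intro h
    obtain ⟨u0, w0, z0, hi, ha, hz, h1, h2⟩ := hyp h
    obtain ⟨L, iL, iA, u, w, z, hzu, hsp, ht⟩ := hdim u0 w0 z0 hi ha hz
    obtain ⟨L', iL', iA', y, hsz, hzs, hG, ht'⟩ :=
      krull_list hsp [One_u h, One_w h] (by
        intro g hg
        rw [List.mem_cons, List.mem_cons] at hg
        rcases hg with rfl | rfl | hg
        · rw [aeval_One_u]
          exact h1
        · rw [aeval_One_w]
          exact h2
        · exact absurd hg List.not_mem_nil) (d + 3 + r) (by
        have e1 : d + 3 + r + [One_u h, One_w h].length = d + 5 + r := by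
          show d + 3 + r + 2 = d + 5 + r
          omega
        rw [e1]
        exact ht)
    have hyy := hpt y
    have hS' : Stable (S ∪ {One_u h, One_w h}) := by
      intro M _ _ u' w' z' a b c e' ζ hzero
      have e1 : hv (fun t => algebraMap k M (h t)) u' z' = 0 := by
        have := hzero (One_u h) (Or.inr (Or.inl rfl))
        rwa [aeval_One_u] at this
      have e2 : hv (fun t => algebraMap k M (h t)) w' z' = 0 := by
        have := hzero (One_w h) (Or.inr (Or.inr rfl))
        rwa [aeval_One_w] at this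
      intro p hp
      rcases hp with hp | hp | hp
      · exact hS M u' w' z' a b c e' ζ (fun q hq => hzero q (Or.inl hq)) p hp
      · rw [hp, aeval_One_u]
        exact One_hv _ a b ζ u' w' z' e1 e2
      · rw [Set.mem_singleton_iff.1 hp, aeval_One_w]
        exact One_hv _ c e' ζ u' w' z' e1 e2
    obtain ⟨u', w', z', hi', ha', hz', hc⟩ := exists_contact _ hS' hF hd
      (fun b => hd.trans (he b)) u0 w0 z0 hi ha (fun i => y (Sum.inl (Sum.inl i)))
      (fun i => y (Sum.inl (Sum.inr i))) (fun i => y (Sum.inr i)) (by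
        intro p hp
        rw [hyy]
        rcases hp with hp | hp | hp
        · exact hsz p (hzu p hp)
        · rw [hp]
          exact hG _ (List.mem_cons_self)
        · rw [Set.mem_singleton_iff.1 hp]
          exact hG _ (List.mem_cons_of_mem _ List.mem_cons_self)) (by rw [hyy]; exact hzs)
      (by rw [hyy]; exact ht')
    refine ⟨u', w', z', hi', ha', fun p hp => hz' p (Or.inl hp), hc, ?_, ?_⟩
    · have := hz' (One_u h) (Or.inr (Or.inl rfl))
      rwa [aeval_One_u] at this
    · have := hz' (One_w h) (Or.inr (Or.inr rfl))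
      rwa [aeval_One_w] at this
  have hren : ∀ (M : Type) [Field M] [Algebra k M] (y : Cd N m → M) (a : Mt N m → M)
      (p : MvPolynomial (Cd N m) k),
      aeval (Sum.elim y a) (rename Sum.inl p) = aeval y p := by
    intro M _ _ y a p
    rw [aeval_rename, Sum.elim_comp_inl]
  have hsum : ∀ (M : Type) [Field M] [Algebra k M] (y : Cd N m → M) (a : Mt N m → M)
      (q : Mt N m → MvPolynomial (Cd N m) k),
      aeval (Sum.elim y a) (∑ t, X (Sum.inr t) * rename Sum.inl (q t)) = ∑ t, a t * aeval y (q t) := by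
    intro M _ _ y a q
    rw [map_sum]
    refine Finset.sum_congr rfl fun t _ => ?_
    rw [map_mul, aeval_X, hren]
    rfl
  obtain ⟨L, iL, iA, y, a, ha, hT, δ, hδ, hδ'⟩ := generic_point
    {q : MvPolynomial (Cd N m ⊕ Mt N m) k | (∃ p ∈ S, q = rename Sum.inl p) ∨
      (∃ j < d, q = rename Sum.inl (cg F j)) ∨
      q = ∑ t, X (Sum.inr t) * rename Sum.inl (qu k t) ∨
      q = ∑ t, X (Sum.inr t) * rename Sum.inl (qw k t)}
    {q : MvPolynomial (Cd N m) k | ∃ s t i, q = One_d k s t i} (by
      intro h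
      obtain ⟨u, w, z, ⟨s, t, hst⟩, ha, hz, hc, h1, h2⟩ := key h
      choose i hi using ha
      refine ⟨pt u w z, ?_, One_d k s t i, ⟨s, t, i, rfl⟩, ?_⟩
      · rintro q (⟨p, hp, rfl⟩ | ⟨j, hj, rfl⟩ | rfl | rfl)
        · rw [hren]
          exact hz p hp
        · rw [hren]
          exact hc j hj
        · rw [hsum]
          refine Eq.trans (Finset.sum_congr rfl fun t _ => ?_) h1
          rw [aeval_qu]
        · rw [hsum]
          refine Eq.trans (Finset.sum_congr rfl fun t _ => ?_) h2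
          rw [aeval_qw]
      · rw [aeval_One_d]
        exact mul_ne_zero hst (Finset.prod_ne_zero_iff.2 fun b _ => hi b))
  obtain ⟨s, t, i, rfl⟩ := hδ
  have hyy := hpt y
  rw [← hyy, aeval_One_d] at hδ'
  have hA := right_ne_zero_of_mul hδ'
  rw [Finset.prod_ne_zero_iff] at hA
  refine no_generic S hS hF hd he hno (fun i => y (Sum.inl (Sum.inl i)))
    (fun i => y (Sum.inl (Sum.inr i))) (fun i => y (Sum.inr i)) a
    ⟨s, t, left_ne_zero_of_mul hδ'⟩ (fun b => ⟨i b, hA b (Finset.mem_univ b)⟩) ?_ ?_ ha ?_ ?_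
  · intro p hp
    rw [hyy, ← hren L y a]
    exact hT _ (Or.inl ⟨p, hp, rfl⟩)
  · intro j hj
    rw [hyy, ← hren L y a]
    exact hT _ (Or.inr (Or.inl ⟨j, hj, rfl⟩))
  · have h1 := hT _ (Or.inr (Or.inr (Or.inl rfl)))
    rw [hsum] at h1
    refine Eq.trans (Finset.sum_congr rfl fun t _ => ?_) h1
    rw [← hyy, aeval_qu]
    rfl
  · have h1 := hT _ (Or.inr (Or.inr (Or.inr rfl)))
    rw [hsum] at h1
    refine Eq.trans (Finset.sum_congr rfl fun t _ => ?_) h1
    rw [← hyy, aeval_qw]
    rfl

end Pool.Agent.Lib.MP_1e3e9c_agP
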