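import Pool.Agent.Lib.MP_1e3e9c_agP.Cg
import Pool.Agent.Lib.MP_1e3e9c_agP.Pt
import Pool.Agent.Lib.MP_1e3e9c_agP.Const
import Pool.Agent.Lib.MP_1e3e9c_agL.Res

/-!
# the contact can be raised, the point `z` of the other factors moves

PROOFS. `aeval_rs`: by `cg_eval`, `MP_1e3e9c_agL.aeval_res` for the form `fz z F` over `L` (and `aeval_lin`).
`rs_borel`: `aeval_rs`, `fz (sc ζ z) F` has the coefficients of `fz z F` times `∏ ζ b ^ e b` (`cg_sc`, `cg_eval`), and `MP_1e3e9c_agL.res_borel` for `fz z F` over `L` (it is homogeneous of degree `d`, `fz_hom`; `hc` by `cg_eval`).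
`contact_step_z`.  Suppose that no such triple exists.  `hC0`: for every independent admissible specialization `(u', w', z')` of `(u, w, z)` over a field `M` the number `c_s(u', w', z') = aeval (pt u' w' z') (cg F s)` is not `0`: otherwise `exists_kflat` for `(u', w', z')` (`δ = 1`)
gives such a triple over `k`.
(1) There are `b`, `i`, `i'` with `z ⟨b, i'⟩ ≠ 0` and `z ⟨b, i⟩ / z ⟨b, i'⟩` not in the image of `k`: otherwise choose `i'_b` with `z ⟨b, i'_b⟩ ≠ 0` for every `b` (`ha`) and put `ζ b = z ⟨b, i'_b⟩`, `z0 ⟨b, i⟩ ∈ k` = the ratio: contradiction to `hz`.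
(2) `exists_kflat` with `δ = 1` gives `(u1, w1, z1)` over `k`.  Put `ψ = C (z1 ⟨b, i'⟩) * X ⟨b, i⟩ - C (z1 ⟨b, i⟩) * X ⟨b, i'⟩` (in the variables `inr`): `ψ(z1) = 0`.  `ψ(z) ≠ 0`: if `z1 ⟨b, i'⟩ ≠ 0` because the ratio is not in `k`; if `z1 ⟨b, i'⟩ = 0` and `z1 ⟨b, i⟩ ≠ 0` because
`z ⟨b, i'⟩ ≠ 0`; to avoid the case that both vanish take `δ = X ⟨b, i'⟩` in `exists_kflat`: then `z1 ⟨b, i'⟩ ≠ 0`.
(3) Choose `ε ∈ k`, `ε ≠ 0`, with `∑_(s ≤ j ≤ d) c_j(u1, w1, z1) ε ^ (j - s) ≠ 0` (a polynomial in `ε` with the constant coefficient `c_s ≠ 0`, `k` infinite) and `h : Fin N → k` with `h(w1) = 1`, `h(u1) = -ε` (`u1`, `w1` are independent).  Then `rs F d s h` and `lin inl h` do not vanish at `(u1, w1, z1)`,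
so they do not vanish at `(u, w, z)` (specialization).
(4) `A = rs F d s h ^ s * (lin (inl inl) h) ^ ((d - s) ^ 2) * ∏_b' Ψ_b'` with `Ψ_b = ψ ^ ((d - s) * e b)` and `Ψ_b' = X ⟨b', i'_b'⟩ ^ ((d - s) * e b')` for `b' ≠ b`; `C = cg F s ^ d`.  Both are multiplied by `ν ^ ((d - s) d) lam ^ (s d) ∏ ζ b' ^ (d e b')`
(`rs_borel`, `cg_borel`; `s + (d - s) = d`, `(d - s) s + (d - s) ^ 2 = (d - s) d`).  `A(u, w, z) ≠ 0` by (2), (3); `A(u1, w1, z1) = 0` because `ψ(z1) = 0` and `(d - s) * e b > 0`.  `const_zero` (over `κ = k`, `a = (d - s) * d`, `b = d * s`): contradiction.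
-/

set_option autoImplicit false

namespace Pool.Agent.Lib.MP_1e3e9c_agP

open MvPolynomial
open Pool.Agent.Lib.MP_1e3e9c_agL (Sp Ind td lin)

variable {N r : ℕ} {m : Fin r → ℕ}

/-- the resultant of the linear form `h` and of the form `F / b ^ s` on the line through `u` and `w` -/
noncomputable def rs {k : Type} [Field k] (F : MvPolynomial (Fin N ⊕ Co m) k) (d s : ℕ)
    (h : Fin N → k) : MvPolynomial (Cd N m) k :=
  ∑ j ∈ Finset.Icc s d, cg F j * (lin (fun i => Sum.inl (Sum.inr i)) h) ^ (d - j) *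
    (-(lin (fun i => Sum.inl (Sum.inl i)) h)) ^ (j - s)

theorem aeval_rs {k L : Type} [Field k] [Field L] [Algebra k L]
    (F : MvPolynomial (Fin N ⊕ Co m) k) (d s : ℕ) (h : Fin N → k) (u w : Fin N → L)
    (z : Co m → L) :
    aeval (pt u w z) (rs F d s h) = aeval (Sum.elim u w)
      (Pool.Agent.Lib.MP_1e3e9c_agL.res (fz z F) d s (fun i => algebraMap k L (h i))) := by
  rw [Pool.Agent.Lib.MP_1e3e9c_agL.aeval_res]
  unfold rs
  rw [map_sum]
  refine Finset.sum_congr rfl fun j _ => ?_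
  rw [map_mul, map_mul, map_pow, map_pow, map_neg, Pool.Agent.Lib.MP_1e3e9c_agL.aeval_lin,
    Pool.Agent.Lib.MP_1e3e9c_agL.aeval_lin, cg_eval]
  simp only [Sum.elim_inl, Sum.elim_inr, Algebra.algebraMap_self, RingHom.id_apply]

theorem rs_borel {k L : Type} [Field k] [Field L] [Algebra k L]
    {F : MvPolynomial (Fin N ⊕ Co m) k} {d s : ℕ} {e : Fin r → ℕ} (hF : MHom F d e) (hs : s ≤ d)
    (h : Fin N → k) (u w : Fin N → L) (z : Co m → L)
    (hc : ∀ j < s, aeval (pt u w z) (cg F j) = 0) (ν lam μ : L) (ζ : Fin r → L)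
    (hν : ν ≠ 0) (hlam : lam ≠ 0) :
    aeval (pt (ν • u) (lam • w + μ • u) (sc ζ z)) (rs F d s h) =
      ν ^ (d - s) * lam ^ d * (∏ b, ζ b ^ e b) * aeval (pt u w z) (rs F d s h) := by
  have hc' : ∀ j < s, aeval (Sum.elim u w) (Pool.Agent.Lib.MP_1e3e9c_agL.cf (fz z F) j) = 0 := by
    intro j hj
    rw [← cg_eval]
    exact hc j hj
  have h1 := Pool.Agent.Lib.MP_1e3e9c_agL.res_borel (fz_hom hF z) hs
    (fun i => algebraMap k L (h i)) u w hc' ν lam μ hν hlam
  rw [← aeval_rs, ← aeval_rs] at h1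
  -- the scaling in the other factors
  have h2 : ∀ (u' w' : Fin N → L), aeval (pt u' w' (sc ζ z)) (rs F d s h) =
      (∏ b, ζ b ^ e b) * aeval (pt u' w' z) (rs F d s h) := by
    intro u' w'
    unfold rs
    rw [map_sum, map_sum, Finset.mul_sum]
    refine Finset.sum_congr rfl fun j _ => ?_
    rw [map_mul, map_mul, map_mul, map_mul, map_pow, map_pow, map_pow, map_pow, map_neg, map_neg,
      Pool.Agent.Lib.MP_1e3e9c_agL.aeval_lin, Pool.Agent.Lib.MP_1e3e9c_agL.aeval_lin,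
      Pool.Agent.Lib.MP_1e3e9c_agL.aeval_lin, Pool.Agent.Lib.MP_1e3e9c_agL.aeval_lin, cg_sc hF]
    simp only [Sum.elim_inl, Sum.elim_inr]
    ring
  rw [h2, h1]
  ring

/-- choice of the number `ε` -/
private theorem RZ_eps {k : Type} [Field k] [IsAlgClosed k] {d m : ℕ} (hmd : m < d) (c : ℕ → k)
    (hc : c m ≠ 0) : ∃ e : k, e ≠ 0 ∧ ∑ j ∈ Finset.Icc m d, c j * e ^ (j - m) ≠ 0 := by
  have : Infinite k := IsAlgClosed.instInfinite
  set Q : Polynomial k := ∑ j ∈ Finset.Icc m d, Polynomial.C (c j) * Polynomial.X ^ (j - m) with hQ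
  have hQ0 : Q ≠ 0 := by
    intro h
    have h1 : Q.coeff 0 = c m := by
      rw [hQ, Polynomial.finsetSum_coeff, Finset.sum_eq_single m]
      · simp
      · intro j hj hjm
        rw [Finset.mem_Icc] at hj
        rw [Polynomial.coeff_C_mul, Polynomial.coeff_X_pow, if_neg (by omega), mul_zero]
      · intro h; exact absurd (Finset.mem_Icc.2 ⟨le_refl _, hmd.le⟩) h
    rw [h, Polynomial.coeff_zero] at h1
    exact hc h1.symm
  have hR : Polynomial.X * Q ≠ 0 := mul_ne_zero Polynomial.X_ne_zero hQ0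
  obtain ⟨e, he⟩ : ∃ e : k, (Polynomial.X * Q).eval e ≠ 0 := by
    by_contra h
    push Not at h
    exact hR (Polynomial.funext fun x => by rw [h x, Polynomial.eval_zero])
  rw [Polynomial.eval_mul, Polynomial.eval_X] at he
  refine ⟨e, fun h => he (by rw [h, zero_mul]), fun h => he ?_⟩
  have : Q.eval e = ∑ j ∈ Finset.Icc m d, c j * e ^ (j - m) := by
    rw [hQ, Polynomial.eval_finsetSum]
    refine Finset.sum_congr rfl fun j _ => ?_
    rw [Polynomial.eval_mul, Polynomial.eval_C, Polynomial.eval_pow, Polynomial.eval_X]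
  rw [this, h, mul_zero]

/-- Cramer -/
private theorem RZ_cramer {k : Type} [Field k] {N : ℕ} (u1 w1 : Fin N → k) (hi : Ind u1 w1)
    (e : k) : ∃ h : Fin N → k, (∑ i, h i * w1 i = 1) ∧ (∑ i, h i * u1 i = -e) := by
  classical
  obtain ⟨p, q, hD⟩ := hi
  let a : k := (-e * w1 q - u1 q) / (u1 p * w1 q - u1 q * w1 p)
  let b : k := (u1 p + e * w1 p) / (u1 p * w1 q - u1 q * w1 p)
  have key : ∀ v : Fin N → k, ∑ i, (Pi.single p a + Pi.single q b : Fin N → k) i * v i =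
      a * v p + b * v q := by
    intro v
    simp only [Pi.add_apply, add_mul, Finset.sum_add_distrib]
    congr 1
    · rw [Finset.sum_eq_single p]
      · rw [Pi.single_eq_same]
      · intro i _ hi; rw [Pi.single_eq_of_ne hi, zero_mul]
      · intro h; exact absurd (Finset.mem_univ _) h
    · rw [Finset.sum_eq_single q]
      · rw [Pi.single_eq_same]
      · intro i _ hi; rw [Pi.single_eq_of_ne hi, zero_mul]
      · intro h; exact absurd (Finset.mem_univ _) h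
  refine ⟨Pi.single p a + Pi.single q b, ?_, ?_⟩
  · rw [key]
    simp only [a, b]
    rw [div_mul_eq_mul_div, div_mul_eq_mul_div, ← add_div, div_eq_iff hD]
    ring
  · rw [key]
    simp only [a, b]
    rw [div_mul_eq_mul_div, div_mul_eq_mul_div, ← add_div, div_eq_iff hD]
    ring

private theorem RZ_rs {k L : Type} [Field k] [Field L] [Algebra k L]
    (F : MvPolynomial (Fin N ⊕ Co m) k) (d s : ℕ) (h : Fin N → k) (u w : Fin N → L)
    (z : Co m → L) :
    aeval (pt u w z) (rs F d s h) = ∑ j ∈ Finset.Icc s d, aeval (pt u w z) (cg F j) *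
      (∑ i, algebraMap k L (h i) * w i) ^ (d - j) * (-(∑ i, algebraMap k L (h i) * u i)) ^ (j - s) := by
  unfold rs
  rw [map_sum]
  refine Finset.sum_congr rfl fun j _ => ?_
  rw [map_mul, map_mul, map_pow, map_pow, map_neg, Pool.Agent.Lib.MP_1e3e9c_agL.aeval_lin,
    Pool.Agent.Lib.MP_1e3e9c_agL.aeval_lin]
  simp only [Sum.elim_inl, Sum.elim_inr]

theorem contact_step_z {k L : Type} [Field k] [IsAlgClosed k] [Field L] [Algebra k L] {d s : ℕ}
    {e : Fin r → ℕ} (hs : 1 ≤ s) (hsd : s < d) {F : MvPolynomial (Fin N ⊕ Co m) k}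
    (hF : MHom F d e) (he : ∀ b, 1 ≤ e b) (u w : Fin N → L) (z : Co m → L) (hi : Ind u w)
    (ha : Adm z) (hB : BSt k u w z) (hc : ∀ j < s, aeval (pt u w z) (cg F j) = 0)
    (hz : ¬ ∃ (z0 : Co m → k) (ζ : Fin r → L), z = sc ζ (fun i => algebraMap k L (z0 i))) :
    ∃ (u' w' : Fin N → k) (z' : Co m → k), Ind u' w' ∧ Adm z' ∧
      Sp k (pt u w z) (pt u' w' z') ∧ aeval (pt u' w' z') (cg F s) = 0 := by
  classical
  by_contra hno
  -- `c_s` does not vanish at any independent admissible specialization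
  have hC0 : ∀ (M : Type) [Field M] [Algebra k M] (u' w' : Fin N → M) (z' : Co m → M), Ind u' w' →
      Adm z' → Sp k (pt u w z) (pt u' w' z') → aeval (pt u' w' z') (cg F s) ≠ 0 := by
    intro M _ _ u' w' z' hi' ha' hs' h0
    obtain ⟨u2, w2, z2, hi2, ha2, hs2, _⟩ := exists_kflat (k := k) u' w' z' hi' ha' 1 (by
      rw [map_one]
      exact one_ne_zero)
    exact hno ⟨u2, w2, z2, hi2, ha2, hs'.trans hs2, hs2 _ h0⟩
  have hBL : ∀ (ν lam μ : L) (ζ : Fin r → L), ν ≠ 0 → lam ≠ 0 → (∀ b, ζ b ≠ 0) →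
      Sp k (pt u w z) (pt (ν • u) (lam • w + μ • u) (sc ζ z)) := fun ν lam μ ζ _ _ _ =>
    hB L u w z ν lam μ ζ (Pool.Agent.Lib.MP_1e3e9c_agL.Sp.refl _)
  choose i' hi'z using ha
  -- (1) a ratio which is not in `k`
  obtain ⟨b, i, hbi⟩ : ∃ (b : Fin r) (i : Fin (m b)), ∀ y : k,
      z ⟨b, i⟩ ≠ z ⟨b, i' b⟩ * algebraMap k L y := by
    by_contra hall
    push Not at hall
    apply hz
    choose y hy using hall
    exact ⟨fun x => y x.1 x.2, fun b => z ⟨b, i' b⟩, funext fun x => hy x.1 x.2⟩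
  -- (2)
  obtain ⟨u1, w1, z1, hi1, ha1, hs1, hz1⟩ := exists_kflat (k := k) u w z hi
    (fun b => ⟨i' b, hi'z b⟩) (X (Sum.inr ⟨b, i' b⟩)) (by
      rw [aeval_X]
      exact hi'z b)
  rw [aeval_X] at hz1
  have hz1' : z1 ⟨b, i' b⟩ ≠ 0 := hz1
  let ψ : MvPolynomial (Cd N m) k := C (z1 ⟨b, i' b⟩) * X (Sum.inr ⟨b, i⟩) -
    C (z1 ⟨b, i⟩) * X (Sum.inr ⟨b, i' b⟩)
  have hψ : ∀ (M : Type) [Field M] [Algebra k M] (u' w' : Fin N → M) (z' : Co m → M),
      aeval (pt u' w' z') ψ = algebraMap k M (z1 ⟨b, i' b⟩) * z' ⟨b, i⟩ -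
        algebraMap k M (z1 ⟨b, i⟩) * z' ⟨b, i' b⟩ := by
    intro M _ _ u' w' z'
    simp only [ψ, map_sub, map_mul, aeval_X, algHom_C, Sum.elim_inr]
  have hψz : aeval (pt u w z) ψ ≠ 0 := by
    rw [hψ]
    intro h0
    apply hbi (z1 ⟨b, i⟩ / z1 ⟨b, i' b⟩)
    have h1 : algebraMap k L (z1 ⟨b, i' b⟩) ≠ 0 := by
      rw [Ne, map_eq_zero]
      exact hz1'
    rw [map_div₀]
    field_simp
    linear_combination h0
  have hψz1 : aeval (pt u1 w1 z1) ψ = 0 := by
    rw [hψ]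
    simp only [Algebra.algebraMap_self, RingHom.id_apply]
    ring
  -- (3)
  have hcs : aeval (pt u1 w1 z1) (cg F s) ≠ 0 := hC0 k u1 w1 z1 hi1 ha1 hs1
  obtain ⟨ε, hε0, hε⟩ := RZ_eps hsd (fun j => aeval (pt u1 w1 z1) (cg F j)) hcs
  obtain ⟨h, hw1, hu1⟩ := RZ_cramer u1 w1 hi1 ε
  have e4 : ∑ i, algebraMap k k (h i) * w1 i = 1 := hw1
  have e5 : ∑ i, algebraMap k k (h i) * u1 i = -ε := hu1
  have hrs1 : aeval (pt u1 w1 z1) (rs F d s h) ≠ 0 := by
    rw [RZ_rs, e4, e5]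
    intro h0
    apply hε
    rw [← h0]
    refine Finset.sum_congr rfl fun j _ => ?_
    rw [one_pow, mul_one, neg_neg]
  have hrs : aeval (pt u w z) (rs F d s h) ≠ 0 := fun h0 => hrs1 (hs1 _ h0)
  have hlin1 : aeval (pt u1 w1 z1) (lin (fun i => Sum.inl (Sum.inl i)) h :
      MvPolynomial (Cd N m) k) ≠ 0 := by
    rw [Pool.Agent.Lib.MP_1e3e9c_agL.aeval_lin]
    have : ∑ i, algebraMap k k (h i) * (pt u1 w1 z1 (Sum.inl (Sum.inl i))) = -ε := e5
    rw [this]
    exact neg_ne_zero.2 hε0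
  have hlin : aeval (pt u w z) (lin (fun i => Sum.inl (Sum.inl i)) h :
      MvPolynomial (Cd N m) k) ≠ 0 := fun h0 => hlin1 (hs1 _ h0)
  -- (4)
  let P : Fin r → MvPolynomial (Cd N m) k := fun b' =>
    if b' = b then ψ else X (Sum.inr ⟨b', i' b'⟩)
  have hP : ∀ (ν lam μ : L) (ζ : Fin r → L) (b' : Fin r),
      aeval (pt (ν • u) (lam • w + μ • u) (sc ζ z)) (P b') = ζ b' * aeval (pt u w z) (P b') := by
    intro ν lam μ ζ b'
    by_cases hb : b' = b
    · simp only [P, if_pos hb]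
      rw [hψ, hψ, hb]
      simp only [sc]
      ring
    · simp only [P, if_neg hb]
      rw [aeval_X, aeval_X]
      simp only [Sum.elim_inr, sc]
  have hPz : ∀ b', aeval (pt u w z) (P b') ≠ 0 := by
    intro b'
    by_cases hb : b' = b
    · simp only [P, if_pos hb]
      exact hψz
    · simp only [P, if_neg hb]
      rw [aeval_X]
      exact hi'z b'
  have hPz1 : aeval (pt u1 w1 z1) (P b) = 0 := by
    simp only [P, if_true]
    exact hψz1
  have hexp : (d - s) * s + (d - s) ^ 2 = (d - s) * d := by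
    obtain ⟨c, rfl⟩ : ∃ c, d = s + c := ⟨d - s, by omega⟩
    rw [Nat.add_sub_cancel_left]
    ring
  have hexp2 : ∀ b', e b' * s + (d - s) * e b' = d * e b' := by
    intro b'
    obtain ⟨c, rfl⟩ : ∃ c, d = s + c := ⟨d - s, by omega⟩
    rw [Nat.add_sub_cancel_left]
    ring
  have hfin := const_zero (κ := k) u w z hi (fun b => ⟨i' b, hi'z b⟩) hBL
    (rs F d s h ^ s * (lin (fun i => Sum.inl (Sum.inl i)) h) ^ ((d - s) ^ 2) *
      ∏ b', P b' ^ ((d - s) * e b')) (cg F s ^ d)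
    ((d - s) * d) (d * s) (fun b => d * e b) ?_ ?_ ?_ u1 w1 z1 hi1 ha1 hs1 ?_
  · rw [map_mul, map_mul, map_pow, map_pow, map_prod] at hfin
    rcases mul_eq_zero.1 hfin with h1 | h1
    · rcases mul_eq_zero.1 h1 with h2 | h2
      · exact hrs (pow_eq_zero_iff (by omega) |>.1 h2)
      · exact hlin (pow_eq_zero_iff (pow_ne_zero _ (by omega)) |>.1 h2)
    · rw [Finset.prod_eq_zero_iff] at h1
      obtain ⟨b', _, h2⟩ := h1
      rw [map_pow] at h2
      exact hPz b' (eq_zero_of_pow_eq_zero h2)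
  · intro ν lam μ ζ hν hlam hζ
    rw [map_mul, map_mul, map_pow, map_pow, map_prod, rs_borel hF hsd.le h u w z hc ν lam μ ζ hν hlam,
      map_mul, map_mul, map_pow, map_pow, map_prod, Pool.Agent.Lib.MP_1e3e9c_agL.aeval_lin,
      Pool.Agent.Lib.MP_1e3e9c_agL.aeval_lin]
    have e1 : ∑ i, algebraMap k L (h i) *
        (pt (ν • u) (lam • w + μ • u) (sc ζ z) (Sum.inl (Sum.inl i))) =
        ν * ∑ i, algebraMap k L (h i) * pt u w z (Sum.inl (Sum.inl i)) := by
      rw [Finset.mul_sum]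
      refine Finset.sum_congr rfl fun i _ => ?_
      simp only [Sum.elim_inl, Pi.smul_apply, smul_eq_mul]
      ring
    have e2 : ∏ b', aeval (pt (ν • u) (lam • w + μ • u) (sc ζ z)) (P b' ^ ((d - s) * e b')) =
        (∏ b', ζ b' ^ ((d - s) * e b')) * ∏ b', aeval (pt u w z) (P b' ^ ((d - s) * e b')) := by
      rw [← Finset.prod_mul_distrib]
      refine Finset.prod_congr rfl fun b' _ => ?_
      rw [map_pow, hP, mul_pow, map_pow]
    have e3 : (∏ b', ζ b' ^ (d * e b')) = (∏ b', ζ b' ^ e b') ^ s *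
        ∏ b', ζ b' ^ ((d - s) * e b') := by
      rw [← Finset.prod_pow, ← Finset.prod_mul_distrib]
      refine Finset.prod_congr rfl fun b' _ => ?_
      rw [← pow_mul, ← pow_add, hexp2]
    rw [e1, e2, e3, ← hexp, pow_add]
    generalize aeval (pt u w z) (rs F d s h) = R
    generalize (∑ i, algebraMap k L (h i) * pt u w z (Sum.inl (Sum.inl i))) = H
    generalize (∏ b', aeval (pt u w z) (P b' ^ ((d - s) * e b'))) = R2
    generalize (∏ b', ζ b' ^ ((d - s) * e b')) = R3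
    generalize (∏ b', ζ b' ^ e b') = R4
    rw [mul_pow, mul_pow, mul_pow, mul_pow, ← pow_mul, ← pow_mul]
    ring
  · intro ν lam μ ζ hν hlam hζ
    rw [map_pow, (cg_borel hF u w z ν lam μ ζ hsd.le hc).2, map_pow, mul_pow, mul_pow, mul_pow,
      ← pow_mul, ← pow_mul, mul_comm s d, ← Finset.prod_pow]
    congr 2
    refine Finset.prod_congr rfl fun b' _ => ?_
    rw [← pow_mul, mul_comm d]
  · intro M _ _ u' w' z' hi' ha' hs'
    rw [map_pow]
    exact pow_ne_zero _ (hC0 M u' w' z' hi' ha' hs')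
  · rw [map_mul, map_prod, Finset.prod_eq_zero (Finset.mem_univ b), mul_zero]
    rw [map_pow, hPz1, zero_pow]
    have h1 : 0 < (d - s) * e b := Nat.mul_pos (by omega) (he b)
    omega

end Pool.Agent.Lib.MP_1e3e9c_agP
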