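import Pool.Agent.Lib.MP_1e3e9c_agP.Pt

/-!
# the generic triple of an irreducible closed family of lines

Compare `MP_1e3e9c_agL/Top.lean` (the same without `z`): the substitution is `p (X 0 U + X 1 W, X 2 U + X 3 W, Y_b Z)` with the indeterminates `Fin 4 ⊕ Fin r`, and the nonzero polynomial is `(X 0 X 3 - X 1 X 2) ∏ Y_b`.  `Line.Is` replaces `l.V = span {u, w}`; `Line.Is.change`, `Line.Is.gl`, `Line.exists_rep`.
-/

set_option autoImplicit false

namespace Pool.Agent.Lib.MP_1e3e9c_agP

open MvPolynomial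
open Pool.Agent.Lib.MP_1e3e9c_agL (Sp Ind td)

variable {N r : ℕ} {m : Fin r → ℕ}

section gs
variable {k : Type} [Field k]

/-- the generic linear substitution -/
noncomputable def Top_gs (k : Type) [Field k] (N : ℕ) {r : ℕ} (m : Fin r → ℕ) :
    MvPolynomial (Cd N m) k →ₐ[k] MvPolynomial (Fin 4 ⊕ Fin r) (MvPolynomial (Cd N m) k) :=
  aeval (Sum.elim (Sum.elim
    (fun i => X (Sum.inl 0) * C (X (Sum.inl (Sum.inl i))) +
      X (Sum.inl 1) * C (X (Sum.inl (Sum.inr i))))
    (fun i => X (Sum.inl 2) * C (X (Sum.inl (Sum.inl i))) +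
      X (Sum.inl 3) * C (X (Sum.inl (Sum.inr i)))))
    (fun i => X (Sum.inr i.1) * C (X (Sum.inr i))))

/-- the value of the generic linear substitution -/
theorem Top_eval_gs {M : Type} [Field M] [Algebra k M] (u w : Fin N → M) (z : Co m → M)
    (g : Fin 4 ⊕ Fin r → M) (p : MvPolynomial (Cd N m) k) :
    eval g (map (aeval (pt u w z) : MvPolynomial (Cd N m) k →ₐ[k] M).toRingHom
      (Top_gs k N m p)) =
      aeval (pt (g (Sum.inl 0) • u + g (Sum.inl 1) • w) (g (Sum.inl 2) • u + g (Sum.inl 3) • w)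
        (sc (fun b => g (Sum.inr b)) z)) p := by
  induction p using MvPolynomial.induction_on with
  | C a =>
    have h1 : Top_gs k N m (C a) = C (C a) := by
      unfold Top_gs
      rw [aeval_C]
      rfl
    rw [h1, map_C, eval_C, aeval_C]
    exact aeval_C _ a
  | add p q hp hq => rw [map_add, map_add, map_add, map_add, hp, hq]
  | mul_X p i hp =>
    rw [map_mul, map_mul, map_mul, map_mul, hp]
    congr 1
    rw [aeval_X]
    unfold Top_gs
    rw [aeval_X]
    rcases i with (i | i) | i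
    · simp
    · simp
    · simp [sc]

theorem Top_coeff {M : Type} [Field M] [Algebra k M] {u w : Fin N → M} {z : Co m → M}
    {p : MvPolynomial (Cd N m) k}
    (h : ∀ n, aeval (pt u w z) ((Top_gs k N m p).coeff n) = 0) :
    map (aeval (pt u w z) : MvPolynomial (Cd N m) k →ₐ[k] M).toRingHom
      (Top_gs k N m p) = 0 := by
  ext n
  rw [coeff_map, coeff_zero]
  exact h n

/-- a polynomial which vanishes at all coordinates of a line vanishes identically after the generic
linear substitution -/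
theorem Top_zero [Infinite k] {l : Line k N m} {p : MvPolynomial (Cd N m) k}
    (h : ∀ (u w : Fin N → k) (z : Co m → k), l.Is u w z → aeval (pt u w z) p = 0)
    {u w : Fin N → k} {z : Co m → k} (hl : l.Is u w z) :
    map (aeval (pt u w z) : MvPolynomial (Cd N m) k →ₐ[k] k).toRingHom
      (Top_gs k N m p) = 0 := by
  classical
  have hdet : ((X (Sum.inl 0) * X (Sum.inl 3) - X (Sum.inl 1) * X (Sum.inl 2)) *
      ∏ b : Fin r, X (Sum.inr b) : MvPolynomial (Fin 4 ⊕ Fin r) k) ≠ 0 := by
    refine mul_ne_zero ?_ (Finset.prod_ne_zero_iff.2 fun b _ => X_ne_zero _)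
    intro h0
    have h1 := congrArg (eval (Sum.elim (fun i : Fin 4 => if i = 0 ∨ i = 3 then (1 : k) else 0)
      (fun _ : Fin r => (1 : k)))) h0
    simp at h1
  have h1 : map (aeval (pt u w z) : MvPolynomial (Cd N m) k →ₐ[k] k).toRingHom
      (Top_gs k N m p) * ((X (Sum.inl 0) * X (Sum.inl 3) - X (Sum.inl 1) * X (Sum.inl 2)) *
      ∏ b : Fin r, X (Sum.inr b)) = 0 := by
    apply MvPolynomial.funext
    intro g
    rw [map_mul, map_zero, Top_eval_gs]
    simp only [map_sub, map_mul, map_prod, eval_X]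
    by_cases hg : g (Sum.inl 0) * g (Sum.inl 3) - g (Sum.inl 1) * g (Sum.inl 2) = 0
    · rw [hg, zero_mul, mul_zero]
    · by_cases hb : ∀ b : Fin r, g (Sum.inr b) ≠ 0
      · rw [h _ _ _ (hl.gl hg hb), zero_mul]
      · push Not at hb
        obtain ⟨b, hb⟩ := hb
        rw [Finset.prod_eq_zero (Finset.mem_univ b) hb, mul_zero, mul_zero]
  exact (mul_eq_zero.1 h1).resolve_right hdet

theorem Top_all {l : Line k N m} {p : MvPolynomial (Cd N m) k}
    {u w : Fin N → k} {z : Co m → k} (hl : l.Is u w z)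
    (h : map (aeval (pt u w z) : MvPolynomial (Cd N m) k →ₐ[k] k).toRingHom
      (Top_gs k N m p) = 0) :
    ∀ (u' w' : Fin N → k) (z' : Co m → k), l.Is u' w' z' → aeval (pt u' w' z') p = 0 := by
  intro u' w' z' hl'
  obtain ⟨a, b, c, e, ζ, hd, hζ, rfl, rfl, rfl⟩ := hl'.change hl
  have h1 := Top_eval_gs u w z (Sum.elim ![a, b, c, e] ζ) p
  rw [h, map_zero] at h1
  exact h1.symm

end gs

theorem exists_generic {k : Type} [Field k] [IsAlgClosed k] (F : Set (Line k N m))
    (hc : IsClosed F) (hi : IsIrreducible F) :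
    ∃ (L : Type) (_ : Field L) (_ : Algebra k L) (u w : Fin N → L) (z : Co m → L),
      GSt k u w z ∧ Ind u w ∧ Adm z ∧
      ∀ (l : Line k N m) (u' w' : Fin N → k) (z' : Co m → k), l.Is u' w' z' →
        (l ∈ F ↔ Sp k (pt u w z) (pt u' w' z')) := by
  classical
  have : Infinite k := IsAlgClosed.instInfinite
  -- the ideal
  let P : Ideal (MvPolynomial (Cd N m) k) :=
    { carrier := {p | ∀ l ∈ F, ∀ (u' w' : Fin N → k) (z' : Co m → k), l.Is u' w' z' →
        aeval (pt u' w' z') p = 0}
      add_mem' := fun {p q} hp hq l hl u' w' z' h => by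
        rw [map_add, hp l hl u' w' z' h, hq l hl u' w' z' h, add_zero]
      zero_mem' := fun l _ u' w' z' _ => map_zero _
      smul_mem' := fun r p hp l hl u' w' z' h => by
        rw [smul_eq_mul, map_mul, hp l hl u' w' z' h, mul_zero] }
  obtain ⟨l₀, hl₀⟩ := hi.nonempty
  obtain ⟨u₀, w₀, z₀, hi₀, ha₀, hs₀⟩ := l₀.exists_rep
  -- closed sets
  let A : MvPolynomial (Cd N m) k → Set (Line k N m) := fun p =>
    {l | ∀ (u' w' : Fin N → k) (z' : Co m → k), l.Is u' w' z' → aeval (pt u' w' z') p = 0}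
  have hA : ∀ p, IsClosed (A p) := by
    intro p
    rw [isClosed_iff]
    refine ⟨{q | ∃ n, q = (Top_gs k N m p).coeff n}, fun l u w z hl => ?_⟩
    constructor
    · rintro h q ⟨n, rfl⟩
      have h1 := Top_zero h hl
      have h2 := congrArg (coeff n) h1
      rw [coeff_map, coeff_zero] at h2
      rw [← coe_aeval_eq_eval]
      exact h2
    · intro h
      refine Top_all hl (Top_coeff fun n => ?_)
      have h1 := h _ ⟨n, rfl⟩
      rw [← coe_aeval_eq_eval] at h1
      exact h1
  have hprime : P.IsPrime := by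
    refine ⟨?_, ?_⟩
    · rw [Ideal.ne_top_iff_one]
      intro h
      have h1 := h l₀ hl₀ u₀ w₀ z₀ hs₀
      rw [map_one] at h1
      exact one_ne_zero h1
    · intro p₁ p₂ hp
      have h1 : F ⊆ A p₁ ∪ A p₂ := by
        intro l hl
        obtain ⟨u, w, z, _, _, hs⟩ := l.exists_rep
        have h2 := Top_zero (fun u w z h => hp l hl u w z h) hs
        rw [map_mul, map_mul] at h2
        rcases mul_eq_zero.1 h2 with h3 | h3
        · exact Or.inl (Top_all hs h3)
        · exact Or.inr (Top_all hs h3)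
      rcases isPreirreducible_iff_isClosed_union_isClosed.1 hi.isPreirreducible _ _ (hA p₁) (hA p₂) h1
        with h2 | h2
      · exact Or.inl fun l hl => h2 hl
      · exact Or.inr fun l hl => h2 hl
  have hgs : ∀ p ∈ P, ∀ n, (Top_gs k N m p).coeff n ∈ P := by
    intro p hp n l hl u w z h
    have h1 := Top_zero (fun u w z h => hp l hl u w z h) h
    have h2 := congrArg (coeff n) h1
    rw [coeff_map, coeff_zero] at h2
    exact h2
  let L := FractionRing (MvPolynomial (Cd N m) k ⧸ P)
  let u : Fin N → L := fun i =>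
    algebraMap (MvPolynomial (Cd N m) k ⧸ P) L (Ideal.Quotient.mk P (X (Sum.inl (Sum.inl i))))
  let w : Fin N → L := fun i =>
    algebraMap (MvPolynomial (Cd N m) k ⧸ P) L (Ideal.Quotient.mk P (X (Sum.inl (Sum.inr i))))
  let z : Co m → L := fun i =>
    algebraMap (MvPolynomial (Cd N m) k ⧸ P) L (Ideal.Quotient.mk P (X (Sum.inr i)))
  have hev : ∀ p : MvPolynomial (Cd N m) k, aeval (pt u w z) p =
      algebraMap (MvPolynomial (Cd N m) k ⧸ P) L (Ideal.Quotient.mk P p) := by
    intro p
    have h1 : (aeval (pt u w z) : MvPolynomial (Cd N m) k →ₐ[k] L) =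
        (IsScalarTower.toAlgHom k (MvPolynomial (Cd N m) k ⧸ P) L).comp
          (Ideal.Quotient.mkₐ k P) := by
      apply MvPolynomial.algHom_ext
      rintro ((i | i) | i)
      · rw [aeval_X]
        rfl
      · rw [aeval_X]
        rfl
      · rw [aeval_X]
        rfl
    rw [h1]
    rfl
  have hev0 : ∀ p : MvPolynomial (Cd N m) k, aeval (pt u w z) p = 0 ↔ p ∈ P := by
    intro p
    rw [hev, map_eq_zero_iff _ (IsFractionRing.injective _ L), Ideal.Quotient.eq_zero_iff_mem]
  have hiff : ∀ (l : Line k N m) (u' w' : Fin N → k) (z' : Co m → k), l.Is u' w' z' →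
      (l ∈ F ↔ Sp k (pt u w z) (pt u' w' z')) := by
    intro l u' w' z' h
    constructor
    · intro hl p hp
      exact (hev0 p).1 hp l hl u' w' z' h
    · intro hs
      obtain ⟨S, hS⟩ := (isClosed_iff F).1 hc
      rw [hS l u' w' z' h]
      intro p hp
      rw [← coe_aeval_eq_eval]
      refine hs p ((hev0 p).2 fun l' hl' u'' w'' z'' h'' => ?_)
      have h1 := (hS l' u'' w'' z'' h'').1 hl' p hp
      rw [← coe_aeval_eq_eval] at h1
      exact h1
  have hsp := (hiff l₀ u₀ w₀ z₀ hs₀).1 hl₀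
  refine ⟨L, inferInstance, inferInstance, u, w, z, ?_, ind_sp hsp hi₀, adm_sp hsp ha₀, hiff⟩
  intro M _ _ u' w' z' a b c e ζ hs p hp
  have h1 := Top_eval_gs u' w' z' (Sum.elim ![a, b, c, e] ζ) p
  rw [Top_coeff fun n => hs _ ((hev0 _).2 (hgs p ((hev0 p).1 hp) n)), map_zero] at h1
  exact h1.symm

end Pool.Agent.Lib.MP_1e3e9c_agP
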