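import Pool.Agent.Lib.MP_1e3e9c_agP.Pt

/-!
# the closed family of lines of a generic triple

Compare `MP_1e3e9c_agL/TopB.lean` (the same without `z`).  `exists_kflat`, `Line.exists_of`, `Line.Is.change` (with `hG` over `M = k`), `Line.exists_rep`.
-/

set_option autoImplicit false

namespace Pool.Agent.Lib.MP_1e3e9c_agP

open MvPolynomial
open Pool.Agent.Lib.MP_1e3e9c_agL (Sp Ind td)

variable {N r : ℕ} {m : Fin r → ℕ}

theorem exists_family {k L : Type} [Field k] [IsAlgClosed k] [Field L] [Algebra k L]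
    (u w : Fin N → L) (z : Co m → L) (hG : GSt k u w z) (hi : Ind u w) (ha : Adm z) :
    ∃ F : Set (Line k N m), IsClosed F ∧ IsIrreducible F ∧
      ∀ (l : Line k N m) (u' w' : Fin N → k) (z' : Co m → k), l.Is u' w' z' →
        (l ∈ F ↔ Sp k (pt u w z) (pt u' w' z')) := by
  have hae : ∀ (u' w' : Fin N → k) (z' : Co m → k) (p : MvPolynomial (Cd N m) k),
      aeval (pt u' w' z') p = eval (pt u' w' z') p := fun u' w' z' p => by
    rfl
  have hch : ∀ (l : Line k N m) (u' w' : Fin N → k) (z' : Co m → k) (u'' w'' : Fin N → k)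
      (z'' : Co m → k), l.Is u' w' z' → l.Is u'' w'' z'' → Sp k (pt u w z) (pt u' w' z') →
      Sp k (pt u w z) (pt u'' w'' z'') := by
    intro l u' w' z' u'' w'' z'' h' h'' hs
    obtain ⟨a, b, c, e, ζ, -, -, h1, h2, h3⟩ := h''.change h'
    rw [h1, h2, h3]
    exact hG k u' w' z' a b c e ζ hs
  set F : Set (Line k N m) := {l | ∀ (u' w' : Fin N → k) (z' : Co m → k), l.Is u' w' z' →
    Sp k (pt u w z) (pt u' w' z')} with hFdef
  have hmem : ∀ (l : Line k N m) (u' w' : Fin N → k) (z' : Co m → k), l.Is u' w' z' →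
        (l ∈ F ↔ Sp k (pt u w z) (pt u' w' z')) := by
    intro l u' w' z' hl
    exact ⟨fun h => h u' w' z' hl,
      fun h u'' w'' z'' hl'' => hch l u' w' z' u'' w'' z'' hl hl'' h⟩
  have hclosed : IsClosed F := by
    rw [isClosed_iff]
    refine ⟨{p | aeval (pt u w z) p = 0}, fun l u' w' z' hl => ?_⟩
    rw [hmem l u' w' z' hl]
    constructor
    · intro h p hp
      have h1 := h p hp
      rwa [hae] at h1
    · intro h p hp
      rw [hae]
      exact h p hp
  -- a line of `F` for given coordinates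
  have hline : ∀ (u' w' : Fin N → k) (z' : Co m → k), Ind u' w' → Adm z' →
      Sp k (pt u w z) (pt u' w' z') → ∃ l : Line k N m, l ∈ F ∧ l.Is u' w' z' := by
    intro u' w' z' h1 h1' h2
    obtain ⟨l, hl⟩ := Line.exists_of u' w' z' h1 h1'
    exact ⟨l, (hmem l u' w' z' hl).2 h2, hl⟩
  refine ⟨F, hclosed, ⟨?_, ?_⟩, hmem⟩
  · obtain ⟨u', w', z', h1, h1', h2, -⟩ := exists_kflat (k := k) u w z hi ha 1
      (by rw [map_one]; exact one_ne_zero)
    obtain ⟨l, hl, -⟩ := hline u' w' z' h1 h1' h2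
    exact ⟨l, hl⟩
  · rw [isPreirreducible_iff_isClosed_union_isClosed]
    intro A B hA hB hAB
    by_contra hcon
    push Not at hcon
    obtain ⟨hFA, hFB⟩ := hcon
    rw [isClosed_iff] at hA hB
    obtain ⟨S, hS⟩ := hA
    obtain ⟨T, hT⟩ := hB
    have key : ∀ (A : Set (Line k N m)) (S : Set (MvPolynomial (Cd N m) k)),
        (∀ (l : Line k N m) (u w : Fin N → k) (z : Co m → k), l.Is u w z →
          (l ∈ A ↔ ∀ p ∈ S, eval (pt u w z) p = 0)) → ¬ F ⊆ A →
        ∃ p ∈ S, aeval (pt u w z) p ≠ 0 := by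
      intro A S hS hFA
      obtain ⟨l, hl, hlA⟩ := Set.not_subset.1 hFA
      obtain ⟨u', w', z', -, -, hV⟩ := l.exists_rep
      rw [hS l u' w' z' hV] at hlA
      push Not at hlA
      obtain ⟨p, hp, hp0⟩ := hlA
      refine ⟨p, hp, fun h0 => hp0 ?_⟩
      have h1 := (hmem l u' w' z' hV).1 hl p h0
      rwa [hae] at h1
    obtain ⟨p, hp, hp0⟩ := key A S hS hFA
    obtain ⟨q, hq, hq0⟩ := key B T hT hFB
    obtain ⟨u', w', z', h1, h1', h2, h3⟩ := exists_kflat (k := k) u w z hi ha (p * q)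
      (by rw [map_mul]; exact mul_ne_zero hp0 hq0)
    obtain ⟨l, hl, hV⟩ := hline u' w' z' h1 h1' h2
    rw [hae, map_mul] at h3
    rcases hAB hl with h4 | h4
    · exact h3 (by rw [(hS l u' w' z' hV).1 h4 p hp, zero_mul])
    · exact h3 (by rw [(hT l u' w' z' hV).1 h4 q hq, mul_zero])

end Pool.Agent.Lib.MP_1e3e9c_agP
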